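import Mathlib

set_option autoImplicit false

open Topology Filter Metric MeasureTheory Set

namespace Pool.Agent.TH425.AD

/-- the logarithmic kernel -/
noncomputable def JJ (b x : ℝ) : ℝ := Real.log (1 + b ^ 2 / x ^ 2)

theorem JJ_nonneg (b x : ℝ) : 0 ≤ JJ b x := by
  unfold JJ
  apply Real.log_nonneg
  have : 0 ≤ b ^ 2 / x ^ 2 := by positivity
  linarith

theorem JJ_even (b x : ℝ) : JJ b (-x) = JJ b x := by
  unfold JJ; rw [neg_sq]

theorem JJ_pos_eq {b : ℝ} {x : ℝ} (hx : 0 < x) :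
    JJ b x = Real.log (x ^ 2 + b ^ 2) - 2 * Real.log x := by
  unfold JJ
  have h1 : 1 + b ^ 2 / x ^ 2 = (x ^ 2 + b ^ 2) / x ^ 2 := by field_simp
  rw [h1, Real.log_div (by positivity) (by positivity), Real.log_pow]
  norm_num

/-- the primitive -/
noncomputable def PJ (b x : ℝ) : ℝ :=
  x * Real.log (x ^ 2 + b ^ 2) - 2 * (x * Real.log x) + 2 * b * Real.arctan (x / b)

theorem PJ_cont {b : ℝ} (hb : 0 < b) : Continuous (PJ b) := by
  unfold PJ
  have h1 : Continuous fun x : ℝ => Real.log (x ^ 2 + b ^ 2) := by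
    apply Continuous.log (by fun_prop)
    intro x; positivity
  have h2 := Real.continuous_mul_log
  have h3 : Continuous fun x : ℝ => Real.arctan (x / b) := by fun_prop
  fun_prop

theorem PJ_deriv {b : ℝ} (hb : 0 < b) {x : ℝ} (hx : 0 < x) : HasDerivAt (PJ b) (JJ b x) x := by
  rw [JJ_pos_eq hx]
  have hp : 0 < x ^ 2 + b ^ 2 := by positivity
  have h1 : HasDerivAt (fun x : ℝ => x ^ 2 + b ^ 2) (2 * x) x := by
    simpa using (hasDerivAt_pow 2 x).add_const (b ^ 2)
  have h2 : HasDerivAt (fun x : ℝ => Real.log (x ^ 2 + b ^ 2)) (2 * x / (x ^ 2 + b ^ 2)) x :=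
    h1.log hp.ne'
  have h3 : HasDerivAt (fun x : ℝ => x * Real.log (x ^ 2 + b ^ 2))
      (1 * Real.log (x ^ 2 + b ^ 2) + x * (2 * x / (x ^ 2 + b ^ 2))) x := (hasDerivAt_id x).mul h2
  have h4 : HasDerivAt (fun x : ℝ => x * Real.log x) (1 * Real.log x + x * x⁻¹) x :=
    (hasDerivAt_id x).mul (Real.hasDerivAt_log hx.ne')
  have h5 : HasDerivAt (fun x : ℝ => x / b) (1 / b) x := (hasDerivAt_id x).div_const b
  have h6 : HasDerivAt (fun x : ℝ => Real.arctan (x / b)) (1 / (1 + (x / b) ^ 2) * (1 / b)) x :=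
    h5.arctan
  have h7 := (h3.sub (h4.const_mul 2)).add (h6.const_mul (2 * b))
  refine h7.congr_deriv ?_
  field_simp
  ring

theorem PJ_lim {b : ℝ} (hb : 0 < b) : Tendsto (PJ b) atTop (𝓝 (Real.pi * b)) := by
  have h1 : Tendsto (fun x : ℝ => x * JJ b x) atTop (𝓝 0) := by
    have h2 : Tendsto (fun x : ℝ => b ^ 2 / x) atTop (𝓝 0) := tendsto_const_nhds.div_atTop tendsto_id
    refine squeeze_zero' ?_ ?_ h2
    · filter_upwards [eventually_gt_atTop 0] with x hx
      exact mul_nonneg hx.le (JJ_nonneg b x)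
    · filter_upwards [eventually_gt_atTop 0] with x hx
      have h3 : JJ b x ≤ b ^ 2 / x ^ 2 := by
        unfold JJ
        have h4 : 0 < 1 + b ^ 2 / x ^ 2 := by positivity
        have := Real.log_le_sub_one_of_pos h4
        linarith
      calc x * JJ b x ≤ x * (b ^ 2 / x ^ 2) := by gcongr
        _ = b ^ 2 / x := by field_simp
  have h2 : Tendsto (fun x : ℝ => Real.arctan (x / b)) atTop (𝓝 (Real.pi / 2)) := by
    have h3 : Tendsto (fun x : ℝ => x / b) atTop atTop := tendsto_id.atTop_div_const hb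
    exact (tendsto_nhds_of_tendsto_nhdsWithin Real.tendsto_arctan_atTop).comp h3
  have h3 := h1.add (h2.const_mul (2 * b))
  have h4 : 0 + 2 * b * (Real.pi / 2) = Real.pi * b := by ring
  rw [h4] at h3
  refine h3.congr' ?_
  filter_upwards [eventually_gt_atTop 0] with x hx
  rw [JJ_pos_eq hx]
  unfold PJ
  ring

theorem JJ_lintegral_Ioi {b : ℝ} (hb : 0 < b) :
    ∫⁻ x in Ioi (0 : ℝ), ENNReal.ofReal (JJ b x) = ENNReal.ofReal (Real.pi * b) := by
  have hc : ContinuousWithinAt (PJ b) (Ici 0) 0 := (PJ_cont hb).continuousWithinAt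
  have hder : ∀ x ∈ Ioi (0 : ℝ), HasDerivAt (PJ b) (JJ b x) x := fun x hx => PJ_deriv hb hx
  have hpos : ∀ x ∈ Ioi (0 : ℝ), 0 ≤ JJ b x := fun x _ => JJ_nonneg b x
  have hint := integrableOn_Ioi_deriv_of_nonneg hc hder hpos (PJ_lim hb)
  have hval := integral_Ioi_of_hasDerivAt_of_nonneg hc hder hpos (PJ_lim hb)
  have h0 : PJ b 0 = 0 := by simp [PJ]
  rw [h0, sub_zero] at hval
  rw [← hval, ofReal_integral_eq_lintegral_ofReal hint]
  exact Eventually.of_forall fun x => JJ_nonneg b x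

theorem JJ_lintegral {b : ℝ} (hb : 0 < b) (t : ℝ) :
    ∫⁻ x : ℝ, ENNReal.ofReal (JJ b (x - t)) ≤ ENNReal.ofReal (2 * Real.pi * b) := by
  rw [lintegral_sub_right_eq_self (fun x => ENNReal.ofReal (JJ b x)) t]
  have hI := JJ_lintegral_Ioi hb
  have hneg : ∫⁻ x in Iio (0 : ℝ), ENNReal.ofReal (JJ b x) = ENNReal.ofReal (Real.pi * b) := by
    rw [← hI, ← lintegral_indicator measurableSet_Iio, ← lintegral_indicator measurableSet_Ioi,
      ← lintegral_neg_eq_self]
    apply lintegral_congr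
    intro x
    by_cases hx : 0 < x
    · rw [indicator_of_mem (show -x ∈ Iio (0 : ℝ) by simpa using hx),
        indicator_of_mem (show x ∈ Ioi (0 : ℝ) from hx), JJ_even]
    · rw [indicator_of_notMem (show -x ∉ Iio (0 : ℝ) by simpa using hx),
        indicator_of_notMem (show x ∉ Ioi (0 : ℝ) from hx)]
  have hzero : ∫⁻ x in ({0} : Set ℝ), ENNReal.ofReal (JJ b x) = 0 := by
    rw [Measure.restrict_singleton]; simp
  have huniv : (univ : Set ℝ) = (Iio 0 ∪ {0}) ∪ Ioi 0 := by
    ext x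
    simp only [mem_univ, mem_union, mem_Iio, mem_singleton_iff, mem_Ioi, true_iff]
    rcases lt_trichotomy x 0 with h | h | h <;> simp [h]
  rw [← setLIntegral_univ, huniv]
  refine (lintegral_union_le _ _ _).trans ?_
  refine (add_le_add (lintegral_union_le _ _ _) le_rfl).trans ?_
  rw [hneg, hzero, hI, add_zero, ← ENNReal.ofReal_add (by positivity) (by positivity)]
  apply ENNReal.ofReal_le_ofReal
  linarith

end Pool.Agent.TH425.AD
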