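import Mathlib
import Pool.Agent.H713R2.AR.PR

set_option autoImplicit false

open Complex Topology Filter Metric MeasureTheory Set N62a1eb23

namespace Pool.Agent.TH425.AD

open Pool.Agent.H713R2 Pool.Agent.H712R2 Pool.Agent.Helper202.Univ Pool.Agent.H713R2.AR

/-- the exterior map in the coordinate `u = 1 / z` -/
noncomputable def zz (β : ℂ → ℂ) (u : ℂ) : ℂ := u⁻¹ * β u

/-- the exterior map in the logarithmic coordinate -/
noncomputable def gg (β : ℂ → ℂ) (s : ℂ) : ℂ := exp s * β (exp (-s))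

theorem exp_neg_mem {s : ℂ} (hs : 0 < s.re) : exp (-s) ∈ ball (0 : ℂ) 1 := by
  rw [mem_ball_zero_iff, Complex.norm_exp, neg_re]
  rw [← Real.exp_zero]
  exact Real.exp_lt_exp.mpr (by linarith)

theorem gg_eq_zz (β : ℂ → ℂ) (s : ℂ) : gg β s = zz β (exp (-s)) := by
  unfold gg zz
  rw [exp_neg, inv_inv]

theorem BB_sub_one_le {d : ℕ} (hd : 2 ≤ d) {β : ℂ → ℂ} (hβ : IsBeta d β) (n : ℕ) {x : ℂ}
    (hx : x ∈ ball (0 : ℂ) 1) : ‖BB d β n x - 1‖ ≤ 3 * ‖x‖ ^ (d ^ (n + 1) - 1) := by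
  have hK : d ^ (n + 1) - 1 ≠ 0 := by
    have : 1 < d ^ (n + 1) := Nat.one_lt_pow (by omega) (by omega)
    omega
  obtain ⟨K, hKe⟩ := Nat.exists_eq_succ_of_ne_zero hK
  have h0 : BB d β n 0 = 1 := by rw [BB_at_zero hd, hβ.zero, one_pow]
  have h1 := Complex.dist_le_mul_div_pow_of_mapsTo_ball_of_isLittleO (f := BB d β n) (c := 0)
    (z := x) (R₁ := 1) (R₂ := 3) (n := K) (BB_diff hβ.diff n) ?_ ?_ hx
  · rw [h0, dist_eq_norm, dist_zero_right, ← Nat.succ_eq_add_one, ← hKe, div_one] at h1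
    exact h1
  · intro y hy
    rw [mem_closedBall, h0, dist_eq_norm]
    have := BB_le_two hd hβ n hy
    calc ‖BB d β n y - 1‖ ≤ ‖BB d β n y‖ + ‖(1 : ℂ)‖ := norm_sub_le _ _
      _ ≤ 3 := by rw [norm_one]; linarith
  · rw [h0]
    obtain ⟨C, hC⟩ := hβ.order n
    have h2 : (fun x => BB d β n x - 1) =O[𝓝 0] (fun x : ℂ => x ^ (d ^ (n + 1) - 1)) := by
      apply Asymptotics.IsBigO.of_bound C
      filter_upwards [ball_mem_nhds (0 : ℂ) (by norm_num : (0 : ℝ) < 1 / 2)] with y hy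
      rw [norm_pow]
      exact hC y hy
    rw [hKe] at h2
    refine h2.trans_isLittleO ?_
    have h3 : (fun x : ℂ => x ^ (K + 1)) =o[𝓝 0] (fun x : ℂ => x ^ K) :=
      Asymptotics.isLittleO_pow_pow (Nat.lt_succ_self K)
    refine h3.norm_right.congr (fun _ => rfl) (fun x => ?_)
    rw [sub_zero, norm_pow]

theorem P_gg_sub_le {d : ℕ} (hd : 2 ≤ d) {β : ℂ → ℂ} (hβ : IsBeta d β) (n : ℕ) {s : ℂ}
    (hs : 0 < s.re) : ‖P d (n + 1) (gg β s) - exp ((d : ℂ) ^ n * s)‖ ≤ 3 := by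
  have hx := exp_neg_mem hs
  have hx0 : exp (-s) ≠ 0 := exp_ne_zero _
  have h1 := BB_eq hd β n (exp (-s)) hx0
  have h2 := BB_sub_one_le hd hβ n hx
  have h3 : exp ((d : ℂ) ^ n * s) = ((exp (-s)) ^ (d ^ n))⁻¹ := by
    rw [← exp_nat_mul, ← exp_neg]
    congr 1
    push_cast
    ring
  have h4 : P d (n + 1) (gg β s) - exp ((d : ℂ) ^ n * s) =
      exp ((d : ℂ) ^ n * s) * (BB d β n (exp (-s)) - 1) := by
    rw [h1, h3, gg_eq_zz]
    unfold zz
    have := pow_ne_zero (d ^ n) hx0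
    field_simp
  rw [h4, norm_mul]
  set y := ‖exp (-s)‖ with hy
  have hy1 : y < 1 := mem_ball_zero_iff.mp hx
  have hy0 : 0 < y := norm_pos_iff.mpr hx0
  have h5 : ‖exp ((d : ℂ) ^ n * s)‖ = (y ^ (d ^ n))⁻¹ := by
    rw [h3, norm_inv, norm_pow]
  rw [h5]
  have hyn : 0 < y ^ (d ^ n) := pow_pos hy0 _
  have h6 : d ^ n ≤ d ^ (n + 1) - 1 := by
    have : d ^ n < d ^ (n + 1) := Nat.pow_lt_pow_right (by omega) (by omega)
    omega
  have h7 : y ^ (d ^ (n + 1) - 1) ≤ y ^ (d ^ n) := pow_le_pow_of_le_one hy0.le hy1.le h6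
  rw [inv_mul_le_iff₀ hyn]
  linarith

theorem P_gg_sub_le' {d : ℕ} (hd : 2 ≤ d) {β : ℂ → ℂ} (hβ : IsBeta d β) (n : ℕ) {s : ℂ}
    (hs : 0 < s.re) : ‖P d (n + 1) (gg β s) - exp (((d : ℝ) ^ n : ℝ) * s)‖ ≤ 3 := by
  have := P_gg_sub_le hd hβ n hs
  push_cast
  exact this

theorem gg_notMem {d : ℕ} {β : ℂ → ℂ} (hβ : IsBeta d β) {s : ℂ} (hs : 0 < s.re) :
    gg β s ∉ multibrotSet d := by
  rw [gg_eq_zz]
  exact hβ.notMem _ (exp_neg_mem hs) (exp_ne_zero _)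

theorem gg_differentiableAt {d : ℕ} {β : ℂ → ℂ} (hβ : IsBeta d β) {s : ℂ} (hs : 0 < s.re) :
    DifferentiableAt ℂ (gg β) s := by
  have h1 : DifferentiableAt ℂ β (exp (-s)) :=
    hβ.diff.differentiableAt (isOpen_ball.mem_nhds (exp_neg_mem hs))
  have h2 : DifferentiableAt ℂ (fun s : ℂ => exp (-s)) s := by fun_prop
  unfold gg
  exact (differentiable_exp s).mul (h1.comp s h2)

/-- the right half plane -/
def HP : Set ℂ := {s : ℂ | 0 < s.re}

theorem isOpen_HP : IsOpen HP := isOpen_lt continuous_const continuous_re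

theorem convex_HP : Convex ℝ HP := convex_halfSpace_re_gt 0

theorem gg_diffOn {d : ℕ} {β : ℂ → ℂ} (hβ : IsBeta d β) : DifferentiableOn ℂ (gg β) HP :=
  fun _ hs => (gg_differentiableAt hβ hs).differentiableWithinAt


/-- The small disc is in the Multibrot set. -/
theorem small_mem {d : ℕ} (hd : 2 ≤ d) {c : ℂ} (hc : ‖c‖ ≤ 1 / 4) : c ∈ multibrotSet d := by
  rw [mem_multibrot_iff hd]
  have h : ∀ k, ‖P d k c‖ ≤ 1 / 2 := by
    intro k
    induction k with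
    | zero =>
      have : P d 0 c = 0 := rfl
      rw [this, norm_zero]; norm_num
    | succ k ih =>
      rw [P_succ]
      have h1 : ‖P d k c‖ ^ d ≤ (1 / 2) ^ d := pow_le_pow_left₀ (norm_nonneg _) ih d
      have h2 : (1 / 2 : ℝ) ^ d ≤ (1 / 2) ^ 2 := pow_le_pow_of_le_one (by norm_num) (by norm_num) hd
      calc ‖(P d k c) ^ d + c‖ ≤ ‖(P d k c) ^ d‖ + ‖c‖ := norm_add_le _ _
        _ = ‖P d k c‖ ^ d + ‖c‖ := by rw [norm_pow]
        _ ≤ 1 / 2 := by linarith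
  intro k
  linarith [h k]

/-- The Multibrot set is closed (in the form used). -/
theorem mem_of_tendsto_gg {d : ℕ} (hd : 2 ≤ d) {β : ℂ → ℂ} (hβ : IsBeta d β) {ι : Type*}
    {l : Filter ι} [l.NeBot] {s : ι → ℂ} (hs : ∀ᶠ i in l, 0 < (s i).re)
    (hs0 : Tendsto (fun i => (s i).re) l (𝓝 0)) {c : ℂ}
    (hc : Tendsto (fun i => gg β (s i)) l (𝓝 c)) : c ∈ multibrotSet d := by
  rw [mem_multibrot_iff hd]
  intro k
  cases k with
  | zero =>
    have : P d 0 c = 0 := rfl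
    rw [this, norm_zero]; norm_num
  | succ n =>
    have h1 : Tendsto (fun i => ‖P d (n + 1) (gg β (s i))‖) l (𝓝 ‖P d (n + 1) c‖) :=
      ((continuous_P d (n + 1)).norm.tendsto c).comp hc
    have h2 : Tendsto (fun i => 2 * Real.exp ((s i).re) ^ (d ^ n)) l (𝓝 (2 * Real.exp 0 ^ (d ^ n))) :=
      ((by fun_prop : Continuous fun r : ℝ => 2 * Real.exp r ^ (d ^ n)).tendsto 0).comp hs0
    rw [Real.exp_zero, one_pow, mul_one] at h2
    refine le_of_tendsto_of_tendsto h1 h2 ?_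
    filter_upwards [hs] with i hi
    have h3 : 1 < ‖exp (s i)‖ := by
      rw [Complex.norm_exp]
      exact Real.one_lt_exp_iff.mpr hi
    have h4 := P_psi_le hd hβ n h3
    rw [← exp_neg, Complex.norm_exp] at h4
    exact h4

end Pool.Agent.TH425.AD
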