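import Mathlib
import Pool.Agent.TH425.AD.G

set_option autoImplicit false

open Complex Topology Filter Metric MeasureTheory Set N62a1eb23

namespace Pool.Agent.TH425.AD

open Pool.Agent.H713R2 Pool.Agent.H712R2 Pool.Agent.Helper202.Univ Pool.Agent.H713R2.AR

/-- truncated open cone with vertex `w` -/
def CN (w : ℂ) (K ρ : ℝ) : Set ℂ := {s : ℂ | 0 < s.re ∧ s.re < ρ ∧ ‖s - w‖ < K * s.re}

theorem convex_CN (w : ℂ) (K ρ : ℝ) : Convex ℝ (CN w K ρ) := by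
  intro x hx y hy a b ha hb hab
  have hre : (a • x + b • y).re = a * x.re + b * y.re := by simp
  have hw : a • x + b • y - w = a • (x - w) + b • (y - w) := by
    have h1 : w = a • w + b • w := by rw [← add_smul, hab, one_smul]
    conv_lhs => rw [h1]
    simp only [smul_sub]; ring
  have hn : ‖a • x + b • y - w‖ ≤ a * ‖x - w‖ + b * ‖y - w‖ := by
    rw [hw]
    refine (norm_add_le _ _).trans ?_
    rw [norm_smul, norm_smul, Real.norm_eq_abs, Real.norm_eq_abs, abs_of_nonneg ha,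
      abs_of_nonneg hb]
  obtain ⟨hx1, hx2, hx3⟩ := hx
  obtain ⟨hy1, hy2, hy3⟩ := hy
  rcases eq_or_lt_of_le ha with ha0 | ha0
  · subst ha0
    have hb1 : b = 1 := by linarith
    subst hb1
    refine ⟨?_, ?_, ?_⟩
    · rw [hre]; linarith
    · rw [hre]; linarith
    · rw [hre]; linarith
  · refine ⟨?_, ?_, ?_⟩
    · rw [hre]
      have := mul_pos ha0 hx1
      have := mul_nonneg hb hy1.le
      linarith
    · rw [hre]
      have := mul_lt_mul_of_pos_left hx2 ha0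
      have := mul_le_mul_of_nonneg_left hy2.le hb
      have h1 : a * ρ + b * ρ = ρ := by rw [← add_mul, hab, one_mul]
      linarith
    · rw [hre]
      have := mul_lt_mul_of_pos_left hx3 ha0
      have := mul_le_mul_of_nonneg_left hy3.le hb
      linarith

theorem ray_mem_CN {w : ℂ} (hw : w.re = 0) {K ρ : ℝ} (hK : 1 < K) {x : ℝ} (hx : 0 < x)
    (hxρ : x < ρ) : w + x ∈ CN w K ρ := by
  have hre : (w + (x : ℂ)).re = x := by simp [hw]
  refine ⟨by rw [hre]; exact hx, by rw [hre]; exact hxρ, ?_⟩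
  rw [hre, add_sub_cancel_left, norm_real, Real.norm_eq_abs, abs_of_pos hx]
  nlinarith

/-- First order expansion in a truncated cone where the derivative is almost constant. -/
theorem expansion {d : ℕ} {β : ℂ → ℂ} (hβ : IsBeta d β) {w a : ℂ} (hw : w.re = 0) {K ρ ε : ℝ}
    (hK : 1 < K) (hρ : 0 < ρ) (h : ∀ s ∈ CN w K ρ, ‖deriv (gg β) s - a‖ ≤ ε) :
    ∃ c0 : ℂ, Tendsto (fun x : ℝ => gg β (w + x)) (𝓝[>] 0) (𝓝 c0) ∧
      ∀ s ∈ CN w K ρ, ‖gg β s - c0 - a * (s - w)‖ ≤ ε * ‖s - w‖ := by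
  set H : ℂ → ℂ := fun s => gg β s - a * s with hH
  have hd1 : ∀ s ∈ CN w K ρ, HasDerivAt H (deriv (gg β) s - a) s := by
    intro s hs
    have h1 : HasDerivAt (gg β) (deriv (gg β) s) s := (gg_differentiableAt hβ hs.1).hasDerivAt
    have h2 : HasDerivAt (fun s : ℂ => a * s) a s := by
      simpa using (hasDerivAt_id s).const_mul a
    exact h1.sub h2
  have hlip : ∀ x ∈ CN w K ρ, ∀ y ∈ CN w K ρ, ‖H y - H x‖ ≤ ε * ‖y - x‖ := by
    intro x hx y hy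
    apply (convex_CN w K ρ).norm_image_sub_le_of_norm_deriv_le
      (fun s hs => (hd1 s hs).differentiableAt) _ hx hy
    intro s hs
    rw [(hd1 s hs).deriv]
    exact h s hs
  have hε : 0 ≤ ε := (norm_nonneg _).trans (h _ (ray_mem_CN hw hK (x := ρ / 2) (by linarith)
    (by linarith)))
  have hcau : Cauchy (map (fun x : ℝ => H (w + x)) (𝓝[>] 0)) := by
    rw [Metric.cauchy_iff]
    refine ⟨inferInstance, fun δ hδ => ?_⟩
    set m : ℝ := min ρ (δ / (ε + 1)) with hm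
    have hm0 : 0 < m := lt_min hρ (by positivity)
    refine ⟨(fun x : ℝ => H (w + x)) '' Ioo 0 m, image_mem_map (Ioo_mem_nhdsGT hm0), ?_⟩
    rintro _ ⟨x, hx, rfl⟩ _ ⟨y, hy, rfl⟩
    have h1 := hlip (w + y) (ray_mem_CN hw hK hy.1 (hy.2.trans_le (min_le_left _ _)))
      (w + x) (ray_mem_CN hw hK hx.1 (hx.2.trans_le (min_le_left _ _)))
    rw [dist_eq_norm]
    have h2 : w + (x : ℂ) - (w + y) = ((x - y : ℝ) : ℂ) := by push_cast; ring
    rw [h2, norm_real, Real.norm_eq_abs] at h1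
    have h3 : |x - y| ≤ m := by
      rw [abs_le]
      constructor <;> linarith [hx.1, hx.2, hy.1, hy.2]
    calc ‖H (w + x) - H (w + y)‖ ≤ ε * |x - y| := h1
      _ ≤ ε * (δ / (ε + 1)) := by
          gcongr
          exact h3.trans (min_le_right _ _)
      _ < δ := by
          rw [← mul_div_assoc, div_lt_iff₀ (by positivity)]
          nlinarith
  obtain ⟨c1, hc1⟩ := CompleteSpace.complete hcau
  have hc1' : Tendsto (fun x : ℝ => H (w + x)) (𝓝[>] 0) (𝓝 c1) := hc1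
  have hx0 : Tendsto (fun x : ℝ => (x : ℂ)) (𝓝[>] 0) (𝓝 0) := by
    have := (Complex.continuous_ofReal.tendsto 0).mono_left
      (nhdsWithin_le_nhds : 𝓝[>] (0 : ℝ) ≤ 𝓝 0)
    rwa [ofReal_zero] at this
  have hc0 : Tendsto (fun x : ℝ => gg β (w + x)) (𝓝[>] 0) (𝓝 (c1 + a * (w + 0))) := by
    have h1 := hc1'.add ((hx0.const_add w).const_mul a)
    refine h1.congr fun x => ?_
    simp only [hH]; ring
  refine ⟨c1 + a * (w + 0), hc0, fun s hs => ?_⟩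
  have h1 : Tendsto (fun x : ℝ => ‖H s - H (w + x)‖) (𝓝[>] 0) (𝓝 ‖H s - c1‖) :=
    (hc1'.const_sub (H s)).norm
  have h2 : Tendsto (fun x : ℝ => ε * ‖s - (w + x)‖) (𝓝[>] 0) (𝓝 (ε * ‖s - (w + 0)‖)) :=
    (((hx0.const_add w).const_sub s).norm).const_mul ε
  have h3 : ‖H s - c1‖ ≤ ε * ‖s - (w + 0)‖ := by
    apply le_of_tendsto_of_tendsto h1 h2
    filter_upwards [Ioo_mem_nhdsGT hρ] with x hx
    exact hlip _ (ray_mem_CN hw hK hx.1 hx.2) s hs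
  rw [add_zero] at h3 ⊢
  have h4 : gg β s - (c1 + a * w) - a * (s - w) = H s - c1 := by simp only [hH]; ring
  rw [h4]
  exact h3

/-- the landing point of the ray of angle `θ` -/
noncomputable def cc (β : ℂ → ℂ) (θ : ℝ) : ℂ :=
  limUnder (𝓝[>] (0 : ℝ)) (fun x : ℝ => gg β (θ * I + x))

/-- the set of angles at which the derivative is nearly constant in a truncated cone -/
def FF (β : ℂ → ℂ) (a : ℂ) (ρ : ℝ) : Set ℝ :=
  {θ : ℝ | ∀ s ∈ CN (θ * I) 2 ρ, ‖deriv (gg β) s - a‖ ≤ ‖a‖ / 8}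

theorem isClosed_FF (β : ℂ → ℂ) (a : ℂ) (ρ : ℝ) : IsClosed (FF β a ρ) := by
  have h1 : FF β a ρ = ⋂ (s : ℂ) (_ : 0 < s.re ∧ s.re < ρ ∧ ‖a‖ / 8 < ‖deriv (gg β) s - a‖),
      {θ : ℝ | 2 * s.re ≤ ‖s - θ * I‖} := by
    ext θ
    simp only [FF, CN, mem_setOf_eq, mem_iInter]
    constructor
    · rintro h s ⟨h1, h2, h3⟩
      by_contra h4
      exact absurd (h s ⟨h1, h2, not_le.mp h4⟩) (not_le.mpr h3)
    · rintro h s ⟨h1, h2, h3⟩
      by_contra h4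
      exact absurd (h s ⟨h1, h2, not_le.mp h4⟩) (not_le.mpr h3)
  rw [h1]
  apply isClosed_iInter
  intro s
  apply isClosed_iInter
  intro _
  exact isClosed_le continuous_const (by fun_prop)

theorem thetaI_re (θ : ℝ) : ((θ : ℂ) * I).re = 0 := by simp

theorem FF_expansion {d : ℕ} {β : ℂ → ℂ} (hβ : IsBeta d β) {a : ℂ} {ρ : ℝ} (hρ : 0 < ρ) {θ : ℝ}
    (hθ : θ ∈ FF β a ρ) : Tendsto (fun x : ℝ => gg β (θ * I + x)) (𝓝[>] 0) (𝓝 (cc β θ)) ∧
      ∀ s ∈ CN (θ * I) 2 ρ, ‖gg β s - cc β θ - a * (s - θ * I)‖ ≤ ‖a‖ / 8 * ‖s - θ * I‖ := by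
  obtain ⟨c0, h1, h2⟩ := expansion hβ (thetaI_re θ) (by norm_num : (1 : ℝ) < 2) hρ hθ
  have h3 : cc β θ = c0 := h1.limUnder_eq
  rw [h3]
  exact ⟨h1, h2⟩

theorem FF_bilip {d : ℕ} {β : ℂ → ℂ} (hβ : IsBeta d β) {a : ℂ} {ρ : ℝ} (hρ : 0 < ρ) {θ θ' : ℝ}
    (hθ : θ ∈ FF β a ρ) (hθ' : θ' ∈ FF β a ρ) (hd : |θ - θ'| < ρ) :
    ‖a‖ / 2 * |θ - θ'| ≤ ‖cc β θ - cc β θ'‖ ∧ ‖cc β θ - cc β θ'‖ ≤ 2 * ‖a‖ * |θ - θ'| := by
  rcases eq_or_ne θ θ' with he | hne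
  · subst he; simp
  have hh : 0 < |θ - θ'| := abs_pos.mpr (sub_ne_zero.mpr hne)
  set h : ℝ := |θ - θ'| with hhd
  set s : ℂ := (h : ℂ) + ((θ + θ') / 2 : ℝ) * I with hs
  have hsre : s.re = h := by simp [hs]
  have key : ∀ t : ℝ, |(θ + θ') / 2 - t| = h / 2 → s ∈ CN (t * I) 2 ρ ∧ ‖s - t * I‖ ≤ 3 / 2 * h := by
    intro t ht
    have h1 : ‖s - t * I‖ ≤ 3 / 2 * h := by
      have h2 : s - t * I = (h : ℂ) + (((θ + θ') / 2 - t : ℝ) : ℂ) * I := by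
        rw [hs]; push_cast; ring
      rw [h2]
      refine (norm_add_le _ _).trans ?_
      rw [norm_mul, norm_I, mul_one, norm_real, norm_real, Real.norm_eq_abs, Real.norm_eq_abs, ht,
        abs_of_pos hh]
      linarith
    refine ⟨⟨by rw [hsre]; exact hh, by rw [hsre]; exact hd, ?_⟩, h1⟩
    rw [hsre]
    linarith
  have h1 : |(θ + θ') / 2 - θ| = h / 2 := by
    have : (θ + θ') / 2 - θ = -((θ - θ') / 2) := by ring
    rw [this, abs_neg, abs_div, ← hhd]; norm_num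
  have h2 : |(θ + θ') / 2 - θ'| = h / 2 := by
    have : (θ + θ') / 2 - θ' = (θ - θ') / 2 := by ring
    rw [this, abs_div, ← hhd]; norm_num
  obtain ⟨hm1, hn1⟩ := key θ h1
  obtain ⟨hm2, hn2⟩ := key θ' h2
  have e1 := (FF_expansion hβ hρ hθ).2 s hm1
  have e2 := (FF_expansion hβ hρ hθ').2 s hm2
  have hap := norm_nonneg a
  have e1' : ‖gg β s - cc β θ - a * (s - θ * I)‖ ≤ 3 / 16 * ‖a‖ * h := by
    refine e1.trans ?_
    nlinarith
  have e2' : ‖gg β s - cc β θ' - a * (s - θ' * I)‖ ≤ 3 / 16 * ‖a‖ * h := by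
    refine e2.trans ?_
    nlinarith
  have hkey : cc β θ - cc β θ' - a * ((θ - θ' : ℝ) * I) =
      (gg β s - cc β θ' - a * (s - θ' * I)) - (gg β s - cc β θ - a * (s - θ * I)) := by
    push_cast; ring
  have h3 : ‖cc β θ - cc β θ' - a * ((θ - θ' : ℝ) * I)‖ ≤ 3 / 8 * ‖a‖ * h := by
    rw [hkey]
    refine (norm_sub_le _ _).trans ?_
    linarith
  have h4 : ‖a * ((θ - θ' : ℝ) * I)‖ = ‖a‖ * h := by
    rw [norm_mul, norm_mul, norm_I, mul_one, norm_real, Real.norm_eq_abs]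
  have h5 := norm_sub_norm_le (a * ((θ - θ' : ℝ) * I)) (a * ((θ - θ' : ℝ) * I) - (cc β θ - cc β θ'))
  rw [sub_sub_cancel, norm_sub_rev (a * ((θ - θ' : ℝ) * I)), h4] at h5
  have h6 := norm_add_le (cc β θ - cc β θ' - a * ((θ - θ' : ℝ) * I)) (a * ((θ - θ' : ℝ) * I))
  rw [sub_add_cancel, h4] at h6
  have h7 : 0 ≤ ‖a‖ * h := by positivity
  constructor
  · linarith
  · linarith

/-- the compact pieces -/
def PC (β : ℂ → ℂ) (a : ℂ) (ρ p : ℝ) : Set ℝ := FF β a ρ ∩ Icc p (p + ρ / 2)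

theorem isCompact_PC (β : ℂ → ℂ) (a : ℂ) (ρ p : ℝ) : IsCompact (PC β a ρ p) :=
  isCompact_Icc.inter_left (isClosed_FF β a ρ)

theorem PC_dist {β : ℂ → ℂ} {a : ℂ} {ρ p : ℝ} (hρ : 0 < ρ) {θ θ' : ℝ} (hθ : θ ∈ PC β a ρ p)
    (hθ' : θ' ∈ PC β a ρ p) : |θ - θ'| < ρ := by
  rw [abs_lt]
  constructor <;> linarith [hθ.2.1, hθ.2.2, hθ'.2.1, hθ'.2.2]

theorem PC_cont {d : ℕ} {β : ℂ → ℂ} (hβ : IsBeta d β) {a : ℂ} {ρ : ℝ} (hρ : 0 < ρ) (p : ℝ) :
    ContinuousOn (cc β) (PC β a ρ p) := by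
  have h : LipschitzOnWith (Real.toNNReal (2 * ‖a‖)) (cc β) (PC β a ρ p) := by
    apply LipschitzOnWith.of_dist_le_mul
    intro x hx y hy
    rw [dist_eq_norm, Real.dist_eq, Real.coe_toNNReal _ (by positivity)]
    exact (FF_bilip hβ hρ hx.1 hy.1 (PC_dist hρ hx hy)).2
  exact h.continuousOn

theorem PC_mem {d : ℕ} (hd : 2 ≤ d) {β : ℂ → ℂ} (hβ : IsBeta d β) {a : ℂ} {ρ : ℝ} (hρ : 0 < ρ)
    {θ : ℝ} (hθ : θ ∈ FF β a ρ) : cc β θ ∈ multibrotSet d := by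
  apply mem_of_tendsto_gg hd hβ (s := fun x : ℝ => (θ : ℂ) * I + x) (l := 𝓝[>] (0 : ℝ)) _ _
    (FF_expansion hβ hρ hθ).1
  · filter_upwards [self_mem_nhdsWithin] with x hx
    have hx' : 0 < x := hx
    simpa using hx'
  · have : (fun x : ℝ => ((θ : ℂ) * I + x).re) = fun x => x := by
      funext x; simp
    rw [this]
    exact nhdsWithin_le_nhds

end Pool.Agent.TH425.AD
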