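import Mathlib
import Pool.Agent.TH425.AD.G
import Pool.Agent.H792R2.SS.KB

set_option autoImplicit false

open Complex Topology Filter Metric MeasureTheory Set N62a1eb23

namespace Pool.Agent.TH425.AD

open Pool.Agent.H713R2 Pool.Agent.H712R2 Pool.Agent.Helper202.Univ Pool.Agent.H713R2.AR

theorem ball_sub_HP {s : ℂ} : ball s s.re ⊆ HP := by
  intro y hy
  rw [mem_ball, dist_eq_norm] at hy
  have h1 : |(y - s).re| ≤ ‖y - s‖ := abs_re_le_norm _
  have h2 := neg_le_of_abs_le h1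
  rw [sub_re] at h2
  change 0 < y.re
  linarith

theorem gg_injOn {d : ℕ} {β : ℂ → ℂ} (hβ : IsBeta d β) {s : ℂ} (hs3 : s.re ≤ 3) :
    InjOn (gg β) (ball s s.re) := by
  intro x hx y hy hxy
  have hx0 : 0 < x.re := ball_sub_HP hx
  have hy0 : 0 < y.re := ball_sub_HP hy
  rw [gg_eq_zz, gg_eq_zz] at hxy
  have h1 := hβ.inj _ (exp_neg_mem hx0) _ (exp_neg_mem hy0) (exp_ne_zero _) (exp_ne_zero _) hxy
  rw [exp_eq_exp_iff_exists_int] at h1
  obtain ⟨n, hn⟩ := h1
  have h2 : ‖x - y‖ < 2 * 3 := by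
    have h3 : dist x y ≤ dist x s + dist y s := dist_triangle_right _ _ _
    rw [dist_eq_norm] at h3
    have h4 := mem_ball.mp hx
    have h5 := mem_ball.mp hy
    linarith
  have h3 : x - y = -(n * (2 * Real.pi * I)) := by linear_combination -hn
  rw [h3, norm_neg, norm_mul, norm_mul, norm_mul] at h2
  simp only [norm_intCast, Complex.norm_ofNat, Complex.norm_real, Real.norm_eq_abs, norm_I,
    mul_one] at h2
  rw [abs_of_pos Real.pi_pos] at h2
  have hpi := Real.pi_gt_three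
  by_cases hn0 : n = 0
  · rw [hn0] at h3
    simp at h3
    exact sub_eq_zero.mp h3
  · have h4 : (1 : ℝ) ≤ |(n : ℝ)| := by
      have : 1 ≤ |n| := Int.one_le_abs hn0
      exact_mod_cast this
    nlinarith

theorem preSchw {d : ℕ} {β : ℂ → ℂ} (hβ : IsBeta d β) {s : ℂ} (hs : 0 < s.re) (hs3 : s.re ≤ 3) :
    s.re * ‖deriv (deriv (gg β)) s‖ ≤ 4 * ‖deriv (gg β) s‖ :=
  (Pool.Agent.H792R2.SS.t_KB (gg β) s s.re hs ((gg_diffOn hβ).mono ball_sub_HP)
    (gg_injOn hβ hs3)).2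

theorem dgg_diffOn {d : ℕ} {β : ℂ → ℂ} (hβ : IsBeta d β) : DifferentiableOn ℂ (deriv (gg β)) HP :=
  (gg_diffOn hβ).deriv isOpen_HP

/-- the truncated region -/
def WW (N : ℝ) : Set ℂ := {t : ℂ | 1 / 2 < t.re ∧ ‖t‖ < N}

theorem isOpen_WW (N : ℝ) : IsOpen (WW N) :=
  (isOpen_lt continuous_const continuous_re).inter (isOpen_lt continuous_norm continuous_const)

theorem convex_WW (N : ℝ) : Convex ℝ (WW N) := by
  have h1 : WW N = {t : ℂ | 1 / 2 < t.re} ∩ ball 0 N := by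
    ext t; simp [WW]
  rw [h1]
  exact (convex_halfSpace_re_gt _).inter (convex_ball _ _)

theorem growth {d : ℕ} {β : ℂ → ℂ} (hβ : IsBeta d β) {N : ℝ} (hN : 1 < N) {w : ℂ} (hw : w.re = 0)
    {x : ℝ} (hx : 0 < x) (hxN : x * N ≤ 3) {t : ℂ} (ht : t ∈ WW N) :
    ‖deriv (gg β) (w + x * t)‖ ≤ ‖deriv (gg β) (w + x * 1)‖ * Real.exp (8 * (N + 1)) := by
  have h1W : (1 : ℂ) ∈ WW N := by
    refine ⟨by norm_num, by simpa using hN⟩
  have hre : ∀ y : ℂ, (w + x * y).re = x * y.re := by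
    intro y; simp [hw]
  have hmem : ∀ y ∈ WW N, w + x * y ∈ HP := by
    intro y hy
    change 0 < (w + x * y).re
    rw [hre]
    have : 0 < y.re := by linarith [hy.1]
    positivity
  set f : ℝ → ℂ := fun τ => deriv (gg β) (w + x * (1 + τ * (t - 1))) with hf
  set f' : ℝ → ℂ := fun τ => (x * (t - 1)) * deriv (deriv (gg β)) (w + x * (1 + τ * (t - 1))) with hf'
  have hseg : ∀ τ ∈ Icc (0 : ℝ) 1, (1 : ℂ) + τ * (t - 1) ∈ WW N := by
    intro τ hτ
    have := (convex_WW N) h1W ht (show (0 : ℝ) ≤ 1 - τ by linarith [hτ.2]) hτ.1 (by ring)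
    have h2 : (1 - τ) • (1 : ℂ) + τ • t = 1 + τ * (t - 1) := by
      simp only [real_smul]; push_cast; ring
    rwa [h2] at this
  have hder : ∀ τ ∈ Icc (0 : ℝ) 1, HasDerivAt f (f' τ) τ := by
    intro τ hτ
    have h1 : HasDerivAt (deriv (gg β)) (deriv (deriv (gg β)) (w + x * (1 + τ * (t - 1))))
        (w + x * (1 + τ * (t - 1))) :=
      ((dgg_diffOn hβ).differentiableAt (isOpen_HP.mem_nhds (hmem _ (hseg τ hτ)))).hasDerivAt
    have h2 : HasDerivAt (fun τ : ℝ => w + (x : ℂ) * (1 + (τ : ℂ) * (t - 1))) (x * (t - 1)) τ := by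
      have h3 : HasDerivAt (fun τ : ℝ => (τ : ℂ)) 1 τ := Complex.ofRealCLM.hasDerivAt
      have h4 := (((h3.mul_const (t - 1)).const_add 1).const_mul (x : ℂ)).const_add w
      simpa using h4
    have h3 := h1.scomp τ h2
    exact h3
  have htN : ‖t - 1‖ ≤ N + 1 := by
    have := norm_sub_le t 1
    rw [norm_one] at this
    linarith [ht.2]
  have hb : ∀ τ ∈ Ico (0 : ℝ) 1, ‖f' τ‖ ≤ (8 * (N + 1)) * ‖f τ‖ + 0 := by
    intro τ hτ
    have hτ' : τ ∈ Icc (0 : ℝ) 1 := ⟨hτ.1, hτ.2.le⟩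
    set y : ℂ := (1 : ℂ) + τ * (t - 1) with hy
    have hyW : y ∈ WW N := hseg τ hτ'
    have hyre : 1 / 2 < y.re := hyW.1
    have hyre2 : y.re ≤ N := (re_le_norm y).trans hyW.2.le
    have h1 := preSchw hβ (s := w + x * y) (hmem y hyW) (by
      rw [hre]
      calc x * y.re ≤ x * N := by gcongr
        _ ≤ 3 := hxN)
    rw [hre] at h1
    have h2 : x * ‖deriv (deriv (gg β)) (w + x * y)‖ ≤ 8 * ‖deriv (gg β) (w + x * y)‖ := by
      have h3 : x * (1 / 2) * ‖deriv (deriv (gg β)) (w + x * y)‖ ≤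
          x * y.re * ‖deriv (deriv (gg β)) (w + x * y)‖ := by gcongr
      nlinarith [norm_nonneg (deriv (deriv (gg β)) (w + x * y))]
    simp only [hf', hf, norm_mul, add_zero, norm_real, Real.norm_eq_abs, abs_of_pos hx]
    calc x * ‖t - 1‖ * ‖deriv (deriv (gg β)) (w + x * y)‖
        = ‖t - 1‖ * (x * ‖deriv (deriv (gg β)) (w + x * y)‖) := by ring
      _ ≤ (N + 1) * (8 * ‖deriv (gg β) (w + x * y)‖) := by gcongr
      _ = 8 * (N + 1) * ‖deriv (gg β) (w + x * y)‖ := by ring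
  have hg := norm_le_gronwallBound_of_norm_deriv_right_le (f := f) (f' := f')
    (δ := ‖f 0‖) (K := 8 * (N + 1)) (ε := 0) (a := 0) (b := 1)
    (fun τ hτ => (hder τ hτ).continuousAt.continuousWithinAt)
    (fun τ hτ => (hder τ ⟨hτ.1, hτ.2.le⟩).hasDerivWithinAt) le_rfl hb 1 (by simp)
  rw [gronwallBound_ε0] at hg
  have e1 : f 1 = deriv (gg β) (w + x * t) := by simp [hf]
  have e0 : f 0 = deriv (gg β) (w + x * 1) := by simp [hf]
  rw [e1, e0] at hg
  simpa using hg

/-- A radial limit of the derivative is a limit in every cone. -/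
theorem cone_of_radial {d : ℕ} {β : ℂ → ℂ} (hβ : IsBeta d β) {w a : ℂ} (hw : w.re = 0)
    (h : Tendsto (fun x : ℝ => deriv (gg β) (w + x)) (𝓝[>] 0) (𝓝 a)) (K : ℝ) {ε : ℝ}
    (hε : 0 < ε) : ∃ ρ > 0, ∀ s : ℂ, 0 < s.re → s.re < ρ → ‖s - w‖ ≤ K * s.re →
      ‖deriv (gg β) s - a‖ ≤ ε := by
  by_contra hcon
  push Not at hcon
  set N : ℝ := |K| + 2 with hN
  have hN1 : 1 < N := by have := abs_nonneg K; linarith
  have hN0 : 0 < N := by linarith
  -- boundedness near the point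
  obtain ⟨ρ0, hρ0, hρb⟩ : ∃ ρ0 > 0, ∀ x : ℝ, 0 < x → x < ρ0 →
      ‖deriv (gg β) (w + x)‖ ≤ ‖a‖ + 1 := by
    have h1 : ∀ᶠ x : ℝ in 𝓝[>] (0 : ℝ), ‖deriv (gg β) (w + x)‖ < ‖a‖ + 1 :=
      h.norm.eventually (gt_mem_nhds (show ‖a‖ < ‖a‖ + 1 by linarith))
    obtain ⟨ρ0, hρ0, h2⟩ := (mem_nhdsGT_iff_exists_Ioo_subset).mp h1
    exact ⟨ρ0, hρ0, fun x hx hx2 => (h2 ⟨hx, hx2⟩).le⟩
  set ρ : ℕ → ℝ := fun j => min (min ρ0 (3 / N)) (1 / ((j : ℝ) + 1)) with hρ
  have hρp : ∀ j, 0 < ρ j := fun j => by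
    have : (0 : ℝ) < 1 / ((j : ℝ) + 1) := by positivity
    have : 0 < 3 / N := by positivity
    simp only [hρ]
    positivity
  choose s hs0 hs1 hs2 hs3 using fun j => hcon (ρ j) (hρp j)
  set x : ℕ → ℝ := fun j => (s j).re with hx
  have hx0 : ∀ j, 0 < x j := hs0
  have hxC : ∀ j, (x j : ℂ) ≠ 0 := fun j => by exact_mod_cast (hx0 j).ne'
  have hxt : Tendsto x atTop (𝓝 0) := by
    apply squeeze_zero (fun j => (hx0 j).le) (fun j => (hs1 j).le.trans (min_le_right _ _))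
    exact tendsto_one_div_add_atTop_nhds_zero_nat
  set t : ℕ → ℂ := fun j => (s j - w) / x j with ht
  have hst : ∀ j, s j = w + x j * t j := by
    intro j
    simp only [ht]
    rw [mul_div_cancel₀ _ (hxC j)]
    ring
  have htre : ∀ j, (t j).re = 1 := by
    intro j
    simp only [ht]
    rw [div_ofReal_re, sub_re, hw, sub_zero]
    exact div_self (hx0 j).ne'
  have htn : ∀ j, ‖t j‖ ≤ |K| := by
    intro j
    simp only [ht]
    rw [norm_div, norm_real, Real.norm_eq_abs, abs_of_pos (hx0 j), div_le_iff₀ (hx0 j)]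
    refine (hs2 j).trans ?_
    exact mul_le_mul_of_nonneg_right (le_abs_self K) (hx0 j).le
  -- rescaled functions
  set F : ℕ → ℂ → ℂ := fun j y => deriv (gg β) (w + x j * y) with hF
  have hmem : ∀ j, ∀ y ∈ WW N, w + x j * y ∈ HP := by
    intro j y hy
    change 0 < (w + x j * y).re
    have : (w + x j * y).re = x j * y.re := by simp [hw]
    rw [this]
    have := hy.1
    exact mul_pos (hx0 j) (by linarith)
  have hFd : ∀ j, DifferentiableOn ℂ (F j) (WW N) := by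
    intro j
    apply (dgg_diffOn hβ).comp (by fun_prop)
    exact hmem j
  have hFb : ∀ j, ∀ y ∈ WW N, ‖F j y‖ ≤ (‖a‖ + 1) * Real.exp (8 * (N + 1)) := by
    intro j y hy
    have h1 : x j < ρ j := hs1 j
    have h2 : x j < ρ0 := h1.trans_le ((min_le_left _ _).trans (min_le_left _ _))
    have h3 : x j < 3 / N := h1.trans_le ((min_le_left _ _).trans (min_le_right _ _))
    have h4 : x j * N ≤ 3 := by
      rw [lt_div_iff₀ hN0] at h3; exact h3.le
    refine (growth hβ hN1 hw (hx0 j) h4 hy).trans ?_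
    rw [mul_one]
    gcongr
    exact hρb _ (hx0 j) h2
  set 𝒰 : Ultrafilter ℕ := hyperfilter ℕ with h𝒰
  have hle : (𝒰 : Filter ℕ) ≤ atTop := Nat.hyperfilter_le_atTop
  obtain ⟨Φ, hΦd, hΦ⟩ := Pool.Agent.Helper114.Montel.montel (isOpen_WW N) F hFd _ hFb 𝒰
  have h1W : (1 : ℂ) ∈ WW N := ⟨by norm_num, by simpa using hN1⟩
  -- the limit is constant on the real axis
  have hreal : ∀ y : ℝ, (y : ℂ) ∈ WW N → Φ y = a := by
    intro y hy
    have hy0 : 0 < y := by
      have := hy.1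
      rw [ofReal_re] at this
      linarith
    have h1 : Tendsto (fun j => F j y) 𝒰 (𝓝 (Φ y)) := hΦ.tendsto_at hy
    have h2 : Tendsto (fun j => x j * y) 𝒰 (𝓝[>] 0) := by
      rw [tendsto_nhdsWithin_iff]
      constructor
      · have := (hxt.mono_left hle).mul_const y
        rwa [zero_mul] at this
      · exact Eventually.of_forall fun j => mul_pos (hx0 j) hy0
    have h3 := h.comp h2
    refine tendsto_nhds_unique h1 (h3.congr fun j => ?_)
    simp only [hF, Function.comp]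
    push_cast
    rfl
  have hconst : EqOn Φ (fun _ => a) (WW N) := by
    refine (hΦd.analyticOnNhd (isOpen_WW N)).eqOn_of_preconnected_of_frequently_eq
      (fun _ _ => analyticAt_const) (convex_WW N).isPreconnected h1W ?_
    have h2 : Tendsto (fun y : ℝ => (y : ℂ)) (𝓝[>] 1) (𝓝[≠] (1 : ℂ)) := by
      rw [tendsto_nhdsWithin_iff]
      constructor
      · have := (Complex.continuous_ofReal.tendsto 1).mono_left
          (nhdsWithin_le_nhds : 𝓝[>] (1 : ℝ) ≤ 𝓝 1)
        simpa using! this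
      · filter_upwards [self_mem_nhdsWithin] with y hy
        have hy' : (1 : ℝ) < y := hy
        intro h3
        have h4 : (y : ℂ) = 1 := h3
        have : y = 1 := by exact_mod_cast h4
        linarith
    apply h2.frequently
    apply Eventually.frequently
    filter_upwards [Ioo_mem_nhdsGT hN1] with y hy
    apply hreal y
    refine ⟨by rw [ofReal_re]; linarith [hy.1], ?_⟩
    rw [norm_real, Real.norm_eq_abs, abs_of_pos (by linarith [hy.1])]
    exact hy.2
  -- the marked points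
  obtain ⟨t0, ht0, ht0l⟩ := (isCompact_closedBall (0 : ℂ) |K|).ultrafilter_le_nhds
    (𝒰.map t) (by
      rw [le_principal_iff, Ultrafilter.coe_map, Filter.mem_map]
      refine Eventually.of_forall fun j => ?_
      change t j ∈ closedBall 0 |K|
      rw [mem_closedBall_zero_iff]
      exact htn j)
  have ht0t : Tendsto t 𝒰 (𝓝 t0) := ht0l
  have ht0re : t0.re = 1 := by
    have h1 := (Complex.continuous_re.tendsto t0).comp ht0t
    refine tendsto_nhds_unique h1 ?_
    refine tendsto_const_nhds.congr fun j => ?_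
    exact (htre j).symm
  have ht0W : t0 ∈ WW N := by
    refine ⟨by rw [ht0re]; norm_num, ?_⟩
    have := mem_closedBall_zero_iff.mp ht0
    linarith
  have h1 : Tendsto (fun j => F j (t j)) 𝒰 (𝓝 (Φ t0)) := by
    apply hΦ.tendsto_comp (hΦd.continuousOn t0 ht0W) ht0W
    rw [tendsto_nhdsWithin_iff]
    exact ⟨ht0t, ht0t ((isOpen_WW N).mem_nhds ht0W)⟩
  rw [hconst ht0W] at h1
  have h2 : ∀ᶠ j in (𝒰 : Filter ℕ), ‖F j (t j) - a‖ < ε := by
    have := (h1.sub_const a).norm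
    rw [sub_self, norm_zero] at this
    exact this.eventually (gt_mem_nhds hε)
  obtain ⟨j, hj⟩ := h2.exists
  have h3 := hs3 j
  rw [hst j] at h3
  exact absurd hj (not_lt.mpr h3.le)

end Pool.Agent.TH425.AD
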