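import Mathlib
import Pool.Agent.TH425.AD.N
import Pool.Agent.TH425.AD.B1
import Pool.Agent.TH425.BF.B5

set_option autoImplicit false

open Complex Topology Filter Metric MeasureTheory Set N62a1eb23

namespace Pool.Agent.TH425.AD

open Pool.Agent.H713R2 Pool.Agent.H712R2 Pool.Agent.Helper202.Univ Pool.Agent.H713R2.AR
open Pool.Agent.TH425.BF (IsBl CK WO)

theorem gg_injOn_ball {d : ℕ} {β : ℂ → ℂ} (hβ : IsBeta d β) {s : ℂ} {R : ℝ} (hR : R ≤ s.re)
    (hR3 : R ≤ 3) : InjOn (gg β) (ball s R) := by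
  intro x hx y hy hxy
  have hx0 : 0 < x.re := ball_sub_HP (ball_subset_ball hR hx)
  have hy0 : 0 < y.re := ball_sub_HP (ball_subset_ball hR hy)
  rw [gg_eq_zz, gg_eq_zz] at hxy
  have h1 := hβ.inj _ (exp_neg_mem hx0) _ (exp_neg_mem hy0) (exp_ne_zero _) (exp_ne_zero _) hxy
  rw [exp_eq_exp_iff_exists_int] at h1
  obtain ⟨n, hn⟩ := h1
  have h2 : ‖x - y‖ < 2 * 3 := by
    have h3 : dist x y ≤ dist x s + dist y s := dist_triangle_right _ _ _
    rw [dist_eq_norm] at h3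
    have h4 := mem_ball.mp hx
    have h5 := mem_ball.mp hy
    linarith
  have h3 : x - y = -(n * (2 * Real.pi * I)) := by linear_combination -hn
  rw [h3, norm_neg, norm_mul, norm_mul, norm_mul] at h2
  simp only [norm_intCast, Complex.norm_ofNat, Complex.norm_real, Real.norm_eq_abs, norm_I,
    mul_one] at h2
  rw [abs_of_pos Real.pi_pos] at h2
  have hpi := Real.pi_gt_three
  by_cases hn0 : n = 0
  · rw [hn0] at h3
    simp at h3
    exact sub_eq_zero.mp h3
  · have h4 : (1 : ℝ) ≤ |(n : ℝ)| := by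
      have : 1 ≤ |n| := Int.one_le_abs hn0
      exact_mod_cast this
    nlinarith

theorem dgg_isBl {d : ℕ} {β : ℂ → ℂ} (hβ : IsBeta d β) : IsBl (deriv (gg β)) := by
  refine ⟨dgg_diffOn hβ, fun s hs => ?_, fun s hs hs3 => preSchw hβ hs hs3⟩
  have hs' : 0 < s.re := hs
  have hR : 0 < min s.re 3 := lt_min hs' (by norm_num)
  exact (Pool.Agent.H792R2.SS.t_KB (gg β) s (min s.re 3) hR
    ((gg_diffOn hβ).mono ((ball_subset_ball (min_le_left _ _)).trans ball_sub_HP))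
    (gg_injOn_ball hβ (min_le_left _ _) (min_le_right _ _))).1

/-- uniform version of flatness, in terms of values -/
theorem flat_close {A : ℂ → ℂ} (hA : IsBl A) {θ M : ℝ}
    (hM : Tendsto (fun x : ℝ => ‖A (θ * I + x)‖) (𝓝[>] 0) (𝓝 M))
    (hfl : ∀ N > (1 : ℝ), ∀ ε > 0, ∀ᶠ x : ℝ in 𝓝[>] 0, ∀ t ∈ CK N,
          x * ‖deriv A (θ * I + x * t)‖ ≤ ε * ‖A (θ * I + x * t)‖) {N : ℝ} (hN : 1 < N) {δ : ℝ}
    (hδ : 0 < δ) :
    ∀ᶠ x : ℝ in 𝓝[>] 0, ∀ t ∈ CK N, ‖A (θ * I + x * t) - A (θ * I + x)‖ ≤ δ ∧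
      x * ‖deriv A (θ * I + x * t)‖ ≤ δ := by
  have hM0 : 0 ≤ M := ge_of_tendsto hM (Eventually.of_forall fun x => norm_nonneg _)
  set E : ℝ := Real.exp (4 * (N + 1) * (N + 1 + 1)) with hE
  have hE0 : 0 < E := Real.exp_pos _
  have hE1 : 0 < (M + 1) * E := by positivity
  set ε : ℝ := δ / ((M + 1) * E * (2 * N + 1)) with hε
  have hε0 : 0 < ε := by positivity
  have h1 : ∀ᶠ x : ℝ in 𝓝[>] 0, ‖A (θ * I + x)‖ < M + 1 := hM.eventually (gt_mem_nhds (by linarith))
  have h2 : ∀ᶠ x : ℝ in 𝓝[>] 0, 0 < x ∧ x < 3 / (N + 1) := Ioo_mem_nhdsGT (by positivity)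
  filter_upwards [h1, h2, hfl N hN ε hε0] with x hx1 hx2 hx3
  have hxN : x * (N + 1) ≤ 3 := by
    have := hx2.2
    rw [lt_div_iff₀ (by linarith)] at this
    exact this.le
  have hgr : ∀ t ∈ CK N, ‖A (θ * I + x * t)‖ ≤ (M + 1) * E := by
    intro t ht
    refine (BF.growthA hA (N := N + 1) (by linarith) hx2.1 hxN (BF.CK_sub_WO hN ht)).trans ?_
    rw [hE]
    gcongr
  have hd : ∀ t ∈ CK N, x * ‖deriv A (θ * I + x * t)‖ ≤ ε * ((M + 1) * E) := by
    intro t ht
    refine (hx3 t ht).trans ?_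
    have := hgr t ht
    gcongr
  have hεδ : ε * ((M + 1) * E) * (2 * N + 1) = δ := by rw [hε]; field_simp
  intro t ht
  have hone : (1 : ℂ) ∈ CK N := by
    refine ⟨?_, by rw [norm_one]; linarith⟩
    rw [one_re, div_le_iff₀ (by linarith)]; linarith
  constructor
  · have hmem : ∀ t ∈ CK N, (θ : ℂ) * I + x * t ∈ BF.HP := fun t ht =>
      BF.WO_mem (N := N + 1) (by linarith) hx2.1 (BF.CK_sub_WO hN ht)
    have h := (BF.convex_CK N).norm_image_sub_le_of_norm_hasDerivWithin_le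
      (f := fun t : ℂ => A (θ * I + x * t))
      (f' := fun t => deriv A (θ * I + x * t) * x) (C := ε * ((M + 1) * E))
      (x := 1) (y := t) (fun t ht => by
        have h1 : HasDerivAt A (deriv A (θ * I + x * t)) (θ * I + x * t) :=
          (hA.diff.differentiableAt (BF.isOpen_HP.mem_nhds (hmem t ht))).hasDerivAt
        have h2 : HasDerivAt (fun t : ℂ => (θ : ℂ) * I + x * t) x t := by
          simpa using ((hasDerivAt_id t).const_mul (x : ℂ)).const_add ((θ : ℂ) * I)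
        exact (h1.comp t h2).hasDerivWithinAt) (fun t ht => by
        rw [norm_mul, norm_real, Real.norm_eq_abs, abs_of_pos hx2.1, mul_comm]
        exact hd t ht) hone ht
    rw [mul_one] at h
    refine h.trans ?_
    have h5 : ‖t - 1‖ ≤ 2 * N + 1 := by
      refine (norm_sub_le _ _).trans ?_
      rw [norm_one]
      linarith [ht.2]
    calc ε * ((M + 1) * E) * ‖t - 1‖ ≤ ε * ((M + 1) * E) * (2 * N + 1) := by gcongr
      _ = δ := hεδ
  · refine (hd t ht).trans ?_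
    rw [← hεδ]
    have : 0 < ε * ((M + 1) * E) := by positivity
    nlinarith

end Pool.Agent.TH425.AD
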