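import Mathlib
import Pool.Agent.TH425.AD.E1

set_option autoImplicit false

open Complex Topology Filter Metric MeasureTheory Set N62a1eb23

namespace Pool.Agent.TH425.AD

open Pool.Agent.H713R2 Pool.Agent.H712R2 Pool.Agent.Helper202.Univ Pool.Agent.H713R2.AR
open Pool.Agent.TH425.BF (IsBl CK WO)

/-- the set of angles at which the derivative is flat below height `h` -/
def FG (β : ℂ → ℂ) (m h : ℝ) : Set ℝ :=
  {θ : ℝ | ∀ x : ℝ, 0 < x → x < h → ∀ t ∈ CK 4, m ≤ ‖deriv (gg β) (θ * I + x * t)‖ ∧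
    ‖deriv (gg β) (θ * I + x * t)‖ ≤ 2 * m ∧ x * ‖deriv (deriv (gg β)) (θ * I + x * t)‖ ≤ m / 12}

theorem CK_mem {x θ : ℝ} (hx : 0 < x) {t : ℂ} (ht : t ∈ CK 4) : (θ : ℂ) * I + x * t ∈ BF.HP :=
  BF.WO_mem (N := 4 + 1) (by norm_num) hx (BF.CK_sub_WO (by norm_num) ht)

theorem isClosed_FG {d : ℕ} {β : ℂ → ℂ} (hβ : IsBeta d β) (m h : ℝ) : IsClosed (FG β m h) := by
  have h1 : FG β m h = ⋂ (x : ℝ) (_ : 0 < x ∧ x < h) (t : ℂ) (_ : t ∈ CK 4),
      {θ : ℝ | m ≤ ‖deriv (gg β) (θ * I + x * t)‖ ∧ ‖deriv (gg β) (θ * I + x * t)‖ ≤ 2 * m ∧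
        x * ‖deriv (deriv (gg β)) (θ * I + x * t)‖ ≤ m / 12} := by
    ext θ
    simp only [FG, mem_ofPred_eq, mem_iInter]
    exact ⟨fun h x hx t ht => h x hx.1 hx.2 t ht, fun h x h1 h2 t ht => h x ⟨h1, h2⟩ t ht⟩
  rw [h1]
  apply isClosed_iInter
  intro x
  apply isClosed_iInter
  intro hx
  apply isClosed_iInter
  intro t
  apply isClosed_iInter
  intro ht
  have hmem : ∀ θ : ℝ, (θ : ℂ) * I + x * t ∈ BF.HP := fun θ => CK_mem hx.1 ht
  have c0 : Continuous fun θ : ℝ => (θ : ℂ) * I + x * t := by fun_prop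
  have c1 : Continuous fun θ : ℝ => ‖deriv (gg β) (θ * I + x * t)‖ :=
    ((dgg_isBl hβ).diff.continuousOn.comp_continuous c0 hmem).norm
  have c2 : Continuous fun θ : ℝ => ‖deriv (deriv (gg β)) (θ * I + x * t)‖ :=
    ((((dgg_isBl hβ).diff.deriv BF.isOpen_HP).continuousOn).comp_continuous c0 hmem).norm
  exact (isClosed_le continuous_const c1).inter
    ((isClosed_le c1 continuous_const).inter (isClosed_le (continuous_const.mul c2) continuous_const))

theorem one_mem_CK : (1 : ℂ) ∈ CK 4 := by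
  refine ⟨?_, by rw [norm_one]; norm_num⟩
  rw [one_re]; norm_num

theorem ray_hasDeriv {d : ℕ} {β : ℂ → ℂ} (hβ : IsBeta d β) (θ : ℝ) {x : ℝ} (hx : 0 < x) :
    HasDerivAt (fun x : ℝ => gg β (θ * I + x)) (deriv (gg β) (θ * I + x)) x := by
  have h1 : HasDerivAt (gg β) (deriv (gg β) (θ * I + x)) (θ * I + x) :=
    (gg_differentiableAt hβ (by simpa using hx)).hasDerivAt
  have h2 : HasDerivAt (fun x : ℝ => (θ : ℂ) * I + x) 1 x := by
    have h3 : HasDerivAt (fun t : ℝ => (t : ℂ)) 1 x := Complex.ofRealCLM.hasDerivAt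
    exact h3.const_add _
  have h3 := h1.scomp x h2
  rw [one_smul] at h3
  exact h3

theorem ray_hasDeriv2 {d : ℕ} {β : ℂ → ℂ} (hβ : IsBeta d β) (θ : ℝ) {x : ℝ} (hx : 0 < x) :
    HasDerivAt (fun x : ℝ => deriv (gg β) (θ * I + x)) (deriv (deriv (gg β)) (θ * I + x)) x := by
  have h1 : HasDerivAt (deriv (gg β)) (deriv (deriv (gg β)) (θ * I + x)) (θ * I + x) :=
    ((dgg_diffOn hβ).differentiableAt (isOpen_HP.mem_nhds (by
      change 0 < ((θ : ℂ) * I + x).re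
      simpa using hx))).hasDerivAt
  have h2 : HasDerivAt (fun x : ℝ => (θ : ℂ) * I + x) 1 x := by
    have h3 : HasDerivAt (fun t : ℝ => (t : ℂ)) 1 x := Complex.ofRealCLM.hasDerivAt
    exact h3.const_add _
  have h3 := h1.scomp x h2
  rw [one_smul] at h3
  exact h3

/-- Landing and first order expansion along a ray with slowly varying bounded derivative. -/
theorem ray_expansion {d : ℕ} {β : ℂ → ℂ} (hβ : IsBeta d β) {θ h C ε : ℝ} (hh : 0 < h)
    (hC : ∀ x : ℝ, 0 < x → x < h → ‖deriv (gg β) (θ * I + x)‖ ≤ C)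
    (hε : ∀ x : ℝ, 0 < x → x < h → x * ‖deriv (deriv (gg β)) (θ * I + x)‖ ≤ ε) :
    Tendsto (fun x : ℝ => gg β (θ * I + x)) (𝓝[>] 0) (𝓝 (cc β θ)) ∧
      ∀ x : ℝ, 0 < x → x < h →
        ‖gg β (θ * I + x) - x * deriv (gg β) (θ * I + x) - cc β θ‖ ≤ ε * x := by
  have hC0 : 0 ≤ C := (norm_nonneg _).trans (hC (h / 2) (by linarith) (by linarith))
  have hlip : ∀ x ∈ Ioo (0 : ℝ) h, ∀ y ∈ Ioo (0 : ℝ) h,
      ‖gg β (θ * I + y) - gg β (θ * I + x)‖ ≤ C * |y - x| := by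
    intro x hx y hy
    have := (convex_Ioo (0 : ℝ) h).norm_image_sub_le_of_norm_hasDerivWithin_le
      (f := fun x : ℝ => gg β (θ * I + x)) (f' := fun x : ℝ => deriv (gg β) (θ * I + x)) (C := C)
      (fun z hz => (ray_hasDeriv hβ θ hz.1).hasDerivWithinAt) (fun z hz => hC z hz.1 hz.2) hx hy
    rwa [Real.norm_eq_abs] at this
  have hcau : Cauchy (map (fun x : ℝ => gg β (θ * I + x)) (𝓝[>] 0)) := by
    rw [Metric.cauchy_iff]
    refine ⟨inferInstance, fun δ hδ => ?_⟩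
    set m : ℝ := min h (δ / (C + 1)) with hm
    have hm0 : 0 < m := lt_min hh (by positivity)
    refine ⟨(fun x : ℝ => gg β (θ * I + x)) '' Ioo 0 m, image_mem_map (Ioo_mem_nhdsGT hm0), ?_⟩
    rintro _ ⟨x, hx, rfl⟩ _ ⟨y, hy, rfl⟩
    have h1 := hlip y ⟨hy.1, hy.2.trans_le (min_le_left _ _)⟩ x
      ⟨hx.1, hx.2.trans_le (min_le_left _ _)⟩
    rw [dist_eq_norm]
    have h3 : |x - y| ≤ m := by
      rw [abs_le]
      constructor <;> linarith [hx.1, hx.2, hy.1, hy.2]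
    calc ‖gg β (θ * I + x) - gg β (θ * I + y)‖ ≤ C * |x - y| := h1
      _ ≤ C * (δ / (C + 1)) := by
          gcongr
          exact h3.trans (min_le_right _ _)
      _ < δ := by
          rw [← mul_div_assoc, div_lt_iff₀ (by positivity)]
          nlinarith
  obtain ⟨c, hc⟩ := CompleteSpace.complete hcau
  have hc' : Tendsto (fun x : ℝ => gg β (θ * I + x)) (𝓝[>] 0) (𝓝 c) := hc
  have hcc : cc β θ = c := hc'.limUnder_eq
  rw [hcc]
  refine ⟨hc', fun x hx hxh => ?_⟩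
  have hlip2 : ∀ y ∈ Ioo (0 : ℝ) h,
      ‖(gg β (θ * I + x) - x * deriv (gg β) (θ * I + x)) -
        (gg β (θ * I + y) - y * deriv (gg β) (θ * I + y))‖ ≤ ε * |x - y| := by
    intro y hy
    have := (convex_Ioo (0 : ℝ) h).norm_image_sub_le_of_norm_hasDerivWithin_le
      (f := fun x : ℝ => gg β (θ * I + x) - x * deriv (gg β) (θ * I + x))
      (f' := fun x : ℝ => deriv (gg β) (θ * I + x) - (1 * deriv (gg β) (θ * I + x) +
        x * deriv (deriv (gg β)) (θ * I + x))) (C := ε)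
      (fun z hz => by
        have h3 : HasDerivAt (fun t : ℝ => (t : ℂ)) 1 z := Complex.ofRealCLM.hasDerivAt
        exact ((ray_hasDeriv hβ θ hz.1).sub (h3.mul (ray_hasDeriv2 hβ θ hz.1))).hasDerivWithinAt)
      (fun z hz => by
        have h4 : deriv (gg β) (θ * I + z) - (1 * deriv (gg β) (θ * I + z) +
          z * deriv (deriv (gg β)) (θ * I + z)) = -(z * deriv (deriv (gg β)) (θ * I + z)) := by ring
        rw [h4, norm_neg, norm_mul, norm_real, Real.norm_eq_abs, abs_of_pos hz.1]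
        exact hε z hz.1 hz.2) hy (show x ∈ Ioo (0 : ℝ) h from ⟨hx, hxh⟩)
    rwa [Real.norm_eq_abs] at this
  have hx0 : Tendsto (fun y : ℝ => (y : ℂ) * deriv (gg β) (θ * I + y)) (𝓝[>] 0) (𝓝 0) := by
    apply squeeze_zero_norm' (a := fun y : ℝ => y * C)
    · filter_upwards [Ioo_mem_nhdsGT hh] with y hy
      rw [norm_mul, norm_real, Real.norm_eq_abs, abs_of_pos hy.1]
      exact mul_le_mul_of_nonneg_left (hC y hy.1 hy.2) hy.1.le
    · have : Continuous fun y : ℝ => y * C := by fun_prop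
      have h2 := (this.tendsto 0).mono_left (nhdsWithin_le_nhds : 𝓝[>] (0 : ℝ) ≤ 𝓝 0)
      simpa using h2
  have hl1 : Tendsto (fun y : ℝ => ‖(gg β (θ * I + x) - x * deriv (gg β) (θ * I + x)) -
        (gg β (θ * I + y) - y * deriv (gg β) (θ * I + y))‖) (𝓝[>] 0)
        (𝓝 ‖(gg β (θ * I + x) - x * deriv (gg β) (θ * I + x)) - (c - 0)‖) :=
    ((hc'.sub hx0).const_sub _).norm
  rw [sub_zero] at hl1
  have hl2 : Tendsto (fun y : ℝ => ε * |x - y|) (𝓝[>] 0) (𝓝 (ε * x)) := by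
    have : Continuous fun y : ℝ => ε * |x - y| := by fun_prop
    have h2 := (this.tendsto 0).mono_left (nhdsWithin_le_nhds : 𝓝[>] (0 : ℝ) ≤ 𝓝 0)
    simpa [abs_of_pos hx] using h2
  apply le_of_tendsto_of_tendsto hl1 hl2
  filter_upwards [Ioo_mem_nhdsGT hh] with y hy
  exact hlip2 y hy

theorem FG_ray {d : ℕ} {β : ℂ → ℂ} (hβ : IsBeta d β) {m h θ : ℝ} (hh : 0 < h)
    (hθ : θ ∈ FG β m h) : Tendsto (fun x : ℝ => gg β (θ * I + x)) (𝓝[>] 0) (𝓝 (cc β θ)) ∧
      ∀ x : ℝ, 0 < x → x < h →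
        ‖gg β (θ * I + x) - x * deriv (gg β) (θ * I + x) - cc β θ‖ ≤ m / 12 * x := by
  apply ray_expansion hβ hh (C := 2 * m)
  · intro x hx hxh
    have := (hθ x hx hxh 1 one_mem_CK).2.1
    rwa [mul_one] at this
  · intro x hx hxh
    have := (hθ x hx hxh 1 one_mem_CK).2.2
    rwa [mul_one] at this

/-- comparison with the point at the side -/
theorem FG_side {d : ℕ} {β : ℂ → ℂ} (hβ : IsBeta d β) {m h θ x y : ℝ}
    (hθ : θ ∈ FG β m h) (hx : 0 < x) (hxh : x < h) (hy : |y| ≤ 1 / 2) :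
    ‖gg β (θ * I + x * (1 + y * I)) - gg β (θ * I + x) -
      deriv (gg β) (θ * I + x) * (x * (y * I))‖ ≤ m / 12 * x ∧
    ‖deriv (gg β) (θ * I + x * (1 + y * I)) - deriv (gg β) (θ * I + x)‖ ≤ m / 24 := by
  have hm0 : 0 ≤ m := by
    have h1 := (hθ x hx hxh 1 one_mem_CK)
    linarith [h1.1, h1.2.1]
  have hCK : ∀ z ∈ Icc (-(1 / 2) : ℝ) (1 / 2), (1 : ℂ) + z * I ∈ CK 4 := by
    intro z hz
    refine ⟨by simp; norm_num, ?_⟩
    refine (norm_add_le _ _).trans ?_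
    rw [norm_one, norm_mul, norm_I, mul_one, norm_real, Real.norm_eq_abs]
    have : |z| ≤ 1 / 2 := abs_le.mpr ⟨by linarith [hz.1], hz.2⟩
    linarith
  have h0 : (0 : ℝ) ∈ Icc (-(1 / 2) : ℝ) (1 / 2) := by constructor <;> norm_num
  have hyI : y ∈ Icc (-(1 / 2) : ℝ) (1 / 2) := by
    have := abs_le.mp hy
    exact ⟨this.1, this.2⟩
  have hin : ∀ z : ℝ, HasDerivAt (fun z : ℝ => (θ : ℂ) * I + x * (1 + z * I)) (x * I) z := by
    intro z
    have h3 : HasDerivAt (fun t : ℝ => (t : ℂ)) 1 z := Complex.ofRealCLM.hasDerivAt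
    have h4 := (((h3.mul_const I).const_add 1).const_mul (x : ℂ)).const_add ((θ : ℂ) * I)
    simpa using h4
  -- derivative comparison
  have hder : ∀ z ∈ Icc (-(1 / 2) : ℝ) (1 / 2),
      ‖deriv (gg β) (θ * I + x * (1 + z * I)) - deriv (gg β) (θ * I + x)‖ ≤ m / 24 := by
    intro z hz
    have := (convex_Icc (-(1 / 2) : ℝ) (1 / 2)).norm_image_sub_le_of_norm_hasDerivWithin_le
      (f := fun z : ℝ => deriv (gg β) (θ * I + x * (1 + z * I)))
      (f' := fun z : ℝ => (x * I) * deriv (deriv (gg β)) (θ * I + x * (1 + z * I))) (C := m / 12)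
      (fun z hz => by
        have h1 : HasDerivAt (deriv (gg β)) (deriv (deriv (gg β)) (θ * I + x * (1 + z * I)))
            (θ * I + x * (1 + z * I)) :=
          ((dgg_diffOn hβ).differentiableAt
            (isOpen_HP.mem_nhds (CK_mem hx (hCK z hz)))).hasDerivAt
        exact (h1.scomp z (hin z)).hasDerivWithinAt) (fun z hz => by
        rw [norm_mul, norm_mul, norm_I, mul_one, norm_real, Real.norm_eq_abs, abs_of_pos hx]
        exact (hθ x hx hxh _ (hCK z hz)).2.2) h0 hz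
    simp only [ofReal_zero, zero_mul, add_zero, mul_one, sub_zero] at this
    refine this.trans ?_
    rw [Real.norm_eq_abs]
    have hz' : |z| ≤ 1 / 2 := abs_le.mpr ⟨by linarith [hz.1], hz.2⟩
    nlinarith
  refine ⟨?_, hder y hyI⟩
  have := (convex_Icc (-(1 / 2) : ℝ) (1 / 2)).norm_image_sub_le_of_norm_hasDerivWithin_le
    (f := fun z : ℝ => gg β (θ * I + x * (1 + z * I)) - deriv (gg β) (θ * I + x) * (x * (z * I)))
    (f' := fun z : ℝ => (x * I) * deriv (gg β) (θ * I + x * (1 + z * I)) -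
      deriv (gg β) (θ * I + x) * (x * (1 * I))) (C := m / 24 * x)
    (fun z hz => by
      have h1 : HasDerivAt (gg β) (deriv (gg β) (θ * I + x * (1 + z * I)))
          (θ * I + x * (1 + z * I)) := (gg_differentiableAt hβ (CK_mem hx (hCK z hz))).hasDerivAt
      have h3 : HasDerivAt (fun t : ℝ => (t : ℂ)) 1 z := Complex.ofRealCLM.hasDerivAt
      exact ((h1.scomp z (hin z)).sub (((h3.mul_const I).const_mul (x : ℂ)).const_mul
        (deriv (gg β) (θ * I + x)))).hasDerivWithinAt) (fun z hz => by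
      have h4 : (x * I) * deriv (gg β) (θ * I + x * (1 + z * I)) -
        deriv (gg β) (θ * I + x) * (x * (1 * I)) =
        (x * I) * (deriv (gg β) (θ * I + x * (1 + z * I)) - deriv (gg β) (θ * I + x)) := by ring
      rw [h4, norm_mul, norm_mul, norm_I, mul_one, norm_real, Real.norm_eq_abs, abs_of_pos hx]
      have := hder z hz
      nlinarith) h0 hyI
  simp only [ofReal_zero, zero_mul, add_zero, mul_one, sub_zero, mul_zero] at this
  have h5 : gg β (θ * I + x * (1 + y * I)) - gg β (θ * I + x) -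
      deriv (gg β) (θ * I + x) * (x * (y * I)) =
      gg β (θ * I + x * (1 + y * I)) - deriv (gg β) (θ * I + x) * (x * (y * I)) -
      gg β (θ * I + x) := by ring
  rw [h5]
  refine this.trans ?_
  rw [Real.norm_eq_abs]
  have : 0 ≤ m * x := by positivity
  nlinarith [abs_nonneg y]

theorem FG_bilip {d : ℕ} {β : ℂ → ℂ} (hβ : IsBeta d β) {m h : ℝ} {θ θ' : ℝ}
    (hθ : θ ∈ FG β m h) (hθ' : θ' ∈ FG β m h) (hd : |θ - θ'| < h) :
    m / 2 * |θ - θ'| ≤ ‖cc β θ - cc β θ'‖ ∧ ‖cc β θ - cc β θ'‖ ≤ 3 * m * |θ - θ'| := by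
  rcases eq_or_ne θ θ' with he | hne
  · subst he; simp
  have hη : 0 < |θ - θ'| := abs_pos.mpr (sub_ne_zero.mpr hne)
  set η : ℝ := |θ - θ'| with hηd
  have hh : 0 < h := hη.trans hd
  set s : ℂ := (η : ℂ) + ((θ + θ') / 2 : ℝ) * I with hs
  have hηC : (η : ℂ) ≠ 0 := by exact_mod_cast hη.ne'
  have key : ∀ u : ℝ, u ∈ FG β m h → |(θ + θ') / 2 - u| = η / 2 →
      ‖gg β s - cc β u - deriv (gg β) (u * I + η) * (s - u * I)‖ ≤ m / 6 * η ∧
      ‖deriv (gg β) s - deriv (gg β) (u * I + η)‖ ≤ m / 24 := by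
    intro u hu hut
    set y : ℝ := ((θ + θ') / 2 - u) / η with hy
    have hya : |y| ≤ 1 / 2 := by
      rw [hy, abs_div, hut, abs_of_pos hη]
      apply le_of_eq; field_simp
    have hsy : s = u * I + η * (1 + y * I) := by
      rw [hs, hy]; push_cast; field_simp; ring
    obtain ⟨h1, h2⟩ := FG_side hβ hu hη hd hya
    have h3 := (FG_ray hβ hh hu).2 η hη hd
    rw [← hsy] at h1 h2
    refine ⟨?_, h2⟩
    have h4 : gg β s - cc β u - deriv (gg β) (u * I + η) * (s - u * I) =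
        (gg β s - gg β (u * I + η) - deriv (gg β) (u * I + η) * (η * (y * I))) +
        (gg β (u * I + η) - η * deriv (gg β) (u * I + η) - cc β u) := by
      have : s - u * I = η * (1 + y * I) := by rw [hsy]; ring
      rw [this]; ring
    rw [h4]
    refine (norm_add_le _ _).trans ?_
    linarith
  have h1 : |(θ + θ') / 2 - θ| = η / 2 := by
    have : (θ + θ') / 2 - θ = -((θ - θ') / 2) := by ring
    rw [this, abs_neg, abs_div, ← hηd]; norm_num
  have h2 : |(θ + θ') / 2 - θ'| = η / 2 := by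
    have : (θ + θ') / 2 - θ' = (θ - θ') / 2 := by ring
    rw [this, abs_div, ← hηd]; norm_num
  obtain ⟨e1, f1⟩ := key θ hθ h1
  obtain ⟨e2, f2⟩ := key θ' hθ' h2
  set a1 := deriv (gg β) (θ * I + η) with ha1
  set a2 := deriv (gg β) (θ' * I + η) with ha2
  have hA := hθ η hη hd 1 one_mem_CK
  rw [mul_one, ← ha1] at hA
  have ha12 : ‖a2 - a1‖ ≤ m / 12 := by
    have : a2 - a1 = (deriv (gg β) s - a1) - (deriv (gg β) s - a2) := by ring
    rw [this]
    exact (norm_sub_le _ _).trans (by linarith)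
  have hs2 : ‖s - θ' * I‖ ≤ 3 / 2 * η := by
    have h3 : s - θ' * I = (η : ℂ) + (((θ + θ') / 2 - θ' : ℝ) : ℂ) * I := by
      rw [hs]; push_cast; ring
    rw [h3]
    refine (norm_add_le _ _).trans ?_
    rw [norm_mul, norm_I, mul_one, norm_real, norm_real, Real.norm_eq_abs, Real.norm_eq_abs, h2,
      abs_of_pos hη]
    linarith
  have hkey : cc β θ - cc β θ' - a1 * ((θ - θ' : ℝ) * I) =
      (gg β s - cc β θ' - a2 * (s - θ' * I)) - (gg β s - cc β θ - a1 * (s - θ * I)) +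
      (a2 - a1) * (s - θ' * I) := by
    push_cast; ring
  have h3 : ‖cc β θ - cc β θ' - a1 * ((θ - θ' : ℝ) * I)‖ ≤ 11 / 24 * m * η := by
    rw [hkey]
    refine (norm_add_le _ _).trans ?_
    rw [norm_mul]
    have h4 := norm_sub_le (gg β s - cc β θ' - a2 * (s - θ' * I))
      (gg β s - cc β θ - a1 * (s - θ * I))
    have h5 : ‖a2 - a1‖ * ‖s - θ' * I‖ ≤ m / 12 * (3 / 2 * η) := by
      have : 0 ≤ m / 12 := (norm_nonneg _).trans ha12
      gcongr
    linarith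
  have h4 : ‖a1 * ((θ - θ' : ℝ) * I)‖ = ‖a1‖ * η := by
    rw [norm_mul, norm_mul, norm_I, mul_one, norm_real, Real.norm_eq_abs]
  have h5 := norm_sub_norm_le (a1 * ((θ - θ' : ℝ) * I))
    (a1 * ((θ - θ' : ℝ) * I) - (cc β θ - cc β θ'))
  rw [sub_sub_cancel, norm_sub_rev (a1 * ((θ - θ' : ℝ) * I)), h4] at h5
  have h6 := norm_add_le (cc β θ - cc β θ' - a1 * ((θ - θ' : ℝ) * I)) (a1 * ((θ - θ' : ℝ) * I))
  rw [sub_add_cancel, h4] at h6
  have h7 : m * η ≤ ‖a1‖ * η := by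
    have := hA.1
    gcongr
  have h8 : ‖a1‖ * η ≤ 2 * m * η := by
    have := hA.2.1
    gcongr
  have hm0 : 0 ≤ m := by linarith [hA.1, hA.2.1]
  have h9 : 0 ≤ m * η := by positivity
  constructor
  · linarith
  · linarith

theorem FG_mem {d : ℕ} (hd : 2 ≤ d) {β : ℂ → ℂ} (hβ : IsBeta d β) {m h : ℝ} (hh : 0 < h)
    {θ : ℝ} (hθ : θ ∈ FG β m h) : cc β θ ∈ multibrotSet d := by
  apply mem_of_tendsto_gg hd hβ (s := fun x : ℝ => (θ : ℂ) * I + x) (l := 𝓝[>] (0 : ℝ)) _ _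
    (FG_ray hβ hh hθ).1
  · filter_upwards [self_mem_nhdsWithin] with x hx
    have hx' : 0 < x := hx
    simpa using hx'
  · have : (fun x : ℝ => ((θ : ℂ) * I + x).re) = fun x => x := by
      funext x; simp
    rw [this]
    exact nhdsWithin_le_nhds

/-- the abstract properties of a good compact set of angles -/
structure Piece (d : ℕ) (β : ℂ → ℂ) (E : Set ℝ) (m : ℝ) : Prop where
  comp : IsCompact E
  pos : 0 < m
  cont : ContinuousOn (cc β) E
  mem : ∀ θ ∈ E, cc β θ ∈ multibrotSet d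
  lip : ∀ θ ∈ E, ∀ θ' ∈ E, m * |θ - θ'| ≤ ‖cc β θ - cc β θ'‖

theorem FG_piece {d : ℕ} (hd : 2 ≤ d) {β : ℂ → ℂ} (hβ : IsBeta d β) {m h : ℝ} (hm : 0 < m)
    (hh : 0 < h) (p : ℝ) : Piece d β (FG β m h ∩ Icc p (p + h / 2)) (m / 2) := by
  have hdist : ∀ θ ∈ FG β m h ∩ Icc p (p + h / 2), ∀ θ' ∈ FG β m h ∩ Icc p (p + h / 2),
      |θ - θ'| < h := by
    intro θ hθ θ' hθ'
    rw [abs_lt]
    constructor <;> linarith [hθ.2.1, hθ.2.2, hθ'.2.1, hθ'.2.2]
  refine ⟨isCompact_Icc.inter_left (isClosed_FG hβ m h), by linarith, ?_, ?_, ?_⟩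
  · have hL : LipschitzOnWith (Real.toNNReal (3 * m)) (cc β) (FG β m h ∩ Icc p (p + h / 2)) := by
      apply LipschitzOnWith.of_dist_le_mul
      intro x hx y hy
      rw [dist_eq_norm, Real.dist_eq, Real.coe_toNNReal _ (by positivity)]
      exact (FG_bilip hβ hx.1 hy.1 (hdist x hx y hy)).2
    exact hL.continuousOn
  · intro θ hθ
    exact FG_mem hd hβ hh hθ.1
  · intro θ hθ θ' hθ'
    exact (FG_bilip hβ hθ.1 hθ'.1 (hdist θ hθ θ' hθ')).1

end Pool.Agent.TH425.AD
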