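import Mathlib
import Pool.Agent.TH425.AD.G

set_option autoImplicit false

open Complex Topology Filter Metric MeasureTheory Set N62a1eb23 Real

namespace Pool.Agent.TH425.AD

open Pool.Agent.H713R2 Pool.Agent.H712R2 Pool.Agent.Helper202.Univ Pool.Agent.H713R2.AR

theorem beta_sub_ne {d : ℕ} {β : ℂ → ℂ} (hβ : IsBeta d β) {c : ℂ} (hc : c ∈ multibrotSet d)
    {u : ℂ} (hu : u ∈ ball (0 : ℂ) 1) : β u - c * u ≠ 0 := by
  intro h
  by_cases hu0 : u = 0
  · rw [hu0, hβ.zero, mul_zero, sub_zero] at h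
    exact one_ne_zero h
  · apply hβ.notMem u hu hu0
    have : u⁻¹ * β u = c := by
      have h1 : β u = c * u := by linear_combination h
      rw [h1]; field_simp
    rw [this]
    exact hc

theorem closedBall_sub {q : ℝ} (hq0 : 0 < q) (hq1 : q < 1) : closedBall (0 : ℂ) |q| ⊆ ball 0 1 := by
  rw [abs_of_pos hq0]
  exact closedBall_subset_ball hq1

theorem sphere_sub {q : ℝ} (hq0 : 0 < q) (hq1 : q < 1) : sphere (0 : ℂ) |q| ⊆ ball 0 1 :=
  sphere_subset_closedBall.trans (closedBall_sub hq0 hq1)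

theorem beta_sub_an {d : ℕ} {β : ℂ → ℂ} (hβ : IsBeta d β) (c : ℂ) :
    DifferentiableOn ℂ (fun u => β u - c * u) (ball 0 1) :=
  hβ.diff.sub (by fun_prop)

theorem avg_mem {d : ℕ} {β : ℂ → ℂ} (hβ : IsBeta d β) {c : ℂ} (hc : c ∈ multibrotSet d)
    {q : ℝ} (hq0 : 0 < q) (hq1 : q < 1) :
    circleAverage (fun u => Real.log ‖β u - c * u‖) 0 q = 0 := by
  have h := AnalyticOnNhd.circleAverage_log_norm_of_ne_zero (R := q) (c := 0)
    (g := fun u => β u - c * u)
    (((beta_sub_an hβ c).analyticOnNhd isOpen_ball).mono (closedBall_sub hq0 hq1))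
    (fun u hu => beta_sub_ne hβ hc (closedBall_sub hq0 hq1 hu))
  rw [h]
  simp [hβ.zero]

theorem avg_notMem {d : ℕ} {β : ℂ → ℂ} (hβ : IsBeta d β) {x : ℂ} (hx : x ∈ ball (0 : ℂ) 1)
    (hx0 : x ≠ 0) {q : ℝ} (hq0 : 0 < q) (hq1 : q < 1) :
    0 ≤ circleAverage (fun u => Real.log ‖β u - (x⁻¹ * β x) * u‖) 0 q ∧
    Real.log q - Real.log ‖x‖ ≤ circleAverage (fun u => Real.log ‖β u - (x⁻¹ * β x) * u‖) 0 q := by
  set c : ℂ := x⁻¹ * β x with hc
  have hxp : 0 < ‖x‖ := norm_pos_iff.mpr hx0
  set f : ℂ → ℂ := fun u => β u - c * u with hf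
  have hfd : DifferentiableOn ℂ f (ball 0 1) := beta_sub_an hβ c
  have hf0 : f 0 = 1 := by simp [hf, hβ.zero]
  have hfx : f x = 0 := by
    simp only [hf, hc]
    field_simp
    ring
  have hzero : ∀ u ∈ ball (0 : ℂ) 1, f u = 0 → u = x := by
    intro u hu h
    have hu0 : u ≠ 0 := by
      rintro rfl
      rw [hf0] at h
      exact one_ne_zero h
    apply hβ.inj u hu x hx hu0 hx0
    have h1 : β u = c * u := by
      have : β u - c * u = 0 := h
      linear_combination this
    rw [h1, ← hc]; field_simp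
  rcases lt_or_ge q ‖x‖ with hxq | hxq
  · have h := AnalyticOnNhd.circleAverage_log_norm_of_ne_zero (R := q) (c := 0)
      (g := f) ((hfd.analyticOnNhd isOpen_ball).mono (closedBall_sub hq0 hq1)) (by
        intro u hu h0
        have h1 := hzero u (closedBall_sub hq0 hq1 hu) h0
        rw [abs_of_pos hq0, mem_closedBall_zero_iff, h1] at hu
        linarith)
    rw [hf0, norm_one, Real.log_one] at h
    have h2 : Real.log q ≤ Real.log ‖x‖ := Real.log_le_log hq0 hxq.le
    rw [h]
    exact ⟨le_rfl, by linarith⟩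
  · set G : ℂ → ℂ := dslope f x with hG
    have hGd : DifferentiableOn ℂ G (ball 0 1) :=
      (differentiableOn_dslope (isOpen_ball.mem_nhds hx)).mpr hfd
    have hfG : ∀ u, f u = (u - x) * G u := by
      intro u
      have := sub_smul_dslope f x u
      rw [hfx, sub_zero, smul_eq_mul] at this
      exact this.symm
    -- derivative at x
    have hder : deriv f x ≠ 0 := by
      set D : Set ℂ := ball 0 1 \ {0} with hD
      have hDo : IsOpen D := isOpen_ball.sdiff isClosed_singleton
      have hxD : x ∈ D := ⟨hx, hx0⟩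
      have hzd : DifferentiableOn ℂ (zz β) D := by
        intro y hy
        have hy0 : y ≠ 0 := hy.2
        apply DifferentiableAt.differentiableWithinAt
        exact (differentiableAt_inv_iff.mpr hy0).mul
          (hβ.diff.differentiableAt (isOpen_ball.mem_nhds hy.1))
      have hzi : InjOn (zz β) D := fun y hy w hw h => hβ.inj y hy.1 w hw.1 hy.2 hw.2 h
      have h1 := Pool.Agent.Helper114.Montel.deriv_ne_zero_of_injOn hDo (zz β) hzd hzi hxD
      have h2 : HasDerivAt (zz β) (deriv (zz β) x) x :=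
        (hzd.differentiableAt (hDo.mem_nhds hxD)).hasDerivAt
      have h3 : HasDerivAt (fun u : ℂ => u * (zz β u - c)) (1 * (zz β x - c) + x * deriv (zz β) x) x :=
        (hasDerivAt_id x).mul (h2.sub_const c)
      have h4 : f =ᶠ[𝓝 x] fun u : ℂ => u * (zz β u - c) := by
        filter_upwards [isOpen_ne.mem_nhds hx0] with u hu
        have hu' : u ≠ 0 := hu
        simp only [hf, zz]
        field_simp
      have h5 : zz β x - c = 0 := by
        simp only [zz, hc]
        ring
      rw [h4.deriv_eq, h3.deriv, h5]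
      simpa using ⟨hx0, h1⟩
    have hGne : ∀ u ∈ ball (0 : ℂ) 1, G u ≠ 0 := by
      intro u hu h
      by_cases hux : u = x
      · rw [hux, hG, dslope_same] at h
        exact hder h
      · have h1 := hfG u
        rw [h, mul_zero] at h1
        exact hux (hzero u hu h1)
    have hG0 : ‖x‖ * ‖G 0‖ = 1 := by
      have h1 := hfG 0
      rw [hf0, zero_sub] at h1
      have h2 := congrArg norm h1
      rw [norm_one, norm_mul, norm_neg] at h2
      exact h2.symm
    have hGan : AnalyticOnNhd ℂ G (closedBall 0 |q|) :=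
      (hGd.analyticOnNhd isOpen_ball).mono (closedBall_sub hq0 hq1)
    have hGavg := AnalyticOnNhd.circleAverage_log_norm_of_ne_zero (R := q) (c := 0)
      (g := G) hGan (fun u hu => hGne u (closedBall_sub hq0 hq1 hu))
    have hlin := circleAverage_log_norm_sub_const_of_mem_closedBall (a := x) (c := 0) (R := q)
      (by rw [abs_of_pos hq0, mem_closedBall_zero_iff]; exact hxq)
    have hcongr : circleAverage (fun u => Real.log ‖f u‖) 0 q =
        circleAverage (fun u => Real.log ‖u - x‖ + Real.log ‖G u‖) 0 q := by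
      apply circleAverage_congr_codiscreteWithin _ hq0.ne'
      have : {z : ℂ | z ≠ x} ∈ codiscreteWithin (Metric.sphere (0 : ℂ) |q|) := by
        apply codiscreteWithin_iff_locallyFiniteComplementWithin.2
        intro z hz
        refine ⟨Set.univ, univ_mem, ?_⟩
        apply Set.Subsingleton.finite
        intro z₁ hz₁ z₂ hz₂
        simp only [ne_eq, Set.univ_inter, Set.mem_sdiff, Set.mem_ofPred_eq, Decidable.not_not] at hz₁ hz₂
        rw [hz₁.2, hz₂.2]
      have h2 : Metric.sphere (0 : ℂ) |q| ∈ codiscreteWithin (Metric.sphere (0 : ℂ) |q|) := by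
        exact self_mem_codiscreteWithin _
      filter_upwards [this, h2] with z hz hz2
      have hz1 : z ∈ ball (0 : ℂ) 1 := sphere_sub hq0 hq1 hz2
      rw [hfG z, norm_mul, Real.log_mul (norm_ne_zero_iff.2 (sub_ne_zero.mpr hz))
        (norm_ne_zero_iff.2 (hGne z hz1))]
    have hsum : circleAverage (fun u => Real.log ‖u - x‖ + Real.log ‖G u‖) 0 q =
        Real.log q + Real.log ‖G 0‖ := by
      rw [circleAverage_fun_add, hlin, hGavg]
      · exact (MeromorphicOn.circleIntegrable_log_norm (fun _ _ ↦ by fun_prop))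
      · exact MeromorphicOn.circleIntegrable_log_norm
          (fun u hu => (hGan u (sphere_subset_closedBall hu)).meromorphicAt)
    have hlG : Real.log ‖G 0‖ = - Real.log ‖x‖ := by
      have h1 : ‖G 0‖ = ‖x‖⁻¹ := by field_simp; linarith
      rw [h1, Real.log_inv]
    have hfin : circleAverage (fun u => Real.log ‖f u‖) 0 q = Real.log q - Real.log ‖x‖ := by
      rw [hcongr, hsum, hlG]; ring
    rw [hfin]
    have : Real.log ‖x‖ ≤ Real.log q := Real.log_le_log hxp hxq
    exact ⟨by linarith, le_rfl⟩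

/-- the mean value bound for the size of the critical orbit -/
theorem posLog_P_le {d : ℕ} (hd : 2 ≤ d) {β : ℂ → ℂ} (hβ : IsBeta d β) (n : ℕ) (c : ℂ)
    {q : ℝ} (hq0 : 0 < q) (hq1 : q < 1) :
    Real.posLog ‖P d (n + 1) c‖ ≤ Real.log 2 + (d : ℝ) ^ n *
      (circleAverage (fun u => Real.log ‖β u - c * u‖) 0 q - Real.log q) := by
  have hlq : Real.log q < 0 := Real.log_neg hq0 hq1
  have hdn : (0 : ℝ) < (d : ℝ) ^ n := by
    have : (2 : ℝ) ≤ d := by exact_mod_cast hd
    positivity
  have hl2 : Real.posLog 2 = Real.log 2 := by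
    apply Real.posLog_eq_log
    rw [abs_of_pos (by norm_num)]; norm_num
  by_cases hc : c ∈ multibrotSet d
  · rw [avg_mem hβ hc hq0 hq1]
    have h1 := (mem_multibrot_iff hd c).mp hc (n + 1)
    have h2 := Real.posLog_le_posLog (norm_nonneg _) h1
    rw [hl2] at h2
    nlinarith
  · obtain ⟨x, hx, hx0, hxc⟩ := hβ.surj c hc
    have h1 := avg_notMem hβ hx hx0 hq0 hq1
    rw [hxc] at h1
    have hxp : 0 < ‖x‖ := norm_pos_iff.mpr hx0
    have hx1 : ‖x‖ < 1 := mem_ball_zero_iff.mp hx
    have h2 := P_psi_le hd hβ n (one_lt_norm_inv hx hx0)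
    rw [inv_inv, hxc, norm_inv] at h2
    have hxi : 1 ≤ ‖x‖⁻¹ := (one_lt_inv_iff₀.mpr ⟨hxp, hx1⟩).le
    have h3 : Real.posLog ‖P d (n + 1) c‖ ≤ Real.posLog (2 * ‖x‖⁻¹ ^ (d ^ n)) :=
      Real.posLog_le_posLog (norm_nonneg _) h2
    have h4 : 1 ≤ ‖x‖⁻¹ ^ (d ^ n) := one_le_pow₀ hxi
    rw [Real.posLog_eq_log (x := 2 * ‖x‖⁻¹ ^ (d ^ n)) (by
      rw [abs_of_nonneg (by positivity)]; linarith), Real.log_mul (by norm_num) (by positivity),
      Real.log_pow, Real.log_inv] at h3
    push_cast at h3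
    have h5 : (d : ℝ) ^ n * (-Real.log ‖x‖) ≤ (d : ℝ) ^ n *
      (circleAverage (fun u => Real.log ‖β u - c * u‖) 0 q - Real.log q) := by
      apply mul_le_mul_of_nonneg_left _ hdn.le
      linarith [h1.2]
    linarith

end Pool.Agent.TH425.AD
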