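import Mathlib
import Pool.Agent.TH425.AD.J

set_option autoImplicit false

open Complex Topology Filter Metric MeasureTheory Set N62a1eb23 Real

namespace Pool.Agent.TH425.AD

open Pool.Agent.H713R2 Pool.Agent.H712R2 Pool.Agent.Helper202.Univ Pool.Agent.H713R2.AR

theorem avg_mono_countable {f₁ f₂ : ℂ → ℝ} {q : ℝ} (hq : q ≠ 0) (hf₁ : CircleIntegrable f₁ 0 q)
    (hf₂ : CircleIntegrable f₂ 0 q) {Z : Set ℂ} (hZ : Z.Countable)
    (h : ∀ u ∈ sphere (0 : ℂ) |q|, u ∉ Z → f₁ u ≤ f₂ u) :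
    circleAverage f₁ 0 q ≤ circleAverage f₂ 0 q := by
  unfold circleAverage
  rw [smul_eq_mul, smul_eq_mul, mul_le_mul_iff_of_pos_left (inv_pos.2 Real.two_pi_pos)]
  apply intervalIntegral.integral_mono_ae (le_of_lt Real.two_pi_pos) hf₁ hf₂
  have h1 : volume (circleMap (0 : ℂ) q ⁻¹' Z) = 0 :=
    (hZ.preimage_circleMap 0 hq).measure_zero _
  have h2 : ∀ᵐ θ : ℝ, θ ∉ circleMap (0 : ℂ) q ⁻¹' Z := measure_eq_zero_iff_ae_notMem.mp h1
  filter_upwards [h2] with θ hθ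
  exact h _ (circleMap_mem_sphere' 0 q θ) hθ

/-- the pointwise linearised estimate -/
theorem log_lin {Δ h : ℂ} {r : ℝ} (hr : 0 < r) (hΔ : Δ ≠ 0) (hh : ‖h‖ ≤ r) (hne : Δ - h ≠ 0) :
    Real.log ‖Δ - h‖ ≤ Real.log ‖Δ‖ + 1 / 2 * Real.log (1 + 2 * r ^ 2 / ‖Δ‖ ^ 2) -
      (h * ((starRingEnd ℂ) Δ / ((‖Δ‖ ^ 2 + 2 * r ^ 2 : ℝ) : ℂ))).re := by
  set S : ℝ := ‖Δ‖ ^ 2 + 2 * r ^ 2 with hS
  have hΔp : 0 < ‖Δ‖ := norm_pos_iff.mpr hΔ
  have hSp : 0 < S := by positivity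
  have hyp : 0 < ‖Δ - h‖ := norm_pos_iff.mpr hne
  have h1 : ‖Δ - h‖ ^ 2 ≤ S - 2 * (h * (starRingEnd ℂ) Δ).re := by
    rw [Complex.sq_norm, Complex.normSq_sub, hS, ← Complex.sq_norm, ← Complex.sq_norm]
    have h2 : ‖h‖ ^ 2 ≤ r ^ 2 := pow_le_pow_left₀ (norm_nonneg _) hh 2
    have h3 : (Δ * (starRingEnd ℂ) h).re = (h * (starRingEnd ℂ) Δ).re := by
      simp [Complex.mul_re]; ring
    rw [h3]
    nlinarith
  have h2 : (h * ((starRingEnd ℂ) Δ / (S : ℂ))).re = (h * (starRingEnd ℂ) Δ).re / S := by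
    rw [← mul_div_assoc, Complex.div_ofReal_re]
  rw [h2]
  have h3 : Real.log (‖Δ - h‖ ^ 2 / S) ≤ ‖Δ - h‖ ^ 2 / S - 1 :=
    Real.log_le_sub_one_of_pos (by positivity)
  have h4 : ‖Δ - h‖ ^ 2 / S - 1 ≤ - 2 * ((h * (starRingEnd ℂ) Δ).re / S) := by
    rw [div_sub_one hSp.ne', ← mul_div_assoc]
    apply div_le_div_of_nonneg_right _ hSp.le
    linarith
  rw [Real.log_div (by positivity) hSp.ne', Real.log_pow] at h3
  have h5 : Real.log S = 2 * Real.log ‖Δ‖ + Real.log (1 + 2 * r ^ 2 / ‖Δ‖ ^ 2) := by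
    have : S = ‖Δ‖ ^ 2 * (1 + 2 * r ^ 2 / ‖Δ‖ ^ 2) := by
      rw [hS]; field_simp
    rw [this, Real.log_mul (by positivity) (by positivity), Real.log_pow]
    norm_num
  push_cast at h3
  linarith

/-- the smoothed energy-type average at a point of the Multibrot set -/
noncomputable def YY (β : ℂ → ℂ) (c0 : ℂ) (q r : ℝ) : ℝ :=
  circleAverage (fun u => 1 / 2 * Real.log (1 + 2 * r ^ 2 / ‖zz β u - c0‖ ^ 2)) 0 q

theorem zz_sub {β : ℂ → ℂ} {u : ℂ} (hu : u ≠ 0) (c : ℂ) : β u - c * u = u * (zz β u - c) := by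
  unfold zz
  field_simp

theorem sphere_ne {q : ℝ} (hq0 : 0 < q) {u : ℂ} (hu : u ∈ sphere (0 : ℂ) |q|) : u ≠ 0 := by
  rintro rfl
  rw [mem_sphere_zero_iff_norm, norm_zero, abs_of_pos hq0] at hu
  linarith

theorem zz_cont {d : ℕ} {β : ℂ → ℂ} (hβ : IsBeta d β) {q : ℝ} (hq0 : 0 < q) (hq1 : q < 1) :
    ContinuousOn (zz β) (sphere (0 : ℂ) |q|) := by
  apply ContinuousOn.mul
  · apply ContinuousOn.inv₀ continuousOn_id
    intro u hu
    exact sphere_ne hq0 hu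
  · exact hβ.diff.continuousOn.mono (sphere_sub hq0 hq1)

theorem zz_ne {d : ℕ} {β : ℂ → ℂ} (hβ : IsBeta d β) {q : ℝ} (hq0 : 0 < q) (hq1 : q < 1)
    {c : ℂ} (hc : c ∈ multibrotSet d) {u : ℂ} (hu : u ∈ sphere (0 : ℂ) |q|) : zz β u - c ≠ 0 := by
  intro h
  apply hβ.notMem u (sphere_sub hq0 hq1 hu) (sphere_ne hq0 hu)
  have : u⁻¹ * β u = c := by
    have : zz β u = c := sub_eq_zero.mp h
    exact this
  rw [this]; exact hc

theorem YY_cont {d : ℕ} {β : ℂ → ℂ} (hβ : IsBeta d β) {q : ℝ} (hq0 : 0 < q) (hq1 : q < 1)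
    {c : ℂ} (hc : c ∈ multibrotSet d) (r : ℝ) :
    ContinuousOn (fun u => 1 / 2 * Real.log (1 + 2 * r ^ 2 / ‖zz β u - c‖ ^ 2))
      (sphere (0 : ℂ) |q|) := by
  apply ContinuousOn.mul continuousOn_const
  apply ContinuousOn.log
  · apply ContinuousOn.add continuousOn_const
    apply ContinuousOn.div continuousOn_const
    · exact ((zz_cont hβ hq0 hq1).sub continuousOn_const).norm.pow 2
    · intro u hu
      have := zz_ne hβ hq0 hq1 hc hu
      have : 0 < ‖zz β u - c‖ := norm_pos_iff.mpr this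
      positivity
  · intro u hu
    positivity

theorem avg_lin {d : ℕ} {β : ℂ → ℂ} (hβ : IsBeta d β) {q : ℝ} (hq0 : 0 < q) (hq1 : q < 1)
    {c0 : ℂ} (hc0 : c0 ∈ multibrotSet d) {r : ℝ} (hr : 0 < r) :
    ∃ m : ℂ, ∀ h : ℂ, ‖h‖ ≤ r →
      circleAverage (fun u => Real.log ‖β u - (c0 + h) * u‖) 0 q ≤ YY β c0 q r - (h * m).re := by
  set mm : ℂ → ℂ := fun u => (starRingEnd ℂ) (zz β u - c0) /
    ((‖zz β u - c0‖ ^ 2 + 2 * r ^ 2 : ℝ) : ℂ) with hmm
  have hmc : ContinuousOn mm (sphere (0 : ℂ) |q|) := by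
    apply ContinuousOn.div
    · exact Complex.continuous_conj.comp_continuousOn ((zz_cont hβ hq0 hq1).sub continuousOn_const)
    · apply Complex.continuous_ofReal.comp_continuousOn
      exact (((zz_cont hβ hq0 hq1).sub continuousOn_const).norm.pow 2).add continuousOn_const
    · intro u hu
      have : (0 : ℝ) < ‖zz β u - c0‖ ^ 2 + 2 * r ^ 2 := by positivity
      exact_mod_cast this.ne'
  refine ⟨circleAverage mm 0 q, fun h hh => ?_⟩
  have hmi : CircleIntegrable mm 0 q := hmc.circleIntegrable'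
  have hci : CircleIntegrable (fun u => (h * mm u).re) 0 q := by
    apply ContinuousOn.circleIntegrable'
    exact Complex.continuous_re.comp_continuousOn (continuousOn_const.mul hmc)
  have hlin : circleAverage (fun u => (h * mm u).re) 0 q = (h * circleAverage mm 0 q).re := by
    have h1 := (Complex.reCLM.comp ((ContinuousLinearMap.mul ℝ ℂ) h)).circleAverage_comp_comm
      (f := mm) (c := 0) (R := q) hmi
    exact h1
  have hYi : CircleIntegrable (fun u => 1 / 2 * Real.log (1 + 2 * r ^ 2 / ‖zz β u - c0‖ ^ 2)) 0 q :=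
    (YY_cont hβ hq0 hq1 hc0 r).circleIntegrable'
  have hLi : ∀ c : ℂ, CircleIntegrable (fun u => Real.log ‖β u - c * u‖) 0 q := by
    intro c
    apply MeromorphicOn.circleIntegrable_log_norm
    intro u hu
    exact ((beta_sub_an hβ c).analyticOnNhd isOpen_ball u (sphere_sub hq0 hq1 hu)).meromorphicAt
  have hLY : CircleIntegrable (fun u => Real.log ‖β u - c0 * u‖ +
      1 / 2 * Real.log (1 + 2 * r ^ 2 / ‖zz β u - c0‖ ^ 2)) 0 q := (hLi c0).add hYi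
  have hLYM : CircleIntegrable (fun u => (Real.log ‖β u - c0 * u‖ +
      1 / 2 * Real.log (1 + 2 * r ^ 2 / ‖zz β u - c0‖ ^ 2)) - (h * mm u).re) 0 q := hLY.sub hci
  have hRHS : YY β c0 q r - (h * circleAverage mm 0 q).re =
      circleAverage (fun u => (Real.log ‖β u - c0 * u‖ +
        1 / 2 * Real.log (1 + 2 * r ^ 2 / ‖zz β u - c0‖ ^ 2)) - (h * mm u).re) 0 q := by
    rw [circleAverage_fun_sub hLY hci, circleAverage_fun_add (hLi c0) hYi,
      avg_mem hβ hc0 hq0 hq1, hlin, zero_add]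
    rfl
  rw [hRHS]
  set Z : Set ℂ := {u | u ∈ ball (0 : ℂ) 1 ∧ β u - (c0 + h) * u = 0} with hZ
  have hZs : Z.Subsingleton := by
    rintro x ⟨hx, hx1⟩ y ⟨hy, hy1⟩
    have hne : ∀ u : ℂ, β u - (c0 + h) * u = 0 → u ≠ 0 := by
      rintro u hu rfl
      rw [hβ.zero, mul_zero, sub_zero] at hu
      exact one_ne_zero hu
    have hx0 := hne x hx1
    have hy0 := hne y hy1
    apply hβ.inj x hx y hy hx0 hy0
    have h1 : β x = (c0 + h) * x := by linear_combination hx1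
    have h2 : β y = (c0 + h) * y := by linear_combination hy1
    rw [h1, h2]; field_simp
  apply avg_mono_countable hq0.ne' (hLi _) hLYM hZs.countable
  intro u hu huZ
  have hu0 := sphere_ne hq0 hu
  have hu1 := sphere_sub hq0 hq1 hu
  have hne : β u - (c0 + h) * u ≠ 0 := fun h1 => huZ ⟨hu1, h1⟩
  have hup : 0 < ‖u‖ := norm_pos_iff.mpr hu0
  have hΔ : zz β u - c0 ≠ 0 := zz_ne hβ hq0 hq1 hc0 hu
  have hne2 : zz β u - c0 - h ≠ 0 := by
    intro h1
    apply hne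
    rw [zz_sub hu0, ← sub_sub, h1, mul_zero]
  have h1 := log_lin hr hΔ hh hne2
  rw [zz_sub hu0, zz_sub hu0, norm_mul, norm_mul, Real.log_mul hup.ne' (norm_ne_zero_iff.mpr hΔ),
    ← sub_sub, Real.log_mul hup.ne' (norm_ne_zero_iff.mpr hne2)]
  simp only [hmm]
  linarith

/-- Boundedness of the critical orbit polynomial on a small disc centred at a point of the
Multibrot set. -/
theorem P_le_of_YY {d : ℕ} (hd : 2 ≤ d) {β : ℂ → ℂ} (hβ : IsBeta d β) (n : ℕ)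
    {c0 : ℂ} (hc0 : c0 ∈ multibrotSet d) {r : ℝ} (hr : 0 < r) {B : ℝ}
    (hB : (d : ℝ) ^ n * YY β c0 (Real.exp (-((d : ℝ) ^ n)⁻¹)) r ≤ B) {c : ℂ} (hc : ‖c - c0‖ ≤ r) :
    ‖P d (n + 1) c‖ ≤ Real.exp (2 * (Real.log 2 + 1 + B)) := by
  have hdn : (0 : ℝ) < (d : ℝ) ^ n := by
    have : (2 : ℝ) ≤ d := by exact_mod_cast hd
    positivity
  set q : ℝ := Real.exp (-((d : ℝ) ^ n)⁻¹) with hq
  have hq0 : 0 < q := Real.exp_pos _
  have hq1 : q < 1 := by
    rw [hq, ← Real.exp_zero]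
    apply Real.exp_lt_exp.mpr
    have : 0 < ((d : ℝ) ^ n)⁻¹ := by positivity
    linarith
  have hlq : Real.log q = -((d : ℝ) ^ n)⁻¹ := Real.log_exp _
  obtain ⟨m, hm⟩ := avg_lin hβ hq0 hq1 hc0 hr
  set A : ℝ := Real.log 2 + 1 + B with hA
  set μ : ℂ := ((d : ℝ) ^ n : ℝ) * m with hμ
  have key : ∀ h : ℂ, ‖h‖ ≤ r → Real.posLog ‖P d (n + 1) (c0 + h)‖ ≤ A - (h * μ).re := by
    intro h hh
    have h1 := posLog_P_le hd hβ n (c0 + h) hq0 hq1
    have h2 := hm h hh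
    have h3 : (h * μ).re = (d : ℝ) ^ n * (h * m).re := by
      rw [hμ, mul_left_comm, Complex.re_ofReal_mul]
    rw [h3, hA]
    have h4 : (d : ℝ) ^ n * (circleAverage (fun u => Real.log ‖β u - (c0 + h) * u‖) 0 q
        - Real.log q) ≤ (d : ℝ) ^ n * (YY β c0 q r - (h * m).re + ((d : ℝ) ^ n)⁻¹) := by
      apply mul_le_mul_of_nonneg_left _ hdn.le
      rw [hlq]; linarith
    have h5 : (d : ℝ) ^ n * (YY β c0 q r - (h * m).re + ((d : ℝ) ^ n)⁻¹) =
        (d : ℝ) ^ n * YY β c0 q r - (d : ℝ) ^ n * (h * m).re + 1 := by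
      field_simp
    linarith
  have hμA : r * ‖μ‖ ≤ A := by
    by_cases hμ0 : μ = 0
    · rw [hμ0, norm_zero, mul_zero]
      have h1 := key 0 (by rw [norm_zero]; exact hr.le)
      rw [zero_mul, Complex.zero_re, sub_zero] at h1
      exact Real.posLog_nonneg.trans h1
    · have hμp : 0 < ‖μ‖ := norm_pos_iff.mpr hμ0
      set h : ℂ := ((r / ‖μ‖ : ℝ) : ℂ) * (starRingEnd ℂ) μ with hh
      have h1 : ‖h‖ ≤ r := by
        rw [hh, norm_mul, Complex.norm_real, Real.norm_eq_abs, abs_of_pos (by positivity),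
          Complex.norm_conj]
        apply le_of_eq; field_simp
      have h2 : (h * μ).re = r * ‖μ‖ := by
        rw [hh, mul_assoc, ← Complex.normSq_eq_conj_mul_self, Complex.re_ofReal_mul,
          Complex.ofReal_re, Complex.normSq_eq_norm_sq]
        field_simp
      have h3 := key h h1
      rw [h2] at h3
      linarith [Real.posLog_nonneg (x := ‖P d (n + 1) (c0 + h)‖)]
  have h1 := key (c - c0) hc
  rw [add_sub_cancel] at h1
  have h2 : -((c - c0) * μ).re ≤ r * ‖μ‖ := by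
    calc -((c - c0) * μ).re ≤ |((c - c0) * μ).re| := neg_le_abs _
      _ ≤ ‖(c - c0) * μ‖ := Complex.abs_re_le_norm _
      _ = ‖c - c0‖ * ‖μ‖ := norm_mul _ _
      _ ≤ r * ‖μ‖ := by gcongr
  have h3 : Real.posLog ‖P d (n + 1) c‖ ≤ 2 * A := by linarith
  have h4 : Real.log ‖P d (n + 1) c‖ ≤ 2 * A := (le_max_right _ _).trans h3
  by_cases hP : ‖P d (n + 1) c‖ = 0
  · rw [hP]; positivity
  · have hPp : 0 < ‖P d (n + 1) c‖ := lt_of_le_of_ne (norm_nonneg _) (Ne.symm hP)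
    rw [← Real.exp_log hPp]
    exact Real.exp_le_exp.mpr h4

end Pool.Agent.TH425.AD
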