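import Mathlib
import Pool.Agent.TH425.AD.K
import Pool.Agent.TH425.AD.E2
import Pool.Agent.TH425.AD.B2

set_option autoImplicit false

open Complex Topology Filter Metric MeasureTheory Set N62a1eb23

namespace Pool.Agent.TH425.AD

open Pool.Agent.H713R2 Pool.Agent.H712R2 Pool.Agent.Helper202.Univ Pool.Agent.H713R2.AR

/-- uniform logarithmic potential estimate on a compact piece -/
theorem Epotential {d : ℕ} {β : ℂ → ℂ} {E : Set ℝ} {μ : ℝ} (hE : Piece d β E μ)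
    {z : ℂ} (hz : z ∉ multibrotSet d) {r : ℝ} (hr : 0 < r) :
    ∫⁻ θ in E, ENNReal.ofReal (1 / 2 * Real.log (1 + 2 * r ^ 2 / ‖z - cc β θ‖ ^ 2)) ≤
      ENNReal.ofReal (6 * Real.pi * r / (2 * μ)) := by
  have hap : 0 < (2 * μ) := by have := hE.pos; linarith
  rcases (E).eq_empty_or_nonempty with he | hne
  · rw [he]; simp
  obtain ⟨t, ht, hmin⟩ := hE.comp.exists_isMinOn hne
    (continuousOn_const.sub hE.cont).norm (f := fun θ => ‖z - cc β θ‖)
  set b : ℝ := 6 * r / (2 * μ) with hb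
  have hb0 : 0 < b := by positivity
  have hms : MeasurableSet (E) := hE.comp.measurableSet
  have hpt : ∀ θ ∈ E, θ ≠ t →
      1 / 2 * Real.log (1 + 2 * r ^ 2 / ‖z - cc β θ‖ ^ 2) ≤ 1 / 2 * JJ b (θ - t) := by
    intro θ hθ hθt
    have hx : 0 < |θ - t| := abs_pos.mpr (sub_ne_zero.mpr hθt)
    have hD : 0 < ‖z - cc β θ‖ := by
      apply norm_pos_iff.mpr
      intro h0
      apply hz
      rw [sub_eq_zero.mp h0]
      exact hE.mem θ hθ
    have h1 : ‖z - cc β t‖ ≤ ‖z - cc β θ‖ := hmin hθ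
    have h2 := hE.lip θ hθ t ht
    have h3 : ‖cc β θ - cc β t‖ ≤ 2 * ‖z - cc β θ‖ := by
      have h4 : cc β θ - cc β t = (z - cc β t) - (z - cc β θ) := by ring
      rw [h4]
      exact (norm_sub_le _ _).trans (by linarith)
    have h5 : (2 * μ) * |θ - t| ≤ 4 * ‖z - cc β θ‖ := by linarith
    have h6 : 2 * r ^ 2 / ‖z - cc β θ‖ ^ 2 ≤ b ^ 2 / (θ - t) ^ 2 := by
      rw [← sq_abs (θ - t), hb, div_pow, div_div, ← mul_pow, div_le_div_iff₀ (by positivity)
        (by positivity)]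
      have h7 : ((2 * μ) * |θ - t|) ^ 2 ≤ (4 * ‖z - cc β θ‖) ^ 2 :=
        pow_le_pow_left₀ (by positivity) h5 2
      have h8 : 2 * r ^ 2 * ((2 * μ) * |θ - t|) ^ 2 ≤ 2 * r ^ 2 * (4 * ‖z - cc β θ‖) ^ 2 := by gcongr
      have h9 : 0 ≤ r ^ 2 * ‖z - cc β θ‖ ^ 2 := by positivity
      nlinarith
    unfold JJ
    have h7 : Real.log (1 + 2 * r ^ 2 / ‖z - cc β θ‖ ^ 2) ≤ Real.log (1 + b ^ 2 / (θ - t) ^ 2) := by
      apply Real.log_le_log (by positivity)
      linarith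
    linarith
  calc ∫⁻ θ in E, ENNReal.ofReal (1 / 2 * Real.log (1 + 2 * r ^ 2 / ‖z - cc β θ‖ ^ 2))
      ≤ ∫⁻ θ in E, ENNReal.ofReal (1 / 2 * JJ b (θ - t)) := by
        apply lintegral_mono_ae
        have h1 : ∀ᵐ θ : ℝ, θ ≠ t := by
          simp [ae_iff]
        filter_upwards [ae_restrict_mem hms, ae_restrict_of_ae h1] with θ h2 h3
        exact ENNReal.ofReal_le_ofReal (hpt θ h2 h3)
    _ ≤ ∫⁻ θ : ℝ, ENNReal.ofReal (1 / 2 * JJ b (θ - t)) := setLIntegral_le_lintegral _ _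
    _ = ENNReal.ofReal (1 / 2) * ∫⁻ θ : ℝ, ENNReal.ofReal (JJ b (θ - t)) := by
        rw [← lintegral_const_mul' _ _ ENNReal.ofReal_ne_top]
        apply lintegral_congr
        intro θ
        rw [ENNReal.ofReal_mul (by norm_num)]
    _ ≤ ENNReal.ofReal (1 / 2) * ENNReal.ofReal (2 * Real.pi * b) := by
        gcongr
        exact JJ_lintegral hb0 t
    _ = ENNReal.ofReal (6 * Real.pi * r / (2 * μ)) := by
        rw [← ENNReal.ofReal_mul (by norm_num)]
        congr 1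
        rw [hb]; ring

open Classical in
/-- measurable extension of the landing map -/
noncomputable def ECM (β : ℂ → ℂ) (E : Set ℝ) : ℝ → ℂ :=
  (E).piecewise (cc β) (fun _ => 0)

open Classical in
theorem ECM_eq {β : ℂ → ℂ} {E : Set ℝ} {θ : ℝ} (hθ : θ ∈ E) : ECM β E θ = cc β θ := by
  unfold ECM
  exact Set.piecewise_eq_of_mem _ _ _ hθ

open Classical in
theorem ECM_meas {d : ℕ} {β : ℂ → ℂ} {E : Set ℝ} {μ : ℝ} (hE : Piece d β E μ) :
    Measurable (ECM β E) := by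
  unfold ECM
  exact ContinuousOn.measurable_piecewise hE.cont continuousOn_const
    hE.comp.measurableSet

/-- the kernel -/
noncomputable def EKK (β : ℂ → ℂ) (E : Set ℝ) (q r : ℝ) (θ t : ℝ) : ENNReal :=
  ENNReal.ofReal (1 / 2 * Real.log (1 + 2 * r ^ 2 / ‖zz β (circleMap 0 q t) - ECM β E θ‖ ^ 2))

theorem Ezzc_cont {d : ℕ} {β : ℂ → ℂ} (hβ : IsBeta d β) {q : ℝ} (hq0 : 0 < q) (hq1 : q < 1) :
    Continuous fun t : ℝ => zz β (circleMap 0 q t) :=
  (zz_cont hβ hq0 hq1).comp_continuous (continuous_circleMap 0 q)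
    (fun t => circleMap_mem_sphere' 0 q t)

theorem EKK_meas {d : ℕ} {β : ℂ → ℂ} (hβ : IsBeta d β) {E : Set ℝ} {μ : ℝ} (hE : Piece d β E μ)
    {q : ℝ} (hq0 : 0 < q) (hq1 : q < 1) (r : ℝ) :
    Measurable (Function.uncurry (EKK β E q r)) := by
  have h1 : Measurable fun x : ℝ × ℝ => zz β (circleMap 0 q x.2) :=
    (Ezzc_cont hβ hq0 hq1).measurable.comp measurable_snd
  have h2 : Measurable fun x : ℝ × ℝ => ECM β E x.1 := (ECM_meas hE).comp measurable_fst
  have h3 : Measurable fun x : ℝ × ℝ => ‖zz β (circleMap 0 q x.2) - ECM β E x.1‖ ^ 2 :=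
    ((h1.sub h2).norm).pow_const 2
  have h4 : Measurable fun x : ℝ × ℝ => 1 / 2 * Real.log (1 + 2 * r ^ 2 /
      ‖zz β (circleMap 0 q x.2) - ECM β E x.1‖ ^ 2) :=
    (Real.measurable_log.comp ((h3.const_div _).const_add 1)).const_mul _
  exact h4.ennreal_ofReal

/-- the average over the circle -/
noncomputable def EAA (β : ℂ → ℂ) (E : Set ℝ) (q r : ℝ) (θ : ℝ) : ENNReal :=
  ∫⁻ t in Ioc 0 (2 * Real.pi), EKK β E q r θ t

theorem EAA_meas {d : ℕ} {β : ℂ → ℂ} (hβ : IsBeta d β) {E : Set ℝ} {μ : ℝ} (hE : Piece d β E μ)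
    {q : ℝ} (hq0 : 0 < q) (hq1 : q < 1) (r : ℝ) : Measurable (EAA β E q r) := by
  unfold EAA
  exact (EKK_meas hβ hE hq0 hq1 r).lintegral_prod_right

theorem EAA_int {d : ℕ} {β : ℂ → ℂ} (hβ : IsBeta d β) {E : Set ℝ} {μ : ℝ} (hE : Piece d β E μ)
    {q : ℝ} (hq0 : 0 < q) (hq1 : q < 1) {r : ℝ} (hr : 0 < r) :
    ∫⁻ θ in E, EAA β E q r θ ≤
      ENNReal.ofReal (2 * Real.pi * (6 * Real.pi * r / (2 * μ))) := by
  unfold EAA
  rw [lintegral_lintegral_swap (EKK_meas hβ hE hq0 hq1 r).aemeasurable]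
  have hms : MeasurableSet (E) := hE.comp.measurableSet
  have h1 : ∀ t : ℝ, ∫⁻ θ in E, EKK β E q r θ t ≤
      ENNReal.ofReal (6 * Real.pi * r / (2 * μ)) := by
    intro t
    have hz : zz β (circleMap 0 q t) ∉ multibrotSet d := by
      have hs := circleMap_mem_sphere' 0 q t
      exact hβ.notMem _ (sphere_sub hq0 hq1 hs) (sphere_ne hq0 hs)
    refine le_trans (le_of_eq ?_) (Epotential hE hz hr)
    apply setLIntegral_congr_fun hms
    intro θ hθ
    simp only [EKK, ECM_eq hθ]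
  calc ∫⁻ t in Ioc 0 (2 * Real.pi), ∫⁻ θ in E, EKK β E q r θ t
      ≤ ∫⁻ t in Ioc 0 (2 * Real.pi), ENNReal.ofReal (6 * Real.pi * r / (2 * μ)) :=
        lintegral_mono h1
    _ = ENNReal.ofReal (2 * Real.pi * (6 * Real.pi * r / (2 * μ))) := by
        have hμ := hE.pos
        rw [setLIntegral_const, Real.volume_Ioc, sub_zero, ← ENNReal.ofReal_mul (by positivity),
          mul_comm]

theorem EAA_YY {d : ℕ} {β : ℂ → ℂ} (hβ : IsBeta d β) {E : Set ℝ} {μ : ℝ} (hE : Piece d β E μ)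
    {q : ℝ} (hq0 : 0 < q) (hq1 : q < 1) (r : ℝ) {θ : ℝ}
    (hθ : θ ∈ E) :
    EAA β E q r θ = ENNReal.ofReal (2 * Real.pi * YY β (cc β θ) q r) := by
  unfold EAA YY
  rw [Real.circleAverage_def, smul_eq_mul, mul_inv_cancel_left₀ (by positivity),
    intervalIntegral.integral_of_le (by positivity)]
  have hM : cc β θ ∈ multibrotSet d := hE.mem θ hθ
  have hcont : Continuous fun t : ℝ => 1 / 2 * Real.log (1 + 2 * r ^ 2 /
      ‖zz β (circleMap 0 q t) - cc β θ‖ ^ 2) :=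
    (YY_cont hβ hq0 hq1 hM r).comp_continuous (continuous_circleMap 0 q)
      (fun t => circleMap_mem_sphere' 0 q t)
  rw [ofReal_integral_eq_lintegral_ofReal]
  · apply lintegral_congr
    intro t
    simp only [EKK, ECM_eq hθ]
  · exact (hcont.integrableOn_Icc (a := 0) (b := 2 * Real.pi)).mono_set Ioc_subset_Icc_self
  · refine Eventually.of_forall fun t => ?_
    have : 0 ≤ 2 * r ^ 2 / ‖zz β (circleMap 0 q t) - cc β θ‖ ^ 2 := by positivity
    have := Real.log_nonneg (show (1 : ℝ) ≤ 1 + 2 * r ^ 2 /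
      ‖zz β (circleMap 0 q t) - cc β θ‖ ^ 2 by linarith)
    change 0 ≤ 1 / 2 * Real.log (1 + 2 * r ^ 2 / ‖zz β (circleMap 0 q t) - cc β θ‖ ^ 2)
    positivity

/-- Almost everywhere on a compact piece the critical orbit polynomials are bounded on small
discs, for infinitely many scales. -/
theorem Ebounded_scales {d : ℕ} (hd : 2 ≤ d) {β : ℂ → ℂ} (hβ : IsBeta d β) {E : Set ℝ} {μ : ℝ} (hE : Piece d β E μ)
    (m : ℕ) :
    ∀ᵐ θ : ℝ, θ ∈ E → ∃ B : ℝ, ∃ᶠ n : ℕ in atTop, ∀ c : ℂ,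
      ‖c - cc β θ‖ ≤ ((m : ℝ) + 1) / (d : ℝ) ^ n → ‖P d (n + 1) c‖ ≤ B := by
  have hdR : (2 : ℝ) ≤ d := by exact_mod_cast hd
  have hdn : ∀ n : ℕ, (0 : ℝ) < (d : ℝ) ^ n := fun n => by positivity
  have hap : 0 < (2 * μ) := by have := hE.pos; linarith
  set q : ℕ → ℝ := fun n => Real.exp (-((d : ℝ) ^ n)⁻¹) with hq
  have hq0 : ∀ n, 0 < q n := fun n => Real.exp_pos _
  have hq1 : ∀ n, q n < 1 := by
    intro n
    simp only [hq]
    rw [← Real.exp_zero]
    apply Real.exp_lt_exp.mpr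
    have := hdn n
    have : 0 < ((d : ℝ) ^ n)⁻¹ := by positivity
    linarith
  set r : ℕ → ℝ := fun n => ((m : ℝ) + 1) / (d : ℝ) ^ n with hr
  have hr0 : ∀ n, 0 < r n := fun n => by
    have := hdn n
    simp only [hr]; positivity
  set f : ℕ → ℝ → ENNReal := fun n θ => ENNReal.ofReal ((d : ℝ) ^ n) * EAA β E (q n) (r n) θ
    with hf
  have hfm : ∀ n, Measurable (f n) := fun n =>
    (EAA_meas hβ hE (hq0 n) (hq1 n) (r n)).const_mul _
  set L : ENNReal := ENNReal.ofReal (2 * Real.pi * (6 * Real.pi * ((m : ℝ) + 1) / (2 * μ))) with hL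
  have hfi : ∀ n, ∫⁻ θ in E, f n θ ≤ L := by
    intro n
    simp only [hf]
    rw [lintegral_const_mul' _ _ ENNReal.ofReal_ne_top]
    calc ENNReal.ofReal ((d : ℝ) ^ n) * ∫⁻ θ in E, EAA β E (q n) (r n) θ
        ≤ ENNReal.ofReal ((d : ℝ) ^ n) *
          ENNReal.ofReal (2 * Real.pi * (6 * Real.pi * r n / (2 * μ))) := by
          gcongr
          exact EAA_int hβ hE (hq0 n) (hq1 n) (hr0 n)
      _ = L := by
          rw [← ENNReal.ofReal_mul (hdn n).le, hL]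
          congr 1
          simp only [hr]
          have := hdn n
          field_simp
  have hfatou : ∫⁻ θ in E, liminf (fun n => f n θ) atTop ≤ L := by
    refine (lintegral_liminf_le hfm).trans ?_
    refine (liminf_le_liminf (Eventually.of_forall hfi)).trans ?_
    simp
  have hae : ∀ᵐ θ ∂(volume.restrict (E)), liminf (fun n => f n θ) atTop < ⊤ :=
    ae_lt_top (Measurable.liminf hfm) (ne_top_of_le_ne_top ENNReal.ofReal_ne_top hfatou)
  have hms : MeasurableSet (E) := hE.comp.measurableSet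
  rw [ae_restrict_iff' hms] at hae
  filter_upwards [hae] with θ hθ hθm
  obtain ⟨b, hb1, hb2⟩ := exists_between (hθ hθm)
  have hfr := frequently_lt_of_liminf_lt (by isBoundedDefault) hb1
  refine ⟨Real.exp (2 * (Real.log 2 + 1 + b.toReal)), hfr.mono fun n hn c hc => ?_⟩
  have hM : cc β θ ∈ multibrotSet d := hE.mem θ hθm
  apply P_le_of_YY hd hβ n hM (hr0 n) _ hc
  have h1 : f n θ = ENNReal.ofReal ((d : ℝ) ^ n * (2 * Real.pi * YY β (cc β θ) (q n) (r n))) := by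
    simp only [hf]
    rw [EAA_YY hβ hE (hq0 n) (hq1 n) (r n) hθm, ← ENNReal.ofReal_mul (hdn n).le]
  have hn' : f n θ < b := hn
  rw [h1] at hn'
  have h2 : (d : ℝ) ^ n * (2 * Real.pi * YY β (cc β θ) (q n) (r n)) ≤ b.toReal :=
    ((ENNReal.ofReal_le_iff_le_toReal hb2.ne).mp hn'.le)
  have hpi := Real.pi_gt_three
  by_cases hY : 0 ≤ YY β (cc β θ) (q n) (r n)
  · have h3 : 0 ≤ (d : ℝ) ^ n * YY β (cc β θ) (q n) (r n) := mul_nonneg (hdn n).le hY
    change (d : ℝ) ^ n * YY β (cc β θ) (q n) (r n) ≤ b.toReal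
    nlinarith
  · have h3 : (d : ℝ) ^ n * YY β (cc β θ) (q n) (r n) ≤ 0 :=
      mul_nonpos_of_nonneg_of_nonpos (hdn n).le (not_le.mp hY).le
    change (d : ℝ) ^ n * YY β (cc β θ) (q n) (r n) ≤ b.toReal
    exact h3.trans ENNReal.toReal_nonneg

end Pool.Agent.TH425.AD
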