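import Mathlib

set_option autoImplicit false

open Complex Topology Filter Metric MeasureTheory Set

namespace Pool.Agent.TH425.AD

/-- the unicritical map -/
def ff (d : ℕ) (c z : ℂ) : ℂ := z ^ d + c

theorem norm_one_add_pow_sub (e : ℂ) (j : ℕ) : ‖(1 + e) ^ j - 1‖ ≤ (1 + ‖e‖) ^ j - 1 := by
  induction j with
  | zero => simp
  | succ j ih =>
    have h1 : (1 + e) ^ (j + 1) - 1 = (1 + e) * ((1 + e) ^ j - 1) + e := by ring
    rw [h1]
    have h2 : ‖1 + e‖ ≤ 1 + ‖e‖ := by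
      have := norm_add_le 1 e
      rwa [norm_one] at this
    calc ‖(1 + e) * ((1 + e) ^ j - 1) + e‖ ≤ ‖(1 + e) * ((1 + e) ^ j - 1)‖ + ‖e‖ := norm_add_le _ _
      _ = ‖1 + e‖ * ‖(1 + e) ^ j - 1‖ + ‖e‖ := by rw [norm_mul]
      _ ≤ (1 + ‖e‖) * ((1 + ‖e‖) ^ j - 1) + ‖e‖ := by gcongr
      _ = (1 + ‖e‖) ^ (j + 1) - 1 := by ring

theorem one_add_pow_le {d : ℕ} {x : ℝ} (hx : 0 ≤ x) (hdx : (d : ℝ) * x ≤ 1 / 3) :
    (1 + x) ^ d ≤ 3 / 2 := by
  have h1 : (1 + x) ^ d ≤ Real.exp (1 / 3) := by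
    calc (1 + x) ^ d ≤ (Real.exp x) ^ d := by
          apply pow_le_pow_left₀ (by linarith)
          linarith [Real.add_one_le_exp x]
      _ = Real.exp (d * x) := by rw [← Real.exp_nat_mul]
      _ ≤ Real.exp (1 / 3) := Real.exp_le_exp.mpr hdx
  have h2 := Real.add_one_le_exp (-(1 / 3 : ℝ))
  rw [Real.exp_neg] at h2
  have h3 : 0 < Real.exp (1 / 3) := Real.exp_pos _
  have h4 : (2 / 3 : ℝ) ≤ (Real.exp (1 / 3))⁻¹ := by linarith
  have h5 : Real.exp (1 / 3) ≤ 3 / 2 := by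
    rw [le_inv_comm₀ (by norm_num) h3] at h4
    norm_num at h4 ⊢
    exact h4
  linarith

theorem expand {d : ℕ} (hd : 2 ≤ d) {u v W : ℂ} (hW : 21 * (d : ℝ) ≤ ‖W‖) (hu : ‖u - W‖ ≤ 3)
    (hv : ‖v - W‖ ≤ 3) : 2 * ‖u - v‖ ≤ ‖u ^ d - v ^ d‖ := by
  have hdR : (2 : ℝ) ≤ d := by exact_mod_cast hd
  have hvn : 18 * (d : ℝ) ≤ ‖v‖ := by
    have h1 : ‖W‖ ≤ ‖v‖ + ‖v - W‖ := by
      have := norm_sub_le v (v - W)
      rwa [sub_sub_cancel] at this
    linarith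
  have hvp : 0 < ‖v‖ := by linarith
  have hv0 : v ≠ 0 := norm_pos_iff.mp hvp
  have huv : ‖u - v‖ ≤ 6 := by
    have h1 : u - v = (u - W) - (v - W) := by ring
    rw [h1]
    exact (norm_sub_le _ _).trans (by linarith)
  set e : ℂ := (u - v) / v with he
  have hue : u = v * (1 + e) := by rw [he]; field_simp; ring
  have hen : ‖e‖ = ‖u - v‖ / ‖v‖ := by rw [he, norm_div]
  have hde : (d : ℝ) * ‖e‖ ≤ 1 / 3 := by
    rw [hen, ← mul_div_assoc, div_le_iff₀ hvp]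
    nlinarith
  have hpow : ∀ j ∈ Finset.range d, ‖(1 + e) ^ j - 1‖ ≤ 1 / 2 := by
    intro j hj
    have h1 := norm_one_add_pow_sub e j
    have h2 : (1 + ‖e‖) ^ j ≤ (1 + ‖e‖) ^ d :=
      pow_le_pow_right₀ (by linarith [norm_nonneg e]) (Finset.mem_range.mp hj).le
    have h3 := one_add_pow_le (norm_nonneg e) hde
    linarith
  have hsum : 1 ≤ ‖∑ j ∈ Finset.range d, (1 + e) ^ j‖ := by
    have h1 : ∑ j ∈ Finset.range d, (1 + e) ^ j = (d : ℂ) + ∑ j ∈ Finset.range d, ((1 + e) ^ j - 1) := by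
      rw [Finset.sum_sub_distrib]; simp
    have h2 : ‖∑ j ∈ Finset.range d, ((1 + e) ^ j - 1)‖ ≤ d * (1 / 2) := by
      refine (norm_sum_le_of_le _ hpow).trans ?_
      simp
    have h3 := norm_sub_le ((d : ℂ) + ∑ j ∈ Finset.range d, ((1 + e) ^ j - 1))
      (∑ j ∈ Finset.range d, ((1 + e) ^ j - 1))
    rw [add_sub_cancel_right, Complex.norm_natCast, ← h1] at h3
    linarith
  have hge : (1 + e) ^ d - 1 = e * ∑ j ∈ Finset.range d, (1 + e) ^ j := by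
    have := mul_geom_sum (1 + e) d
    rw [add_sub_cancel_left] at this
    exact this.symm
  have h1 : u ^ d - v ^ d = v ^ d * (e * ∑ j ∈ Finset.range d, (1 + e) ^ j) := by
    rw [← hge, hue, mul_pow]; ring
  rw [h1, norm_mul, norm_mul, norm_pow]
  obtain ⟨m, rfl⟩ : ∃ m, d = m + 2 := ⟨d - 2, by omega⟩
  have h2 : ‖v‖ * ‖e‖ = ‖u - v‖ := by rw [hen]; field_simp
  have h3 : 1 ≤ ‖v‖ := by linarith
  have h4 : 2 ≤ ‖v‖ ^ (m + 1) := by
    have : ‖v‖ ≤ ‖v‖ ^ (m + 1) := le_self_pow₀ h3 (by omega)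
    linarith
  calc 2 * ‖u - v‖ ≤ ‖v‖ ^ (m + 1) * ‖u - v‖ := by gcongr
    _ = ‖v‖ ^ (m + 2) * (‖e‖ * 1) := by rw [← h2]; ring
    _ ≤ ‖v‖ ^ (m + 2) * (‖e‖ * ‖∑ j ∈ Finset.range (m + 2), (1 + e) ^ j‖) := by gcongr

/-- Uniqueness of the shadowing orbit. -/
theorem shadow_unique {d : ℕ} (hd : 2 ≤ d) {c W z z' : ℂ} (hW : 21 * (d : ℝ) ≤ ‖W‖)
    (hz : ∀ i : ℕ, ‖(ff d c)^[i] z - W ^ (d ^ i)‖ ≤ 3)
    (hz' : ∀ i : ℕ, ‖(ff d c)^[i] z' - W ^ (d ^ i)‖ ≤ 3) : z = z' := by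
  have hdR : (2 : ℝ) ≤ d := by exact_mod_cast hd
  have hWi : ∀ i : ℕ, 21 * (d : ℝ) ≤ ‖W ^ (d ^ i)‖ := by
    intro i
    rw [norm_pow]
    exact hW.trans (le_self_pow₀ (by linarith) (pow_ne_zero _ (by omega)))
  have h : ∀ i : ℕ, 2 ^ i * ‖z - z'‖ ≤ ‖(ff d c)^[i] z - (ff d c)^[i] z'‖ := by
    intro i
    induction i with
    | zero => simp
    | succ i ih =>
      rw [Function.iterate_succ_apply', Function.iterate_succ_apply']
      have h1 := expand hd (hWi i) (hz i) (hz' i)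
      have h2 : ff d c ((ff d c)^[i] z) - ff d c ((ff d c)^[i] z') =
          ((ff d c)^[i] z) ^ d - ((ff d c)^[i] z') ^ d := by
        unfold ff; ring
      rw [h2, pow_succ]
      linarith
  by_contra hne
  have hp : 0 < ‖z - z'‖ := norm_pos_iff.mpr (sub_ne_zero.mpr hne)
  obtain ⟨i, hi⟩ := pow_unbounded_of_one_lt (6 / ‖z - z'‖) (by norm_num : (1 : ℝ) < 2)
  rw [div_lt_iff₀ hp] at hi
  have h1 := h i
  have h2 : ‖(ff d c)^[i] z - (ff d c)^[i] z'‖ ≤ 6 := by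
    have h3 : (ff d c)^[i] z - (ff d c)^[i] z' = ((ff d c)^[i] z - W ^ (d ^ i)) -
        ((ff d c)^[i] z' - W ^ (d ^ i)) := by ring
    rw [h3]
    exact (norm_sub_le _ _).trans (by linarith [hz i, hz' i])
  linarith

/-- Order comparison in the functional equation. -/
theorem functional_order {d : ℕ} (hd : 2 ≤ d) {R : ℂ → ℂ} {c : ℂ} (hR : AnalyticAt ℂ R 0)
    (hnc : ¬ ∀ᶠ t in 𝓝 (0 : ℂ), R t = R 0)
    (hfe : ∀ᶠ t in 𝓝 (0 : ℂ), R t = (R (t / d)) ^ d + c) :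
    ∃ k : ℕ, 1 ≤ k ∧ (R 0) ^ (d - 1) = (d : ℂ) ^ (k - 1) ∧ c = R 0 - (R 0) ^ d := by
  have hd0 : (d : ℂ) ≠ 0 := by exact_mod_cast (show d ≠ 0 by omega)
  set q : ℂ := R 0 with hq
  have hq0 : q = q ^ d + c := by
    have := hfe.self_of_nhds
    rwa [zero_div] at this
  have hF : AnalyticAt ℂ (fun t => R t - q) 0 := hR.sub analyticAt_const
  obtain ⟨k, h, hh, hh0, hev⟩ := hF.exists_eventuallyEq_pow_smul_nonzero_iff.mpr (by
    intro hcon
    apply hnc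
    filter_upwards [hcon] with t ht
    exact sub_eq_zero.mp ht)
  simp only [sub_zero, smul_eq_mul] at hev
  have hk : 1 ≤ k := by
    by_contra hk
    have hk0 : k = 0 := by omega
    have h1 := hev.self_of_nhds
    rw [hk0, pow_zero, one_mul, ← hq, sub_self] at h1
    exact hh0 h1.symm
  -- pull back the local expansion by division
  have hdiv : Tendsto (fun t : ℂ => t / d) (𝓝 0) (𝓝 0) := by
    have : Continuous fun t : ℂ => t / d := by fun_prop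
    simpa using this.tendsto 0
  have hev2 := hdiv.eventually hev
  set S : ℂ → ℂ := fun t => ∑ i ∈ Finset.range d, (R (t / d)) ^ i * q ^ (d - 1 - i) with hS
  have hRc : ContinuousAt (fun t : ℂ => R (t / d)) 0 := by
    have h1 : ContinuousAt R ((0 : ℂ) / d) := by rw [zero_div]; exact hR.continuousAt
    exact ContinuousAt.comp (f := fun t : ℂ => t / d) h1 (by fun_prop)
  have hSc : ContinuousAt S 0 := by
    have h1 : ∀ i ∈ Finset.range d, Tendsto (fun t : ℂ => (R (t / d)) ^ i * q ^ (d - 1 - i)) (𝓝 0)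
        (𝓝 ((R (0 / d)) ^ i * q ^ (d - 1 - i))) := fun i _ => (hRc.pow i).mul_const _
    exact tendsto_finset_sum _ h1
  have hS0 : S 0 = d * q ^ (d - 1) := by
    simp only [hS, zero_div, ← hq]
    rw [Finset.sum_congr rfl (g := fun _ => q ^ (d - 1)) (fun i hi => by
      rw [← pow_add]
      congr 1
      have := Finset.mem_range.mp hi
      omega)]
    simp
  have hhc : ContinuousAt (fun t : ℂ => h (t / d)) 0 := by
    have h1 : ContinuousAt h ((0 : ℂ) / d) := by rw [zero_div]; exact hh.continuousAt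
    exact ContinuousAt.comp (f := fun t : ℂ => t / d) h1 (by fun_prop)
  have key : ∀ᶠ t in 𝓝[≠] (0 : ℂ), h t = ((d : ℂ) ^ k)⁻¹ * (h (t / d) * S t) := by
    filter_upwards [self_mem_nhdsWithin, nhdsWithin_le_nhds hev, nhdsWithin_le_nhds hev2,
      nhdsWithin_le_nhds hfe] with t ht0 h1 h2 h3
    have ht : t ≠ 0 := ht0
    have htk : t ^ k ≠ 0 := pow_ne_zero _ ht
    have h4 : R t - q = (R (t / d) - q) * S t := by
      have h5 := mul_comm (R (t / d) - q) (S t) |>.trans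
        ((Commute.all (R (t / d)) q).geom_sum₂_mul d)
      rw [h5, h3]
      linear_combination -hq0
    rw [h1, h2, div_pow] at h4
    have hdk : (d : ℂ) ^ k ≠ 0 := pow_ne_zero _ hd0
    field_simp
    field_simp at h4
    exact h4
  have hlim1 : Tendsto h (𝓝[≠] 0) (𝓝 (h 0)) := hh.continuousAt.tendsto.mono_left nhdsWithin_le_nhds
  have hlim2 : Tendsto (fun t => ((d : ℂ) ^ k)⁻¹ * (h (t / d) * S t)) (𝓝[≠] 0)
      (𝓝 (((d : ℂ) ^ k)⁻¹ * (h (0 / d) * S 0))) :=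
    (continuousAt_const.mul (hhc.mul hSc)).tendsto.mono_left nhdsWithin_le_nhds
  have heq := tendsto_nhds_unique hlim1 (hlim2.congr' (key.mono fun t ht => ht.symm))
  rw [zero_div, hS0] at heq
  refine ⟨k, hk, ?_, by linear_combination -hq0⟩
  have hdk : (d : ℂ) ^ k ≠ 0 := pow_ne_zero _ hd0
  have h1 : (d : ℂ) ^ k = d * q ^ (d - 1) := by
    field_simp at heq
    exact heq
  obtain ⟨m, rfl⟩ : ∃ m, k = m + 1 := ⟨k - 1, by omega⟩
  rw [pow_succ', Nat.add_sub_cancel] at *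
  exact (mul_left_cancel₀ hd0 h1).symm

/-- The arithmetic of the exceptional parameters. -/
theorem exceptional {d : ℕ} (hd : 2 ≤ d) {q c : ℂ} {k : ℕ} (hk : 1 ≤ k)
    (h1 : q ^ (d - 1) = (d : ℂ) ^ (k - 1)) (h2 : c = q - q ^ d) (hc : ‖c‖ ≤ 2) :
    c = 0 ∨ (d = 2 ∧ c = -2) := by
  have hdR : (2 : ℝ) ≤ d := by exact_mod_cast hd
  have h3 : c = q * (1 - (d : ℂ) ^ (k - 1)) := by
    rw [← h1, h2, mul_sub, mul_one, ← pow_succ']
    congr 2
    omega
  obtain ⟨m, rfl⟩ : ∃ m, k = m + 1 := ⟨k - 1, by omega⟩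
  rw [Nat.add_sub_cancel] at h1 h3
  rcases Nat.eq_zero_or_pos m with hm | hm
  · left
    rw [h3, hm]; simp
  · right
    have hcn : ‖c‖ = ‖q‖ * ((d : ℝ) ^ m - 1) := by
      rw [h3, norm_mul]
      congr 1
      have h4 : (1 - (d : ℂ) ^ m) = ((1 - (d : ℝ) ^ m : ℝ) : ℂ) := by push_cast; ring
      have h5 : (1 : ℝ) ≤ (d : ℝ) ^ m := one_le_pow₀ (by linarith)
      rw [h4, norm_real, Real.norm_eq_abs, abs_of_nonpos (by linarith)]
      ring
    have hqn : ‖q‖ ^ (d - 1) = (d : ℝ) ^ m := by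
      rw [← norm_pow, h1, norm_pow, Complex.norm_natCast]
    have hdm : (d : ℝ) ≤ (d : ℝ) ^ m := le_self_pow₀ (by linarith) (by omega)
    have hq1 : 1 < ‖q‖ := by
      by_contra hcon
      have := pow_le_one₀ (n := d - 1) (norm_nonneg q) (not_lt.mp hcon)
      linarith
    have hd2 : d = 2 := by
      by_contra hne
      have hd3 : (3 : ℝ) ≤ d := by exact_mod_cast (show 3 ≤ d by omega)
      have : 2 < ‖q‖ * ((d : ℝ) ^ m - 1) := by nlinarith
      linarith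
    subst hd2
    refine ⟨rfl, ?_⟩
    simp only [Nat.cast_ofNat, show (2 : ℕ) - 1 = 1 from rfl, pow_one] at h1 h3 hcn hqn
    have hm1 : m = 1 := by
      by_contra hne
      have h4 : (2 : ℝ) ^ 2 ≤ 2 ^ m := pow_le_pow_right₀ (by norm_num) (by omega)
      rw [hcn, hqn] at hc
      nlinarith
    rw [h3, h1, hm1]
    norm_num

end Pool.Agent.TH425.AD
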