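import Mathlib
import Pool.Agent.TH425.AD.G
import Pool.Agent.TH425.AD.L

set_option autoImplicit false

open Complex Topology Filter Metric MeasureTheory Set N62a1eb23

namespace Pool.Agent.TH425.AD

open Pool.Agent.H713R2 Pool.Agent.H712R2 Pool.Agent.Helper202.Univ Pool.Agent.H713R2.AR

theorem P_add (d m i : ℕ) (c : ℂ) : (ff d c)^[i] (P d (m + 1) c) = P d (m + i + 1) c := by
  induction i with
  | zero => rfl
  | succ i ih =>
    rw [Function.iterate_succ_apply', ih, show m + (i + 1) + 1 = m + i + 1 + 1 by ring,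
      P_succ d (m + i + 1)]
    rfl

theorem iter_tendsto {ι : Type*} {l : Filter ι} {d : ℕ} {c z : ι → ℂ} {c0 z0 : ℂ}
    (hc : Tendsto c l (𝓝 c0)) (hz : Tendsto z l (𝓝 z0)) (i : ℕ) :
    Tendsto (fun j => (ff d (c j))^[i] (z j)) l (𝓝 ((ff d c0)^[i] z0)) := by
  induction i with
  | zero => exact hz
  | succ i ih =>
    simp only [Function.iterate_succ_apply']
    exact (ih.pow d).add hc

/-- The rescaling limit of the critical orbit polynomials at a point with an angular derivative. -/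
theorem exists_limit {d : ℕ} (hd : 2 ≤ d) {β : ℂ → ℂ} (hβ : IsBeta d β) {θ : ℝ} {a c0 : ℂ}
    (ha : a ≠ 0)
    (hH1 : ∀ K ε : ℝ, 0 < ε → ∃ ρ > 0, ∀ s : ℂ, 0 < s.re → s.re < ρ → ‖s - θ * I‖ ≤ K * s.re →
      ‖gg β s - c0 - a * (s - θ * I)‖ ≤ ε * ‖s - θ * I‖)
    (hH2 : ∀ ρ : ℕ, ∃ B : ℝ, ∃ᶠ n : ℕ in atTop, ∀ c : ℂ, ‖c - c0‖ ≤ ρ / (d : ℝ) ^ n →
      ‖P d (n + 1) c‖ ≤ B) (T : ℝ) :
    ∃ (Q : ℂ → ℂ) (η : ℂ), DifferentiableOn ℂ Q (ball 0 T) ∧ ‖η‖ = 1 ∧
      ∀ s ∈ ball (0 : ℂ) T, 0 < s.re → ∀ i : ℕ,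
        ‖(ff d c0)^[i] (Q s) - (η * exp s) ^ (d ^ i)‖ ≤ 3 := by
  classical
  have hdR : (2 : ℝ) ≤ d := by exact_mod_cast hd
  have hdn : ∀ n : ℕ, (0 : ℝ) < (d : ℝ) ^ n := fun n => by positivity
  have hdC : ∀ n : ℕ, ((d : ℂ)) ^ n ≠ 0 := fun n => by exact_mod_cast (hdn n).ne'
  have hap : 0 < ‖a‖ := norm_pos_iff.mpr ha
  obtain ⟨B, hB⟩ := hH2 ⌈‖a‖ * T⌉₊
  set U : Set ℕ := {n | ∀ c : ℂ, ‖c - c0‖ ≤ (⌈‖a‖ * T⌉₊ : ℝ) / (d : ℝ) ^ n →
      ‖P d (n + 1) c‖ ≤ B} with hU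
  have hneb : (atTop ⊓ 𝓟 U : Filter ℕ).NeBot := frequently_mem_iff_neBot.mp hB
  set 𝒰 : Ultrafilter ℕ := Ultrafilter.of (atTop ⊓ 𝓟 U) with h𝒰
  have hle0 : (𝒰 : Filter ℕ) ≤ atTop ⊓ 𝓟 U := Ultrafilter.of_le _
  have hle : (𝒰 : Filter ℕ) ≤ atTop := hle0.trans inf_le_left
  have hUm : ∀ᶠ n in (𝒰 : Filter ℕ), n ∈ U := le_principal_iff.mp (hle0.trans inf_le_right)
  set F : ℕ → ℂ → ℂ := fun n t => if n ∈ U then P d (n + 1) (c0 + a * t / (d : ℂ) ^ n) else 0
    with hF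
  have hFd : ∀ n, DifferentiableOn ℂ (F n) (ball 0 T) := by
    intro n
    by_cases hn : n ∈ U
    · have : F n = fun t => P d (n + 1) (c0 + a * t / (d : ℂ) ^ n) := by
        funext t; simp [hF, hn]
      rw [this]
      apply Differentiable.differentiableOn
      exact (differentiable_P d (n + 1)).comp (by fun_prop)
    · have : F n = fun _ => 0 := by
        funext t; simp [hF, hn]
      rw [this]
      exact differentiableOn_const _
  have hFb : ∀ n, ∀ t ∈ ball (0 : ℂ) T, ‖F n t‖ ≤ |B| := by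
    intro n t ht
    by_cases hn : n ∈ U
    · simp only [hF, hn, if_true]
      refine (hn _ ?_).trans (le_abs_self B)
      rw [add_sub_cancel_left, norm_div, norm_mul, norm_pow, Complex.norm_natCast]
      apply div_le_div_of_nonneg_right _ (hdn n).le
      have h1 : ‖t‖ ≤ T := (mem_ball_zero_iff.mp ht).le
      calc ‖a‖ * ‖t‖ ≤ ‖a‖ * T := by gcongr
        _ ≤ _ := Nat.le_ceil _
    · simp [hF, hn]
  obtain ⟨Q, hQd, hQ⟩ := Pool.Agent.Helper114.Montel.montel isOpen_ball F hFd _ hFb 𝒰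
  -- the phase
  obtain ⟨η, hη, hηl⟩ := (isCompact_sphere (0 : ℂ) 1).ultrafilter_le_nhds
    (𝒰.map fun n : ℕ => exp ((d : ℂ) ^ n * (θ * I))) (by
      rw [le_principal_iff, Ultrafilter.coe_map, Filter.mem_map]
      refine Eventually.of_forall fun n => ?_
      have h1 : (d : ℂ) ^ n * (θ * I) = (((d : ℝ) ^ n * θ : ℝ) : ℂ) * I := by push_cast; ring
      change exp ((d : ℂ) ^ n * (θ * I)) ∈ sphere 0 1
      rw [mem_sphere_zero_iff_norm, h1, norm_exp_ofReal_mul_I])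
  have hηt : Tendsto (fun n : ℕ => exp ((d : ℂ) ^ n * (θ * I))) 𝒰 (𝓝 η) := hηl
  refine ⟨Q, η, hQd, mem_sphere_zero_iff_norm.mp hη, ?_⟩
  intro s hs hsre i
  set sn : ℕ → ℂ := fun n => θ * I + s / (d : ℂ) ^ n with hsn
  have hsnre : ∀ n, (sn n).re = s.re / (d : ℝ) ^ n := by
    intro n
    simp only [hsn]
    have h1 : s / (d : ℂ) ^ n = s / (((d : ℝ) ^ n : ℝ) : ℂ) := by push_cast; rfl
    rw [add_re, h1, div_ofReal_re]
    simp
  have hsnre0 : ∀ n, 0 < (sn n).re := fun n => by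
    rw [hsnre]; exact div_pos hsre (hdn n)
  have hdinv : Tendsto (fun n : ℕ => ((d : ℝ) ^ n)⁻¹) atTop (𝓝 0) :=
    (tendsto_pow_atTop_atTop_of_one_lt (by linarith)).inv_tendsto_atTop
  have hsnt : Tendsto (fun n => (sn n).re) atTop (𝓝 0) := by
    have := hdinv.const_mul s.re
    rw [mul_zero] at this
    refine this.congr fun n => ?_
    rw [hsnre]; rfl
  set cn : ℕ → ℂ := fun n => gg β (sn n) with hcn
  set tn : ℕ → ℂ := fun n => (cn n - c0) * (d : ℂ) ^ n / a with htn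
  have hcneq : ∀ n, cn n = c0 + a * tn n / (d : ℂ) ^ n := by
    intro n
    simp only [htn]
    have := hdC n
    field_simp
    ring
  have hsp : 0 < ‖s‖ := by
    apply norm_pos_iff.mpr
    rintro rfl
    simp at hsre
  have htnt : Tendsto tn atTop (𝓝 s) := by
    rw [Metric.tendsto_nhds]
    intro ε hε
    obtain ⟨ρ, hρ, hρs⟩ := hH1 (‖s‖ / s.re) (ε * ‖a‖ / (2 * ‖s‖)) (by positivity)
    filter_upwards [hsnt.eventually (gt_mem_nhds hρ)] with n hn
    have hns : sn n - θ * I = s / (d : ℂ) ^ n := by simp only [hsn]; ring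
    have hnn : ‖sn n - θ * I‖ = ‖s‖ / (d : ℝ) ^ n := by
      rw [hns, norm_div, norm_pow, Complex.norm_natCast]
    have h1 := hρs (sn n) (hsnre0 n) hn (by
      rw [hnn, hsnre]
      apply le_of_eq
      field_simp)
    rw [hnn, hns] at h1
    have h2 : tn n - s = (gg β (sn n) - c0 - a * (s / (d : ℂ) ^ n)) * (d : ℂ) ^ n / a := by
      simp only [htn, hcn]
      have := hdC n
      field_simp
    rw [dist_eq_norm, h2, norm_div, norm_mul, norm_pow, Complex.norm_natCast, div_lt_iff₀ hap]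
    have h3 : ‖gg β (sn n) - c0 - a * (s / (d : ℂ) ^ n)‖ * (d : ℝ) ^ n ≤
        ε * ‖a‖ / (2 * ‖s‖) * (‖s‖ / (d : ℝ) ^ n) * (d : ℝ) ^ n := by gcongr
    have h4 : ε * ‖a‖ / (2 * ‖s‖) * (‖s‖ / (d : ℝ) ^ n) * (d : ℝ) ^ n = ε * ‖a‖ / 2 := by
      have := hdn n
      field_simp
    rw [h4] at h3
    have : 0 < ε * ‖a‖ := by positivity
    linarith
  have hdinvC : Tendsto (fun n : ℕ => ((d : ℂ) ^ n)⁻¹) atTop (𝓝 0) := by
    have := (Complex.continuous_ofReal.tendsto 0).comp hdinv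
    rw [ofReal_zero] at this
    refine this.congr fun n => ?_
    simp only [Function.comp]
    push_cast; rfl
  have hcnt : Tendsto cn atTop (𝓝 c0) := by
    have h1 : Tendsto (fun n => c0 + a * tn n * ((d : ℂ) ^ n)⁻¹) atTop (𝓝 (c0 + a * s * 0)) :=
      ((htnt.const_mul a).mul hdinvC).const_add c0
    rw [mul_zero, add_zero] at h1
    refine h1.congr fun n => ?_
    rw [hcneq n]; rfl
  have hz : Tendsto (fun n => P d (n + 1) (cn n)) 𝒰 (𝓝 (Q s)) := by
    have h1 : Tendsto (fun n => F n (tn n)) 𝒰 (𝓝 (Q s)) := by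
      apply hQ.tendsto_comp (hQd.continuousOn s hs) hs
      rw [tendsto_nhdsWithin_iff]
      have h2 := htnt.mono_left hle
      exact ⟨h2, h2 (isOpen_ball.mem_nhds hs)⟩
    refine h1.congr' ?_
    filter_upwards [hUm] with n hn
    simp only [hF, hn, if_true]
    rw [← hcneq n]
  have hit := iter_tendsto (d := d) (hcnt.mono_left hle) hz i
  have hex : Tendsto (fun n => (exp ((d : ℂ) ^ n * (θ * I)) * exp s) ^ (d ^ i)) 𝒰
      (𝓝 ((η * exp s) ^ (d ^ i))) := (hηt.mul_const _).pow _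
  refine le_of_tendsto (hit.sub hex).norm (Eventually.of_forall fun n => ?_)
  rw [P_add]
  have h1 := P_gg_sub_le hd hβ (n + i) (hsnre0 n)
  have h2 : exp ((d : ℂ) ^ (n + i) * sn n) = (exp ((d : ℂ) ^ n * (θ * I)) * exp s) ^ (d ^ i) := by
    rw [← exp_add, ← exp_nat_mul]
    congr 1
    simp only [hsn]
    have := hdC n
    push_cast
    rw [pow_add]
    field_simp
  rw [h2] at h1
  exact h1

/-- Rigidity: the landing parameter is exceptional. -/
theorem rigidity {d : ℕ} (hd : 2 ≤ d) {β : ℂ → ℂ} (hβ : IsBeta d β) {θ : ℝ} {a c0 : ℂ}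
    (ha : a ≠ 0)
    (hH1 : ∀ K ε : ℝ, 0 < ε → ∃ ρ > 0, ∀ s : ℂ, 0 < s.re → s.re < ρ → ‖s - θ * I‖ ≤ K * s.re →
      ‖gg β s - c0 - a * (s - θ * I)‖ ≤ ε * ‖s - θ * I‖)
    (hH2 : ∀ ρ : ℕ, ∃ B : ℝ, ∃ᶠ n : ℕ in atTop, ∀ c : ℂ, ‖c - c0‖ ≤ ρ / (d : ℝ) ^ n →
      ‖P d (n + 1) c‖ ≤ B) :
    ∃ (q : ℂ) (k : ℕ), 1 ≤ k ∧ q ^ (d - 1) = (d : ℂ) ^ (k - 1) ∧ c0 = q - q ^ d := by
  have hdR : (2 : ℝ) ≤ d := by exact_mod_cast hd
  have hd0 : (d : ℂ) ≠ 0 := by exact_mod_cast (show d ≠ 0 by omega)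
  set T0 : ℝ := 21 * d with hT0
  obtain ⟨Q, η, hQd, hη, hsh⟩ := exists_limit hd hβ ha hH1 hH2 (T0 + 10)
  set α : ℝ := arg η with hα
  have hηα : η = exp (α * I) := by
    have := norm_mul_exp_arg_mul_I η
    rw [hη, ofReal_one, one_mul] at this
    exact this.symm
  have hαn : ‖(α : ℂ) * I‖ ≤ 4 := by
    rw [norm_mul, norm_I, mul_one, norm_real, Real.norm_eq_abs]
    have h1 := abs_arg_le_pi η
    have := Real.pi_lt_four
    linarith
  have hαre : ((α : ℂ) * I).re = 0 := by simp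
  set R : ℂ → ℂ := fun t => Q (t - α * I) with hR
  have hmem : ∀ t ∈ ball (0 : ℂ) (T0 + 5), t - α * I ∈ ball (0 : ℂ) (T0 + 10) := by
    intro t ht
    rw [mem_ball_zero_iff] at ht ⊢
    have := norm_sub_le t (α * I)
    linarith
  have hRd : DifferentiableOn ℂ R (ball 0 (T0 + 5)) :=
    hQd.comp (by fun_prop) hmem
  have hdiv : ∀ t ∈ ball (0 : ℂ) (T0 + 5), t / d ∈ ball (0 : ℂ) (T0 + 5) := by
    intro t ht
    rw [mem_ball_zero_iff] at ht ⊢
    rw [norm_div, Complex.norm_natCast]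
    have h1 : ‖t‖ / d ≤ ‖t‖ := div_le_self (norm_nonneg _) (by linarith)
    linarith
  have hRsh : ∀ t ∈ ball (0 : ℂ) (T0 + 5), 0 < t.re → ∀ i : ℕ,
      ‖(ff d c0)^[i] (R t) - (exp t) ^ (d ^ i)‖ ≤ 3 := by
    intro t ht htre i
    have h1 := hsh (t - α * I) (hmem t ht) (by rw [sub_re, hαre, sub_zero]; exact htre) i
    rw [hηα, ← exp_add, add_sub_cancel] at h1
    exact h1
  have hloc : ∀ t ∈ ball (0 : ℂ) (T0 + 5), T0 < t.re → R t = (R (t / d)) ^ d + c0 := by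
    intro t ht htre
    have hT0p : 0 < T0 := by positivity
    apply shadow_unique hd (c := c0) (W := exp t)
    · rw [Complex.norm_exp]
      have h1 := Real.add_one_le_exp t.re
      rw [hT0] at htre
      linarith
    · exact hRsh t ht (by linarith)
    · intro i
      have h1 := hRsh (t / d) (hdiv t ht) (by
        rw [div_natCast_re]
        apply div_pos _ (by linarith)
        linarith) (i + 1)
      rw [Function.iterate_succ_apply, pow_succ', pow_mul, ← exp_nat_mul, mul_div_cancel₀ _ hd0] at h1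
      exact h1
  -- identity theorem
  have hfe : EqOn R (fun t => (R (t / d)) ^ d + c0) (ball 0 (T0 + 5)) := by
    have hR2 : DifferentiableOn ℂ (fun t => (R (t / d)) ^ d + c0) (ball 0 (T0 + 5)) := by
      have : DifferentiableOn ℂ (fun t : ℂ => R (t / d)) (ball 0 (T0 + 5)) :=
        hRd.comp (by fun_prop) hdiv
      exact (this.pow d).add_const c0
    have ht0 : ((T0 + 1 : ℝ) : ℂ) ∈ ball (0 : ℂ) (T0 + 5) := by
      rw [mem_ball_zero_iff, norm_real, Real.norm_eq_abs, abs_of_pos (by positivity)]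
      linarith
    refine (hRd.analyticOnNhd isOpen_ball).eqOn_of_preconnected_of_eventuallyEq
      (hR2.analyticOnNhd isOpen_ball) (convex_ball _ _).isPreconnected ht0 ?_
    have hre : {t : ℂ | T0 < t.re} ∈ 𝓝 ((T0 + 1 : ℝ) : ℂ) := by
      apply (isOpen_lt continuous_const continuous_re).mem_nhds
      change T0 < ((T0 + 1 : ℝ) : ℂ).re
      rw [ofReal_re]; linarith
    filter_upwards [isOpen_ball.mem_nhds ht0, hre] with t h1 h2
    exact hloc t h1 h2
  have h0 : (0 : ℂ) ∈ ball (0 : ℂ) (T0 + 5) := mem_ball_self (by positivity)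
  have hRa : AnalyticAt ℂ R 0 := hRd.analyticAt (isOpen_ball.mem_nhds h0)
  have hnc : ¬ ∀ᶠ t in 𝓝 (0 : ℂ), R t = R 0 := by
    intro hcon
    have hconst : EqOn R (fun _ => R 0) (ball 0 (T0 + 5)) :=
      (hRd.analyticOnNhd isOpen_ball).eqOn_of_preconnected_of_eventuallyEq
        (fun _ _ => analyticAt_const) (convex_ball _ _).isPreconnected h0 hcon
    have hval : ∀ x : ℝ, T0 < x → x < T0 + 5 → ‖R 0 - ((Real.exp x : ℝ) : ℂ)‖ ≤ 3 := by
      intro x hx1 hx2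
      have hx0 : 0 < x := by
        have : 0 < T0 := by positivity
        linarith
      have hxm : (x : ℂ) ∈ ball (0 : ℂ) (T0 + 5) := by
        rw [mem_ball_zero_iff, norm_real, Real.norm_eq_abs, abs_of_pos hx0]
        exact hx2
      have h1 := hRsh x hxm (by rw [ofReal_re]; exact hx0) 0
      rw [Function.iterate_zero, id, pow_zero, pow_one, hconst hxm, ← ofReal_exp] at h1
      exact h1
    have h1 := hval (T0 + 1) (by linarith) (by linarith)
    have h2 := hval (T0 + 2) (by linarith) (by linarith)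
    have h3 : ‖((Real.exp (T0 + 2) - Real.exp (T0 + 1) : ℝ) : ℂ)‖ ≤ 6 := by
      have h4 : ((Real.exp (T0 + 2) - Real.exp (T0 + 1) : ℝ) : ℂ) =
          (R 0 - ((Real.exp (T0 + 1) : ℝ) : ℂ)) - (R 0 - ((Real.exp (T0 + 2) : ℝ) : ℂ)) := by
        push_cast; ring
      rw [h4]
      exact (norm_sub_le _ _).trans (by linarith)
    rw [norm_real, Real.norm_eq_abs] at h3
    have h4 := (le_abs_self _).trans h3
    have h5 : Real.exp (T0 + 2) = Real.exp (T0 + 1) * Real.exp 1 := by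
      rw [← Real.exp_add]; congr 1; ring
    have h6 := Real.add_one_le_exp (1 : ℝ)
    have h7 := Real.add_one_le_exp (T0 + 1)
    rw [h5] at h4
    have h8 : (42 : ℝ) ≤ T0 := by rw [hT0]; linarith
    nlinarith
  obtain ⟨k, hk, hk1, hk2⟩ := functional_order hd hRa hnc (by
    filter_upwards [isOpen_ball.mem_nhds h0] with t ht
    exact hfe ht)
  exact ⟨R 0, k, hk, hk1, hk2⟩

end Pool.Agent.TH425.AD
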