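import Mathlib
import Pool.Agent.TH425.AD.K
import Pool.Agent.TH425.AD.B1
import Pool.Agent.TH425.AD.B2

set_option autoImplicit false

open Complex Topology Filter Metric MeasureTheory Set N62a1eb23

namespace Pool.Agent.TH425.AD

open Pool.Agent.H713R2 Pool.Agent.H712R2 Pool.Agent.Helper202.Univ Pool.Agent.H713R2.AR

/-- uniform logarithmic potential estimate on a compact piece -/
theorem potential {d : ℕ} (hd : 2 ≤ d) {β : ℂ → ℂ} (hβ : IsBeta d β) {a : ℂ} (ha : a ≠ 0)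
    {ρ : ℝ} (hρ : 0 < ρ) (p : ℝ) {z : ℂ} (hz : z ∉ multibrotSet d) {r : ℝ} (hr : 0 < r) :
    ∫⁻ θ in PC β a ρ p, ENNReal.ofReal (1 / 2 * Real.log (1 + 2 * r ^ 2 / ‖z - cc β θ‖ ^ 2)) ≤
      ENNReal.ofReal (6 * Real.pi * r / ‖a‖) := by
  have hap : 0 < ‖a‖ := norm_pos_iff.mpr ha
  rcases (PC β a ρ p).eq_empty_or_nonempty with he | hne
  · rw [he]; simp
  obtain ⟨t, ht, hmin⟩ := (isCompact_PC β a ρ p).exists_isMinOn hne
    (continuousOn_const.sub (PC_cont hβ hρ p)).norm (f := fun θ => ‖z - cc β θ‖)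
  set b : ℝ := 6 * r / ‖a‖ with hb
  have hb0 : 0 < b := by positivity
  have hms : MeasurableSet (PC β a ρ p) := (isCompact_PC β a ρ p).measurableSet
  have hpt : ∀ θ ∈ PC β a ρ p, θ ≠ t →
      1 / 2 * Real.log (1 + 2 * r ^ 2 / ‖z - cc β θ‖ ^ 2) ≤ 1 / 2 * JJ b (θ - t) := by
    intro θ hθ hθt
    have hx : 0 < |θ - t| := abs_pos.mpr (sub_ne_zero.mpr hθt)
    have hD : 0 < ‖z - cc β θ‖ := by
      apply norm_pos_iff.mpr
      intro h0
      apply hz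
      rw [sub_eq_zero.mp h0]
      exact PC_mem hd hβ hρ hθ.1
    have h1 : ‖z - cc β t‖ ≤ ‖z - cc β θ‖ := hmin hθ
    have h2 := (FF_bilip hβ hρ hθ.1 ht.1 (PC_dist hρ hθ ht)).1
    have h3 : ‖cc β θ - cc β t‖ ≤ 2 * ‖z - cc β θ‖ := by
      have h4 : cc β θ - cc β t = (z - cc β t) - (z - cc β θ) := by ring
      rw [h4]
      exact (norm_sub_le _ _).trans (by linarith)
    have h5 : ‖a‖ * |θ - t| ≤ 4 * ‖z - cc β θ‖ := by linarith
    have h6 : 2 * r ^ 2 / ‖z - cc β θ‖ ^ 2 ≤ b ^ 2 / (θ - t) ^ 2 := by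
      rw [← sq_abs (θ - t), hb, div_pow, div_div, ← mul_pow, div_le_div_iff₀ (by positivity)
        (by positivity)]
      have h7 : (‖a‖ * |θ - t|) ^ 2 ≤ (4 * ‖z - cc β θ‖) ^ 2 :=
        pow_le_pow_left₀ (by positivity) h5 2
      have h8 : 2 * r ^ 2 * (‖a‖ * |θ - t|) ^ 2 ≤ 2 * r ^ 2 * (4 * ‖z - cc β θ‖) ^ 2 := by gcongr
      have h9 : 0 ≤ r ^ 2 * ‖z - cc β θ‖ ^ 2 := by positivity
      nlinarith
    unfold JJ
    have h7 : Real.log (1 + 2 * r ^ 2 / ‖z - cc β θ‖ ^ 2) ≤ Real.log (1 + b ^ 2 / (θ - t) ^ 2) := by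
      apply Real.log_le_log (by positivity)
      linarith
    linarith
  calc ∫⁻ θ in PC β a ρ p, ENNReal.ofReal (1 / 2 * Real.log (1 + 2 * r ^ 2 / ‖z - cc β θ‖ ^ 2))
      ≤ ∫⁻ θ in PC β a ρ p, ENNReal.ofReal (1 / 2 * JJ b (θ - t)) := by
        apply lintegral_mono_ae
        have h1 : ∀ᵐ θ : ℝ, θ ≠ t := by
          simp [ae_iff]
        filter_upwards [ae_restrict_mem hms, ae_restrict_of_ae h1] with θ h2 h3
        exact ENNReal.ofReal_le_ofReal (hpt θ h2 h3)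
    _ ≤ ∫⁻ θ : ℝ, ENNReal.ofReal (1 / 2 * JJ b (θ - t)) := setLIntegral_le_lintegral _ _
    _ = ENNReal.ofReal (1 / 2) * ∫⁻ θ : ℝ, ENNReal.ofReal (JJ b (θ - t)) := by
        rw [← lintegral_const_mul' _ _ ENNReal.ofReal_ne_top]
        apply lintegral_congr
        intro θ
        rw [ENNReal.ofReal_mul (by norm_num)]
    _ ≤ ENNReal.ofReal (1 / 2) * ENNReal.ofReal (2 * Real.pi * b) := by
        gcongr
        exact JJ_lintegral hb0 t
    _ = ENNReal.ofReal (6 * Real.pi * r / ‖a‖) := by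
        rw [← ENNReal.ofReal_mul (by norm_num)]
        congr 1
        rw [hb]; ring

open Classical in
/-- measurable extension of the landing map -/
noncomputable def CM (β : ℂ → ℂ) (a : ℂ) (ρ p : ℝ) : ℝ → ℂ :=
  (PC β a ρ p).piecewise (cc β) (fun _ => 0)

open Classical in
theorem CM_eq {β : ℂ → ℂ} {a : ℂ} {ρ p θ : ℝ} (hθ : θ ∈ PC β a ρ p) : CM β a ρ p θ = cc β θ := by
  unfold CM
  exact Set.piecewise_eq_of_mem _ _ _ hθ

open Classical in
theorem CM_meas {d : ℕ} {β : ℂ → ℂ} (hβ : IsBeta d β) (a : ℂ) {ρ : ℝ} (hρ : 0 < ρ) (p : ℝ) :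
    Measurable (CM β a ρ p) := by
  unfold CM
  exact ContinuousOn.measurable_piecewise (PC_cont hβ hρ p) continuousOn_const
    (isCompact_PC β a ρ p).measurableSet

/-- the kernel -/
noncomputable def KK (β : ℂ → ℂ) (a : ℂ) (ρ p q r : ℝ) (θ t : ℝ) : ENNReal :=
  ENNReal.ofReal (1 / 2 * Real.log (1 + 2 * r ^ 2 / ‖zz β (circleMap 0 q t) - CM β a ρ p θ‖ ^ 2))

theorem zzc_cont {d : ℕ} {β : ℂ → ℂ} (hβ : IsBeta d β) {q : ℝ} (hq0 : 0 < q) (hq1 : q < 1) :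
    Continuous fun t : ℝ => zz β (circleMap 0 q t) :=
  (zz_cont hβ hq0 hq1).comp_continuous (continuous_circleMap 0 q)
    (fun t => circleMap_mem_sphere' 0 q t)

theorem KK_meas {d : ℕ} {β : ℂ → ℂ} (hβ : IsBeta d β) (a : ℂ) {ρ : ℝ} (hρ : 0 < ρ) (p : ℝ)
    {q : ℝ} (hq0 : 0 < q) (hq1 : q < 1) (r : ℝ) :
    Measurable (Function.uncurry (KK β a ρ p q r)) := by
  have h1 : Measurable fun x : ℝ × ℝ => zz β (circleMap 0 q x.2) :=
    (zzc_cont hβ hq0 hq1).measurable.comp measurable_snd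
  have h2 : Measurable fun x : ℝ × ℝ => CM β a ρ p x.1 := (CM_meas hβ a hρ p).comp measurable_fst
  have h3 : Measurable fun x : ℝ × ℝ => ‖zz β (circleMap 0 q x.2) - CM β a ρ p x.1‖ ^ 2 :=
    ((h1.sub h2).norm).pow_const 2
  have h4 : Measurable fun x : ℝ × ℝ => 1 / 2 * Real.log (1 + 2 * r ^ 2 /
      ‖zz β (circleMap 0 q x.2) - CM β a ρ p x.1‖ ^ 2) :=
    (Real.measurable_log.comp ((h3.const_div _).const_add 1)).const_mul _
  exact h4.ennreal_ofReal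

/-- the average over the circle -/
noncomputable def AA (β : ℂ → ℂ) (a : ℂ) (ρ p q r : ℝ) (θ : ℝ) : ENNReal :=
  ∫⁻ t in Ioc 0 (2 * Real.pi), KK β a ρ p q r θ t

theorem AA_meas {d : ℕ} {β : ℂ → ℂ} (hβ : IsBeta d β) (a : ℂ) {ρ : ℝ} (hρ : 0 < ρ) (p : ℝ)
    {q : ℝ} (hq0 : 0 < q) (hq1 : q < 1) (r : ℝ) : Measurable (AA β a ρ p q r) := by
  unfold AA
  exact (KK_meas hβ a hρ p hq0 hq1 r).lintegral_prod_right

theorem AA_int {d : ℕ} (hd : 2 ≤ d) {β : ℂ → ℂ} (hβ : IsBeta d β) {a : ℂ} (ha : a ≠ 0)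
    {ρ : ℝ} (hρ : 0 < ρ) (p : ℝ) {q : ℝ} (hq0 : 0 < q) (hq1 : q < 1) {r : ℝ} (hr : 0 < r) :
    ∫⁻ θ in PC β a ρ p, AA β a ρ p q r θ ≤
      ENNReal.ofReal (2 * Real.pi * (6 * Real.pi * r / ‖a‖)) := by
  unfold AA
  rw [lintegral_lintegral_swap (KK_meas hβ a hρ p hq0 hq1 r).aemeasurable]
  have hms : MeasurableSet (PC β a ρ p) := (isCompact_PC β a ρ p).measurableSet
  have h1 : ∀ t : ℝ, ∫⁻ θ in PC β a ρ p, KK β a ρ p q r θ t ≤
      ENNReal.ofReal (6 * Real.pi * r / ‖a‖) := by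
    intro t
    have hz : zz β (circleMap 0 q t) ∉ multibrotSet d := by
      have hs := circleMap_mem_sphere' 0 q t
      exact hβ.notMem _ (sphere_sub hq0 hq1 hs) (sphere_ne hq0 hs)
    refine le_trans (le_of_eq ?_) (potential hd hβ ha hρ p hz hr)
    apply setLIntegral_congr_fun hms
    intro θ hθ
    simp only [KK, CM_eq hθ]
  calc ∫⁻ t in Ioc 0 (2 * Real.pi), ∫⁻ θ in PC β a ρ p, KK β a ρ p q r θ t
      ≤ ∫⁻ t in Ioc 0 (2 * Real.pi), ENNReal.ofReal (6 * Real.pi * r / ‖a‖) :=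
        lintegral_mono h1
    _ = ENNReal.ofReal (2 * Real.pi * (6 * Real.pi * r / ‖a‖)) := by
        rw [setLIntegral_const, Real.volume_Ioc, sub_zero, ← ENNReal.ofReal_mul (by positivity),
          mul_comm]

theorem AA_YY {d : ℕ} (hd : 2 ≤ d) {β : ℂ → ℂ} (hβ : IsBeta d β) {a : ℂ}
    {ρ : ℝ} (hρ : 0 < ρ) {p : ℝ} {q : ℝ} (hq0 : 0 < q) (hq1 : q < 1) (r : ℝ) {θ : ℝ}
    (hθ : θ ∈ PC β a ρ p) :
    AA β a ρ p q r θ = ENNReal.ofReal (2 * Real.pi * YY β (cc β θ) q r) := by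
  unfold AA YY
  rw [Real.circleAverage_def, smul_eq_mul, mul_inv_cancel_left₀ (by positivity),
    intervalIntegral.integral_of_le (by positivity)]
  have hM : cc β θ ∈ multibrotSet d := PC_mem hd hβ hρ hθ.1
  have hcont : Continuous fun t : ℝ => 1 / 2 * Real.log (1 + 2 * r ^ 2 /
      ‖zz β (circleMap 0 q t) - cc β θ‖ ^ 2) :=
    (YY_cont hβ hq0 hq1 hM r).comp_continuous (continuous_circleMap 0 q)
      (fun t => circleMap_mem_sphere' 0 q t)
  rw [ofReal_integral_eq_lintegral_ofReal]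
  · apply lintegral_congr
    intro t
    simp only [KK, CM_eq hθ]
  · exact (hcont.integrableOn_Icc (a := 0) (b := 2 * Real.pi)).mono_set Ioc_subset_Icc_self
  · refine Eventually.of_forall fun t => ?_
    have : 0 ≤ 2 * r ^ 2 / ‖zz β (circleMap 0 q t) - cc β θ‖ ^ 2 := by positivity
    have := Real.log_nonneg (show (1 : ℝ) ≤ 1 + 2 * r ^ 2 /
      ‖zz β (circleMap 0 q t) - cc β θ‖ ^ 2 by linarith)
    change 0 ≤ 1 / 2 * Real.log (1 + 2 * r ^ 2 / ‖zz β (circleMap 0 q t) - cc β θ‖ ^ 2)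
    positivity

/-- Almost everywhere on a compact piece the critical orbit polynomials are bounded on small
discs, for infinitely many scales. -/
theorem bounded_scales {d : ℕ} (hd : 2 ≤ d) {β : ℂ → ℂ} (hβ : IsBeta d β) {a : ℂ} (ha : a ≠ 0)
    {ρ : ℝ} (hρ : 0 < ρ) (p : ℝ) (m : ℕ) :
    ∀ᵐ θ : ℝ, θ ∈ PC β a ρ p → ∃ B : ℝ, ∃ᶠ n : ℕ in atTop, ∀ c : ℂ,
      ‖c - cc β θ‖ ≤ ((m : ℝ) + 1) / (d : ℝ) ^ n → ‖P d (n + 1) c‖ ≤ B := by
  have hdR : (2 : ℝ) ≤ d := by exact_mod_cast hd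
  have hdn : ∀ n : ℕ, (0 : ℝ) < (d : ℝ) ^ n := fun n => by positivity
  have hap : 0 < ‖a‖ := norm_pos_iff.mpr ha
  set q : ℕ → ℝ := fun n => Real.exp (-((d : ℝ) ^ n)⁻¹) with hq
  have hq0 : ∀ n, 0 < q n := fun n => Real.exp_pos _
  have hq1 : ∀ n, q n < 1 := by
    intro n
    simp only [hq]
    rw [← Real.exp_zero]
    apply Real.exp_lt_exp.mpr
    have := hdn n
    have : 0 < ((d : ℝ) ^ n)⁻¹ := by positivity
    linarith
  set r : ℕ → ℝ := fun n => ((m : ℝ) + 1) / (d : ℝ) ^ n with hr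
  have hr0 : ∀ n, 0 < r n := fun n => by
    have := hdn n
    simp only [hr]; positivity
  set f : ℕ → ℝ → ENNReal := fun n θ => ENNReal.ofReal ((d : ℝ) ^ n) * AA β a ρ p (q n) (r n) θ
    with hf
  have hfm : ∀ n, Measurable (f n) := fun n =>
    (AA_meas hβ a hρ p (hq0 n) (hq1 n) (r n)).const_mul _
  set L : ENNReal := ENNReal.ofReal (2 * Real.pi * (6 * Real.pi * ((m : ℝ) + 1) / ‖a‖)) with hL
  have hfi : ∀ n, ∫⁻ θ in PC β a ρ p, f n θ ≤ L := by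
    intro n
    simp only [hf]
    rw [lintegral_const_mul' _ _ ENNReal.ofReal_ne_top]
    calc ENNReal.ofReal ((d : ℝ) ^ n) * ∫⁻ θ in PC β a ρ p, AA β a ρ p (q n) (r n) θ
        ≤ ENNReal.ofReal ((d : ℝ) ^ n) *
          ENNReal.ofReal (2 * Real.pi * (6 * Real.pi * r n / ‖a‖)) := by
          gcongr
          exact AA_int hd hβ ha hρ p (hq0 n) (hq1 n) (hr0 n)
      _ = L := by
          rw [← ENNReal.ofReal_mul (hdn n).le, hL]
          congr 1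
          simp only [hr]
          have := hdn n
          field_simp
  have hfatou : ∫⁻ θ in PC β a ρ p, liminf (fun n => f n θ) atTop ≤ L := by
    refine (lintegral_liminf_le hfm).trans ?_
    refine (liminf_le_liminf (Eventually.of_forall hfi)).trans ?_
    simp
  have hae : ∀ᵐ θ ∂(volume.restrict (PC β a ρ p)), liminf (fun n => f n θ) atTop < ⊤ :=
    ae_lt_top (Measurable.liminf hfm) (ne_top_of_le_ne_top ENNReal.ofReal_ne_top hfatou)
  have hms : MeasurableSet (PC β a ρ p) := (isCompact_PC β a ρ p).measurableSet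
  rw [ae_restrict_iff' hms] at hae
  filter_upwards [hae] with θ hθ hθm
  obtain ⟨b, hb1, hb2⟩ := exists_between (hθ hθm)
  have hfr := frequently_lt_of_liminf_lt (by isBoundedDefault) hb1
  refine ⟨Real.exp (2 * (Real.log 2 + 1 + b.toReal)), hfr.mono fun n hn c hc => ?_⟩
  have hM : cc β θ ∈ multibrotSet d := PC_mem hd hβ hρ hθm.1
  apply P_le_of_YY hd hβ n hM (hr0 n) _ hc
  have h1 : f n θ = ENNReal.ofReal ((d : ℝ) ^ n * (2 * Real.pi * YY β (cc β θ) (q n) (r n))) := by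
    simp only [hf]
    rw [AA_YY hd hβ hρ (hq0 n) (hq1 n) (r n) hθm, ← ENNReal.ofReal_mul (hdn n).le]
  have hn' : f n θ < b := hn
  rw [h1] at hn'
  have h2 : (d : ℝ) ^ n * (2 * Real.pi * YY β (cc β θ) (q n) (r n)) ≤ b.toReal :=
    ((ENNReal.ofReal_le_iff_le_toReal hb2.ne).mp hn'.le)
  have hpi := Real.pi_gt_three
  by_cases hY : 0 ≤ YY β (cc β θ) (q n) (r n)
  · have h3 : 0 ≤ (d : ℝ) ^ n * YY β (cc β θ) (q n) (r n) := mul_nonneg (hdn n).le hY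
    change (d : ℝ) ^ n * YY β (cc β θ) (q n) (r n) ≤ b.toReal
    nlinarith
  · have h3 : (d : ℝ) ^ n * YY β (cc β θ) (q n) (r n) ≤ 0 :=
      mul_nonpos_of_nonneg_of_nonpos (hdn n).le (not_le.mp hY).le
    change (d : ℝ) ^ n * YY β (cc β θ) (q n) (r n) ≤ b.toReal
    exact h3.trans ENNReal.toReal_nonneg

end Pool.Agent.TH425.AD
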