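import Mathlib
import Pool.Agent.TH425.AD.B3
import Pool.Agent.TH425.AD.N
import Pool.Agent.TH425.AD.L2

set_option autoImplicit false

open Complex Topology Filter Metric MeasureTheory Set N62a1eb23

namespace Pool.Agent.TH425.AD

open Pool.Agent.H713R2 Pool.Agent.H712R2 Pool.Agent.Helper202.Univ Pool.Agent.H713R2.AR

/-- On a compact piece almost no angle lands at a prescribed point. -/
theorem landing_ne {d : ℕ} {β : ℂ → ℂ} (hβ : IsBeta d β) {a : ℂ} (ha : a ≠ 0)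
    {ρ : ℝ} (hρ : 0 < ρ) (p : ℝ) (c1 : ℂ) :
    ∀ᵐ θ : ℝ, θ ∈ PC β a ρ p → cc β θ ≠ c1 := by
  have hs : {θ : ℝ | θ ∈ PC β a ρ p ∧ cc β θ = c1}.Subsingleton := by
    rintro x ⟨hx, hx1⟩ y ⟨hy, hy1⟩
    have h1 := (FF_bilip hβ hρ hx.1 hy.1 (PC_dist hρ hx hy)).1
    rw [hx1, hy1, sub_self, norm_zero] at h1
    have hap : 0 < ‖a‖ := norm_pos_iff.mpr ha
    by_contra hne
    have h2 : 0 < |x - y| := abs_pos.mpr (sub_ne_zero.mpr hne)
    have : 0 < ‖a‖ / 2 * |x - y| := by positivity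
    linarith
  have h0 : volume {θ : ℝ | θ ∈ PC β a ρ p ∧ cc β θ = c1} = 0 := hs.measure_zero _
  have h1 : ∀ᵐ θ : ℝ, θ ∉ {θ : ℝ | θ ∈ PC β a ρ p ∧ cc β θ = c1} :=
    measure_eq_zero_iff_ae_notMem.mp h0
  filter_upwards [h1] with θ h2 h3 h4
  exact h2 ⟨h3, h4⟩

/-- The statement in the logarithmic coordinate. -/
theorem no_radial_limit {d : ℕ} (hd : 2 ≤ d) {β : ℂ → ℂ} (hβ : IsBeta d β) :
    ∀ᵐ θ : ℝ, ¬ ∃ a : ℂ, a ≠ 0 ∧
      Tendsto (fun x : ℝ => deriv (gg β) (θ * I + x)) (𝓝[>] 0) (𝓝 a) := by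
  have hdR : (2 : ℝ) ≤ d := by exact_mod_cast hd
  set D : ℕ → ℂ := TopologicalSpace.denseSeq ℂ with hD
  set ρ : ℕ → ℝ := fun k => 1 / ((k : ℝ) + 1) with hρd
  have hρ : ∀ k, 0 < ρ k := fun k => by simp only [hρd]; positivity
  have hall : ∀ᵐ θ : ℝ, ∀ (i k : ℕ) (j : ℤ), D i ≠ 0 →
      θ ∈ PC β (D i) (ρ k) (j * (ρ k / 2)) →
      (∀ m : ℕ, ∃ B : ℝ, ∃ᶠ n : ℕ in atTop, ∀ c : ℂ,
        ‖c - cc β θ‖ ≤ ((m : ℝ) + 1) / (d : ℝ) ^ n → ‖P d (n + 1) c‖ ≤ B) ∧ cc β θ ≠ -2 := by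
    rw [ae_all_iff]; intro i
    rw [ae_all_iff]; intro k
    rw [ae_all_iff]; intro j
    by_cases hi : D i = 0
    · exact Eventually.of_forall fun θ h => absurd hi h
    · have h1 : ∀ᵐ θ : ℝ, ∀ m : ℕ, θ ∈ PC β (D i) (ρ k) (j * (ρ k / 2)) →
          ∃ B : ℝ, ∃ᶠ n : ℕ in atTop, ∀ c : ℂ,
          ‖c - cc β θ‖ ≤ ((m : ℝ) + 1) / (d : ℝ) ^ n → ‖P d (n + 1) c‖ ≤ B := by
        rw [ae_all_iff]; intro m
        exact bounded_scales hd hβ hi (hρ k) _ m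
      filter_upwards [h1, landing_ne hβ hi (hρ k) (j * (ρ k / 2)) (-2)] with θ h2 h3 _ h4
      exact ⟨fun m => h2 m h4, h3 h4⟩
  filter_upwards [hall] with θ hθ
  rintro ⟨a, ha, hlim⟩
  have hap : 0 < ‖a‖ := norm_pos_iff.mpr ha
  -- approximate the limit
  obtain ⟨i, hi⟩ := (TopologicalSpace.denseRange_denseSeq ℂ).exists_dist_lt a
    (show 0 < ‖a‖ / 20 by positivity)
  change dist a (D i) < ‖a‖ / 20 at hi
  rw [dist_eq_norm] at hi
  have hDn : 19 / 20 * ‖a‖ ≤ ‖D i‖ := by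
    have := norm_sub_norm_le a (D i)
    linarith
  have hD0 : D i ≠ 0 := by
    apply norm_pos_iff.mp
    linarith
  obtain ⟨ρ0, hρ0, hc⟩ := cone_of_radial hβ (thetaI_re θ) hlim 2 (show 0 < ‖a‖ / 20 by positivity)
  obtain ⟨k, hk⟩ := exists_nat_one_div_lt hρ0
  have hFF : θ ∈ FF β (D i) (ρ k) := by
    intro s hs
    have h1 := hc s hs.1 (hs.2.1.trans hk) hs.2.2.le
    have h2 : deriv (gg β) s - D i = (deriv (gg β) s - a) + (a - D i) := by ring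
    rw [h2]
    refine (norm_add_le _ _).trans ?_
    linarith
  set j : ℤ := ⌊θ / (ρ k / 2)⌋ with hj
  have hρ2 : 0 < ρ k / 2 := by have := hρ k; linarith
  have hPC : θ ∈ PC β (D i) (ρ k) (j * (ρ k / 2)) := by
    refine ⟨hFF, ?_, ?_⟩
    · have := Int.floor_le (θ / (ρ k / 2))
      rwa [le_div_iff₀ hρ2] at this
    · have := (Int.lt_floor_add_one (θ / (ρ k / 2))).le
      rw [div_le_iff₀ hρ2, ← hj] at this
      linarith
  obtain ⟨hB, hne⟩ := hθ i k j hD0 hPC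
  -- the expansion
  have hcc := (FF_expansion hβ (hρ k) hFF).1
  have hH1 : ∀ K ε : ℝ, 0 < ε → ∃ ρ > 0, ∀ s : ℂ, 0 < s.re → s.re < ρ → ‖s - θ * I‖ ≤ K * s.re →
      ‖gg β s - cc β θ - a * (s - θ * I)‖ ≤ ε * ‖s - θ * I‖ := by
    intro K ε hε
    obtain ⟨ρ1, hρ1, hc1⟩ := cone_of_radial hβ (thetaI_re θ) hlim (|K| + 2) hε
    obtain ⟨c0, h1, h2⟩ := expansion hβ (thetaI_re θ) (K := |K| + 2) (ρ := ρ1) (ε := ε) (a := a)
      (by have := abs_nonneg K; linarith) hρ1 (fun s hs => hc1 s hs.1 hs.2.1 hs.2.2.le)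
    have h3 : c0 = cc β θ := tendsto_nhds_unique h1 hcc
    rw [h3] at h2
    refine ⟨ρ1, hρ1, fun s hs1 hs2 hs3 => h2 s ⟨hs1, hs2, ?_⟩⟩
    have : K ≤ |K| := le_abs_self K
    nlinarith
  have hH2 : ∀ m : ℕ, ∃ B : ℝ, ∃ᶠ n : ℕ in atTop, ∀ c : ℂ,
      ‖c - cc β θ‖ ≤ m / (d : ℝ) ^ n → ‖P d (n + 1) c‖ ≤ B := by
    intro m
    obtain ⟨B, hB1⟩ := hB m
    refine ⟨B, hB1.mono fun n hn c hcn => hn c (hcn.trans ?_)⟩
    have : (0 : ℝ) < (d : ℝ) ^ n := by positivity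
    gcongr
    linarith
  obtain ⟨q, k', hk', hq1, hq2⟩ := rigidity hd hβ ha hH1 hH2
  have hM : cc β θ ∈ multibrotSet d := PC_mem hd hβ (hρ k) hFF
  have hM2 : ‖cc β θ‖ ≤ 2 := by
    have := (mem_multibrot_iff hd _).mp hM 1
    rwa [P_one hd] at this
  rcases exceptional hd hk' hq1 hq2 hM2 with h0 | ⟨_, h2⟩
  · -- the parameter zero is interior
    rw [h0] at hcc
    have h1 : ∀ᶠ x : ℝ in 𝓝[>] 0, ‖gg β (θ * I + x)‖ < 1 / 4 := by
      have := hcc.norm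
      rw [norm_zero] at this
      exact this.eventually (gt_mem_nhds (by norm_num))
    have h2 : ∀ᶠ x : ℝ in 𝓝[>] 0, (0 : ℝ) < x := self_mem_nhdsWithin
    obtain ⟨x, hx1, hx2⟩ := (h1.and h2).exists
    exact gg_notMem hβ (s := θ * I + x) (by simpa using hx2) (small_mem hd hx1.le)
  · exact hne h2

/-- relation between the two coordinates -/
theorem deriv_relation {d : ℕ} {β : ℂ → ℂ} (hβ : IsBeta d β) {ψ : ℂ → ℂ}
    (hψ : IsExteriorMap (multibrotSet d) ψ) {s : ℂ} (hs : 0 < s.re) :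
    deriv (gg β) s = exp s * deriv ψ (exp s) := by
  have h1 : 1 < ‖exp s‖ := by
    rw [Complex.norm_exp]; exact Real.one_lt_exp_iff.mpr hs
  have hext : IsOpen {z : ℂ | 1 < ‖z‖} := isOpen_lt continuous_const continuous_norm
  have h2 : gg β =ᶠ[𝓝 s] fun s => ψ (exp s) := by
    filter_upwards [isOpen_HP.mem_nhds hs] with t ht
    have h3 : 1 < ‖exp t‖ := by
      rw [Complex.norm_exp]; exact Real.one_lt_exp_iff.mpr ht
    rw [exteriorMap_unique hβ hψ h3, ← exp_neg]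
    rfl
  rw [h2.deriv_eq]
  have h4 : HasDerivAt ψ (deriv ψ (exp s)) (exp s) :=
    (hψ.diff.differentiableAt (hext.mem_nhds h1)).hasDerivAt
  have h5 := h4.comp s (hasDerivAt_exp s)
  rw [mul_comm]
  exact h5.deriv

theorem main {d : ℕ} (hd : 2 ≤ d) {ψ : ℂ → ℂ} (hψ : IsExteriorMap (multibrotSet d) ψ) :
    ∀ᵐ θ : ℝ, ¬ ∃ a : ℂ, a ≠ 0 ∧
      Tendsto (fun r : ℝ => deriv ψ (r * exp (θ * I))) (𝓝[>] 1) (𝓝 a) := by
  obtain ⟨β, hβ⟩ := exists_beta hd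
  filter_upwards [no_radial_limit hd hβ] with θ hθ
  rintro ⟨a, ha, h⟩
  apply hθ
  refine ⟨exp (θ * I) * a, mul_ne_zero (exp_ne_zero _) ha, ?_⟩
  have h1 : Tendsto (fun x : ℝ => Real.exp x) (𝓝[>] 0) (𝓝[>] 1) := by
    rw [tendsto_nhdsWithin_iff]
    constructor
    · have := (Real.continuous_exp.tendsto 0).mono_left
        (nhdsWithin_le_nhds : 𝓝[>] (0 : ℝ) ≤ 𝓝 0)
      rwa [Real.exp_zero] at this
    · filter_upwards [self_mem_nhdsWithin] with x hx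
      exact Real.one_lt_exp_iff.mpr hx
  have h2 := h.comp h1
  have h3 : Tendsto (fun x : ℝ => exp (θ * I + x)) (𝓝[>] 0) (𝓝 (exp (θ * I))) := by
    have h4 : Continuous fun x : ℝ => exp (θ * I + x) := by fun_prop
    have := (h4.tendsto 0).mono_left (nhdsWithin_le_nhds : 𝓝[>] (0 : ℝ) ≤ 𝓝 0)
    simpa using! this
  refine (h3.mul h2).congr' ?_
  filter_upwards [self_mem_nhdsWithin] with x hx
  have hx' : 0 < x := hx
  rw [deriv_relation hβ hψ (s := θ * I + x) (by simpa using hx')]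
  simp only [Function.comp]
  rw [exp_add, ofReal_exp, mul_comm (exp (θ * I)) (exp (x : ℂ))]

end Pool.Agent.TH425.AD
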