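import Mathlib
import Pool.Agent.TH425.AD.E3
import Pool.Agent.TH425.AD.L3
import Pool.Agent.TH425.AD.M

set_option autoImplicit false

open Complex Topology Filter Metric MeasureTheory Set N62a1eb23

namespace Pool.Agent.TH425.AD

open Pool.Agent.H713R2 Pool.Agent.H712R2 Pool.Agent.Helper202.Univ Pool.Agent.H713R2.AR
open Pool.Agent.TH425.BF (IsBl CK WO bloch_fatou)

/-- A flat angle lies in one of countably many closed sets. -/
theorem FG_of_flat {β : ℂ → ℂ} {θ M : ℝ} (hM : 0 < M)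
    (hMt : Tendsto (fun x : ℝ => ‖deriv (gg β) (θ * I + x)‖) (𝓝[>] 0) (𝓝 M))
    (hfc : ∀ᶠ x : ℝ in 𝓝[>] 0, ∀ t ∈ CK 4,
      ‖deriv (gg β) (θ * I + x * t) - deriv (gg β) (θ * I + x)‖ ≤ M / 40 ∧
      x * ‖deriv (deriv (gg β)) (θ * I + x * t)‖ ≤ M / 40) :
    ∃ (m : ℚ) (k : ℕ), (0 : ℝ) < m ∧ θ ∈ FG β m (1 / ((k : ℝ) + 1)) := by
  obtain ⟨m, hm1, hm2⟩ := exists_rat_btwn (show 3 / 5 * M < 4 / 5 * M by linarith)
  have h1 : ∀ᶠ x : ℝ in 𝓝[>] 0, M - M / 40 < ‖deriv (gg β) (θ * I + x)‖ :=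
    hMt.eventually (lt_mem_nhds (by linarith))
  have h2 : ∀ᶠ x : ℝ in 𝓝[>] 0, ‖deriv (gg β) (θ * I + x)‖ < M + M / 40 :=
    hMt.eventually (gt_mem_nhds (by linarith))
  have h3 := (h1.and h2).and hfc
  rw [eventually_nhdsWithin_iff, Metric.eventually_nhds_iff] at h3
  obtain ⟨ρ, hρ, h3⟩ := h3
  obtain ⟨k, hk⟩ := exists_nat_one_div_lt hρ
  refine ⟨m, k, by linarith, ?_⟩
  intro x hx hxk t ht
  obtain ⟨⟨h4, h5⟩, h6⟩ := h3 (show dist x 0 < ρ by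
    rw [Real.dist_eq, sub_zero, abs_of_pos hx]; exact hxk.trans hk) hx
  obtain ⟨h7, h8⟩ := h6 t ht
  have h9 : deriv (gg β) (θ * I + x * t) =
    deriv (gg β) (θ * I + x) + (deriv (gg β) (θ * I + x * t) - deriv (gg β) (θ * I + x)) := by ring
  have h10 := norm_add_le (deriv (gg β) (θ * I + x))
    (deriv (gg β) (θ * I + x * t) - deriv (gg β) (θ * I + x))
  rw [← h9] at h10
  have h11 := norm_sub_norm_le (deriv (gg β) (θ * I + x)) (deriv (gg β) (θ * I + x * t))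
  rw [norm_sub_rev] at h11
  refine ⟨?_, ?_, ?_⟩ <;> linarith

/-- first order expansion on the rays through the landing point -/
theorem cone_small {d : ℕ} {β : ℂ → ℂ} (hβ : IsBeta d β) {θ M : ℝ}
    (hMt : Tendsto (fun x : ℝ => ‖deriv (gg β) (θ * I + x)‖) (𝓝[>] 0) (𝓝 M))
    (hfl : ∀ N > (1 : ℝ), ∀ δ > 0, ∀ᶠ x : ℝ in 𝓝[>] 0, ∀ t ∈ CK N,
      ‖deriv (gg β) (θ * I + x * t) - deriv (gg β) (θ * I + x)‖ ≤ δ ∧
      x * ‖deriv (deriv (gg β)) (θ * I + x * t)‖ ≤ δ) {s : ℂ} (hs : 0 < s.re) {ε : ℝ}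
    (hε : 0 < ε) :
    ∀ᶠ x : ℝ in 𝓝[>] 0,
      ‖gg β (θ * I + x * s) - cc β θ - x * deriv (gg β) (θ * I + x) * s‖ ≤ ε * x := by
  set N : ℝ := 1 / s.re + ‖s‖ + 2 with hN
  have hN1 : 1 < N := by
    have : 0 < 1 / s.re := by positivity
    have := norm_nonneg s
    rw [hN]; linarith
  have hN0 : 0 < N := by linarith
  have hsCK : s ∈ CK N := by
    refine ⟨?_, ?_⟩
    · rw [div_le_iff₀ hN0]
      have h1 : s.re * (1 / s.re) = 1 := by field_simp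
      have h2 : s.re * (1 / s.re) ≤ s.re * N := by
        apply mul_le_mul_of_nonneg_left _ hs.le
        have := norm_nonneg s
        rw [hN]; linarith
      linarith
    · have : 0 < 1 / s.re := by positivity
      rw [hN]; linarith
  have hone : (1 : ℂ) ∈ CK N := by
    refine ⟨?_, by rw [norm_one]; linarith⟩
    rw [one_re, div_le_iff₀ (by linarith)]; linarith
  set δ : ℝ := ε / (2 * (‖s - 1‖ + 1)) with hδ
  have hδ0 : 0 < δ := by positivity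
  have hδε : δ * (‖s - 1‖ + 1) = ε / 2 := by rw [hδ]; field_simp
  -- bound on the derivative and landing
  have hb : ∀ᶠ x : ℝ in 𝓝[>] 0, ‖deriv (gg β) (θ * I + x)‖ < M + 1 :=
    hMt.eventually (gt_mem_nhds (by linarith))
  have h3 := hb.and (hfl N hN1 (ε / 2) (by linarith))
  rw [eventually_nhdsWithin_iff, Metric.eventually_nhds_iff] at h3
  obtain ⟨ρ, hρ, h3⟩ := h3
  have h4 : ∀ x : ℝ, 0 < x → x < ρ → ‖deriv (gg β) (θ * I + x)‖ < M + 1 ∧ ∀ t ∈ CK N,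
      ‖deriv (gg β) (θ * I + x * t) - deriv (gg β) (θ * I + x)‖ ≤ ε / 2 ∧
      x * ‖deriv (deriv (gg β)) (θ * I + x * t)‖ ≤ ε / 2 := by
    intro x hx hx2
    exact h3 (show dist x 0 < ρ by rw [Real.dist_eq, sub_zero, abs_of_pos hx]; exact hx2) hx
  have h5 := (ray_expansion hβ (θ := θ) (C := M + 1) (ε := ε / 2) hρ
    (fun x hx hx2 => (h4 x hx hx2).1.le) (fun x hx hx2 => by
      have := ((h4 x hx hx2).2 1 hone).2
      rwa [mul_one] at this)).2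
  filter_upwards [hfl N hN1 δ hδ0, Ioo_mem_nhdsGT hρ] with x hx1 hx2
  have hx0 : 0 < x := hx2.1
  have hmem : ∀ t ∈ CK N, (θ : ℂ) * I + x * t ∈ BF.HP := fun t ht =>
    BF.WO_mem (N := N + 1) (by linarith) hx0 (BF.CK_sub_WO hN1 ht)
  have h := (BF.convex_CK N).norm_image_sub_le_of_norm_hasDerivWithin_le
    (f := fun t : ℂ => gg β (θ * I + x * t) - x * deriv (gg β) (θ * I + x) * t)
    (f' := fun t => deriv (gg β) (θ * I + x * t) * x - x * deriv (gg β) (θ * I + x) * 1)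
    (C := δ * x) (x := 1) (y := s) (fun t ht => by
      have h1 : HasDerivAt (gg β) (deriv (gg β) (θ * I + x * t)) (θ * I + x * t) :=
        (gg_differentiableAt hβ (hmem t ht)).hasDerivAt
      have h2 : HasDerivAt (fun t : ℂ => (θ : ℂ) * I + x * t) x t := by
        simpa using ((hasDerivAt_id t).const_mul (x : ℂ)).const_add ((θ : ℂ) * I)
      exact ((h1.comp t h2).sub ((hasDerivAt_id t).const_mul _)).hasDerivWithinAt) (fun t ht => by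
      have h6 : deriv (gg β) (θ * I + x * t) * x - x * deriv (gg β) (θ * I + x) * 1 =
        (deriv (gg β) (θ * I + x * t) - deriv (gg β) (θ * I + x)) * x := by ring
      rw [h6, norm_mul, norm_real, Real.norm_eq_abs, abs_of_pos hx0]
      have := (hx1 t ht).1
      gcongr) hone hsCK
  have h6 := h5 x hx0 hx2.2
  have h7 : gg β (θ * I + x * s) - cc β θ - x * deriv (gg β) (θ * I + x) * s =
      ((gg β (θ * I + x * s) - x * deriv (gg β) (θ * I + x) * s) -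
        (gg β (θ * I + x * 1) - x * deriv (gg β) (θ * I + x) * 1)) +
      (gg β (θ * I + x) - x * deriv (gg β) (θ * I + x) - cc β θ) := by
    rw [mul_one, mul_one]; ring
  rw [h7]
  refine (norm_add_le _ _).trans ?_
  have h8 : δ * x * ‖s - 1‖ ≤ ε / 2 * x := by
    rw [← hδε]
    have : 0 ≤ δ * x := by positivity
    nlinarith
  linarith

theorem scales_expansion {d : ℕ} (hd : 2 ≤ d) {β : ℂ → ℂ} (hβ : IsBeta d β) {θ M : ℝ}
    (hMt : Tendsto (fun x : ℝ => ‖deriv (gg β) (θ * I + x)‖) (𝓝[>] 0) (𝓝 M))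
    (hfl : ∀ N > (1 : ℝ), ∀ δ > 0, ∀ᶠ x : ℝ in 𝓝[>] 0, ∀ t ∈ CK N,
      ‖deriv (gg β) (θ * I + x * t) - deriv (gg β) (θ * I + x)‖ ≤ δ ∧
      x * ‖deriv (deriv (gg β)) (θ * I + x * t)‖ ≤ δ) (s : ℂ) (hs : 0 < s.re) :
    Tendsto (fun n : ℕ => (gg β (θ * I + s / (d : ℂ) ^ n) - cc β θ) * (d : ℂ) ^ n -
      deriv (gg β) (θ * I + ((((d : ℝ) ^ n)⁻¹ : ℝ) : ℂ)) * s) atTop (𝓝 0) := by
  have hdR : (2 : ℝ) ≤ d := by exact_mod_cast hd
  have hdn : ∀ n : ℕ, (0 : ℝ) < (d : ℝ) ^ n := fun n => by positivity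
  have hdinv : Tendsto (fun n : ℕ => ((d : ℝ) ^ n)⁻¹) atTop (𝓝[>] 0) := by
    rw [tendsto_nhdsWithin_iff]
    exact ⟨(tendsto_pow_atTop_atTop_of_one_lt (by linarith)).inv_tendsto_atTop,
      Eventually.of_forall fun n => inv_pos.mpr (hdn n)⟩
  rw [Metric.tendsto_atTop']
  intro ε hε
  have h1 := hdinv.eventually (cone_small hβ hMt hfl hs (show 0 < ε / 2 by linarith))
  rw [eventually_atTop] at h1
  obtain ⟨n0, h1⟩ := h1
  refine ⟨n0, fun n hn => ?_⟩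
  have h2 := h1 n hn.le
  rw [dist_zero_right]
  have hdC : ((d : ℂ)) ^ n ≠ 0 := by exact_mod_cast (hdn n).ne'
  have e1 : ((((d : ℝ) ^ n)⁻¹ : ℝ) : ℂ) * s = s / (d : ℂ) ^ n := by
    push_cast; rw [div_eq_mul_inv, mul_comm]
  rw [e1] at h2
  have e2 : (gg β (θ * I + s / (d : ℂ) ^ n) - cc β θ) * (d : ℂ) ^ n -
      deriv (gg β) (θ * I + ((((d : ℝ) ^ n)⁻¹ : ℝ) : ℂ)) * s =
      (gg β (θ * I + s / (d : ℂ) ^ n) - cc β θ - ((((d : ℝ) ^ n)⁻¹ : ℝ) : ℂ) *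
        deriv (gg β) (θ * I + ((((d : ℝ) ^ n)⁻¹ : ℝ) : ℂ)) * s) * (d : ℂ) ^ n := by
    push_cast
    field_simp
  rw [e2, norm_mul, norm_pow, Complex.norm_natCast]
  calc _ ≤ ε / 2 * ((d : ℝ) ^ n)⁻¹ * (d : ℝ) ^ n := by
        apply mul_le_mul_of_nonneg_right h2 (hdn n).le
    _ = ε / 2 := by
        have := (hdn n).ne'
        field_simp
    _ < ε := by linarith

/-- landing at a prescribed point is rare on pieces -/
theorem Elanding_ne {d : ℕ} {β : ℂ → ℂ} {E : Set ℝ} {μ : ℝ} (hE : Piece d β E μ) (c1 : ℂ) :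
    ∀ᵐ θ : ℝ, θ ∈ E → cc β θ ≠ c1 := by
  have hs : {θ : ℝ | θ ∈ E ∧ cc β θ = c1}.Subsingleton := by
    rintro x ⟨hx, hx1⟩ y ⟨hy, hy1⟩
    have h1 := hE.lip x hx y hy
    rw [hx1, hy1, sub_self, norm_zero] at h1
    by_contra hne
    have h2 : 0 < |x - y| := abs_pos.mpr (sub_ne_zero.mpr hne)
    have h3 := hE.pos
    have : 0 < μ * |x - y| := by positivity
    linarith
  have h0 : volume {θ : ℝ | θ ∈ E ∧ cc β θ = c1} = 0 := hs.measure_zero _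
  have h1 : ∀ᵐ θ : ℝ, θ ∉ {θ : ℝ | θ ∈ E ∧ cc β θ = c1} :=
    measure_eq_zero_iff_ae_notMem.mp h0
  filter_upwards [h1] with θ h2 h3 h4
  exact h2 ⟨h3, h4⟩

/-- The two sided oscillation in the logarithmic coordinate. -/
theorem no_onesided {d : ℕ} (hd : 2 ≤ d) {β : ℂ → ℂ} (hβ : IsBeta d β) :
    ∀ᵐ θ : ℝ, ¬ ((∃ C : ℝ, ∀ᶠ x : ℝ in 𝓝[>] 0, ‖deriv (gg β) (θ * I + x)‖ ≤ C) ∨
      (∃ c > (0 : ℝ), ∀ᶠ x : ℝ in 𝓝[>] 0, c ≤ ‖deriv (gg β) (θ * I + x)‖)) := by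
  have hdR : (2 : ℝ) ≤ d := by exact_mod_cast hd
  set ρ : ℕ → ℝ := fun k => 1 / ((k : ℝ) + 1) with hρd
  have hρ : ∀ k, 0 < ρ k := fun k => by simp only [hρd]; positivity
  have hall : ∀ᵐ θ : ℝ, ∀ (m : ℚ) (k : ℕ) (j : ℤ), (0 : ℝ) < m →
      θ ∈ FG β m (ρ k) ∩ Icc (j * (ρ k / 2)) (j * (ρ k / 2) + ρ k / 2) →
      (∀ m : ℕ, ∃ B : ℝ, ∃ᶠ n : ℕ in atTop, ∀ c : ℂ,
        ‖c - cc β θ‖ ≤ ((m : ℝ) + 1) / (d : ℝ) ^ n → ‖P d (n + 1) c‖ ≤ B) ∧ cc β θ ≠ -2 := by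
    rw [ae_all_iff]; intro m
    rw [ae_all_iff]; intro k
    rw [ae_all_iff]; intro j
    by_cases hm : (0 : ℝ) < m
    · have hE := FG_piece hd hβ hm (hρ k) (j * (ρ k / 2))
      have h1 : ∀ᵐ θ : ℝ, ∀ i : ℕ,
          θ ∈ FG β m (ρ k) ∩ Icc (j * (ρ k / 2)) (j * (ρ k / 2) + ρ k / 2) →
          ∃ B : ℝ, ∃ᶠ n : ℕ in atTop, ∀ c : ℂ,
          ‖c - cc β θ‖ ≤ ((i : ℝ) + 1) / (d : ℝ) ^ n → ‖P d (n + 1) c‖ ≤ B := by
        rw [ae_all_iff]; intro i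
        exact Ebounded_scales hd hβ hE i
      filter_upwards [h1, Elanding_ne hE (-2)] with θ h2 h3 _ h4
      exact ⟨fun i => h2 i h4, h3 h4⟩
    · exact Eventually.of_forall fun θ h => absurd h hm
  filter_upwards [hall, bloch_fatou (dgg_isBl hβ)] with θ hθ hbf
  intro hor
  obtain ⟨M, hM, hMt, hfl0⟩ := hbf hor
  have hfl : ∀ N > (1 : ℝ), ∀ δ > 0, ∀ᶠ x : ℝ in 𝓝[>] 0, ∀ t ∈ CK N,
      ‖deriv (gg β) (θ * I + x * t) - deriv (gg β) (θ * I + x)‖ ≤ δ ∧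
      x * ‖deriv (deriv (gg β)) (θ * I + x * t)‖ ≤ δ :=
    fun N hN δ hδ => flat_close (dgg_isBl hβ) hMt hfl0 hN hδ
  obtain ⟨m, k, hm, hFG⟩ := FG_of_flat hM hMt (hfl 4 (by norm_num) (M / 40) (by linarith))
  have hρ2 : 0 < ρ k / 2 := by have := hρ k; linarith
  set j : ℤ := ⌊θ / (ρ k / 2)⌋ with hj
  have hPC : θ ∈ FG β m (ρ k) ∩ Icc (j * (ρ k / 2)) (j * (ρ k / 2) + ρ k / 2) := by
    refine ⟨hFG, ?_, ?_⟩
    · have := Int.floor_le (θ / (ρ k / 2))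
      rwa [le_div_iff₀ hρ2] at this
    · have := (Int.lt_floor_add_one (θ / (ρ k / 2))).le
      rw [div_le_iff₀ hρ2, ← hj] at this
      linarith
  obtain ⟨hB, hne⟩ := hθ m k j hm hPC
  have hcc := (FG_ray hβ (hρ k) hFG).1
  have hH2 : ∀ i : ℕ, ∃ B : ℝ, ∃ᶠ n : ℕ in atTop, ∀ c : ℂ,
      ‖c - cc β θ‖ ≤ i / (d : ℝ) ^ n → ‖P d (n + 1) c‖ ≤ B := by
    intro i
    obtain ⟨B, hB1⟩ := hB i
    refine ⟨B, hB1.mono fun n hn c hcn => hn c (hcn.trans ?_)⟩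
    have : (0 : ℝ) < (d : ℝ) ^ n := by positivity
    gcongr
    linarith
  have hdn : ∀ n : ℕ, (0 : ℝ) < (d : ℝ) ^ n := fun n => by positivity
  have hdinv : Tendsto (fun n : ℕ => ((d : ℝ) ^ n)⁻¹) atTop (𝓝[>] 0) := by
    rw [tendsto_nhdsWithin_iff]
    exact ⟨(tendsto_pow_atTop_atTop_of_one_lt (by linarith)).inv_tendsto_atTop,
      Eventually.of_forall fun n => inv_pos.mpr (hdn n)⟩
  have han : Tendsto (fun n : ℕ => ‖deriv (gg β) (θ * I + ((((d : ℝ) ^ n)⁻¹ : ℝ) : ℂ))‖) atTop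
      (𝓝 M) := hMt.comp hdinv
  obtain ⟨q, k', hk', hq1, hq2⟩ := rigidity_core hd
    (exists_limit' hd hβ hM han (scales_expansion hd hβ hMt hfl) hH2 (21 * d + 10))
  have hMm : cc β θ ∈ multibrotSet d := FG_mem hd hβ (hρ k) hFG
  have hM2 : ‖cc β θ‖ ≤ 2 := by
    have := (mem_multibrot_iff hd _).mp hMm 1
    rwa [P_one hd] at this
  rcases exceptional hd hk' hq1 hq2 hM2 with h0 | ⟨_, h2⟩
  · -- the parameter zero is interior
    rw [h0] at hcc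
    have h1 : ∀ᶠ x : ℝ in 𝓝[>] 0, ‖gg β (θ * I + x)‖ < 1 / 4 := by
      have := hcc.norm
      rw [norm_zero] at this
      exact this.eventually (gt_mem_nhds (by norm_num))
    have h2 : ∀ᶠ x : ℝ in 𝓝[>] 0, (0 : ℝ) < x := self_mem_nhdsWithin
    obtain ⟨x, hx1, hx2⟩ := (h1.and h2).exists
    exact gg_notMem hβ (s := θ * I + x) (by simpa using hx2) (small_mem hd hx1.le)
  · exact hne h2

/-- **Radial oscillation.** For almost every angle the modulus of the derivative of the exterior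
map is neither bounded above nor bounded away from zero along the radius. -/
theorem main2 {d : ℕ} (hd : 2 ≤ d) {ψ : ℂ → ℂ} (hψ : IsExteriorMap (multibrotSet d) ψ) :
    ∀ᵐ θ : ℝ, (∀ C : ℝ, ∃ᶠ r : ℝ in 𝓝[>] 1, C < ‖deriv ψ (r * exp (θ * I))‖) ∧
      (∀ ε > (0 : ℝ), ∃ᶠ r : ℝ in 𝓝[>] 1, ‖deriv ψ (r * exp (θ * I))‖ < ε) := by
  obtain ⟨β, hβ⟩ := exists_beta hd
  filter_upwards [no_onesided hd hβ] with θ hθ
  have h1 : Tendsto (fun x : ℝ => Real.exp x) (𝓝[>] 0) (𝓝[>] 1) := by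
    rw [tendsto_nhdsWithin_iff]
    constructor
    · have := (Real.continuous_exp.tendsto 0).mono_left
        (nhdsWithin_le_nhds : 𝓝[>] (0 : ℝ) ≤ 𝓝 0)
      rwa [Real.exp_zero] at this
    · filter_upwards [self_mem_nhdsWithin] with x hx
      exact Real.one_lt_exp_iff.mpr hx
  have hrel : ∀ x : ℝ, 0 < x → ‖deriv (gg β) (θ * I + x)‖ =
      Real.exp x * ‖deriv ψ ((Real.exp x : ℝ) * exp (θ * I))‖ := by
    intro x hx
    rw [deriv_relation hβ hψ (s := θ * I + x) (by simpa using hx), norm_mul, Complex.norm_exp]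
    have e1 : ((θ : ℂ) * I + x).re = x := by simp
    have e2 : exp (θ * I + x) = ((Real.exp x : ℝ) : ℂ) * exp (θ * I) := by
      rw [exp_add, ofReal_exp, mul_comm]
    rw [e1, e2]
  have hlt : ∀ᶠ x : ℝ in 𝓝[>] 0, 0 < x ∧ x < Real.log 2 :=
    Ioo_mem_nhdsGT (Real.log_pos (by norm_num))
  have h2e : ∀ x : ℝ, 0 < x → x < Real.log 2 → 1 ≤ Real.exp x ∧ Real.exp x ≤ 2 := by
    intro x hx1 hx2
    refine ⟨(Real.one_lt_exp_iff.mpr hx1).le, ?_⟩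
    have := Real.exp_lt_exp.mpr hx2
    rw [Real.exp_log (by norm_num)] at this
    exact this.le
  constructor
  · intro C hC
    apply hθ
    left
    refine ⟨2 * |C|, ?_⟩
    filter_upwards [h1.eventually hC, hlt] with x hx1 hx2
    obtain ⟨h3, h4⟩ := h2e x hx2.1 hx2.2
    rw [hrel x hx2.1]
    have h5 : ‖deriv ψ ((Real.exp x : ℝ) * exp (θ * I))‖ ≤ |C| :=
      (not_lt.mp hx1).trans (le_abs_self C)
    have h6 := norm_nonneg (deriv ψ ((Real.exp x : ℝ) * exp (θ * I)))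
    gcongr
  · intro ε hε hC
    apply hθ
    right
    refine ⟨ε, hε, ?_⟩
    filter_upwards [h1.eventually hC, hlt] with x hx1 hx2
    obtain ⟨h3, h4⟩ := h2e x hx2.1 hx2.2
    rw [hrel x hx2.1]
    have h5 : ε ≤ ‖deriv ψ ((Real.exp x : ℝ) * exp (θ * I))‖ := not_lt.mp hx1
    nlinarith

end Pool.Agent.TH425.AD
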