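import Mathlib
import Pool.Agent.TH425.AD.M2

set_option autoImplicit false

open Complex Topology Filter Metric MeasureTheory Set N62a1eb23

namespace Pool.Agent.TH425.AD

open Pool.Agent.H713R2 Pool.Agent.H712R2 Pool.Agent.Helper202.Univ Pool.Agent.H713R2.AR
open Pool.Agent.TH425.BF (IsBl CK WO bloch_fatou)

/-- Distance to an omitted value (Koebe). -/
theorem koebe_omit {φ : ℂ → ℂ} {z w : ℂ} {R : ℝ} (hR : 0 < R)
    (hd : DifferentiableOn ℂ φ (ball z R)) (hi : InjOn φ (ball z R))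
    (hw : ∀ y ∈ ball z R, φ y ≠ w) : R * ‖deriv φ z‖ ≤ 4 * ‖φ z - w‖ := by
  have hz : z ∈ ball z R := mem_ball_self hR
  obtain ⟨h0, h1⟩ := Pool.Agent.H792R2.SS.t_KB φ z R hR hd hi
  have hne : ∀ y ∈ ball z R, φ y - w ≠ 0 := fun y hy => sub_ne_zero.mpr (hw y hy)
  set χ : ℂ → ℂ := fun y => (φ y - w)⁻¹ with hχ
  have hχd : DifferentiableOn ℂ χ (ball z R) := (hd.sub_const w).inv hne
  have hχi : InjOn χ (ball z R) := by
    intro a ha b hb hab
    have : φ a - w = φ b - w := inv_injective hab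
    exact hi ha hb (sub_left_injective this)
  obtain ⟨_, h2⟩ := Pool.Agent.H792R2.SS.t_KB χ z R hR hχd hχi
  have hφ : ∀ y ∈ ball z R, HasDerivAt φ (deriv φ y) y := fun y hy =>
    (hd.differentiableAt (isOpen_ball.mem_nhds hy)).hasDerivAt
  have e1 : ∀ y ∈ ball z R, deriv χ y = -deriv φ y / (φ y - w) ^ 2 := fun y hy =>
    (((hφ y hy).sub_const w).inv (hne y hy)).deriv
  have hφ2 : HasDerivAt (deriv φ) (deriv (deriv φ) z) z :=
    ((hd.deriv isOpen_ball).differentiableAt (isOpen_ball.mem_nhds hz)).hasDerivAt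
  have e2 : deriv (deriv χ) z = -deriv (deriv φ) z / (φ z - w) ^ 2 +
      2 * deriv φ z ^ 2 / (φ z - w) ^ 3 := by
    have h3 : deriv χ =ᶠ[𝓝 z] fun y => -deriv φ y / (φ y - w) ^ 2 := by
      filter_upwards [isOpen_ball.mem_nhds hz] with y hy
      exact e1 y hy
    rw [h3.deriv_eq]
    have h4 := hφ2.neg.div (((hφ z hz).sub_const w).pow 2) (pow_ne_zero 2 (hne z hz))
    have h5 : deriv (fun y => -deriv φ y / (φ y - w) ^ 2) z = _ := h4.deriv
    rw [h5]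
    have := hne z hz
    simp only [Pi.neg_apply, Pi.pow_apply]
    field_simp
    push_cast
    ring
  rw [e1 z hz, norm_div, norm_neg, norm_pow] at h2
  set D := ‖φ z - w‖ with hD
  have hD0 : 0 < D := norm_pos_iff.mpr (hne z hz)
  have hp : 0 < ‖deriv φ z‖ := norm_pos_iff.mpr h0
  have e3 : 2 * deriv φ z ^ 2 / (φ z - w) ^ 3 = deriv (deriv χ) z +
      deriv (deriv φ) z / (φ z - w) ^ 2 := by
    rw [e2]; ring
  have e4 : 2 * ‖deriv φ z‖ ^ 2 / D ^ 3 ≤ ‖deriv (deriv χ) z‖ + ‖deriv (deriv φ) z‖ / D ^ 2 := by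
    have h3 := norm_add_le (deriv (deriv χ) z) (deriv (deriv φ) z / (φ z - w) ^ 2)
    rw [← e3] at h3
    rw [norm_div, norm_mul, norm_pow, norm_pow, norm_div, norm_pow, Complex.norm_ofNat] at h3
    exact h3
  have e5 : R * (2 * ‖deriv φ z‖ ^ 2 / D ^ 3) ≤ 8 * ‖deriv φ z‖ / D ^ 2 := by
    calc R * (2 * ‖deriv φ z‖ ^ 2 / D ^ 3)
        ≤ R * (‖deriv (deriv χ) z‖ + ‖deriv (deriv φ) z‖ / D ^ 2) := by gcongr
      _ = R * ‖deriv (deriv χ) z‖ + (R * ‖deriv (deriv φ) z‖) / D ^ 2 := by ring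
      _ ≤ 4 * (‖deriv φ z‖ / D ^ 2) + (4 * ‖deriv φ z‖) / D ^ 2 := by gcongr
      _ = 8 * ‖deriv φ z‖ / D ^ 2 := by ring
  have e6 : (R * ‖deriv φ z‖) * (2 * ‖deriv φ z‖ / D ^ 3) ≤ (4 * D) * (2 * ‖deriv φ z‖ / D ^ 3) := by
    have h3 : (R * ‖deriv φ z‖) * (2 * ‖deriv φ z‖ / D ^ 3) = R * (2 * ‖deriv φ z‖ ^ 2 / D ^ 3) := by
      ring
    have h4 : (4 * D) * (2 * ‖deriv φ z‖ / D ^ 3) = 8 * ‖deriv φ z‖ / D ^ 2 := by
      field_simp; ring
    rw [h3, h4]; exact e5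
  exact le_of_mul_le_mul_right e6 (by positivity)

theorem gg_sub_isBl {d : ℕ} {β : ℂ → ℂ} (hβ : IsBeta d β) {c : ℂ} (hc : c ∈ multibrotSet d) :
    IsBl (fun s => gg β s - c) := by
  have hne : ∀ s ∈ BF.HP, gg β s ≠ c := by
    intro s hs h
    exact gg_notMem hβ hs (h ▸ hc)
  refine ⟨(gg_diffOn hβ).sub_const c, fun s hs => sub_ne_zero.mpr (hne s hs), fun s hs hs3 => ?_⟩
  rw [deriv_sub_const]
  exact koebe_omit hs ((gg_diffOn hβ).mono ball_sub_HP) (gg_injOn hβ hs3)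
    (fun y hy => hne y (ball_sub_HP hy))

theorem gg_norm_le {d : ℕ} {β : ℂ → ℂ} (hβ : IsBeta d β) {s : ℂ} (hs : 0 < s.re) (hs1 : s.re ≤ 1) :
    ‖gg β s‖ ≤ 23 / 4 := by
  unfold gg
  rw [norm_mul, Complex.norm_exp]
  have h1 := hβ.bound _ (exp_neg_mem hs)
  have h2 : Real.exp s.re ≤ Real.exp 1 := Real.exp_le_exp.mpr hs1
  have h3 := Real.exp_one_lt_d9
  have h4 := Real.exp_pos s.re
  nlinarith [norm_nonneg (β (exp (-s)))]

/-- Almost every ray lands. -/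
theorem ae_landing {d : ℕ} (hd : 2 ≤ d) {β : ℂ → ℂ} (hβ : IsBeta d β) :
    ∀ᵐ θ : ℝ, Tendsto (fun x : ℝ => gg β (θ * I + x)) (𝓝[>] 0) (𝓝 (cc β θ)) := by
  have hc : ∀ c : ℂ, ‖c‖ ≤ 1 / 4 → ∀ᵐ θ : ℝ, ∃ M : ℝ,
      Tendsto (fun x : ℝ => ‖gg β (θ * I + x) - c‖) (𝓝[>] 0) (𝓝 M) := by
    intro c hc
    filter_upwards [bloch_fatou (gg_sub_isBl hβ (small_mem hd hc))] with θ hθ
    obtain ⟨M, _, hM, _⟩ := hθ (Or.inl ⟨6, by
      filter_upwards [Ioo_mem_nhdsGT one_pos] with x hx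
      refine (norm_sub_le _ _).trans ?_
      have := gg_norm_le hβ (s := θ * I + x) (by simpa using hx.1) (by simpa using hx.2.le)
      linarith⟩)
    exact ⟨M, hM⟩
  filter_upwards [hc 0 (by simp), hc (1 / 4) (by norm_num), hc (I / 4) (by norm_num)] with θ h0 h1 h2
  obtain ⟨M0, h0⟩ := h0
  obtain ⟨M1, h1⟩ := h1
  obtain ⟨M2, h2⟩ := h2
  set z : ℝ → ℂ := fun x => gg β (θ * I + x) with hz
  have hre : Tendsto (fun x => (z x).re) (𝓝[>] 0) (𝓝 (2 * (M0 ^ 2 - M1 ^ 2 + 1 / 16))) := by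
    refine (((h0.pow 2).sub (h1.pow 2)).add_const (1 / 16) |>.const_mul 2).congr fun x => ?_
    rw [Complex.sq_norm, Complex.sq_norm, Complex.normSq_apply, Complex.normSq_apply]
    simp only [sub_re, sub_im, zero_re, zero_im]
    norm_num
    ring
  have him : Tendsto (fun x => (z x).im) (𝓝[>] 0) (𝓝 (2 * (M0 ^ 2 - M2 ^ 2 + 1 / 16))) := by
    refine (((h0.pow 2).sub (h2.pow 2)).add_const (1 / 16) |>.const_mul 2).congr fun x => ?_
    rw [Complex.sq_norm, Complex.sq_norm, Complex.normSq_apply, Complex.normSq_apply]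
    simp only [sub_re, sub_im, zero_re, zero_im]
    norm_num
    ring
  have hzt : Tendsto z (𝓝[>] 0) (𝓝 (((2 * (M0 ^ 2 - M1 ^ 2 + 1 / 16) : ℝ) : ℂ) +
      ((2 * (M0 ^ 2 - M2 ^ 2 + 1 / 16) : ℝ) : ℂ) * I)) := by
    have h3 := ((Complex.continuous_ofReal.tendsto _).comp hre).add
      (((Complex.continuous_ofReal.tendsto _).comp him).mul_const I)
    refine h3.congr fun x => ?_
    simp only [Function.comp]
    exact re_add_im (z x)
  have hcc : cc β θ = _ := hzt.limUnder_eq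
  rw [hcc]
  exact hzt

/-- Schwarz-Pick at the centre of a disc -/
theorem schwarz_pick {f : ℂ → ℂ} {c : ℂ} {δ : ℝ} (hδ : 0 < δ)
    (hd : DifferentiableOn ℂ f (ball c δ)) (h1 : ∀ w ∈ ball c δ, ‖f w‖ < 1) :
    ‖deriv f c‖ * δ ≤ 1 - ‖f c‖ ^ 2 := by
  have hc : c ∈ ball c δ := mem_ball_self hδ
  set a := f c with ha
  have ha1 : ‖a‖ < 1 := h1 c hc
  have key : ∀ z : ℂ, ‖z‖ < 1 → ‖z - a‖ < ‖1 - (starRingEnd ℂ) a * z‖ := by
    intro z hz
    have h2 : ‖1 - (starRingEnd ℂ) a * z‖ ^ 2 - ‖z - a‖ ^ 2 = (1 - ‖a‖ ^ 2) * (1 - ‖z‖ ^ 2) := by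
      simp only [Complex.sq_norm, Complex.normSq_apply]
      simp
      ring
    have h3 : 0 < (1 - ‖a‖ ^ 2) * (1 - ‖z‖ ^ 2) := by
      apply mul_pos <;> nlinarith [norm_nonneg a, norm_nonneg z]
    exact lt_of_pow_lt_pow_left₀ 2 (norm_nonneg _) (by linarith)
  have hden : ∀ w ∈ ball c δ, 1 - (starRingEnd ℂ) a * f w ≠ 0 := by
    intro w hw h
    have := key (f w) (h1 w hw)
    rw [h, norm_zero] at this
    exact absurd this (not_lt.mpr (norm_nonneg _))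
  set F : ℂ → ℂ := fun w => (f w - a) / (1 - (starRingEnd ℂ) a * f w) with hF
  have hFd : DifferentiableOn ℂ F (ball c δ) :=
    (hd.sub_const a).div ((hd.const_mul _).const_sub 1) hden
  have hFc : F c = 0 := by simp [hF, ha]
  have hFm : MapsTo F (ball c δ) (ball (F c) 1) := by
    intro w hw
    rw [hFc, mem_ball_zero_iff, hF]
    simp only
    rw [norm_div, div_lt_one (norm_pos_iff.mpr (hden w hw))]
    exact key _ (h1 w hw)
  have h2 := Complex.norm_deriv_le_div_of_mapsTo_ball hFd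
    (hFm.mono_right ball_subset_closedBall) hδ
  have hfc : HasDerivAt f (deriv f c) c := (hd.differentiableAt (isOpen_ball.mem_nhds hc)).hasDerivAt
  have h3 : HasDerivAt F (deriv f c / (1 - (starRingEnd ℂ) a * a)) c := by
    have h4 := (hfc.sub_const a).div ((hfc.const_mul ((starRingEnd ℂ) a)).const_sub 1) (hden c hc)
    refine h4.congr_deriv ?_
    have := hden c hc
    rw [← ha] at this ⊢
    field_simp
    ring
  rw [h3.deriv, norm_div] at h2
  have h4 : (starRingEnd ℂ) a * a = ((‖a‖ ^ 2 : ℝ) : ℂ) := by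
    rw [Complex.sq_norm, Complex.normSq_eq_conj_mul_self]
  have h5 : ‖1 - (starRingEnd ℂ) a * a‖ = 1 - ‖a‖ ^ 2 := by
    rw [h4, ← ofReal_one, ← ofReal_sub, norm_real, Real.norm_eq_abs, abs_of_pos]
    nlinarith [norm_nonneg a]
  rw [h5] at h2
  have h6 : 0 < 1 - ‖a‖ ^ 2 := by nlinarith [norm_nonneg a]
  rw [div_le_div_iff₀ h6 hδ, one_mul] at h2
  exact h2

/-- The inverse of the parametrisation of the complement. -/
theorem exists_inv {d : ℕ} {β : ℂ → ℂ} (hβ : IsBeta d β) : ∃ Φ : ℂ → ℂ,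
    DifferentiableOn ℂ Φ (multibrotSet d)ᶜ ∧ (∀ w ∉ multibrotSet d, ‖Φ w‖ < 1) ∧
    ∀ s : ℂ, 0 < s.re → Φ (gg β s) = exp (-s) := by
  classical
  choose! Φ hΦ1 hΦ2 hΦ3 using hβ.surj
  have hleft : ∀ x ∈ ball (0 : ℂ) 1, x ≠ 0 → Φ (x⁻¹ * β x) = x := by
    intro x hx hx0
    have hn := hβ.notMem x hx hx0
    exact hβ.inj _ (hΦ1 _ hn) _ hx (hΦ2 _ hn) hx0 (hΦ3 _ hn)
  refine ⟨Φ, ?_, fun w hw => by simpa using hΦ1 w hw, ?_⟩
  · intro w hw
    apply DifferentiableAt.differentiableWithinAt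
    set x := Φ w with hx
    have hxb : x ∈ ball (0 : ℂ) 1 := hΦ1 w hw
    have hx0 : x ≠ 0 := hΦ2 w hw
    have hxw : x⁻¹ * β x = w := hΦ3 w hw
    have hopen : IsOpen (ball (0 : ℂ) 1 \ {0}) := isOpen_ball.sdiff isClosed_singleton
    have hxm : x ∈ ball (0 : ℂ) 1 \ {0} := ⟨hxb, hx0⟩
    have hfd : DifferentiableOn ℂ (fun x : ℂ => x⁻¹ * β x) (ball (0 : ℂ) 1 \ {0}) := by
      apply DifferentiableOn.mul
      · exact differentiableOn_inv.mono fun y hy => hy.2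
      · exact hβ.diff.mono sdiff_subset
    have hfi : InjOn (fun x : ℂ => x⁻¹ * β x) (ball (0 : ℂ) 1 \ {0}) := by
      intro y hy z hz hyz
      exact hβ.inj y hy.1 z hz.1 hy.2 hz.2 hyz
    have hne := Pool.Agent.Helper405.Conv.deriv_ne_zero_of_injOn hopen hfd hfi hxm
    have han : AnalyticAt ℂ (fun x : ℂ => x⁻¹ * β x) x := hfd.analyticAt (hopen.mem_nhds hxm)
    have hsd := han.hasStrictDerivAt
    have h1 := hsd.to_local_left_inverse (g := Φ) hne (by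
      filter_upwards [hopen.mem_nhds hxm] with y hy
      exact hleft y hy.1 hy.2)
    have h2 := h1.hasDerivAt.differentiableAt
    rwa [hxw] at h2
  · intro s hs
    rw [gg_eq_zz]
    exact hleft _ (exp_neg_mem hs) (exp_ne_zero _)

/-- Distance of a point of the complement to the set (Koebe, upper bound). -/
theorem infDist_le {d : ℕ} {β : ℂ → ℂ} (hβ : IsBeta d β) {s : ℂ} (hs : 0 < s.re)
    (hs1 : s.re ≤ 1) : infDist (gg β s) (multibrotSet d) ≤ 3 * s.re * ‖deriv (gg β) s‖ := by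
  obtain ⟨Φ, hΦd, hΦ1, hΦg⟩ := exists_inv hβ
  rcases (infDist_nonneg (x := gg β s) (s := multibrotSet d)).eq_or_lt with h0 | hδ
  · rw [← h0]; positivity
  set δ := infDist (gg β s) (multibrotSet d) with hδd
  have hsub : ball (gg β s) δ ⊆ (multibrotSet d)ᶜ := by
    intro w hw hwM
    have h1 := infDist_le_dist_of_mem (x := gg β s) hwM
    rw [mem_ball, dist_comm] at hw
    linarith
  have h1 := schwarz_pick hδ (hΦd.mono hsub) (fun w hw => hΦ1 w (hsub hw))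
  have hmem : gg β s ∈ (multibrotSet d)ᶜ := hsub (mem_ball_self hδ)
  have hG : HasDerivAt (gg β) (deriv (gg β) s) s := (gg_differentiableAt hβ hs).hasDerivAt
  have hΦ' : HasDerivAt Φ (deriv Φ (gg β s)) (gg β s) :=
    ((hΦd.mono hsub).differentiableAt (isOpen_ball.mem_nhds (mem_ball_self hδ))).hasDerivAt
  have h2 : HasDerivAt (fun s => Φ (gg β s)) (deriv Φ (gg β s) * deriv (gg β) s) s := hΦ'.comp s hG
  have h3 : HasDerivAt (fun s : ℂ => exp (-s)) (exp (-s) * (-1)) s := (hasDerivAt_neg s).cexp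
  have h4 : (fun s => Φ (gg β s)) =ᶠ[𝓝 s] fun s => exp (-s) := by
    filter_upwards [isOpen_HP.mem_nhds hs] with t ht
    exact hΦg t ht
  have h5 : deriv Φ (gg β s) * deriv (gg β) s = exp (-s) * (-1) :=
    h2.unique (h3.congr_of_eventuallyEq h4)
  have h6 : ‖deriv Φ (gg β s)‖ * ‖deriv (gg β) s‖ = Real.exp (-s.re) := by
    rw [← norm_mul, h5, norm_mul, Complex.norm_exp, norm_neg, norm_one, mul_one, neg_re]
  rw [hΦg s hs, Complex.norm_exp, neg_re] at h1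
  set x := s.re with hx
  set g' := ‖deriv (gg β) s‖ with hg'
  have hg0 : 0 ≤ g' := norm_nonneg _
  -- multiply by g'
  have h7 : Real.exp (-x) * δ ≤ (1 - Real.exp (-x) ^ 2) * g' := by
    rw [← h6]
    calc ‖deriv Φ (gg β s)‖ * g' * δ = (‖deriv Φ (gg β s)‖ * δ) * g' := by ring
      _ ≤ (1 - (‖deriv Φ (gg β s)‖ * g') ^ 2) * g' := by
          rw [h6]
          exact mul_le_mul_of_nonneg_right h1 hg0
  have hex : 0 < Real.exp x := Real.exp_pos x
  have h8 : Real.exp x * Real.exp (-x) = 1 := by rw [← Real.exp_add]; simp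
  have h9 : δ ≤ (Real.exp x - Real.exp (-x)) * g' := by
    have h10 := mul_le_mul_of_nonneg_left h7 hex.le
    calc δ = Real.exp x * Real.exp (-x) * δ := by rw [h8, one_mul]
      _ = Real.exp x * (Real.exp (-x) * δ) := by ring
      _ ≤ Real.exp x * ((1 - Real.exp (-x) ^ 2) * g') := h10
      _ = (Real.exp x - (Real.exp x * Real.exp (-x)) * Real.exp (-x)) * g' := by ring
      _ = (Real.exp x - Real.exp (-x)) * g' := by rw [h8, one_mul]
  have h10 := Real.abs_exp_sub_one_sub_id_le (x := x) (by rw [abs_of_pos hs]; exact hs1)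
  have h11 := (abs_le.mp h10).2
  have h12 := Real.add_one_le_exp (-x)
  have h13 : Real.exp x - Real.exp (-x) ≤ 3 * x := by nlinarith
  exact h9.trans (mul_le_mul_of_nonneg_right h13 hg0)

end Pool.Agent.TH425.AD
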