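import Mathlib
import Pool.Agent.TH425.AD.C1

set_option autoImplicit false

open Complex Topology Filter Metric MeasureTheory Set N62a1eb23

namespace Pool.Agent.TH425.AD

open Pool.Agent.H713R2 Pool.Agent.H712R2 Pool.Agent.Helper202.Univ Pool.Agent.H713R2.AR
open Pool.Agent.TH425.BF (IsBl CK WO bloch_fatou)

/-- logarithm on the unit disc -/
theorem exists_log_ball {f : ℂ → ℂ} (hf : DifferentiableOn ℂ f (ball 0 1))
    (hne : ∀ u ∈ ball (0 : ℂ) 1, f u ≠ 0) : ∃ L : ℂ → ℂ,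
    DifferentiableOn ℂ L (ball 0 1) ∧ ∀ u ∈ ball (0 : ℂ) 1, exp (L u) = f u := by
  have hd : DifferentiableOn ℂ (fun s => deriv f s / f s) (ball 0 1) :=
    (hf.deriv isOpen_ball).div hf hne
  obtain ⟨b0, hb0⟩ := hd.isExactOn_ball
  have h1 : (0 : ℂ) ∈ ball (0 : ℂ) 1 := mem_ball_self one_pos
  have hq : ∀ s ∈ ball (0 : ℂ) 1, HasDerivAt (fun s => f s * exp (-b0 s)) 0 s := by
    intro s hs
    have h2 : HasDerivAt f (deriv f s) s := (hf.differentiableAt (isOpen_ball.mem_nhds hs)).hasDerivAt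
    have h3 := h2.mul ((hb0 s hs).neg.cexp)
    refine h3.congr_deriv ?_
    have := hne s hs
    field_simp
    ring
  have hconst : ∀ s ∈ ball (0 : ℂ) 1, f s * exp (-b0 s) = f 0 * exp (-b0 0) := by
    intro s hs
    have := (convex_ball (0 : ℂ) 1).norm_image_sub_le_of_norm_hasDerivWithin_le
      (f := fun s => f s * exp (-b0 s))
      (f' := fun _ => 0) (C := 0) (fun x hx => (hq x hx).hasDerivWithinAt) (by simp) h1 hs
    rw [zero_mul] at this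
    exact sub_eq_zero.mp (norm_le_zero_iff.mp this)
  have hc0 : f 0 * exp (-b0 0) ≠ 0 := mul_ne_zero (hne 0 h1) (exp_ne_zero _)
  obtain ⟨κ, hκ⟩ : ∃ κ, exp κ = f 0 * exp (-b0 0) := ⟨log _, exp_log hc0⟩
  refine ⟨fun s => b0 s + κ, fun s hs => ((hb0 s hs).add_const κ).differentiableAt.differentiableWithinAt,
    fun s hs => ?_⟩
  rw [exp_add, hκ, ← hconst s hs, exp_neg]
  have := exp_ne_zero (b0 s)
  field_simp

/-- the auxiliary square root -/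
theorem exists_phi {d : ℕ} {β : ℂ → ℂ} (hβ : IsBeta d β) {c1 c2 : ℂ} (h1 : c1 ∈ multibrotSet d)
    (h2 : c2 ∈ multibrotSet d) (h12 : c1 ≠ c2) : ∃ φ : ℂ → ℂ, DifferentiableOn ℂ φ HP ∧
    (∀ s ∈ HP, φ s ≠ 0) ∧ (∀ s ∈ HP, φ s ^ 2 = (gg β s - c1) / (gg β s - c2)) ∧
    (∀ s : ℂ, s.re ≤ 3 → InjOn φ (ball s s.re)) ∧ ∀ a ∈ HP, ∀ b ∈ HP, φ a ≠ -φ b := by
  have hn1 : ∀ u ∈ ball (0 : ℂ) 1, β u - c1 * u ≠ 0 := fun u hu => beta_sub_ne hβ h1 hu
  have hn2 : ∀ u ∈ ball (0 : ℂ) 1, β u - c2 * u ≠ 0 := fun u hu => beta_sub_ne hβ h2 hu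
  set f : ℂ → ℂ := fun u => (β u - c1 * u) / (β u - c2 * u) with hf
  have hfd : DifferentiableOn ℂ f (ball 0 1) :=
    (hβ.diff.sub (by fun_prop)).div (hβ.diff.sub (by fun_prop)) hn2
  have hfne : ∀ u ∈ ball (0 : ℂ) 1, f u ≠ 0 := fun u hu => div_ne_zero (hn1 u hu) (hn2 u hu)
  have hfi : ∀ u ∈ ball (0 : ℂ) 1, ∀ v ∈ ball (0 : ℂ) 1, f u = f v → u = v := by
    intro u hu v hv huv
    simp only [hf] at huv
    rw [div_eq_div_iff (hn2 u hu) (hn2 v hv)] at huv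
    have h3 : (c1 - c2) * (v * β u - u * β v) = 0 := by linear_combination huv
    have h4 : v * β u - u * β v = 0 := by
      rcases mul_eq_zero.mp h3 with h | h
      · exact absurd (sub_eq_zero.mp h) h12
      · exact h
    by_cases hu0 : u = 0
    · rw [hu0, zero_mul, sub_zero, hβ.zero, mul_one] at h4
      rw [hu0, h4]
    · by_cases hv0 : v = 0
      · rw [hv0, zero_mul, zero_sub, hβ.zero, mul_one] at h4
        exact absurd (neg_eq_zero.mp h4) hu0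
      · apply hβ.inj u hu v hv hu0 hv0
        field_simp
        linear_combination h4
  obtain ⟨L, hLd, hL⟩ := exists_log_ball hfd hfne
  set q : ℂ → ℂ := fun u => exp (L u / 2) with hq
  have hq2 : ∀ u ∈ ball (0 : ℂ) 1, q u ^ 2 = f u := by
    intro u hu
    simp only [hq]
    rw [← exp_nat_mul, ← hL u hu]
    congr 1
    push_cast; ring
  have hmem : ∀ s ∈ HP, exp (-s) ∈ ball (0 : ℂ) 1 := fun s hs => exp_neg_mem hs
  have heq : ∀ a ∈ HP, ∀ b ∈ HP, q (exp (-a)) ^ 2 = q (exp (-b)) ^ 2 → exp (-a) = exp (-b) := by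
    intro a ha b hb hab
    rw [hq2 _ (hmem a ha), hq2 _ (hmem b hb)] at hab
    exact hfi _ (hmem a ha) _ (hmem b hb) hab
  refine ⟨fun s => q (exp (-s)), ?_, fun s _ => exp_ne_zero _, ?_, ?_, ?_⟩
  · have h3 : DifferentiableOn ℂ q (ball 0 1) := (hLd.div_const 2).cexp
    exact h3.comp (by fun_prop) hmem
  · intro s hs
    change q (exp (-s)) ^ 2 = _
    rw [hq2 _ (hmem s hs)]
    have hu0 : exp (-s) ≠ 0 := exp_ne_zero _
    rw [gg_eq_zz]
    simp only [hf, zz]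
    have e1 : (exp (-s))⁻¹ * β (exp (-s)) - c1 = (exp (-s))⁻¹ * (β (exp (-s)) - c1 * exp (-s)) := by
      field_simp
    have e2 : (exp (-s))⁻¹ * β (exp (-s)) - c2 = (exp (-s))⁻¹ * (β (exp (-s)) - c2 * exp (-s)) := by
      field_simp
    rw [e1, e2, mul_div_mul_left _ _ (inv_ne_zero hu0)]
  · intro s hs3 a ha b hb hab
    have ha' : a ∈ HP := ball_sub_HP ha
    have hb' : b ∈ HP := ball_sub_HP hb
    have h3 := heq a ha' b hb' (by
      change q (exp (-a)) = q (exp (-b)) at hab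
      rw [hab])
    apply gg_injOn hβ hs3 ha hb
    rw [gg_eq_zz, gg_eq_zz, h3]
  · intro a ha b hb hab
    have h3 := heq a ha b hb (by
      change q (exp (-a)) = -q (exp (-b)) at hab
      rw [hab]; ring)
    change q (exp (-a)) = -q (exp (-b)) at hab
    rw [h3] at hab
    have h4 : (2 : ℂ) * q (exp (-b)) = 0 := by linear_combination hab
    have h5 : q (exp (-b)) ≠ 0 := exp_ne_zero _
    exact h5 ((mul_eq_zero.mp h4).resolve_left two_ne_zero)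

/-- The auxiliary Bloch function at a point of the half plane: bounded below, comparable to its lower
bound at the base point, and large where the parametrisation is far away. -/
theorem exists_aux {d : ℕ} (hd : 2 ≤ d) {β : ℂ → ℂ} (hβ : IsBeta d β) {s0 : ℂ} (h0 : 0 < s0.re)
    (h1 : s0.re ≤ 1) : ∃ (A : ℂ → ℂ) (ρ : ℝ), IsBl A ∧ 0 < ρ ∧ (∀ s ∈ BF.HP, ρ ≤ ‖A s‖) ∧
      ‖A s0‖ ≤ 1536 * ρ ∧ ∀ s : ℂ, 0 < s.re → s.re ≤ 1 → ∀ Λ : ℝ, ‖A s‖ ≤ Λ * ρ →
        ‖gg β s - gg β s0‖ ≤ 2000 * (2 * Λ + 1) ^ 2 * (s0.re * ‖deriv (gg β) s0‖) := by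
  have hs0 : s0 ∈ HP := h0
  set g' : ℂ := deriv (gg β) s0 with hg'
  have hg0 : 0 < ‖g'‖ := norm_pos_iff.mpr ((dgg_isBl hβ).ne s0 h0)
  set x : ℝ := s0.re with hx
  have hxg : 0 < x * ‖g'‖ := mul_pos h0 hg0
  -- the point c1
  have hne : (multibrotSet d).Nonempty := ⟨0, small_mem hd (by simp)⟩
  obtain ⟨c1, hc1, hc1d⟩ := (infDist_lt_iff hne (x := gg β s0) (r := 4 * (x * ‖g'‖))).mp
    ((infDist_le hβ h0 h1).trans_lt (by linarith))
  rw [dist_eq_norm] at hc1d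
  -- the point c2
  obtain ⟨c2, hc2, hc2n, hc12⟩ : ∃ c2 : ℂ, c2 ∈ multibrotSet d ∧ ‖c2‖ ≤ 1 / 4 ∧ 1 / 4 ≤ ‖c1 - c2‖ := by
    by_cases h : 1 / 4 ≤ ‖c1 - 1 / 4‖
    · exact ⟨1 / 4, small_mem hd (by norm_num), by norm_num, h⟩
    · refine ⟨-(1 / 4), small_mem hd (by norm_num), by norm_num, ?_⟩
      have h2 : (c1 - -(1 / 4)) - (c1 - 1 / 4) = 1 / 2 := by ring
      have h3 := norm_sub_le (c1 - -(1 / 4)) (c1 - 1 / 4)
      rw [h2] at h3
      norm_num at h3 h ⊢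
      linarith
  have hne12 : c1 ≠ c2 := by
    intro h
    rw [h, sub_self, norm_zero] at hc12
    norm_num at hc12
  obtain ⟨φ, hφd, hφ0, hφ2, hφi, hφn⟩ := exists_phi hβ hc1 hc2 hne12
  have hgc2 : ∀ s : ℂ, 0 < s.re → s.re ≤ 1 → ‖gg β s - c2‖ ≤ 6 := by
    intro s h3 h4
    refine (norm_sub_le _ _).trans ?_
    have := gg_norm_le hβ h3 h4
    linarith
  have hnc1 : ∀ s ∈ HP, gg β s - c1 ≠ 0 := (gg_sub_isBl hβ hc1).ne
  have hnc2 : ∀ s ∈ HP, gg β s - c2 ≠ 0 := (gg_sub_isBl hβ hc2).ne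
  -- derivative of φ
  have hφder : HasDerivAt φ (deriv φ s0) s0 :=
    (hφd.differentiableAt (isOpen_HP.mem_nhds hs0)).hasDerivAt
  have hgder : HasDerivAt (gg β) g' s0 := (gg_differentiableAt hβ h0).hasDerivAt
  have hrel : 2 * φ s0 * deriv φ s0 = g' * (c1 - c2) / (gg β s0 - c2) ^ 2 := by
    have h3 : HasDerivAt (fun s => φ s ^ 2) ((2 : ℕ) * φ s0 ^ (2 - 1) * deriv φ s0) s0 := hφder.pow 2
    have h4 := (hgder.sub_const c1).div (hgder.sub_const c2) (hnc2 s0 hs0)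
    have h5 : (fun s => φ s ^ 2) =ᶠ[𝓝 s0] (fun s => gg β s - c1) / (fun s => gg β s - c2) := by
      filter_upwards [isOpen_HP.mem_nhds hs0] with t ht
      exact hφ2 t ht
    have h6 := h3.unique (h4.congr_of_eventuallyEq h5)
    have h7 : 2 * φ s0 * deriv φ s0 = (2 : ℕ) * φ s0 ^ (2 - 1) * deriv φ s0 := by push_cast; ring
    rw [h7, h6]
    have := hnc2 s0 hs0
    field_simp
    ring
  set P : ℝ := ‖φ s0‖ with hP
  have hP0 : 0 < P := norm_pos_iff.mpr (hφ0 s0 hs0)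
  have hP2 : P ^ 2 = ‖gg β s0 - c1‖ / ‖gg β s0 - c2‖ := by
    rw [hP, ← norm_pow, hφ2 s0 hs0, norm_div]
  have hD2 : 0 < ‖gg β s0 - c2‖ := norm_pos_iff.mpr (hnc2 s0 hs0)
  have hD2le := hgc2 s0 h0 h1
  have hκ : P / 192 ≤ x * ‖deriv φ s0‖ := by
    have h3 := congrArg norm hrel
    rw [norm_mul, norm_mul, norm_div, norm_mul, norm_pow, Complex.norm_ofNat, ← hP] at h3
    -- 2 P |φ'| = |g'| |c1-c2| / D^2
    have h4 : x * ‖g'‖ * (1 / 4) / (6 * ‖gg β s0 - c2‖) ≤ 2 * P * (x * ‖deriv φ s0‖) := by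
      have h5 : 2 * P * (x * ‖deriv φ s0‖) = x * (‖g'‖ * ‖c1 - c2‖ / ‖gg β s0 - c2‖ ^ 2) := by
        rw [← h3]; ring
      rw [h5]
      have h6 : x * (‖g'‖ * ‖c1 - c2‖ / ‖gg β s0 - c2‖ ^ 2) =
          x * ‖g'‖ * ‖c1 - c2‖ / (‖gg β s0 - c2‖ * ‖gg β s0 - c2‖) := by ring
      rw [h6]
      gcongr
    have h5 : 2 * P * (P / 192) ≤ x * ‖g'‖ * (1 / 4) / (6 * ‖gg β s0 - c2‖) := by
      have h6 : 2 * P * (P / 192) = P ^ 2 / 96 := by ring
      rw [h6, hP2, div_div, div_le_div_iff₀ (by positivity) (by positivity)]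
      nlinarith
    have h6 : 2 * P * (P / 192) ≤ 2 * P * (x * ‖deriv φ s0‖) := h5.trans h4
    exact le_of_mul_le_mul_left h6 (by positivity)
  set ρ : ℝ := x * ‖deriv φ s0‖ / 4 with hρ
  have hρ0 : 0 < ρ := by rw [hρ]; linarith
  have hlow : ∀ s ∈ HP, ρ ≤ ‖φ s + φ s0‖ := by
    intro s hs
    have h3 := koebe_omit (w := -φ s) h0 (hφd.mono ball_sub_HP) (hφi s0 (by linarith))
      (fun y hy => hφn y (ball_sub_HP hy) s hs)
    have h4 : φ s0 - -φ s = φ s + φ s0 := by ring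
    rw [h4] at h3
    rw [hρ]; linarith
  have hA0 : ‖φ s0 + φ s0‖ = 2 * P := by
    rw [← two_mul, norm_mul, Complex.norm_ofNat]
  refine ⟨fun s => φ s + φ s0, ρ, ⟨hφd.add_const _, fun s hs => ?_, fun s hs hs3 => ?_⟩, hρ0, hlow,
    ?_, ?_⟩
  · intro h
    have := hlow s hs
    rw [h, norm_zero] at this
    linarith
  · rw [deriv_add_const]
    have h3 := koebe_omit (w := -φ s0) hs (hφd.mono ball_sub_HP) (hφi s hs3)
      (fun y hy => hφn y (ball_sub_HP hy) s0 hs0)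
    rwa [sub_neg_eq_add] at h3
  · rw [hA0, hρ]; linarith
  · intro s hs hs1 Λ hΛ
    have hsH : s ∈ HP := hs
    have h3 := hlow s hsH
    have hΛ1 : 1 ≤ Λ := by
      by_contra h
      have := not_le.mp h
      have h4 : Λ * ρ < 1 * ρ := mul_lt_mul_of_pos_right this hρ0
      have h5 : ‖φ s + φ s0‖ ≤ Λ * ρ := hΛ
      linarith
    have h4 : ‖φ s‖ ≤ (2 * Λ + 1) * P := by
      have h5 : φ s = (φ s + φ s0) - φ s0 := by ring
      rw [h5]
      refine (norm_sub_le _ _).trans ?_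
      have h6 : ρ ≤ 2 * P := by
        have := hlow s0 hs0
        rwa [hA0] at this
      have h7 : ‖φ s + φ s0‖ ≤ Λ * ρ := hΛ
      have h8 : Λ * ρ ≤ Λ * (2 * P) := by gcongr
      rw [← hP]; linarith
    have hE2 : 0 < ‖gg β s - c2‖ := norm_pos_iff.mpr (hnc2 s hsH)
    have h5 : ‖gg β s - c1‖ = ‖φ s‖ ^ 2 * ‖gg β s - c2‖ := by
      rw [← norm_pow, hφ2 s hsH, norm_div]
      field_simp
    have h6 : ‖gg β s - c1‖ ≤ ((2 * Λ + 1) * P) ^ 2 * 6 := by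
      rw [h5]
      gcongr
      exact hgc2 s hs hs1
    -- lower bound for the distance to c2
    have h7 : 1 / 68 ≤ ‖gg β s0 - c2‖ := by
      have h8 : x * ‖g'‖ ≤ 4 * ‖gg β s0 - c2‖ := by
        have := (gg_sub_isBl hβ hc2).bd s0 h0 (by linarith)
        rwa [deriv_sub_const] at this
      have h9 : c1 - c2 = (gg β s0 - c2) - (gg β s0 - c1) := by ring
      have h10 := norm_sub_le (gg β s0 - c2) (gg β s0 - c1)
      rw [← h9] at h10
      linarith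
    have h8 : P ^ 2 ≤ 272 * (x * ‖g'‖) := by
      rw [hP2, div_le_iff₀ hD2]
      nlinarith
    have h9 : ‖gg β s - gg β s0‖ ≤ ‖gg β s - c1‖ + ‖gg β s0 - c1‖ := by
      have : gg β s - gg β s0 = (gg β s - c1) - (gg β s0 - c1) := by ring
      rw [this]; exact norm_sub_le _ _
    have h10 : ((2 * Λ + 1) * P) ^ 2 * 6 ≤ 1632 * (2 * Λ + 1) ^ 2 * (x * ‖g'‖) := by
      calc ((2 * Λ + 1) * P) ^ 2 * 6 = 6 * (2 * Λ + 1) ^ 2 * P ^ 2 := by ring
        _ ≤ 6 * (2 * Λ + 1) ^ 2 * (272 * (x * ‖g'‖)) := by gcongr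
        _ = 1632 * (2 * Λ + 1) ^ 2 * (x * ‖g'‖) := by ring
    have h11 : 1 ≤ (2 * Λ + 1) ^ 2 := by nlinarith
    have h12 : 4 * (x * ‖g'‖) ≤ 368 * (2 * Λ + 1) ^ 2 * (x * ‖g'‖) := by nlinarith
    linarith

end Pool.Agent.TH425.AD
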