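import Mathlib
import Pool.Agent.TH425.AD.C2

set_option autoImplicit false

open Complex Topology Filter Metric MeasureTheory Set N62a1eb23

namespace Pool.Agent.TH425.AD

open Pool.Agent.H713R2 Pool.Agent.H712R2 Pool.Agent.Helper202.Univ Pool.Agent.H713R2.AR
open Pool.Agent.TH425.BF (IsBl CK WO bloch_fatou Dat mf sg Jn pt)

/-- integral of the martingale over an older dyadic interval -/
theorem int_Jn_ge {b b' H : ℂ → ℂ} (D : Dat b b' H) (m : ℕ) (k : ℤ) :
    ∀ n ≥ m, ∫ θ in Jn m k, mf H n θ = sg H m k / 2 ^ m := by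
  have h2m : (0 : ℝ) < 2 ^ m := by positivity
  set p : ℤ := ⌊(k : ℝ) / 2 ^ m⌋ with hp
  have hsub : Jn m k ⊆ Ico (p : ℝ) (p + 1) := by
    apply BF.Jn_sub
    · have h1 : (p : ℝ) ≤ (k : ℝ) / 2 ^ m := Int.floor_le _
      rw [le_div_iff₀ h2m] at h1
      have h2 : ((2 ^ m * p : ℤ) : ℝ) ≤ (k : ℝ) := by push_cast; linarith
      exact_mod_cast h2
    · have h1 : (k : ℝ) / 2 ^ m < (p : ℝ) + 1 := Int.lt_floor_add_one _
      rw [div_lt_iff₀ h2m] at h1
      have h2 : (k : ℝ) < ((2 ^ m * (p + 1) : ℤ) : ℝ) := by push_cast; linarith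
      exact_mod_cast h2
  have hfin : IsFiniteMeasure ((volume : Measure ℝ).restrict (Ico (p : ℝ) (p + 1))) :=
    ⟨by rw [Measure.restrict_apply_univ, Real.volume_Ico]; exact ENNReal.ofReal_lt_top⟩
  intro n hn
  have hms : MeasurableSet[BF.Fil m] (Jn m k) := by
    refine ⟨{k}, trivial, ?_⟩
    ext θ
    simp only [mem_preimage, mem_singleton_iff]
    exact BF.mem_Jn.symm
  have h1 := (BF.mf_martingale D p).setIntegral_eq hn hms
  have hms' : MeasurableSet (Jn m k) := measurableSet_Ico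
  rw [Measure.restrict_restrict hms', inter_eq_left.mpr hsub] at h1
  rw [← h1, BF.int_Jn]

theorem volume_Jn (m : ℕ) (k : ℤ) : volume (Jn m k) = ENNReal.ofReal (1 / 2 ^ m) := by
  unfold Jn
  rw [Real.volume_Ico, ← sub_div, add_sub_cancel_left]

/-- Proportion lemma: at each lower height most of the interval stays close. -/
theorem proportion {d : ℕ} (hd : 2 ≤ d) {β : ℂ → ℂ} (hβ : IsBeta d β) {lam : ℝ} (hl : 0 < lam)
    (m : ℕ) (k : ℤ) (n : ℕ) (hn : m ≤ n) :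
    volume {θ : ℝ | θ ∈ Jn m k ∧ 2000 * (2 * Real.exp lam + 1) ^ 2 *
      (1 / 2 ^ m * ‖deriv (gg β) (pt (1 / 2 ^ m) (k / 2 ^ m))‖) <
      ‖gg β (pt (1 / 2 ^ n) θ) - gg β (pt (1 / 2 ^ m) (k / 2 ^ m))‖} ≤
      ENNReal.ofReal (96 / lam * (1 / 2 ^ m)) := by
  have h2m : (0 : ℝ) < 2 ^ m := by positivity
  have h2m1 : (1 : ℝ) ≤ 2 ^ m := one_le_pow₀ (by norm_num)
  have h2n1 : (1 : ℝ) ≤ 2 ^ n := one_le_pow₀ (by norm_num)
  set s0 : ℂ := pt (1 / 2 ^ m) (k / 2 ^ m) with hs0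
  have hre0 : s0.re = 1 / 2 ^ m := BF.pt_re _ _
  have hx0 : 0 < s0.re := by rw [hre0]; positivity
  have hx1 : s0.re ≤ 1 := by rw [hre0, div_le_iff₀ h2m]; linarith
  obtain ⟨A, ρ, hA, hρ, hlow, hup, hfar⟩ := exists_aux hd hβ hx0 hx1
  obtain ⟨b, H, D, hb⟩ := BF.exists_dat hA
  set f : ℝ → ℝ := fun θ => mf H n θ - Real.log ρ + 44 with hf
  have hclose : ∀ (n : ℕ) (θ : ℝ), |mf H n θ - Real.log ‖A (pt (1 / 2 ^ n) θ)‖| ≤ 44 := by
    intro n θ
    have h1 := BF.mf_close D n θ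
    rwa [BF.re_b hb (BF.pt_mem (by positivity))] at h1
  have hf0 : ∀ θ, 0 ≤ f θ := by
    intro θ
    have h1 := (abs_le.mp (hclose n θ)).1
    have h2 := Real.log_le_log hρ (hlow (pt (1 / 2 ^ n) θ) (BF.pt_mem (by positivity)))
    simp only [hf]
    linarith
  have hmeas : MeasurableSet (Jn m k) := measurableSet_Ico
  have hvol : (volume : Measure ℝ).real (Jn m k) = 1 / 2 ^ m := by
    rw [Measure.real, volume_Jn, ENNReal.toReal_ofReal (by positivity)]
  have hfinJ : volume (Jn m k) ≠ ⊤ := by rw [volume_Jn]; exact ENNReal.ofReal_ne_top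
  -- integrability
  set p : ℤ := ⌊(k : ℝ) / 2 ^ m⌋ with hp
  have hsub : Jn m k ⊆ Ico (p : ℝ) (p + 1) := by
    apply BF.Jn_sub
    · have h1 : (p : ℝ) ≤ (k : ℝ) / 2 ^ m := Int.floor_le _
      rw [le_div_iff₀ h2m] at h1
      have h2 : ((2 ^ m * p : ℤ) : ℝ) ≤ (k : ℝ) := by push_cast; linarith
      exact_mod_cast h2
    · have h1 : (k : ℝ) / 2 ^ m < (p : ℝ) + 1 := Int.lt_floor_add_one _
      rw [div_lt_iff₀ h2m] at h1
      have h2 : (k : ℝ) < ((2 ^ m * (p + 1) : ℤ) : ℝ) := by push_cast; linarith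
      exact_mod_cast h2
  have hint : IntegrableOn (mf H n) (Jn m k) := (BF.mf_intOn D n p).mono_set hsub
  have hintf : IntegrableOn f (Jn m k) := by
    have h1 : IntegrableOn (fun θ => mf H n θ + (44 - Real.log ρ)) (Jn m k) :=
      hint.add (integrableOn_const hfinJ)
    refine h1.congr_fun (fun θ _ => ?_) hmeas
    simp only [hf]; ring
  have hval : ∫ θ in Jn m k, f θ ≤ 96 * (1 / 2 ^ m) := by
    have h1 : ∫ θ in Jn m k, f θ = ∫ θ in Jn m k, (mf H n θ + (44 - Real.log ρ)) := by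
      apply setIntegral_congr_fun hmeas
      intro θ _
      simp only [hf]; ring
    rw [h1, integral_add hint (integrableOn_const hfinJ), setIntegral_const, hvol,
      int_Jn_ge D m k n hn, smul_eq_mul]
    have h2 := (abs_le.mp (hclose m (k / 2 ^ m))).2
    have h3 : mf H m (k / 2 ^ m) = sg H m k := by
      unfold mf
      congr 1
      have : (2 : ℝ) ^ m * (k / 2 ^ m) = k := by field_simp
      rw [this, Int.floor_intCast]
    rw [h3, ← hs0] at h2
    have h4 := Real.log_le_log (hρ.trans_le (hlow s0 hx0)) hup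
    rw [Real.log_mul (by norm_num) hρ.ne'] at h4
    have h5 : Real.log 1536 ≤ 8 := by
      rw [Real.log_le_iff_le_exp (by norm_num)]
      have h6 := Real.add_one_le_exp (1 : ℝ)
      have h7 : Real.exp 8 = (Real.exp 1) ^ 8 := by rw [← Real.exp_nat_mul]; norm_num
      rw [h7]
      have h8 := Real.exp_one_gt_d9
      calc (1536 : ℝ) ≤ (2.7 : ℝ) ^ 8 := by norm_num
        _ ≤ (Real.exp 1) ^ 8 := by gcongr; linarith
    have h6 : sg H m k / 2 ^ m + 1 / 2 ^ m * (44 - Real.log ρ) =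
      (sg H m k + 44 - Real.log ρ) * (1 / 2 ^ m) := by ring
    rw [h6]
    have : (0 : ℝ) < 1 / 2 ^ m := by positivity
    gcongr
    linarith
  -- Markov
  have hsubset : {θ : ℝ | θ ∈ Jn m k ∧ 2000 * (2 * Real.exp lam + 1) ^ 2 *
      (1 / 2 ^ m * ‖deriv (gg β) s0‖) < ‖gg β (pt (1 / 2 ^ n) θ) - gg β s0‖} ⊆
      {θ : ℝ | lam ≤ f θ} ∩ Jn m k := by
    rintro θ ⟨hθJ, hθ⟩
    refine ⟨?_, hθJ⟩
    by_contra hcon
    have hcon' : f θ < lam := not_le.mp hcon
    simp only [hf] at hcon'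
    have h1 := (abs_le.mp (hclose n θ)).1
    have h2 : Real.log ‖A (pt (1 / 2 ^ n) θ)‖ ≤ lam + Real.log ρ := by linarith
    have h3 : ‖A (pt (1 / 2 ^ n) θ)‖ ≤ Real.exp lam * ρ := by
      have h4 : 0 < ‖A (pt (1 / 2 ^ n) θ)‖ := hρ.trans_le (hlow _ (BF.pt_mem (by positivity)))
      calc ‖A (pt (1 / 2 ^ n) θ)‖ = Real.exp (Real.log ‖A (pt (1 / 2 ^ n) θ)‖) :=
            (Real.exp_log h4).symm
        _ ≤ Real.exp (lam + Real.log ρ) := Real.exp_le_exp.mpr h2
        _ = Real.exp lam * ρ := by rw [Real.exp_add, Real.exp_log hρ]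
    have h4 := hfar (pt (1 / 2 ^ n) θ) (by rw [BF.pt_re]; positivity)
      (by rw [BF.pt_re, div_le_iff₀ (by positivity)]; linarith) (Real.exp lam) h3
    rw [hre0] at h4
    exact absurd hθ (not_lt.mpr h4)
  refine (measure_mono hsubset).trans ?_
  have h1 := mul_meas_ge_le_integral_of_nonneg (μ := volume.restrict (Jn m k)) (f := f)
    (Eventually.of_forall hf0) hintf lam
  have h2 : (volume.restrict (Jn m k)).real {θ : ℝ | lam ≤ f θ} ≤ 96 / lam * (1 / 2 ^ m) := by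
    rw [div_mul_eq_mul_div, le_div_iff₀ hl, mul_comm]
    exact h1.trans hval
  have hmf : Measurable f := ((BF.mf_meas H n).sub_const _).add_const _
  have hms : MeasurableSet {θ : ℝ | lam ≤ f θ} := measurableSet_le measurable_const hmf
  rw [Measure.real, Measure.restrict_apply hms] at h2
  have h3 : volume ({θ : ℝ | lam ≤ f θ} ∩ Jn m k) ≠ ⊤ :=
    ne_top_of_le_ne_top hfinJ (measure_mono inter_subset_right)
  exact (ENNReal.le_ofReal_iff_toReal_le h3 (by positivity)).mpr h2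

/-- Proportion lemma for the landing points. -/
theorem proportion_land {d : ℕ} (hd : 2 ≤ d) {β : ℂ → ℂ} (hβ : IsBeta d β) {lam : ℝ} (hl : 0 < lam)
    (m : ℕ) (k : ℤ) :
    volume {θ : ℝ | θ ∈ Jn m k ∧ Tendsto (fun x : ℝ => gg β (θ * I + x)) (𝓝[>] 0) (𝓝 (cc β θ)) ∧
      2000 * (2 * Real.exp lam + 1) ^ 2 *
      (1 / 2 ^ m * ‖deriv (gg β) (pt (1 / 2 ^ m) (k / 2 ^ m))‖) <
      ‖cc β θ - gg β (pt (1 / 2 ^ m) (k / 2 ^ m))‖} ≤
      ENNReal.ofReal (96 / lam * (1 / 2 ^ m)) := by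
  set s0 : ℂ := pt (1 / 2 ^ m) (k / 2 ^ m) with hs0
  set R : ℝ := 2000 * (2 * Real.exp lam + 1) ^ 2 * (1 / 2 ^ m * ‖deriv (gg β) s0‖) with hR
  set E : ℕ → Set ℝ := fun n => {θ : ℝ | θ ∈ Jn m k ∧ R < ‖gg β (pt (1 / 2 ^ n) θ) - gg β s0‖}
    with hE
  set F : ℕ → Set ℝ := fun N => ⋂ n ∈ Ici N, E n with hF
  have hFm : Monotone F := by
    intro N N' hN
    apply biInter_mono (Ici_subset_Ici.mpr hN)
    intro n _
    exact le_rfl
  have hdy : Tendsto (fun n : ℕ => (1 : ℝ) / 2 ^ n) atTop (𝓝[>] 0) := by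
    rw [tendsto_nhdsWithin_iff]
    constructor
    · have := tendsto_pow_atTop_nhds_zero_of_lt_one (r := (1 / 2 : ℝ)) (by norm_num) (by norm_num)
      refine this.congr fun n => ?_
      rw [div_pow, one_pow]
    · exact Eventually.of_forall fun n => by change (0 : ℝ) < _; positivity
  have hsub : {θ : ℝ | θ ∈ Jn m k ∧
      Tendsto (fun x : ℝ => gg β (θ * I + x)) (𝓝[>] 0) (𝓝 (cc β θ)) ∧
      R < ‖cc β θ - gg β s0‖} ⊆ ⋃ N, F N := by
    rintro θ ⟨h1, h2, h3⟩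
    have h4 : Tendsto (fun n : ℕ => ‖gg β (pt (1 / 2 ^ n) θ) - gg β s0‖) atTop
        (𝓝 ‖cc β θ - gg β s0‖) := by
      refine ((h2.comp hdy).sub_const _).norm.congr fun n => ?_
      simp only [Function.comp]
      rw [BF.pt_eq]
    obtain ⟨N, hN⟩ := eventually_atTop.mp (h4.eventually (lt_mem_nhds h3))
    refine mem_iUnion.mpr ⟨N, ?_⟩
    simp only [hF, mem_iInter]
    exact fun n hn => ⟨h1, hN n hn⟩
  refine (measure_mono hsub).trans ?_
  rw [hFm.measure_iUnion]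
  apply iSup_le
  intro N
  have h1 : F N ⊆ E (max N m) := by
    intro θ hθ
    simp only [hF, mem_iInter] at hθ
    exact hθ _ (mem_Ici.mpr (le_max_left _ _))
  exact (measure_mono h1).trans (proportion hd hβ hl m k _ (le_max_right _ _))

end Pool.Agent.TH425.AD
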