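import Mathlib
import Pool.Agent.TH425.AD.C3

set_option autoImplicit false

open Complex Topology Filter Metric MeasureTheory Set N62a1eb23
open scoped ENNReal

namespace Pool.Agent.TH425.AD

open Pool.Agent.H713R2 Pool.Agent.H712R2 Pool.Agent.Helper202.Univ Pool.Agent.H713R2.AR
open Pool.Agent.TH425.BF (IsBl CK WO bloch_fatou Dat mf sg Jn pt)

/-- the angle is good at level `m` -/
def Qd (β : ℂ → ℂ) (ε : ℝ) (m : ℕ) (θ : ℝ) : Prop :=
  ‖deriv (gg β) (pt (1 / 2 ^ m) ((⌊(2 : ℝ) ^ m * θ⌋ : ℤ) / 2 ^ m))‖ ≤ ε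

/-- the angle stops at level `m` -/
def Td (β : ℂ → ℂ) (ε : ℝ) (m : ℕ) (θ : ℝ) : Prop :=
  Qd β ε m θ ∧ ∀ m' < m, ¬ Qd β ε m' θ

theorem floor_anc {m m' : ℕ} (h : m' ≤ m) {θ θ' : ℝ}
    (he : ⌊(2 : ℝ) ^ m * θ⌋ = ⌊(2 : ℝ) ^ m * θ'⌋) :
    ⌊(2 : ℝ) ^ m' * θ⌋ = ⌊(2 : ℝ) ^ m' * θ'⌋ := by
  induction m, h using Nat.le_induction with
  | base => exact he
  | succ n _ ih =>
    apply ih
    rw [BF.floor_half n θ, BF.floor_half n θ', he]

theorem Qd_congr {β : ℂ → ℂ} {ε : ℝ} {m m' : ℕ} (h : m' ≤ m) {θ θ' : ℝ}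
    (he : ⌊(2 : ℝ) ^ m * θ⌋ = ⌊(2 : ℝ) ^ m * θ'⌋) : Qd β ε m' θ ↔ Qd β ε m' θ' := by
  unfold Qd
  rw [floor_anc h he]

theorem Td_congr {β : ℂ → ℂ} {ε : ℝ} {m : ℕ} {θ θ' : ℝ}
    (he : ⌊(2 : ℝ) ^ m * θ⌋ = ⌊(2 : ℝ) ^ m * θ'⌋) : Td β ε m θ ↔ Td β ε m θ' := by
  unfold Td
  rw [Qd_congr le_rfl he]
  constructor
  · rintro ⟨h1, h2⟩
    exact ⟨h1, fun m' hm' => by rw [← Qd_congr hm'.le he]; exact h2 m' hm'⟩
  · rintro ⟨h1, h2⟩
    exact ⟨h1, fun m' hm' => by rw [Qd_congr hm'.le he]; exact h2 m' hm'⟩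

/-- Almost every angle stops. -/
theorem ae_stop {d : ℕ} (hd : 2 ≤ d) {β : ℂ → ℂ} (hβ : IsBeta d β) {ε : ℝ} (hε : 0 < ε) :
    ∀ᵐ θ : ℝ, ∃ m, Td β ε m θ := by
  classical
  obtain ⟨b, H, D, hb⟩ := BF.exists_dat (dgg_isBl hβ)
  filter_upwards [no_onesided hd hβ] with θ hθ
  have hQ : ∃ m, Qd β ε m θ := by
    by_contra hcon
    push Not at hcon
    apply hθ
    right
    refine ⟨ε * Real.exp (-8), by positivity, ?_⟩
    filter_upwards [Ioc_mem_nhdsGT one_pos] with x hx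
    obtain ⟨hx, hx1⟩ := hx
    have h4 : 1 ≤ 1 / x := by rw [le_div_iff₀ hx]; linarith
    obtain ⟨n, hn1, hn2⟩ := exists_nat_pow_near h4 (by norm_num : (1 : ℝ) < 2)
    have h2n : (0 : ℝ) < 2 ^ n := by positivity
    have h2n1 : (1 : ℝ) ≤ 2 ^ n := one_le_pow₀ (by norm_num)
    have h5 : x ≤ 1 / 2 ^ n := by
      rw [le_div_iff₀ h2n]
      rw [le_div_iff₀ hx] at hn1
      linarith
    have h6 : 1 / 2 ^ n / x ≤ 2 := by
      rw [div_lt_iff₀ hx] at hn2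
      rw [div_le_iff₀ hx, div_le_iff₀ h2n]
      rw [pow_succ] at hn2
      linarith
    have h3 : (1 : ℝ) / 2 ^ n ≤ 3 := by rw [div_le_iff₀ h2n]; linarith
    have h7 := BF.osc_ver D hx h5 h3 θ
    have h8 : Real.log (1 / 2 ^ n / x) ≤ 1 := by
      have h9 := Real.log_le_log (by positivity) h6
      have := Real.log_two_lt_d9
      linarith
    set k : ℤ := ⌊(2 : ℝ) ^ n * θ⌋ with hk
    have h9 := BF.osc_hor D (x := 1 / 2 ^ n) (by positivity) h3 (k / 2 ^ n) θ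
    have h10 : |θ - k / 2 ^ n| ≤ 1 / 2 ^ n := by
      have hk0 : (k : ℝ) / 2 ^ n ≤ θ := by
        rw [div_le_iff₀ h2n, mul_comm]; exact Int.floor_le _
      have hk1 : θ ≤ ((k : ℝ) + 1) / 2 ^ n := by
        rw [le_div_iff₀ h2n, mul_comm]; exact (Int.lt_floor_add_one _).le
      rw [add_div] at hk1
      rw [abs_le]; constructor <;> linarith
    have h11 : 4 / (1 / 2 ^ n) * |θ - k / 2 ^ n| ≤ 4 := by
      calc 4 / (1 / 2 ^ n) * |θ - k / 2 ^ n| ≤ 4 / (1 / 2 ^ n) * (1 / 2 ^ n) := by gcongr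
        _ = 4 := by field_simp
    have h12 : |(b (pt x θ)).re - (b (pt (1 / 2 ^ n) θ)).re| ≤ 4 := by
      rw [← sub_re]
      exact (Complex.abs_re_le_norm _).trans (by linarith)
    have h13 : |(b (pt (1 / 2 ^ n) θ)).re - (b (pt (1 / 2 ^ n) (k / 2 ^ n))).re| ≤ 4 := by
      rw [← sub_re]
      exact (Complex.abs_re_le_norm _).trans (h9.trans h11)
    rw [BF.re_b hb (BF.pt_mem (by positivity)), BF.re_b hb (BF.pt_mem (by positivity))] at h12 h13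
    have h14 := hcon n
    unfold Qd at h14
    rw [not_le, ← hk] at h14
    have h15 : Real.log ε < Real.log ‖deriv (gg β) (pt (1 / 2 ^ n) (k / 2 ^ n))‖ :=
      Real.log_lt_log hε h14
    have h16 : 0 < ‖deriv (gg β) (pt x θ)‖ := norm_pos_iff.mpr ((dgg_isBl hβ).ne _ (BF.pt_mem hx))
    have h17 : Real.log ε - 8 ≤ Real.log ‖deriv (gg β) (pt x θ)‖ := by
      have := (abs_le.mp h12).1
      have := (abs_le.mp h13).1
      linarith
    rw [← BF.pt_eq]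
    calc ε * Real.exp (-8) = Real.exp (Real.log ε - 8) := by
          rw [sub_eq_add_neg, Real.exp_add, Real.exp_log hε]
      _ ≤ Real.exp (Real.log ‖deriv (gg β) (pt x θ)‖) := Real.exp_le_exp.mpr h17
      _ = ‖deriv (gg β) (pt x θ)‖ := Real.exp_log h16
  refine ⟨Nat.find hQ, Nat.find_spec hQ, fun m' hm' => Nat.find_min hQ hm'⟩

/-- stopping indices in a unit interval -/
def JJd (β : ℂ → ℂ) (ε : ℝ) (p : ℤ) : Set (ℕ × ℤ) :=
  {i | ∃ θ ∈ Jn i.1 i.2, ⌊θ⌋ = p ∧ Td β ε i.1 θ}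

open Classical in
/-- stopping intervals -/
noncomputable def SI (β : ℂ → ℂ) (ε : ℝ) (p : ℤ) (i : ℕ × ℤ) : Set ℝ :=
  if i ∈ JJd β ε p then Jn i.1 i.2 else ∅

theorem SI_sub (β : ℂ → ℂ) (ε : ℝ) (p : ℤ) (i : ℕ × ℤ) {θ : ℝ} (h : θ ∈ SI β ε p i) :
    θ ∈ Jn i.1 i.2 ∧ i ∈ JJd β ε p ∧ θ ∈ Ico (p : ℝ) (p + 1) ∧ Td β ε i.1 θ := by
  classical
  unfold SI at h
  by_cases hi : i ∈ JJd β ε p
  · rw [if_pos hi] at h
    obtain ⟨θ', h1, h2, h3⟩ := hi
    have he : ⌊(2 : ℝ) ^ i.1 * θ⌋ = ⌊(2 : ℝ) ^ i.1 * θ'⌋ := by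
      rw [BF.mem_Jn.mp h, BF.mem_Jn.mp h1]
    have h0 := floor_anc (Nat.zero_le _) he
    rw [pow_zero, one_mul, one_mul, h2] at h0
    refine ⟨h, ⟨θ', h1, h2, h3⟩, ?_, (Td_congr he).mpr h3⟩
    rw [← h0]
    exact ⟨Int.floor_le _, Int.lt_floor_add_one _⟩
  · rw [if_neg hi] at h
    exact absurd h (Set.notMem_empty _)

theorem SI_disj (β : ℂ → ℂ) (ε : ℝ) (p : ℤ) :
    Pairwise (Function.onFun Disjoint (SI β ε p)) := by
  intro i j hij
  rw [Function.onFun, Set.disjoint_left]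
  intro θ h1 h2
  obtain ⟨a1, _, _, t1⟩ := SI_sub β ε p i h1
  obtain ⟨a2, _, _, t2⟩ := SI_sub β ε p j h2
  rcases lt_trichotomy i.1 j.1 with h | h | h
  · exact t2.2 _ h t1.1
  · apply hij
    rw [BF.mem_Jn] at a1 a2
    rw [h] at a1
    exact Prod.ext h (a1.symm.trans a2)
  · exact t1.2 _ h t2.1

theorem SI_meas (β : ℂ → ℂ) (ε : ℝ) (p : ℤ) (i : ℕ × ℤ) : MeasurableSet (SI β ε p i) := by
  classical
  unfold SI
  split_ifs
  · exact measurableSet_Ico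
  · exact MeasurableSet.empty

theorem SI_sum (β : ℂ → ℂ) (ε : ℝ) (p : ℤ) : ∑' i, volume (SI β ε p i) ≤ 1 := by
  rw [← measure_iUnion (SI_disj β ε p) (SI_meas β ε p)]
  have h1 : (⋃ i, SI β ε p i) ⊆ Ico (p : ℝ) (p + 1) := by
    intro θ hθ
    obtain ⟨i, hi⟩ := mem_iUnion.mp hθ
    exact (SI_sub β ε p i hi).2.2.1
  refine (measure_mono h1).trans ?_
  rw [Real.volume_Ico, add_sub_cancel_left, ENNReal.ofReal_one]

open Classical in
/-- the covering discs -/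
noncomputable def CD (β : ℂ → ℂ) (K ε : ℝ) (p : ℤ) (i : ℕ × ℤ) : Set ℂ :=
  if i ∈ JJd β ε p then closedBall (gg β (pt (1 / 2 ^ i.1) (i.2 / 2 ^ i.1))) (K * ε * (1 / 2 ^ i.1))
  else ∅

theorem CD_diam (β : ℂ → ℂ) {K ε : ℝ} (hK : 0 ≤ K) (hε : 0 < ε) (p : ℤ) (i : ℕ × ℤ) :
    Metric.ediam (CD β K ε p i) ≤ ENNReal.ofReal (2 * K * ε) * volume (SI β ε p i) := by
  classical
  unfold CD SI
  by_cases hi : i ∈ JJd β ε p
  · rw [if_pos hi, if_pos hi, volume_Jn, ← ENNReal.ofReal_mul (by positivity)]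
    rw [← Metric.closedEBall_ofReal (by positivity)]
    refine Metric.ediam_closedEBall_le.trans ?_
    rw [← ENNReal.ofReal_ofNat, ← ENNReal.ofReal_mul (by norm_num)]
    apply ENNReal.ofReal_le_ofReal
    apply le_of_eq; ring
  · rw [if_neg hi, if_neg hi, Metric.ediam_empty]
    exact bot_le

theorem bad_small {d : ℕ} (hd : 2 ≤ d) {β : ℂ → ℂ} (hβ : IsBeta d β) {lam ε : ℝ} (hl : 0 < lam)
    (hε : 0 < ε) (p : ℤ) :
    volume {θ : ℝ | θ ∈ Ico (p : ℝ) (p + 1) ∧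
      Tendsto (fun x : ℝ => gg β (θ * I + x)) (𝓝[>] 0) (𝓝 (cc β θ)) ∧
      cc β θ ∉ ⋃ i, CD β (2000 * (2 * Real.exp lam + 1) ^ 2) ε p i} ≤ ENNReal.ofReal (96 / lam) := by
  classical
  set K : ℝ := 2000 * (2 * Real.exp lam + 1) ^ 2 with hK
  have hK0 : 0 ≤ K := by positivity
  set B : ℕ × ℤ → Set ℝ := fun i => {θ : ℝ | θ ∈ SI β ε p i ∧
      Tendsto (fun x : ℝ => gg β (θ * I + x)) (𝓝[>] 0) (𝓝 (cc β θ)) ∧
      K * (1 / 2 ^ i.1 * ‖deriv (gg β) (pt (1 / 2 ^ i.1) (i.2 / 2 ^ i.1))‖) <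
      ‖cc β θ - gg β (pt (1 / 2 ^ i.1) (i.2 / 2 ^ i.1))‖} with hB
  have hBm : ∀ i, volume (B i) ≤ ENNReal.ofReal (96 / lam) * volume (SI β ε p i) := by
    intro i
    by_cases hi : i ∈ JJd β ε p
    · have h1 : SI β ε p i = Jn i.1 i.2 := by unfold SI; rw [if_pos hi]
      rw [h1, volume_Jn, ← ENNReal.ofReal_mul (by positivity)]
      have h2 := proportion_land hd hβ hl i.1 i.2
      simp only [hB, h1]
      exact h2
    · have h1 : SI β ε p i = ∅ := by unfold SI; rw [if_neg hi]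
      have h2 : B i = ∅ := by
        simp only [hB, h1]
        ext θ
        simp
      rw [h2, measure_empty]
      exact bot_le
  have hsub : {θ : ℝ | θ ∈ Ico (p : ℝ) (p + 1) ∧
      Tendsto (fun x : ℝ => gg β (θ * I + x)) (𝓝[>] 0) (𝓝 (cc β θ)) ∧
      cc β θ ∉ ⋃ i, CD β K ε p i} ⊆ {θ : ℝ | ¬ ∃ m, Td β ε m θ} ∪ ⋃ i, B i := by
    rintro θ ⟨h1, h2, h3⟩
    by_cases hm : ∃ m, Td β ε m θ
    · right
      obtain ⟨m, hm⟩ := hm
      set k : ℤ := ⌊(2 : ℝ) ^ m * θ⌋ with hk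
      have hJ : θ ∈ Jn m k := BF.mem_Jn.mpr rfl
      have hfl : ⌊θ⌋ = p := by
        rw [Int.floor_eq_iff]; exact ⟨h1.1, h1.2⟩
      have hi : ((m, k) : ℕ × ℤ) ∈ JJd β ε p := ⟨θ, hJ, hfl, hm⟩
      refine mem_iUnion.mpr ⟨(m, k), ?_, h2, ?_⟩
      · unfold SI; rw [if_pos hi]; exact hJ
      · by_contra hcon
        apply h3
        refine mem_iUnion.mpr ⟨(m, k), ?_⟩
        unfold CD
        rw [if_pos hi, mem_closedBall, dist_eq_norm]
        refine (not_lt.mp hcon).trans ?_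
        have h4 : ‖deriv (gg β) (pt (1 / 2 ^ m) (k / 2 ^ m))‖ ≤ ε := hm.1
        change K * (1 / 2 ^ m * ‖deriv (gg β) (pt (1 / 2 ^ m) (k / 2 ^ m))‖) ≤ K * ε * (1 / 2 ^ m)
        calc K * (1 / 2 ^ m * ‖deriv (gg β) (pt (1 / 2 ^ m) (k / 2 ^ m))‖)
            ≤ K * (1 / 2 ^ m * ε) := by gcongr
          _ = K * ε * (1 / 2 ^ m) := by ring
    · left
      exact hm
  have hnull : volume {θ : ℝ | ¬ ∃ m, Td β ε m θ} = 0 := ae_stop hd hβ hε
  calc volume {θ : ℝ | θ ∈ Ico (p : ℝ) (p + 1) ∧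
      Tendsto (fun x : ℝ => gg β (θ * I + x)) (𝓝[>] 0) (𝓝 (cc β θ)) ∧
      cc β θ ∉ ⋃ i, CD β K ε p i}
      ≤ volume ({θ : ℝ | ¬ ∃ m, Td β ε m θ} ∪ ⋃ i, B i) := measure_mono hsub
    _ ≤ volume {θ : ℝ | ¬ ∃ m, Td β ε m θ} + volume (⋃ i, B i) := measure_union_le _ _
    _ = volume (⋃ i, B i) := by rw [hnull, zero_add]
    _ ≤ ∑' i, volume (B i) := measure_iUnion_le _
    _ ≤ ∑' i, ENNReal.ofReal (96 / lam) * volume (SI β ε p i) := ENNReal.tsum_le_tsum hBm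
    _ = ENNReal.ofReal (96 / lam) * ∑' i, volume (SI β ε p i) := ENNReal.tsum_mul_left
    _ ≤ ENNReal.ofReal (96 / lam) * 1 := by gcongr; exact SI_sum β ε p
    _ = ENNReal.ofReal (96 / lam) := mul_one _

/-- The landing points of almost all angles lie in a set of length zero. -/
theorem singular_gg {d : ℕ} (hd : 2 ≤ d) {β : ℂ → ℂ} (hβ : IsBeta d β) :
    ∃ Z : Set ℂ, μH[1] Z = 0 ∧ ∀ᵐ θ : ℝ,
      Tendsto (fun x : ℝ => gg β (θ * I + x)) (𝓝[>] 0) (𝓝 (cc β θ)) ∧ cc β θ ∈ Z := by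
  set lam : ℕ → ℝ := fun j => 96 * 2 ^ j with hlam
  have hl : ∀ j, 0 < lam j := fun j => by simp only [hlam]; positivity
  set K : ℕ → ℝ := fun j => 2000 * (2 * Real.exp (lam j) + 1) ^ 2 with hK
  have hK0 : ∀ j, 0 < K j := fun j => by simp only [hK]; positivity
  set ε : ℕ → ℝ := fun j => 1 / (2 * K j * 2 ^ j) with hε
  have hε0 : ∀ j, 0 < ε j := fun j => by
    have := hK0 j
    simp only [hε]; positivity
  have hKε : ∀ j, 2 * K j * ε j = 1 / 2 ^ j := fun j => by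
    have := hK0 j
    simp only [hε]
    field_simp
  set t : ℤ → ℕ → ℕ × ℤ → Set ℂ := fun p j i => CD β (K j) (ε j) p i with ht
  set U : ℤ → ℕ → Set ℂ := fun p j => ⋃ i, t p j i with hU
  set Z0 : ℤ → ℕ → Set ℂ := fun p N => ⋂ j ∈ Ici N, U p j with hZ0
  have hpow : Tendsto (fun j : ℕ => ENNReal.ofReal (1 / 2 ^ j)) atTop (𝓝 0) := by
    rw [← ENNReal.ofReal_zero]
    apply (ENNReal.continuous_ofReal.tendsto 0).comp
    have := tendsto_pow_atTop_nhds_zero_of_lt_one (r := (1 / 2 : ℝ)) (by norm_num) (by norm_num)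
    refine this.congr fun n => ?_
    rw [div_pow, one_pow]
  have hdiam : ∀ p j i, Metric.ediam (t p j i) ≤
      ENNReal.ofReal (1 / 2 ^ j) * volume (SI β (ε j) p i) := by
    intro p j i
    rw [← hKε j]
    exact CD_diam β (hK0 j).le (hε0 j) p i
  have hsum : ∀ p j, ∑' i, Metric.ediam (t p j i) ≤ ENNReal.ofReal (1 / 2 ^ j) := by
    intro p j
    calc ∑' i, Metric.ediam (t p j i)
        ≤ ∑' i, ENNReal.ofReal (1 / 2 ^ j) * volume (SI β (ε j) p i) :=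
          ENNReal.tsum_le_tsum (hdiam p j)
      _ = ENNReal.ofReal (1 / 2 ^ j) * ∑' i, volume (SI β (ε j) p i) := ENNReal.tsum_mul_left
      _ ≤ ENNReal.ofReal (1 / 2 ^ j) * 1 := by gcongr; exact SI_sum β (ε j) p
      _ = ENNReal.ofReal (1 / 2 ^ j) := mul_one _
  have hZ00 : ∀ p N, μH[1] (Z0 p N) = 0 := by
    intro p N
    have h1 := Measure.hausdorffMeasure_le_liminf_tsum (X := ℂ) (ι := fun _ : ℕ => ℕ × ℤ) 1 (Z0 p N)
      (l := atTop) (fun j : ℕ => ENNReal.ofReal (1 / 2 ^ j)) hpow (t p)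
      (Eventually.of_forall fun j i =>
        (ENNReal.le_tsum i).trans (hsum p j)) (by
        filter_upwards [eventually_ge_atTop N] with j hj z hz
        simp only [hZ0, mem_iInter] at hz
        exact hz j hj)
    have h2 : liminf (fun j : ℕ => ∑' i, Metric.ediam (t p j i) ^ (1 : ℝ)) atTop ≤
        liminf (fun j : ℕ => ENNReal.ofReal (1 / 2 ^ j)) atTop :=
      liminf_le_liminf (Eventually.of_forall fun j => by
        simp only [ENNReal.rpow_one]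
        exact hsum p j)
    rw [hpow.liminf_eq] at h2
    exact le_antisymm (h1.trans h2) bot_le
  refine ⟨⋃ p : ℤ, ⋃ N : ℕ, Z0 p N, ?_, ?_⟩
  · rw [measure_iUnion_null_iff]
    intro p
    rw [measure_iUnion_null_iff]
    exact hZ00 p
  · have hall : ∀ᵐ θ : ℝ, ∀ p : ℤ, ∀ᶠ j : ℕ in atTop, θ ∉ {θ : ℝ | θ ∈ Ico (p : ℝ) (p + 1) ∧
        Tendsto (fun x : ℝ => gg β (θ * I + x)) (𝓝[>] 0) (𝓝 (cc β θ)) ∧ cc β θ ∉ U p j} := by
      rw [ae_all_iff]
      intro p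
      apply ae_eventually_notMem
      have h1 : ∀ j : ℕ, volume {θ : ℝ | θ ∈ Ico (p : ℝ) (p + 1) ∧
        Tendsto (fun x : ℝ => gg β (θ * I + x)) (𝓝[>] 0) (𝓝 (cc β θ)) ∧ cc β θ ∉ U p j} ≤
          ENNReal.ofReal ((1 / 2) ^ j) := by
        intro j
        refine (bad_small hd hβ (hl j) (hε0 j) p).trans (ENNReal.ofReal_le_ofReal (le_of_eq ?_))
        simp only [hlam]
        rw [div_pow, one_pow]
        field_simp
      refine ne_top_of_le_ne_top ?_ (ENNReal.tsum_le_tsum h1)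
      rw [← ENNReal.ofReal_tsum_of_nonneg (fun j => by positivity) summable_geometric_two]
      exact ENNReal.ofReal_ne_top
    filter_upwards [hall, ae_landing hd hβ] with θ hθ hland
    refine ⟨hland, ?_⟩
    obtain ⟨N, hN⟩ := eventually_atTop.mp (hθ ⌊θ⌋)
    refine mem_iUnion.mpr ⟨⌊θ⌋, mem_iUnion.mpr ⟨N, ?_⟩⟩
    simp only [hZ0, mem_iInter]
    intro j hj
    by_contra hcon
    exact hN j hj ⟨⟨Int.floor_le _, Int.lt_floor_add_one _⟩, hland, hcon⟩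

/-- **Harmonic measure is singular to length.** Almost every external ray of the multibrot set lands
in a subset of the boundary of vanishing one dimensional Hausdorff measure. -/
theorem main3 {d : ℕ} (hd : 2 ≤ d) {ψ : ℂ → ℂ} (hψ : IsExteriorMap (multibrotSet d) ψ) :
    ∃ Z : Set ℂ, Z ⊆ frontier (multibrotSet d) ∧ μH[1] Z = 0 ∧ ∀ᵐ θ : ℝ, ∃ c ∈ Z,
      Tendsto (fun r : ℝ => ψ (r * exp (θ * I))) (𝓝[>] 1) (𝓝 c) := by
  obtain ⟨β, hβ⟩ := exists_beta hd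
  obtain ⟨Z, hZ, hae⟩ := singular_gg hd hβ
  refine ⟨Z ∩ frontier (multibrotSet d), inter_subset_right,
    measure_mono_null inter_subset_left hZ, ?_⟩
  filter_upwards [hae] with θ hθ
  obtain ⟨hland, hcZ⟩ := hθ
  have hM : cc β θ ∈ multibrotSet d := by
    apply mem_of_tendsto_gg hd hβ (s := fun x : ℝ => (θ : ℂ) * I + x) (l := 𝓝[>] (0 : ℝ)) _ _ hland
    · filter_upwards [self_mem_nhdsWithin] with x hx
      have hx' : 0 < x := hx
      simpa using hx'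
    · have : (fun x : ℝ => ((θ : ℂ) * I + x).re) = fun x => x := by
        funext x; simp
      rw [this]
      exact nhdsWithin_le_nhds
  have hfr : cc β θ ∈ frontier (multibrotSet d) := by
    rw [frontier_eq_closure_inter_closure]
    refine ⟨subset_closure hM, mem_closure_of_tendsto hland ?_⟩
    filter_upwards [self_mem_nhdsWithin] with x hx
    have hx' : 0 < x := hx
    exact gg_notMem hβ (s := θ * I + x) (by simpa using hx')
  refine ⟨cc β θ, ⟨hcZ, hfr⟩, ?_⟩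
  have h1 : Tendsto (fun r : ℝ => Real.log r) (𝓝[>] 1) (𝓝[>] 0) := by
    rw [tendsto_nhdsWithin_iff]
    constructor
    · have := (Real.continuousAt_log (one_ne_zero)).tendsto.mono_left
        (nhdsWithin_le_nhds : 𝓝[>] (1 : ℝ) ≤ 𝓝 1)
      rwa [Real.log_one] at this
    · filter_upwards [self_mem_nhdsWithin] with x hx
      exact Real.log_pos hx
  refine (hland.comp h1).congr' ?_
  filter_upwards [self_mem_nhdsWithin] with r hr
  have hr1 : (1 : ℝ) < r := hr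
  have hr0 : 0 < r := by linarith
  simp only [Function.comp]
  have h2 : exp (θ * I + (Real.log r : ℝ)) = r * exp (θ * I) := by
    rw [exp_add, ← ofReal_exp, Real.exp_log hr0, mul_comm]
  have h3 : 1 < ‖(r : ℂ) * exp (θ * I)‖ := by
    rw [norm_mul, norm_exp_ofReal_mul_I, mul_one, norm_real, Real.norm_eq_abs, abs_of_pos hr0]
    exact hr1
  rw [exteriorMap_unique hβ hψ h3]
  unfold gg
  rw [h2, exp_neg, h2]

end Pool.Agent.TH425.AD
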