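import Mathlib
import Pool.Agent.TH425.AD.M2
import Pool.Agent.TH425.BF.D3

set_option autoImplicit false

open Complex Topology Filter Metric MeasureTheory Set N62a1eb23

namespace Pool.Agent.TH425.AD

open Pool.Agent.H713R2 Pool.Agent.H712R2 Pool.Agent.Helper202.Univ Pool.Agent.H713R2.AR
open Pool.Agent.TH425.BF (IsBl CK WO bloch_fatou Dat pt)

/-- The argument of the derivative is unbounded above and below along almost every radius. -/
theorem arg_unbounded {d : ℕ} (hd : 2 ≤ d) {β : ℂ → ℂ} (hβ : IsBeta d β) {b H : ℂ → ℂ}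
    (D : Dat b (fun s => deriv (deriv (gg β)) s / deriv (gg β) s) H)
    (hb : ∀ s ∈ BF.HP, exp (b s) = deriv (gg β) s) :
    ∀ᵐ θ : ℝ, (∀ C : ℝ, ∃ᶠ x : ℝ in 𝓝[>] 0, C < (b (pt x θ)).im) ∧
      (∀ C : ℝ, ∃ᶠ x : ℝ in 𝓝[>] 0, (b (pt x θ)).im < C) := by
  filter_upwards [BF.conj_bound D, no_onesided hd hβ] with θ h1 h2
  have key : ¬ ((∃ C : ℝ, ∀ᶠ x : ℝ in 𝓝[>] 0, (b (pt x θ)).im ≤ C) ∨
      (∃ C : ℝ, ∀ᶠ x : ℝ in 𝓝[>] 0, C ≤ (b (pt x θ)).im)) := by
    intro hor
    obtain ⟨C, hC⟩ := h1 hor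
    apply h2
    left
    refine ⟨Real.exp C, ?_⟩
    filter_upwards [hC, self_mem_nhdsWithin] with x hx hx0
    rw [← BF.pt_eq, ← hb _ (BF.pt_mem hx0), Complex.norm_exp]
    exact Real.exp_le_exp.mpr ((le_abs_self _).trans hx)
  constructor
  · intro C hC
    apply key
    left
    refine ⟨C, ?_⟩
    filter_upwards [hC] with x hx
    exact not_lt.mp hx
  · intro C hC
    apply key
    right
    refine ⟨C, ?_⟩
    filter_upwards [hC] with x hx
    exact not_lt.mp hx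

theorem const_of_exp_one {f : ℝ → ℝ} (hf : ContinuousOn f (Ioi 1))
    (h : ∀ r > (1 : ℝ), exp (f r * I) = 1) : ∃ κ : ℝ, ∀ r > (1 : ℝ), f r = κ := by
  refine ⟨f 2, fun r hr => ?_⟩
  have hint : ∀ r > (1 : ℝ), ∃ n : ℤ, f r = n * (2 * Real.pi) := by
    intro r hr
    obtain ⟨n, hn⟩ := Complex.exp_eq_one_iff.mp (h r hr)
    refine ⟨n, ?_⟩
    have h1 : (f r : ℂ) = ((n * (2 * Real.pi) : ℝ) : ℂ) := by
      apply mul_right_cancel₀ I_ne_zero
      rw [hn]; push_cast; ring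
    exact_mod_cast h1
  have hpi := Real.pi_pos
  have hord : (f '' Ioi 1).OrdConnected := (isPreconnected_Ioi.image f hf).ordConnected
  have key : ∀ r1 > (1 : ℝ), ∀ r2 > (1 : ℝ), ¬ f r1 < f r2 := by
    intro r1 h1 r2 h2 hlt
    obtain ⟨n1, e1⟩ := hint r1 h1
    obtain ⟨n2, e2⟩ := hint r2 h2
    have h3 : (n1 : ℝ) < n2 := by
      rw [e1, e2] at hlt
      exact lt_of_mul_lt_mul_right hlt (by positivity)
    have h4 : (n1 : ℝ) + 1 ≤ n2 := by
      have : n1 + 1 ≤ n2 := by exact_mod_cast h3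
      exact_mod_cast this
    have h5 : f r1 + Real.pi ∈ Icc (f r1) (f r2) := by
      refine ⟨by linarith, ?_⟩
      rw [e1, e2]
      nlinarith
    have h6 := hord.out (mem_image_of_mem f h1) (mem_image_of_mem f h2) h5
    obtain ⟨r3, h7, h8⟩ := h6
    obtain ⟨n3, e3⟩ := hint r3 h7
    rw [h8, e1] at e3
    have h9 : (2 * (n1 : ℝ) + 1) * Real.pi = (2 * n3) * Real.pi := by linarith
    have h10 := mul_right_cancel₀ hpi.ne' h9
    have h11 : 2 * n1 + 1 = 2 * n3 := by exact_mod_cast h10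
    omega
  exact le_antisymm (not_lt.mp (key 2 (by norm_num) r hr)) (not_lt.mp (key r hr 2 (by norm_num)))

/-- **Twisting.** For almost every angle the continuous argument of the derivative of the exterior
map is unbounded above and below along the radius. -/
theorem main4 {d : ℕ} (hd : 2 ≤ d) {ψ : ℂ → ℂ} (hψ : IsExteriorMap (multibrotSet d) ψ) :
    ∀ᵐ θ : ℝ, (∃ φ : ℝ → ℝ, ContinuousOn φ (Ioi 1) ∧ ∀ r > (1 : ℝ),
        deriv ψ (r * exp (θ * I)) = ‖deriv ψ (r * exp (θ * I))‖ * exp (φ r * I)) ∧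
      ∀ φ : ℝ → ℝ, ContinuousOn φ (Ioi 1) → (∀ r > (1 : ℝ),
        deriv ψ (r * exp (θ * I)) = ‖deriv ψ (r * exp (θ * I))‖ * exp (φ r * I)) →
        (∀ C : ℝ, ∃ᶠ r : ℝ in 𝓝[>] 1, C < φ r) ∧ (∀ C : ℝ, ∃ᶠ r : ℝ in 𝓝[>] 1, φ r < C) := by
  obtain ⟨β, hβ⟩ := exists_beta hd
  obtain ⟨b, H, D, hb⟩ := BF.exists_dat (dgg_isBl hβ)
  filter_upwards [arg_unbounded hd hβ D hb] with θ hθ
  set φ0 : ℝ → ℝ := fun r => (b (pt (Real.log r) θ)).im - θ with hφ0
  have hlog : ∀ r > (1 : ℝ), 0 < Real.log r := fun r hr => Real.log_pos hr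
  have hval : ∀ r > (1 : ℝ), deriv ψ (r * exp (θ * I)) =
      exp (b (pt (Real.log r) θ) - pt (Real.log r) θ) := by
    intro r hr
    have hr0 : 0 < r := by linarith
    have hs : 0 < (pt (Real.log r) θ).re := by rw [BF.pt_re]; exact hlog r hr
    have h1 := deriv_relation hβ hψ hs
    have h2 : exp (pt (Real.log r) θ) = r * exp (θ * I) := by
      unfold pt
      rw [exp_add, ← ofReal_exp, Real.exp_log hr0]
    rw [Complex.exp_sub, hb _ (BF.pt_mem (hlog r hr)), h1, h2]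
    rw [← h2]
    field_simp [exp_ne_zero]
  have hn0 : ∀ r > (1 : ℝ), ‖deriv ψ (r * exp (θ * I))‖ ≠ 0 := by
    intro r hr
    rw [hval r hr]
    exact norm_ne_zero_iff.mpr (exp_ne_zero _)
  have hφ0e : ∀ r > (1 : ℝ), deriv ψ (r * exp (θ * I)) =
      ‖deriv ψ (r * exp (θ * I))‖ * exp (φ0 r * I) := by
    intro r hr
    rw [hval r hr, Complex.norm_exp, ofReal_exp, ← exp_add]
    congr 1
    have h1 := (Complex.re_add_im (b (pt (Real.log r) θ) - pt (Real.log r) θ)).symm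
    rw [Complex.sub_im, BF.pt_im] at h1
    exact h1
  have hφ0c : ContinuousOn φ0 (Ioi 1) := by
    intro r hr
    have hr' : (1 : ℝ) < r := hr
    have hr0 : r ≠ 0 := by linarith
    have h1 : ContinuousAt b (pt (Real.log r) θ) :=
      (D.hb _ (BF.pt_mem (hlog r hr))).continuousAt
    have h2 : ContinuousAt (fun r : ℝ => pt (Real.log r) θ) r := by
      unfold pt
      have h3 := Real.continuousAt_log hr0
      exact (Complex.continuous_ofReal.continuousAt.comp h3).add continuousAt_const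
    have h3 : ContinuousAt (fun r : ℝ => (b (pt (Real.log r) θ)).im) r :=
      Complex.continuous_im.continuousAt.comp (ContinuousAt.comp (f := fun r : ℝ => pt (Real.log r) θ) h1 h2)
    exact (h3.sub continuousAt_const).continuousWithinAt
  refine ⟨⟨φ0, hφ0c, hφ0e⟩, fun φ hφc hφe => ?_⟩
  obtain ⟨κ, hκ⟩ := const_of_exp_one (hφc.sub hφ0c) (by
    intro r hr
    have h2 : ((‖deriv ψ (r * exp (θ * I))‖ : ℝ) : ℂ) ≠ 0 := by
      exact_mod_cast hn0 r hr
    have h3 : exp (φ0 r * I) = exp (φ r * I) := by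
      have hn := hφ0e r hr
      have h4 : ((‖deriv ψ (r * exp (θ * I))‖ : ℝ) : ℂ) * exp (φ0 r * I) =
          ((‖deriv ψ (r * exp (θ * I))‖ : ℝ) : ℂ) * exp (φ r * I) := by
        rw [← hn]; exact hφe r hr
      exact mul_left_cancel₀ h2 h4
    rw [Pi.sub_apply, ofReal_sub, sub_mul, Complex.exp_sub, h3, div_self (exp_ne_zero _)])
  have hexp : Tendsto (fun x : ℝ => Real.exp x) (𝓝[>] 0) (𝓝[>] 1) := by
    rw [tendsto_nhdsWithin_iff]
    constructor
    · have := (Real.continuous_exp.tendsto 0).mono_left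
        (nhdsWithin_le_nhds : 𝓝[>] (0 : ℝ) ≤ 𝓝 0)
      rwa [Real.exp_zero] at this
    · filter_upwards [self_mem_nhdsWithin] with x hx
      exact Real.one_lt_exp_iff.mpr hx
  have hrel : ∀ x : ℝ, 0 < x → φ (Real.exp x) = (b (pt x θ)).im - θ + κ := by
    intro x hx
    have h1 := hκ (Real.exp x) (Real.one_lt_exp_iff.mpr hx)
    simp only [hφ0, Real.log_exp, Pi.sub_apply] at h1
    linarith
  constructor
  · intro C
    apply hexp.frequently
    refine ((hθ.1 (C + θ - κ)).and_eventually self_mem_nhdsWithin).mono ?_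
    rintro x ⟨hx, hx0⟩
    rw [hrel x hx0]
    linarith
  · intro C
    apply hexp.frequently
    refine ((hθ.2 (C + θ - κ)).and_eventually self_mem_nhdsWithin).mono ?_
    rintro x ⟨hx, hx0⟩
    rw [hrel x hx0]
    linarith

end Pool.Agent.TH425.AD
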