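import Mathlib
import Pool.Agent.TH425.AD.C3
import Pool.Agent.TH425.AD.D4

set_option autoImplicit false

open Complex Topology Filter Metric MeasureTheory Set N62a1eb23

namespace Pool.Agent.TH425.AD

open Pool.Agent.H713R2 Pool.Agent.H712R2 Pool.Agent.Helper202.Univ Pool.Agent.H713R2.AR
open Pool.Agent.TH425.BF (IsBl CK WO bloch_fatou Dat mf sg Jn pt dp)

theorem mem_Jn_iff {n : ℕ} {k : ℤ} {θ : ℝ} : θ ∈ Jn n k ↔ ⌊(2 : ℝ) ^ n * θ⌋ = k := BF.mem_Jn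

/-- Maximal inequality for nonnegative dyadic martingales, finite horizon. -/
theorem dyadic_max_fin {a : ℕ → ℤ → ℝ} (ha0 : ∀ n k, 0 ≤ a n k)
    (ha : ∀ n k, a n k = (a (n + 1) (2 * k) + a (n + 1) (2 * k + 1)) / 2) {lam : ℝ} (hl : 0 < lam)
    (N : ℕ) : ∀ (m : ℕ) (k : ℤ), volume {θ : ℝ | θ ∈ Jn m k ∧ ∃ n, m ≤ n ∧ n ≤ m + N ∧
      lam ≤ dp a n θ} ≤ ENNReal.ofReal (a m k / lam * (1 / 2 ^ m)) := by
  induction N with
  | zero =>
    intro m k
    by_cases h : lam ≤ a m k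
    · refine (measure_mono (fun θ hθ => hθ.1 : _ ⊆ Jn m k)).trans ?_
      rw [volume_Jn]
      apply ENNReal.ofReal_le_ofReal
      have : (0 : ℝ) < 1 / 2 ^ m := by positivity
      have h1 : 1 ≤ a m k / lam := by rw [le_div_iff₀ hl]; linarith
      nlinarith
    · have : {θ : ℝ | θ ∈ Jn m k ∧ ∃ n, m ≤ n ∧ n ≤ m + 0 ∧ lam ≤ dp a n θ} = ∅ := by
        rw [eq_empty_iff_forall_notMem]
        rintro θ ⟨h1, n, h2, h3, h4⟩
        have hn : n = m := by omega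
        subst hn
        unfold dp at h4
        rw [mem_Jn_iff.mp h1] at h4
        exact h h4
      rw [this, measure_empty]
      exact zero_le
  | succ N ih =>
    intro m k
    by_cases h : lam ≤ a m k
    · refine (measure_mono (fun θ hθ => hθ.1 : _ ⊆ Jn m k)).trans ?_
      rw [volume_Jn]
      apply ENNReal.ofReal_le_ofReal
      have : (0 : ℝ) < 1 / 2 ^ m := by positivity
      have h1 : 1 ≤ a m k / lam := by rw [le_div_iff₀ hl]; linarith
      nlinarith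
    · have hsub : {θ : ℝ | θ ∈ Jn m k ∧ ∃ n, m ≤ n ∧ n ≤ m + (N + 1) ∧ lam ≤ dp a n θ} ⊆
          {θ : ℝ | θ ∈ Jn (m + 1) (2 * k) ∧ ∃ n, m + 1 ≤ n ∧ n ≤ m + 1 + N ∧ lam ≤ dp a n θ} ∪
          {θ : ℝ | θ ∈ Jn (m + 1) (2 * k + 1) ∧ ∃ n, m + 1 ≤ n ∧ n ≤ m + 1 + N ∧
            lam ≤ dp a n θ} := by
        rintro θ ⟨h1, n, h2, h3, h4⟩
        have hn : m ≠ n := by
          intro hn
          subst hn
          unfold dp at h4
          rw [mem_Jn_iff.mp h1] at h4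
          exact h h4
        rw [BF.Jn_split] at h1
        rcases h1 with h1 | h1
        · exact Or.inl ⟨h1, n, by omega, by omega, h4⟩
        · exact Or.inr ⟨h1, n, by omega, by omega, h4⟩
      refine (measure_mono hsub).trans ((measure_union_le _ _).trans ?_)
      refine (add_le_add (ih (m + 1) (2 * k)) (ih (m + 1) (2 * k + 1))).trans ?_
      rw [← ENNReal.ofReal_add (by have := ha0 (m + 1) (2 * k); positivity)
        (by have := ha0 (m + 1) (2 * k + 1); positivity)]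
      apply ENNReal.ofReal_le_ofReal
      rw [ha m k, pow_succ]
      apply le_of_eq
      field_simp

/-- Maximal inequality for nonnegative dyadic martingales. -/
theorem dyadic_max {a : ℕ → ℤ → ℝ} (ha0 : ∀ n k, 0 ≤ a n k)
    (ha : ∀ n k, a n k = (a (n + 1) (2 * k) + a (n + 1) (2 * k + 1)) / 2) {lam : ℝ} (hl : 0 < lam)
    (m : ℕ) (k : ℤ) : volume {θ : ℝ | θ ∈ Jn m k ∧ ∃ n, m ≤ n ∧ lam ≤ dp a n θ} ≤
      ENNReal.ofReal (a m k / lam * (1 / 2 ^ m)) := by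
  set S : ℕ → Set ℝ := fun N => {θ : ℝ | θ ∈ Jn m k ∧ ∃ n, m ≤ n ∧ n ≤ m + N ∧ lam ≤ dp a n θ}
    with hS
  have hmono : Monotone S := by
    intro N N' h θ hθ
    obtain ⟨h1, n, h2, h3, h4⟩ := hθ
    exact ⟨h1, n, h2, by omega, h4⟩
  have heq : {θ : ℝ | θ ∈ Jn m k ∧ ∃ n, m ≤ n ∧ lam ≤ dp a n θ} = ⋃ N, S N := by
    ext θ
    simp only [hS, mem_iUnion]
    constructor
    · rintro ⟨h1, n, h2, h4⟩
      exact ⟨n, h1, n, h2, by omega, h4⟩
    · rintro ⟨N, h1, n, h2, h3, h4⟩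
      exact ⟨h1, n, h2, h4⟩
  rw [heq, hmono.measure_iUnion]
  exact iSup_le fun N => dyadic_max_fin ha0 ha hl N m k

/-- Second moment of dyadic martingales with bounded increments. -/
theorem dyadic_second {a : ℕ → ℤ → ℝ}
    (ha : ∀ n k, a n k = (a (n + 1) (2 * k) + a (n + 1) (2 * k + 1)) / 2) {B : ℝ}
    (hB : ∀ n k, |a (n + 1) (2 * k) - a (n + 1) (2 * k + 1)| ≤ 2 * B) (c : ℝ) (N : ℕ) :
    ∀ (m : ℕ) (k : ℤ), ∫⁻ θ in Jn m k, ENNReal.ofReal ((dp a (m + N) θ - c) ^ 2) ≤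
      ENNReal.ofReal (((a m k - c) ^ 2 + B ^ 2 * N) * (1 / 2 ^ m)) := by
  induction N with
  | zero =>
    intro m k
    have h1 : ∫⁻ θ in Jn m k, ENNReal.ofReal ((dp a (m + 0) θ - c) ^ 2) =
        ∫⁻ θ in Jn m k, ENNReal.ofReal ((a m k - c) ^ 2) := by
      apply setLIntegral_congr_fun measurableSet_Ico
      intro θ hθ
      simp only [dp, add_zero]
      rw [mem_Jn_iff.mp hθ]
    rw [h1, setLIntegral_const, volume_Jn, ← ENNReal.ofReal_mul (by positivity)]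
    apply ENNReal.ofReal_le_ofReal
    simp
  | succ N ih =>
    intro m k
    have e : m + (N + 1) = m + 1 + N := by ring
    rw [BF.Jn_split, e]
    refine (lintegral_union_le _ _ _).trans ?_
    refine (add_le_add (ih (m + 1) (2 * k)) (ih (m + 1) (2 * k + 1))).trans ?_
    rw [← ENNReal.ofReal_add (by positivity) (by positivity)]
    apply ENNReal.ofReal_le_ofReal
    have h1 := hB m k
    have h2 := ha m k
    set u := a (m + 1) (2 * k)
    set v := a (m + 1) (2 * k + 1)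
    have h3 : (u - v) ^ 2 ≤ (2 * B) ^ 2 := by
      rw [← sq_abs (u - v)]
      exact pow_le_pow_left₀ (abs_nonneg _) h1 2
    have h4 : (u - c) ^ 2 + (v - c) ^ 2 = 2 * (a m k - c) ^ 2 + (u - v) ^ 2 / 2 := by
      rw [h2]; ring
    have h5 : ((u - c) ^ 2 + B ^ 2 * N) * (1 / 2 ^ (m + 1)) +
        ((v - c) ^ 2 + B ^ 2 * N) * (1 / 2 ^ (m + 1)) =
        (((u - c) ^ 2 + (v - c) ^ 2) / 2 + B ^ 2 * N) * (1 / 2 ^ m) := by
      rw [pow_succ]; field_simp; ring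
    rw [h5, h4]
    have : (0 : ℝ) < 1 / 2 ^ m := by positivity
    apply mul_le_mul_of_nonneg_right _ this.le
    push_cast
    linarith

/-- Chebyshev inequality for dyadic martingales with bounded increments. -/
theorem dyadic_cheb {a : ℕ → ℤ → ℝ}
    (ha : ∀ n k, a n k = (a (n + 1) (2 * k) + a (n + 1) (2 * k + 1)) / 2) {B T : ℝ} (hT : 0 < T)
    (hB : ∀ n k, |a (n + 1) (2 * k) - a (n + 1) (2 * k + 1)| ≤ 2 * B) (N : ℕ)
    (m : ℕ) (k : ℤ) : volume {θ : ℝ | θ ∈ Jn m k ∧ T ≤ |dp a (m + N) θ - a m k|} ≤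
      ENNReal.ofReal (B ^ 2 * N / T ^ 2 * (1 / 2 ^ m)) := by
  have h1 := dyadic_second ha hB (a m k) N m k
  rw [sub_self, zero_pow two_ne_zero, zero_add] at h1
  have hms : Measurable fun θ => ENNReal.ofReal ((dp a (m + N) θ - a m k) ^ 2) :=
    (((BF.dp_meas a (m + N)).sub_const _).pow_const 2).ennreal_ofReal
  have h2 := mul_meas_ge_le_lintegral (μ := volume.restrict (Jn m k)) hms (ENNReal.ofReal (T ^ 2))
  have h3 := h2.trans h1
  have hsub : {θ : ℝ | θ ∈ Jn m k ∧ T ≤ |dp a (m + N) θ - a m k|} ⊆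
      {θ : ℝ | ENNReal.ofReal (T ^ 2) ≤ ENNReal.ofReal ((dp a (m + N) θ - a m k) ^ 2)} ∩ Jn m k := by
    rintro θ ⟨h4, h5⟩
    refine ⟨ENNReal.ofReal_le_ofReal ?_, h4⟩
    rw [← sq_abs (dp a (m + N) θ - a m k)]
    exact pow_le_pow_left₀ hT.le h5 2
  have hms2 : MeasurableSet {θ : ℝ | ENNReal.ofReal (T ^ 2) ≤
      ENNReal.ofReal ((dp a (m + N) θ - a m k) ^ 2)} := measurableSet_le measurable_const hms
  rw [Measure.restrict_apply hms2] at h3
  refine (measure_mono hsub).trans ?_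
  have hT2 : 0 < T ^ 2 := by positivity
  have h4 : ENNReal.ofReal (T ^ 2) ≠ 0 := by
    rw [Ne, ENNReal.ofReal_eq_zero, not_le]; exact hT2
  rw [mul_comm] at h3
  have h5 := (ENNReal.le_div_iff_mul_le (Or.inl h4) (Or.inl ENNReal.ofReal_ne_top)).mpr h3
  refine h5.trans (le_of_eq ?_)
  rw [← ENNReal.ofReal_div_of_pos hT2]
  congr 1
  field_simp

/-- Maximal form of the proportion lemma. -/
theorem proportion_max {d : ℕ} (hd : 2 ≤ d) {β : ℂ → ℂ} (hβ : IsBeta d β) {lam : ℝ} (hl : 0 < lam)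
    (m : ℕ) (k : ℤ) :
    volume {θ : ℝ | θ ∈ Jn m k ∧ ∃ n, m ≤ n ∧ 2000 * (2 * Real.exp lam + 1) ^ 2 *
      (1 / 2 ^ m * ‖deriv (gg β) (pt (1 / 2 ^ m) (k / 2 ^ m))‖) <
      ‖gg β (pt (1 / 2 ^ n) θ) - gg β (pt (1 / 2 ^ m) (k / 2 ^ m))‖} ≤
      ENNReal.ofReal (96 / lam * (1 / 2 ^ m)) := by
  have h2m : (0 : ℝ) < 2 ^ m := by positivity
  have h2m1 : (1 : ℝ) ≤ 2 ^ m := one_le_pow₀ (by norm_num)
  set s0 : ℂ := pt (1 / 2 ^ m) (k / 2 ^ m) with hs0
  have hre0 : s0.re = 1 / 2 ^ m := BF.pt_re _ _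
  have hx0 : 0 < s0.re := by rw [hre0]; positivity
  have hx1 : s0.re ≤ 1 := by rw [hre0, div_le_iff₀ h2m]; linarith
  obtain ⟨A, ρ, hA, hρ, hlow, hup, hfar⟩ := exists_aux hd hβ hx0 hx1
  obtain ⟨b, H, D, hb⟩ := BF.exists_dat hA
  set a : ℕ → ℤ → ℝ := fun n k => sg H n k - Real.log ρ + 44 with haD
  have hclose : ∀ (n : ℕ) (θ : ℝ), |mf H n θ - Real.log ‖A (pt (1 / 2 ^ n) θ)‖| ≤ 44 := by
    intro n θ
    have h1 := BF.mf_close D n θ
    rwa [BF.re_b hb (BF.pt_mem (by positivity))] at h1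
  have hmfsg : ∀ (n : ℕ) (k : ℤ), mf H n (k / 2 ^ n) = sg H n k := by
    intro n k
    unfold mf
    congr 1
    have : (2 : ℝ) ^ n * (k / 2 ^ n) = k := by field_simp
    rw [this, Int.floor_intCast]
  have ha0 : ∀ n k, 0 ≤ a n k := by
    intro n k
    have h1 := (abs_le.mp (hclose n (k / 2 ^ n))).1
    rw [hmfsg] at h1
    have h2 := Real.log_le_log hρ (hlow (pt (1 / 2 ^ n) (k / 2 ^ n)) (BF.pt_mem (by positivity)))
    simp only [haD]
    linarith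
  have ha : ∀ n k, a n k = (a (n + 1) (2 * k) + a (n + 1) (2 * k + 1)) / 2 := by
    intro n k
    simp only [haD]
    rw [BF.sg_add D n k]
    ring
  have hval : a m k ≤ 96 := by
    have h2 := (abs_le.mp (hclose m (k / 2 ^ m))).2
    rw [hmfsg, ← hs0] at h2
    have h4 := Real.log_le_log (hρ.trans_le (hlow s0 hx0)) hup
    rw [Real.log_mul (by norm_num) hρ.ne'] at h4
    have h5 : Real.log 1536 ≤ 8 := by
      rw [Real.log_le_iff_le_exp (by norm_num)]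
      have h7 : Real.exp 8 = (Real.exp 1) ^ 8 := by rw [← Real.exp_nat_mul]; norm_num
      rw [h7]
      have h8 := Real.exp_one_gt_d9
      calc (1536 : ℝ) ≤ (2.7 : ℝ) ^ 8 := by norm_num
        _ ≤ (Real.exp 1) ^ 8 := by gcongr; linarith
    simp only [haD]
    linarith
  have h1 := dyadic_max ha0 ha hl m k
  have hsub : {θ : ℝ | θ ∈ Jn m k ∧ ∃ n, m ≤ n ∧ 2000 * (2 * Real.exp lam + 1) ^ 2 *
      (1 / 2 ^ m * ‖deriv (gg β) s0‖) < ‖gg β (pt (1 / 2 ^ n) θ) - gg β s0‖} ⊆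
      {θ : ℝ | θ ∈ Jn m k ∧ ∃ n, m ≤ n ∧ lam ≤ dp a n θ} := by
    rintro θ ⟨hθJ, n, hn, hθ⟩
    refine ⟨hθJ, n, hn, ?_⟩
    by_contra hcon
    have hcon' : mf H n θ - Real.log ρ + 44 < lam := not_le.mp hcon
    have h1 := (abs_le.mp (hclose n θ)).1
    have h2 : Real.log ‖A (pt (1 / 2 ^ n) θ)‖ ≤ lam + Real.log ρ := by linarith
    have h3 : ‖A (pt (1 / 2 ^ n) θ)‖ ≤ Real.exp lam * ρ := by
      have h4 : 0 < ‖A (pt (1 / 2 ^ n) θ)‖ := hρ.trans_le (hlow _ (BF.pt_mem (by positivity)))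
      calc ‖A (pt (1 / 2 ^ n) θ)‖ = Real.exp (Real.log ‖A (pt (1 / 2 ^ n) θ)‖) :=
            (Real.exp_log h4).symm
        _ ≤ Real.exp (lam + Real.log ρ) := Real.exp_le_exp.mpr h2
        _ = Real.exp lam * ρ := by rw [Real.exp_add, Real.exp_log hρ]
    have h2n1 : (1 : ℝ) ≤ 2 ^ n := one_le_pow₀ (by norm_num)
    have h4 := hfar (pt (1 / 2 ^ n) θ) (by rw [BF.pt_re]; positivity)
      (by rw [BF.pt_re, div_le_iff₀ (by positivity)]; linarith) (Real.exp lam) h3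
    rw [hre0] at h4
    exact absurd hθ (not_lt.mpr h4)
  refine (measure_mono hsub).trans (h1.trans ?_)
  apply ENNReal.ofReal_le_ofReal
  have : (0 : ℝ) < 1 / 2 ^ m := by positivity
  gcongr

end Pool.Agent.TH425.AD
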