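import Mathlib
import Pool.Agent.TH425.AD.D5

set_option autoImplicit false

open Complex Topology Filter Metric MeasureTheory Set N62a1eb23

namespace Pool.Agent.TH425.AD

open Pool.Agent.H713R2 Pool.Agent.H712R2 Pool.Agent.Helper202.Univ Pool.Agent.H713R2.AR
open Pool.Agent.TH425.BF (IsBl CK WO bloch_fatou Dat mf sg Jn pt dp)

/-- continuous logarithms on the plane -/
theorem exists_plane_log {G : ℝ × ℝ → ℂ} (hG : Continuous G) (h0 : ∀ p, G p ≠ 0) :
    ∃ f : ℝ × ℝ → ℂ, Continuous f ∧ ∀ p, exp (f p) = G p := by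
  obtain ⟨f, ⟨-, hf⟩, -⟩ := Complex.isCoveringMapOn_exp.existsUnique_continuousMap_lifts
    ⟨G, hG⟩ (a₀ := ((0 : ℝ), (0 : ℝ))) (e₀ := Complex.log (G (0, 0))) (Complex.exp_log (h0 _))
    (fun x => h0 x)
  exact ⟨f, f.continuous, fun p => congrFun hf p⟩

/-- a continuous function whose exponential has positive real part has small oscillation of the
imaginary part -/
theorem re_pos_osc {S : Set ℝ} (hS : IsPreconnected S) {h : ℝ → ℂ} (hc : ContinuousOn h S)
    (hpos : ∀ v ∈ S, 0 < (exp (h v)).re) {v w : ℝ} (hv : v ∈ S) (hw : w ∈ S) :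
    |(h v).im - (h w).im| < Real.pi := by
  have hord : ((fun v => (h v).im) '' S).OrdConnected :=
    (hS.image _ (Complex.continuous_im.comp_continuousOn hc)).ordConnected
  have key : ∀ v ∈ S, ∀ w ∈ S, ¬ (h w).im + Real.pi ≤ (h v).im := by
    intro v hv w hw hle
    have hpi := Real.pi_pos
    have h1 : (h w).im + Real.pi ∈ Icc ((h w).im) ((h v).im) := ⟨by linarith, hle⟩
    obtain ⟨z, hz, hz2⟩ := hord.out (mem_image_of_mem _ hw) (mem_image_of_mem _ hv) h1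
    have h2 := hpos z hz
    have h3 := hpos w hw
    rw [Complex.exp_re] at h2 h3
    simp only at hz2
    rw [hz2, Real.cos_add_pi] at h2
    have h4 := Real.exp_pos (h z).re
    have h5 := Real.exp_pos (h w).re
    have h6 : 0 < Real.cos (h w).im := pos_of_mul_pos_right h3 h5.le |>.trans_le le_rfl
    nlinarith
  rw [abs_lt]
  constructor
  · by_contra hcon
    exact key w hw v hv (by linarith [not_lt.mp hcon])
  · by_contra hcon
    exact key v hv w hw (by linarith [not_lt.mp hcon])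

theorem re_pos_of_close {a b : ℂ} (h : ‖a - b‖ < ‖b‖) : 0 < (a / b).re := by
  have hb : 0 < ‖b‖ := (norm_nonneg _).trans_lt h
  have hb0 : b ≠ 0 := norm_pos_iff.mp hb
  have h1 : a / b = 1 + (a - b) / b := by field_simp; ring
  have h2 : ‖(a - b) / b‖ < 1 := by rw [norm_div, div_lt_one hb]; exact h
  have h3 := (abs_lt.mp ((Complex.abs_re_le_norm _).trans_lt h2)).1
  rw [h1, add_re, one_re]
  linarith

/-- oscillation of the argument along a segment in the second variable -/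
theorem seg_osc {G : ℝ × ℝ → ℂ} {f : ℝ × ℝ → ℂ} (hf : Continuous f) (hfe : ∀ p, exp (f p) = G p)
    {v u1 u2 u3 : ℝ} (h12 : u2 ≤ u1) (h3 : u3 ∈ Icc u2 u1)
    (hG : ∀ u ∈ Icc u2 u1, ‖G (v, u) - G (v, u3)‖ < ‖G (v, u3)‖) {u : ℝ} (hu : u ∈ Icc u2 u1) :
    |(f (v, u)).im - (f (v, u3)).im| < Real.pi := by
  have h := re_pos_osc (S := Icc u2 u1) isPreconnected_Icc
    (h := fun u => f (v, u) - f (v, u3))
    ((hf.comp (by fun_prop : Continuous fun u : ℝ => (v, u))).sub continuous_const).continuousOn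
    (by
      intro u hu
      rw [Complex.exp_sub, hfe, hfe]
      exact re_pos_of_close (hG u hu)) hu h3
  simpa using h

theorem re_eq_of_gg_eq {d : ℕ} {β : ℂ → ℂ} (hβ : IsBeta d β) {s t : ℂ} (hs : 0 < s.re)
    (ht : 0 < t.re) (h : gg β s = gg β t) : s.re = t.re := by
  rw [gg_eq_zz, gg_eq_zz] at h
  have h1 := hβ.inj _ (exp_neg_mem hs) _ (exp_neg_mem ht) (exp_ne_zero _) (exp_ne_zero _) h
  have h2 := congrArg norm h1
  rw [Complex.norm_exp, Complex.norm_exp, Real.exp_eq_exp, neg_re, neg_re] at h2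
  linarith

/-- growth of the derivative along a ray -/
theorem ray_growth {β b H : ℂ → ℂ} (D : Dat b (fun s => deriv (deriv (gg β)) s / deriv (gg β) s) H)
    (hb : ∀ s ∈ BF.HP, exp (b s) = deriv (gg β) s) {θ y y0 : ℝ} (hy : 0 < y) (hyy : y ≤ y0)
    (h3 : y0 ≤ 3) : ‖deriv (gg β) (pt y θ)‖ ≤ (y0 / y) ^ 4 * ‖deriv (gg β) (pt y0 θ)‖ := by
  have hy0 : 0 < y0 := hy.trans_le hyy
  rw [← hb _ (BF.pt_mem hy), ← hb _ (BF.pt_mem hy0), Complex.norm_exp, Complex.norm_exp]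
  have h1 := (Complex.abs_re_le_norm _).trans (BF.osc_ver D hy hyy h3 θ)
  rw [sub_re] at h1
  have h2 := (abs_le.mp h1).2
  have h4 : (y0 / y) ^ 4 = Real.exp (4 * Real.log (y0 / y)) := by
    rw [mul_comm, Real.exp_mul, Real.exp_log (by positivity)]
    norm_cast
  rw [h4, ← Real.exp_add]
  exact Real.exp_le_exp.mpr (by linarith)

theorem ray_hd {d : ℕ} {β : ℂ → ℂ} (hβ : IsBeta d β) (θ : ℝ) {t : ℝ} (ht : 0 < t) :
    HasDerivAt (fun t : ℝ => gg β (pt t θ)) (deriv (gg β) (pt t θ)) t := by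
  have h1 : HasDerivAt (gg β) (deriv (gg β) (pt t θ)) (pt t θ) :=
    (gg_differentiableAt hβ (BF.pt_mem ht)).hasDerivAt
  have h2 : HasDerivAt (fun t : ℝ => pt t θ) 1 t := by
    have h3 : HasDerivAt (fun t : ℝ => (t : ℂ)) 1 t := Complex.ofRealCLM.hasDerivAt
    exact h3.add_const _
  have h3 := h1.scomp t h2
  rw [one_smul] at h3
  exact h3

/-- increments along a ray -/
theorem ray_inc {d : ℕ} {β : ℂ → ℂ} (hβ : IsBeta d β) {b H : ℂ → ℂ}
    (D : Dat b (fun s => deriv (deriv (gg β)) s / deriv (gg β) s) H)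
    (hb : ∀ s ∈ BF.HP, exp (b s) = deriv (gg β) s) {θ y y0 : ℝ} (hy : 0 < y) (hyy : y ≤ y0)
    (h3 : y0 ≤ 3) : ‖gg β (pt y θ) - gg β (pt y0 θ)‖ ≤
      (y0 - y) * ((y0 / y) ^ 4 * ‖deriv (gg β) (pt y0 θ)‖) := by
  have h := Convex.norm_image_sub_le_of_norm_hasDerivWithin_le (s := Icc y y0)
    (f := fun t : ℝ => gg β (pt t θ)) (f' := fun t => deriv (gg β) (pt t θ))
    (C := (y0 / y) ^ 4 * ‖deriv (gg β) (pt y0 θ)‖) (x := y0) (y := y)
    (fun t ht => (ray_hd hβ θ (hy.trans_le ht.1)).hasDerivWithinAt) (by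
      intro t ht
      have ht0 : 0 < t := hy.trans_le ht.1
      refine (ray_growth D hb ht0 ht.2 h3).trans ?_
      have : y0 / t ≤ y0 / y := by
        have := ht.1
        have : 0 < y0 := hy.trans_le hyy
        gcongr
      have h5 : 0 ≤ y0 / t := by
        have : 0 < y0 := hy.trans_le hyy
        positivity
      gcongr) (convex_Icc _ _)
    (right_mem_Icc.mpr hyy) (left_mem_Icc.mpr hyy)
  refine h.trans (le_of_eq ?_)
  rw [Real.norm_eq_abs, abs_sub_comm, abs_of_nonneg (by linarith), mul_comm]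

/-- chords are not too short (Koebe) -/
theorem chord_low {d : ℕ} {β : ℂ → ℂ} (hβ : IsBeta d β) {θ x y r : ℝ} (hr : 0 < r) (hry : r ≤ y)
    (hrx : r ≤ x - y) (hy3 : y ≤ 3) :
    r * ‖deriv (gg β) (pt y θ)‖ ≤ 4 * ‖gg β (pt y θ) - gg β (pt x θ)‖ := by
  have hre : (pt y θ).re = y := BF.pt_re _ _
  have hsub : ball (pt y θ) r ⊆ HP :=
    (ball_subset_ball (by rw [hre]; exact hry)).trans ball_sub_HP
  apply koebe_omit hr ((gg_diffOn hβ).mono hsub)
    (gg_injOn_ball hβ (by rw [hre]; exact hry) (by linarith))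
  intro t ht h
  have hx0 : 0 < (pt x θ).re := by rw [BF.pt_re]; linarith
  have h1 := re_eq_of_gg_eq hβ (hsub ht) hx0 h
  rw [BF.pt_re] at h1
  have h2 := (Complex.abs_re_le_norm (t - pt y θ)).trans_lt (mem_ball_iff_norm.mp ht)
  rw [sub_re, hre, h1] at h2
  have := (abs_lt.mp h2).2
  linarith

/-- Koebe bound for the distance to a point of the set -/
theorem point_low {d : ℕ} {β : ℂ → ℂ} (hβ : IsBeta d β) {c : ℂ} (hc : c ∈ multibrotSet d)
    {θ x : ℝ} (hx : 0 < x) (hx3 : x ≤ 3) :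
    x * ‖deriv (gg β) (pt x θ)‖ ≤ 4 * ‖gg β (pt x θ) - c‖ := by
  have h := (gg_sub_isBl hβ hc).bd (pt x θ) (by rw [BF.pt_re]; exact hx) (by rw [BF.pt_re]; exact hx3)
  rwa [deriv_sub_const, BF.pt_re] at h

/-- the ray, completed by its landing point -/
noncomputable def gb (β : ℂ → ℂ) (θ y : ℝ) : ℂ := if y ≤ 0 then cc β θ else gg β (pt y θ)

theorem gb_pos {β : ℂ → ℂ} {θ y : ℝ} (hy : 0 < y) : gb β θ y = gg β (pt y θ) := by
  unfold gb
  rw [if_neg (not_le.mpr hy)]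

theorem gb_nonpos {β : ℂ → ℂ} {θ y : ℝ} (hy : y ≤ 0) : gb β θ y = cc β θ := by
  unfold gb
  rw [if_pos hy]

theorem gb_cont {d : ℕ} {β : ℂ → ℂ} (hβ : IsBeta d β) {θ : ℝ}
    (hl : Tendsto (fun x : ℝ => gg β (θ * I + x)) (𝓝[>] 0) (𝓝 (cc β θ))) :
    Continuous (gb β θ) := by
  rw [continuous_iff_continuousAt]
  intro y
  rcases lt_trichotomy y 0 with hy | hy | hy
  · have h1 : gb β θ =ᶠ[𝓝 y] fun _ => cc β θ := by
      filter_upwards [Iio_mem_nhds hy] with z hz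
      exact gb_nonpos (le_of_lt hz)
    exact (continuousAt_const).congr h1.symm
  · subst hy
    have h0 : gb β θ 0 = cc β θ := gb_nonpos le_rfl
    change Tendsto (gb β θ) (𝓝 0) (𝓝 (gb β θ 0))
    rw [h0, ← nhdsLE_sup_nhdsGT, tendsto_sup]
    constructor
    · apply tendsto_const_nhds.congr'
      filter_upwards [self_mem_nhdsWithin] with z hz
      exact (gb_nonpos hz).symm
    · refine hl.congr' ?_
      filter_upwards [self_mem_nhdsWithin] with z hz
      rw [gb_pos hz, BF.pt_eq]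
  · have h1 : gb β θ =ᶠ[𝓝 y] fun y => gg β (pt y θ) := by
      filter_upwards [Ioi_mem_nhds hy] with z hz
      exact gb_pos hz
    exact ((ray_hd hβ θ hy).continuousAt).congr h1.symm

/-- chords of the ray -/
noncomputable def GG (β : ℂ → ℂ) (θ : ℝ) (p : ℝ × ℝ) : ℂ :=
  gb β θ (Real.exp p.1) - gb β θ (9 / 10 * Real.exp p.1 * min p.2 1)

theorem GG_cont {d : ℕ} {β : ℂ → ℂ} (hβ : IsBeta d β) {θ : ℝ}
    (hl : Tendsto (fun x : ℝ => gg β (θ * I + x)) (𝓝[>] 0) (𝓝 (cc β θ))) :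
    Continuous (GG β θ) := by
  have h := gb_cont hβ hl
  unfold GG
  exact (h.comp (by fun_prop)).sub (h.comp (by fun_prop))

theorem cc_mem {d : ℕ} (hd : 2 ≤ d) {β : ℂ → ℂ} (hβ : IsBeta d β) {θ : ℝ}
    (hl : Tendsto (fun x : ℝ => gg β (θ * I + x)) (𝓝[>] 0) (𝓝 (cc β θ))) :
    cc β θ ∈ multibrotSet d := by
  apply mem_of_tendsto_gg hd hβ (s := fun x : ℝ => (θ : ℂ) * I + x) (l := 𝓝[>] (0 : ℝ)) _ _ hl
  · filter_upwards [self_mem_nhdsWithin] with x hx
    have hx' : 0 < x := hx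
    simpa using hx'
  · have : (fun x : ℝ => ((θ : ℂ) * I + x).re) = fun x => x := by
      funext x; simp
    rw [this]
    exact nhdsWithin_le_nhds

theorem GG_ne {d : ℕ} (hd : 2 ≤ d) {β : ℂ → ℂ} (hβ : IsBeta d β) {θ : ℝ}
    (hl : Tendsto (fun x : ℝ => gg β (θ * I + x)) (𝓝[>] 0) (𝓝 (cc β θ))) (p : ℝ × ℝ) :
    GG β θ p ≠ 0 := by
  have hx := Real.exp_pos p.1
  unfold GG
  rw [gb_pos hx, sub_ne_zero]
  by_cases hy : 9 / 10 * Real.exp p.1 * min p.2 1 ≤ 0
  · rw [gb_nonpos hy]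
    intro h
    exact gg_notMem hβ (s := pt (Real.exp p.1) θ) (by rw [BF.pt_re]; exact hx)
      (h ▸ cc_mem hd hβ hl)
  · rw [not_le] at hy
    rw [gb_pos hy]
    intro h
    have h1 := re_eq_of_gg_eq hβ (s := pt (Real.exp p.1) θ) (by rw [BF.pt_re]; exact hx)
      (by rw [BF.pt_re]; exact hy) h
    rw [BF.pt_re, BF.pt_re] at h1
    have h2 : min p.2 1 ≤ 1 := min_le_right _ _
    nlinarith

end Pool.Agent.TH425.AD
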