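import Mathlib
import Pool.Agent.TH425.AD.D6

set_option autoImplicit false

open Complex Topology Filter Metric MeasureTheory Set N62a1eb23

namespace Pool.Agent.TH425.AD

open Pool.Agent.H713R2 Pool.Agent.H712R2 Pool.Agent.Helper202.Univ Pool.Agent.H713R2.AR
open Pool.Agent.TH425.BF (IsBl CK WO bloch_fatou Dat mf sg Jn pt dp)

/-- short chords point in the direction of the derivative -/
theorem near_diag {d : ℕ} {β : ℂ → ℂ} (hβ : IsBeta d β) {b H : ℂ → ℂ}
    (D : Dat b (fun s => deriv (deriv (gg β)) s / deriv (gg β) s) H)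
    (hb : ∀ s ∈ BF.HP, exp (b s) = deriv (gg β) s) {θ x : ℝ} (hx : 0 < x) (hx1 : x ≤ 3) :
    0 < ((gg β (pt x θ) - gg β (pt (9 / 10 * x) θ)) / exp (b (pt x θ))).re := by
  set g : ℂ := exp (b (pt x θ)) with hg
  have hg0 : 0 < ‖g‖ := norm_pos_iff.mpr (exp_ne_zero _)
  have hgd : deriv (gg β) (pt x θ) = g := (hb _ (BF.pt_mem hx)).symm
  have hκ : 9 / 10 * x ≤ x := by linarith
  have h := Convex.norm_image_sub_le_of_norm_hasDerivWithin_le (s := Icc (9 / 10 * x) x)
    (f := fun t : ℝ => gg β (pt t θ) - t * g) (f' := fun t => deriv (gg β) (pt t θ) - 1 * g)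
    (C := 3 / 4 * ‖g‖) (x := 9 / 10 * x) (y := x)
    (fun t ht => by
      have h3 : HasDerivAt (fun t : ℝ => (t : ℂ)) 1 t := Complex.ofRealCLM.hasDerivAt
      exact ((ray_hd hβ θ (by linarith [ht.1] : (0 : ℝ) < t)).sub (h3.mul_const g)).hasDerivWithinAt)
    (by
      intro t ht
      have ht0 : 0 < t := by linarith [ht.1]
      rw [← hb _ (BF.pt_mem ht0)]
      have e1 : exp (b (pt t θ)) - 1 * g = g * (exp (b (pt t θ) - b (pt x θ)) - 1) := by
        rw [hg, mul_sub, ← exp_add]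
        congr 1
        · congr 1; ring
        · ring
      rw [e1, norm_mul, mul_comm]
      have e2 := BF.norm_exp_sub_one_le_real (b (pt t θ) - b (pt x θ))
      have e3 := BF.osc_ver D ht0 ht.2 hx1 θ
      have e4 : Real.exp (4 * Real.log (x / t)) = (x / t) ^ 4 := by
        rw [mul_comm, Real.exp_mul, Real.exp_log (by positivity)]
        norm_cast
      have e5 : x / t ≤ 10 / 9 := by
        rw [div_le_iff₀ ht0]; linarith [ht.1]
      have e6 : (x / t) ^ 4 ≤ (10 / 9) ^ 4 := by gcongr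
      have e7 : Real.exp ‖b (pt t θ) - b (pt x θ)‖ ≤ 7 / 4 := by
        refine (Real.exp_le_exp.mpr e3).trans ?_
        rw [e4]
        refine e6.trans ?_
        norm_num
      have e8 : ‖exp (b (pt t θ) - b (pt x θ)) - 1‖ ≤ 3 / 4 := by linarith
      gcongr) (convex_Icc _ _)
    (left_mem_Icc.mpr hκ) (right_mem_Icc.mpr hκ)
  have h1 : x - 9 / 10 * x = x / 10 := by ring
  rw [Real.norm_eq_abs, h1, abs_of_pos (by positivity)] at h
  have h2 : (gg β (pt x θ) - (x : ℂ) * g) - (gg β (pt (9 / 10 * x) θ) - ((9 / 10 * x : ℝ) : ℂ) * g) =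
      (gg β (pt x θ) - gg β (pt (9 / 10 * x) θ)) - ((x / 10 : ℝ) : ℂ) * g := by
    push_cast; ring
  rw [h2] at h
  have h3 : (gg β (pt x θ) - gg β (pt (9 / 10 * x) θ)) / g =
      ((x / 10 : ℝ) : ℂ) + ((gg β (pt x θ) - gg β (pt (9 / 10 * x) θ)) - ((x / 10 : ℝ) : ℂ) * g) / g := by
    have : g ≠ 0 := exp_ne_zero _
    field_simp
    ring
  rw [h3, add_re, ofReal_re]
  have h4 : ‖((gg β (pt x θ) - gg β (pt (9 / 10 * x) θ)) - ((x / 10 : ℝ) : ℂ) * g) / g‖ ≤
      3 / 4 * (x / 10) := by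
    rw [norm_div, div_le_iff₀ hg0]
    linarith
  have h5 := (abs_le.mp ((Complex.abs_re_le_norm _).trans h4)).1
  linarith

theorem diag_osc {d : ℕ} {β : ℂ → ℂ} (hβ : IsBeta d β) {b H : ℂ → ℂ}
    (D : Dat b (fun s => deriv (deriv (gg β)) s / deriv (gg β) s) H)
    (hb : ∀ s ∈ BF.HP, exp (b s) = deriv (gg β) s) {θ : ℝ} {f : ℝ × ℝ → ℂ} (hf : Continuous f)
    (hfe : ∀ p, exp (f p) = GG β θ p) {v : ℝ} (hv : v ≤ 0) :
    |((f (v, 1)).im - (b (pt (Real.exp v) θ)).im) - ((f (0, 1)).im - (b (pt 1 θ)).im)| <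
      Real.pi := by
  have h := re_pos_osc (S := Iic (0 : ℝ)) isPreconnected_Iic
    (h := fun v => f (v, 1) - b (pt (Real.exp v) θ)) ?_ ?_ (mem_Iic.mpr hv) (mem_Iic.mpr le_rfl)
  · simp only [sub_im, Real.exp_zero] at h
    exact h
  · intro w _
    apply ContinuousAt.continuousWithinAt
    have h1 : ContinuousAt b (pt (Real.exp w) θ) :=
      (D.hb _ (BF.pt_mem (Real.exp_pos w))).continuousAt
    have h2 : ContinuousAt (fun v : ℝ => pt (Real.exp v) θ) w := by
      unfold pt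
      fun_prop
    have h3 : ContinuousAt (fun v : ℝ => f (v, 1)) w :=
      (hf.comp (by fun_prop : Continuous fun v : ℝ => (v, (1 : ℝ)))).continuousAt
    exact h3.sub (ContinuousAt.comp (f := fun v : ℝ => pt (Real.exp v) θ) h1 h2)
  · intro w hw
    rw [Complex.exp_sub, hfe]
    have hx := Real.exp_pos w
    have h1 : GG β θ (w, 1) = gg β (pt (Real.exp w) θ) - gg β (pt (9 / 10 * Real.exp w) θ) := by
      unfold GG
      simp only [min_self, mul_one]
      rw [gb_pos hx, gb_pos (by positivity)]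
    rw [h1]
    have h2 : Real.exp w ≤ 1 := Real.exp_le_one_iff.mpr hw
    exact near_diag hβ D hb hx (by linarith)

theorem chain_osc {d : ℕ} {β : ℂ → ℂ} (hβ : IsBeta d β) {b H : ℂ → ℂ}
    (D : Dat b (fun s => deriv (deriv (gg β)) s / deriv (gg β) s) H)
    (hb : ∀ s ∈ BF.HP, exp (b s) = deriv (gg β) s) {θ : ℝ} {f : ℝ × ℝ → ℂ} (hf : Continuous f)
    (hfe : ∀ p, exp (f p) = GG β θ p) {v : ℝ} (hv : v ≤ 0) (j : ℕ) :
    |(f (v, (99 / 100) ^ j)).im - (f (v, 1)).im| ≤ Real.pi * j := by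
  induction j with
  | zero => simp
  | succ j ih =>
    set x : ℝ := Real.exp v with hx
    have hx0 : 0 < x := Real.exp_pos v
    have hx1 : x ≤ 1 := Real.exp_le_one_iff.mpr hv
    set ρ : ℝ := (99 / 100) ^ j with hρ
    have hρ0 : 0 < ρ := by positivity
    have hρ1 : ρ ≤ 1 := pow_le_one₀ (by norm_num) (by norm_num)
    have hstep : |(f (v, (99 / 100) ^ (j + 1))).im - (f (v, ρ)).im| < Real.pi := by
      have hle : (99 / 100 : ℝ) ^ (j + 1) ≤ ρ := by
        rw [pow_succ]; nlinarith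
      have hpos : (0 : ℝ) < (99 / 100 : ℝ) ^ (j + 1) := by positivity
      apply seg_osc hf hfe hle (right_mem_Icc.mpr hle) _ (left_mem_Icc.mpr hle)
      intro u hu
      have hu0 : 0 < u := hpos.trans_le hu.1
      have hu1 : u ≤ 1 := hu.2.trans hρ1
      have hul : 99 / 100 * ρ ≤ u := by
        have := hu.1
        rw [pow_succ] at this
        linarith
      set y0 : ℝ := 9 / 10 * x * ρ with hy0
      set y : ℝ := 9 / 10 * x * u with hy
      have hy00 : 0 < y0 := by positivity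
      have hyp : 0 < y := by positivity
      have hyy : y ≤ y0 := by
        rw [hy, hy0]
        have := hu.2
        gcongr
      have hyl : 99 / 100 * y0 ≤ y := by
        rw [hy, hy0]
        nlinarith
      have hyx : y0 ≤ 9 / 10 * x := by
        rw [hy0]; nlinarith
      have e1 : GG β θ (v, u) = gg β (pt x θ) - gg β (pt y θ) := by
        unfold GG
        simp only [min_eq_left hu1]
        rw [gb_pos hx0, gb_pos hyp]
      have e2 : GG β θ (v, ρ) = gg β (pt x θ) - gg β (pt y0 θ) := by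
        unfold GG
        simp only [min_eq_left hρ1]
        rw [gb_pos hx0, gb_pos hy00]
      rw [e1, e2]
      set g : ℝ := ‖deriv (gg β) (pt y0 θ)‖ with hg
      have hg0 : 0 < g := by
        rw [hg, ← hb _ (BF.pt_mem hy00)]
        exact norm_pos_iff.mpr (exp_ne_zero _)
      have h1 := ray_inc hβ D hb (θ := θ) hyp hyy (by linarith)
      have h2 := chord_low hβ (θ := θ) (x := x) (y := y0) (r := y0 / 10) (by positivity)
        (by linarith) (by linarith) (by linarith)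
      have h3 : ‖(gg β (pt x θ) - gg β (pt y θ)) - (gg β (pt x θ) - gg β (pt y0 θ))‖ =
          ‖gg β (pt y θ) - gg β (pt y0 θ)‖ := by
        rw [← norm_neg]; congr 1; ring
      have h4 : ‖gg β (pt x θ) - gg β (pt y0 θ)‖ = ‖gg β (pt y0 θ) - gg β (pt x θ)‖ :=
        norm_sub_rev _ _
      rw [h3, h4]
      have h5 : y0 / y ≤ 100 / 99 := by
        rw [div_le_iff₀ hyp]; linarith
      have h6 : (y0 / y) ^ 4 ≤ 21 / 20 := by
        refine (pow_le_pow_left₀ (by positivity) h5 4).trans ?_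
        norm_num
      have h7 : (y0 - y) * ((y0 / y) ^ 4 * g) ≤ (y0 / 100) * (21 / 20 * g) := by
        have : y0 - y ≤ y0 / 100 := by linarith
        have h8 : 0 ≤ (y0 / y) ^ 4 := by positivity
        gcongr
      have h8 : 0 < y0 * g := by positivity
      calc ‖gg β (pt y θ) - gg β (pt y0 θ)‖ ≤ (y0 / 100) * (21 / 20 * g) := h1.trans h7
        _ < y0 / 10 * g / 4 := by nlinarith
        _ ≤ ‖gg β (pt y0 θ) - gg β (pt x θ)‖ := by linarith
    have h1 : (f (v, (99 / 100) ^ (j + 1))).im - (f (v, 1)).im =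
        ((f (v, (99 / 100) ^ (j + 1))).im - (f (v, ρ)).im) + ((f (v, ρ)).im - (f (v, 1)).im) := by ring
    rw [h1]
    refine (abs_add_le _ _).trans ?_
    push_cast
    linarith

theorem end_osc {d : ℕ} (hd : 2 ≤ d) {β : ℂ → ℂ} (hβ : IsBeta d β) {b H : ℂ → ℂ}
    (D : Dat b (fun s => deriv (deriv (gg β)) s / deriv (gg β) s) H)
    (hb : ∀ s ∈ BF.HP, exp (b s) = deriv (gg β) s) {θ : ℝ}
    (hl : Tendsto (fun x : ℝ => gg β (θ * I + x)) (𝓝[>] 0) (𝓝 (cc β θ)))
    {f : ℝ × ℝ → ℂ} (hf : Continuous f)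
    (hfe : ∀ p, exp (f p) = GG β θ p) {v : ℝ} (hv : v ≤ 0) (j : ℕ)
    (hend : ∀ y : ℝ, 0 < y → y ≤ Real.exp v * (99 / 100) ^ j →
      ‖gg β (pt y θ) - cc β θ‖ < ‖gg β (pt (Real.exp v) θ) - cc β θ‖) :
    |(f (v, 0)).im - (f (v, 1)).im| ≤ Real.pi * (j + 1) := by
  set x : ℝ := Real.exp v with hx
  have hx0 : 0 < x := Real.exp_pos v
  have hρ0 : (0 : ℝ) < (99 / 100) ^ j := by positivity
  have hρ1 : (99 / 100 : ℝ) ^ j ≤ 1 := pow_le_one₀ (by norm_num) (by norm_num)
  have e0 : GG β θ (v, 0) = gg β (pt x θ) - cc β θ := by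
    unfold GG
    simp only [min_eq_left (zero_le_one' ℝ), mul_zero]
    rw [gb_pos hx0, gb_nonpos le_rfl]
  have h1 : |(f (v, (99 / 100) ^ j)).im - (f (v, 0)).im| < Real.pi := by
    apply seg_osc hf hfe hρ0.le (left_mem_Icc.mpr hρ0.le) _ (right_mem_Icc.mpr hρ0.le)
    intro u hu
    rcases hu.1.eq_or_lt with h | h
    · rw [← h, sub_self, norm_zero]
      exact norm_pos_iff.mpr (GG_ne hd hβ hl _)
    · have hu1 : u ≤ 1 := hu.2.trans hρ1
      have e1 : GG β θ (v, u) = gg β (pt x θ) - gg β (pt (9 / 10 * x * u) θ) := by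
        unfold GG
        simp only [min_eq_left hu1]
        rw [gb_pos hx0, gb_pos (by positivity)]
      rw [e0, e1]
      have e2 : (gg β (pt x θ) - gg β (pt (9 / 10 * x * u) θ)) - (gg β (pt x θ) - cc β θ) =
          -(gg β (pt (9 / 10 * x * u) θ) - cc β θ) := by ring
      rw [e2, norm_neg]
      apply hend _ (by positivity)
      have := hu.2
      nlinarith [mul_pos hx0 h]
  have h2 := chain_osc hβ D hb hf hfe hv j
  have h3 : (f (v, 0)).im - (f (v, 1)).im = ((f (v, (99 / 100) ^ j)).im - (f (v, 1)).im) -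
      ((f (v, (99 / 100) ^ j)).im - (f (v, 0)).im) := by ring
  rw [h3]
  refine (abs_sub _ _).trans ?_
  linarith

end Pool.Agent.TH425.AD
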