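import Mathlib
import Pool.Agent.TH425.AD.D7

set_option autoImplicit false

open Complex Topology Filter Metric MeasureTheory Set N62a1eb23

namespace Pool.Agent.TH425.AD

open Pool.Agent.H713R2 Pool.Agent.H712R2 Pool.Agent.Helper202.Univ Pool.Agent.H713R2.AR
open Pool.Agent.TH425.BF (IsBl CK WO bloch_fatou Dat mf sg Jn pt dp)

/-- the constant of the proportion lemma -/
noncomputable def KP : ℝ := 2000 * (2 * Real.exp 768 + 1) ^ 2

theorem KP_pos : 0 < KP := by unfold KP; positivity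

theorem exists_params : ∃ (N : ℕ) (T : ℝ), 0 < T ∧ (92 : ℝ) ^ 2 * N / T ^ 2 ≤ 1 / 8 ∧
    264 * KP * Real.exp (T + 92) < 2 ^ N := by
  obtain ⟨N, hN⟩ : ∃ N : ℕ, (N : ℝ) = 1000000 := ⟨1000000, by norm_num⟩
  refine ⟨N, 270000, by norm_num, ?_, ?_⟩
  · rw [hN]; norm_num
  · have h1 : (2 : ℝ) ^ N = Real.exp (N * Real.log 2) := by
      rw [mul_comm, Real.exp_mul, Real.exp_log (by norm_num)]
      norm_cast
    rw [h1, hN]
    have h2 : (690000 : ℝ) ≤ 1000000 * Real.log 2 := by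
      have := Real.log_two_gt_d9
      linarith
    have h3 : 2 * Real.exp 768 + 1 ≤ Real.exp 770 := by
      have h4 : Real.exp 770 = Real.exp 2 * Real.exp 768 := by rw [← Real.exp_add]; norm_num
      have h5 : Real.exp 2 = Real.exp 1 ^ 2 := by rw [← Real.exp_nat_mul]; norm_num
      have h6 := Real.exp_one_gt_d9
      have h7 : (4 : ℝ) ≤ Real.exp 2 := by rw [h5]; nlinarith
      have h8 : 1 ≤ Real.exp 768 := Real.one_le_exp (by norm_num)
      rw [h4]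
      nlinarith
    have h4 : KP ≤ 2000 * Real.exp 1540 := by
      unfold KP
      have h5 : Real.exp 1540 = Real.exp 770 ^ 2 := by rw [← Real.exp_nat_mul]; norm_num
      rw [h5]
      gcongr
    have h5 : (264 * 2000 : ℝ) ≤ Real.exp 14 := by
      have h6 : Real.exp 14 = Real.exp 1 ^ 14 := by rw [← Real.exp_nat_mul]; norm_num
      rw [h6]
      have h7 := Real.exp_one_gt_d9
      calc (264 * 2000 : ℝ) ≤ (2.7 : ℝ) ^ 14 := by norm_num
        _ ≤ (Real.exp 1) ^ 14 := by gcongr; linarith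
    calc 264 * KP * Real.exp (270000 + 92)
        ≤ 264 * (2000 * Real.exp 1540) * Real.exp (270000 + 92) := by gcongr
      _ = (264 * 2000) * (Real.exp 1540 * Real.exp (270000 + 92)) := by ring
      _ ≤ Real.exp 14 * (Real.exp 1540 * Real.exp (270000 + 92)) := by gcongr
      _ = Real.exp (14 + (1540 + (270000 + 92))) := by rw [← Real.exp_add, ← Real.exp_add]
      _ < Real.exp (1000000 * Real.log 2) := by
          apply Real.exp_lt_exp.mpr
          linarith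

/-- base point of the dyadic interval of generation `n` containing `θ` -/
noncomputable def sP (n : ℕ) (θ : ℝ) : ℂ := pt (1 / 2 ^ n) (⌊(2 : ℝ) ^ n * θ⌋ / 2 ^ n)

theorem floor_near (n : ℕ) (θ : ℝ) : |θ - ⌊(2 : ℝ) ^ n * θ⌋ / 2 ^ n| ≤ 1 / 2 ^ n := by
  have h2 : (0 : ℝ) < 2 ^ n := by positivity
  have h1 := Int.floor_le ((2 : ℝ) ^ n * θ)
  have h3 := (Int.lt_floor_add_one ((2 : ℝ) ^ n * θ)).le
  rw [abs_le]
  constructor
  · have : (⌊(2 : ℝ) ^ n * θ⌋ : ℝ) / 2 ^ n ≤ θ := by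
      rw [div_le_iff₀ h2]; linarith
    have h4 : (0 : ℝ) < 1 / 2 ^ n := by positivity
    linarith
  · have : θ ≤ (⌊(2 : ℝ) ^ n * θ⌋ : ℝ) / 2 ^ n + 1 / 2 ^ n := by
      rw [← add_div, le_div_iff₀ h2]; linarith
    linarith

/-- good angles: the end of the ray is close to its landing point, relative to the scale -/
theorem close_end {d : ℕ} (hd : 2 ≤ d) {β : ℂ → ℂ} (hβ : IsBeta d β) {b H : ℂ → ℂ}
    (D : Dat b (fun s => deriv (deriv (gg β)) s / deriv (gg β) s) H)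
    (hb : ∀ s ∈ BF.HP, exp (b s) = deriv (gg β) s) {θ : ℝ}
    (hl : Tendsto (fun x : ℝ => gg β (θ * I + x)) (𝓝[>] 0) (𝓝 (cc β θ)))
    {N : ℕ} {T : ℝ} (hNT : 264 * KP * Real.exp (T + 92) < 2 ^ N) {m : ℕ}
    (h2 : ∀ n, m + N ≤ n → ‖gg β (pt (1 / 2 ^ n) θ) - gg β (sP (m + N) θ)‖ ≤
      KP * (1 / 2 ^ (m + N) * ‖deriv (gg β) (sP (m + N) θ)‖))
    (h3 : |mf H (m + N) θ - mf H m θ| < T) :
    ∀ y : ℝ, 0 < y → y ≤ 1 / 2 ^ (m + N) →
      ‖gg β (pt y θ) - cc β θ‖ < ‖gg β (pt (1 / 2 ^ m) θ) - cc β θ‖ := by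
  have hK := KP_pos
  set M := m + N with hM
  have hp : ∀ n : ℕ, (0 : ℝ) < 1 / 2 ^ n := fun n => by positivity
  have hp1 : ∀ n : ℕ, (1 : ℝ) / 2 ^ n ≤ 1 := fun n => by
    have : (1 : ℝ) ≤ 2 ^ n := one_le_pow₀ (by norm_num)
    rw [div_le_iff₀ (by positivity)]; linarith
  set g0 : ℝ := ‖deriv (gg β) (pt (1 / 2 ^ m) θ)‖ with hg0
  set g1 : ℝ := ‖deriv (gg β) (sP M θ)‖ with hg1
  have hnorm : ∀ s ∈ BF.HP, ‖deriv (gg β) s‖ = Real.exp (b s).re := by
    intro s hs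
    rw [← hb s hs, Complex.norm_exp]
  have hg0p : 0 < g0 := by rw [hg0, hnorm _ (BF.pt_mem (hp m))]; exact Real.exp_pos _
  have hg1b : g1 ≤ Real.exp (T + 92) * g0 := by
    rw [hg1, hg0]
    unfold sP
    rw [hnorm _ (BF.pt_mem (hp M)), hnorm _ (BF.pt_mem (hp m)), ← Real.exp_add]
    apply Real.exp_le_exp.mpr
    have e1 := BF.osc_hor D (hp M) ((hp1 M).trans (by norm_num)) θ (⌊(2 : ℝ) ^ M * θ⌋ / 2 ^ M)
    have e2 := floor_near M θ
    rw [abs_sub_comm] at e2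
    have e3 : 4 / (1 / 2 ^ M) * |(⌊(2 : ℝ) ^ M * θ⌋ : ℝ) / 2 ^ M - θ| ≤ 4 := by
      calc 4 / (1 / 2 ^ M) * |(⌊(2 : ℝ) ^ M * θ⌋ : ℝ) / 2 ^ M - θ|
          ≤ 4 / (1 / 2 ^ M) * (1 / 2 ^ M) := by gcongr
        _ = 4 := by field_simp
    have e4 := (abs_le.mp ((Complex.abs_re_le_norm _).trans (e1.trans e3))).2
    rw [sub_re] at e4
    have e5 := (abs_le.mp (BF.mf_close D M θ)).1
    have e6 := (abs_le.mp (BF.mf_close D m θ)).2
    have e7 := (abs_lt.mp h3).2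
    linarith
  set R : ℝ := KP * (1 / 2 ^ M * g1) with hR
  have hlim : ‖cc β θ - gg β (sP M θ)‖ ≤ R := by
    have hdy : Tendsto (fun n : ℕ => (1 : ℝ) / 2 ^ n) atTop (𝓝[>] 0) := by
      rw [tendsto_nhdsWithin_iff]
      constructor
      · have := tendsto_pow_atTop_nhds_zero_of_lt_one (r := (1 / 2 : ℝ)) (by norm_num) (by norm_num)
        refine this.congr fun n => ?_
        rw [div_pow, one_pow]
      · exact Eventually.of_forall fun n => hp n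
    have h4 := ((hl.comp hdy).sub_const (gg β (sP M θ))).norm
    refine le_of_tendsto h4 ?_
    filter_upwards [eventually_ge_atTop M] with n hn
    simp only [Function.comp]
    rw [← BF.pt_eq]
    exact h2 n hn
  have hcl : ∀ n, M ≤ n → ‖gg β (pt (1 / 2 ^ n) θ) - cc β θ‖ ≤ 2 * R := by
    intro n hn
    have e1 : gg β (pt (1 / 2 ^ n) θ) - cc β θ = (gg β (pt (1 / 2 ^ n) θ) - gg β (sP M θ)) -
        (cc β θ - gg β (sP M θ)) := by ring
    rw [e1]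
    refine (norm_sub_le _ _).trans ?_
    have := h2 n hn
    linarith
  have hccM := cc_mem hd hβ hl
  intro y hy hyM
  have hy1 : y ≤ 1 := hyM.trans (hp1 M)
  obtain ⟨n, hn1, hn2⟩ := exists_nat_pow_near_of_lt_one hy hy1 (by norm_num : (0 : ℝ) < 1 / 2)
    (by norm_num)
  rw [one_div_pow] at hn1 hn2
  have hn : M ≤ n := by
    by_contra h
    push Not at h
    have h3 : (1 : ℝ) / 2 ^ M ≤ 1 / 2 ^ (n + 1) := by
      apply one_div_le_one_div_of_le (by positivity)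
      exact pow_le_pow_right₀ (by norm_num) h
    linarith
  set z : ℝ := 1 / 2 ^ n with hz
  have hz0 : 0 < z := hp n
  have hzz : (1 : ℝ) / 2 ^ (n + 1) = z / 2 := by rw [hz, pow_succ]; field_simp
  rw [hzz] at hn1
  have e1 := ray_inc hβ D hb (θ := θ) hy hn2 ((hp1 n).trans (by norm_num))
  have e2 := point_low hβ hccM (θ := θ) hz0 ((hp1 n).trans (by norm_num))
  have e3 := hcl n hn
  have e4 : z / y ≤ 2 := by rw [div_le_iff₀ hy]; linarith
  have e5 : (z / y) ^ 4 ≤ 16 := by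
    refine (pow_le_pow_left₀ (by positivity) e4 4).trans ?_
    norm_num
  have e6 : (z - y) * ((z / y) ^ 4 * ‖deriv (gg β) (pt z θ)‖) ≤
      (z / 2) * (16 * ‖deriv (gg β) (pt z θ)‖) := by
    have : z - y ≤ z / 2 := by linarith
    have h8 : 0 ≤ (z / y) ^ 4 := by positivity
    have h9 := norm_nonneg (deriv (gg β) (pt z θ))
    gcongr
  have e7 : ‖gg β (pt y θ) - gg β (pt z θ)‖ ≤ 64 * R := by
    refine e1.trans (e6.trans ?_)
    linarith
  have e8 : ‖gg β (pt y θ) - cc β θ‖ ≤ 66 * R := by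
    have e9 : gg β (pt y θ) - cc β θ = (gg β (pt y θ) - gg β (pt z θ)) +
        (gg β (pt z θ) - cc β θ) := by ring
    rw [e9]
    refine (norm_add_le _ _).trans ?_
    linarith
  have e9 := point_low hβ hccM (θ := θ) (hp m) ((hp1 m).trans (by norm_num))
  rw [← hg0] at e9
  -- comparison
  have e10 : R ≤ KP * (1 / 2 ^ M * (Real.exp (T + 92) * g0)) := by
    rw [hR]
    have := hp M
    gcongr
  have e11 : 264 * (KP * (1 / 2 ^ M * (Real.exp (T + 92) * g0))) < 1 / 2 ^ m * g0 := by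
    have e12 : (1 : ℝ) / 2 ^ M = 1 / 2 ^ m * (1 / 2 ^ N) := by
      rw [hM, pow_add]; field_simp
    have e13 : 264 * (KP * (1 / 2 ^ M * (Real.exp (T + 92) * g0))) =
        (264 * KP * Real.exp (T + 92)) * (1 / 2 ^ N) * (1 / 2 ^ m * g0) := by
      rw [e12]; ring
    have e14 : (264 * KP * Real.exp (T + 92)) * (1 / 2 ^ N) < 1 := by
      rw [mul_one_div, div_lt_one (by positivity)]
      exact hNT
    have e15 : 0 < 1 / 2 ^ m * g0 := mul_pos (hp m) hg0p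
    rw [e13]
    nlinarith
  linarith

/-- the bad angles of a dyadic interval occupy at most a quarter of it -/
theorem bad_vol {d : ℕ} (hd : 2 ≤ d) {β : ℂ → ℂ} (hβ : IsBeta d β) {b H : ℂ → ℂ}
    (D : Dat b (fun s => deriv (deriv (gg β)) s / deriv (gg β) s) H)
    {N : ℕ} {T : ℝ} (hT : 0 < T) (hNT : (92 : ℝ) ^ 2 * N / T ^ 2 ≤ 1 / 8) (m : ℕ) (k : ℤ) :
    volume {θ : ℝ | θ ∈ Jn m k ∧ ¬ ((∀ n, m + N ≤ n → ‖gg β (pt (1 / 2 ^ n) θ) -
      gg β (sP (m + N) θ)‖ ≤ KP * (1 / 2 ^ (m + N) * ‖deriv (gg β) (sP (m + N) θ)‖)) ∧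
      |mf H (m + N) θ - mf H m θ| < T)} ≤ ENNReal.ofReal (1 / 4 * (1 / 2 ^ m)) := by
  set B1 : ℤ → Set ℝ := fun k1 => {θ : ℝ | θ ∈ Jn (m + N) k1 ∧ ∃ n, m + N ≤ n ∧
    2000 * (2 * Real.exp 768 + 1) ^ 2 *
      (1 / 2 ^ (m + N) * ‖deriv (gg β) (pt (1 / 2 ^ (m + N)) (k1 / 2 ^ (m + N)))‖) <
      ‖gg β (pt (1 / 2 ^ n) θ) - gg β (pt (1 / 2 ^ (m + N)) (k1 / 2 ^ (m + N)))‖} with hB1
  set B2 : Set ℝ := {θ : ℝ | θ ∈ Jn m k ∧ T ≤ |dp (sg H) (m + N) θ - sg H m k|} with hB2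
  have h2N : (0 : ℝ) < 2 ^ N := by positivity
  have hsub : {θ : ℝ | θ ∈ Jn m k ∧ ¬ ((∀ n, m + N ≤ n → ‖gg β (pt (1 / 2 ^ n) θ) -
      gg β (sP (m + N) θ)‖ ≤ KP * (1 / 2 ^ (m + N) * ‖deriv (gg β) (sP (m + N) θ)‖)) ∧
      |mf H (m + N) θ - mf H m θ| < T)} ⊆
      (⋃ k1 ∈ Finset.Ico (2 ^ N * k) (2 ^ N * (k + 1)), B1 k1) ∪ B2 := by
    rintro θ ⟨hθ, hnot⟩
    by_cases h1 : |mf H (m + N) θ - mf H m θ| < T
    · left
      have h2 : ¬ (∀ n, m + N ≤ n → ‖gg β (pt (1 / 2 ^ n) θ) -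
        gg β (sP (m + N) θ)‖ ≤ KP * (1 / 2 ^ (m + N) * ‖deriv (gg β) (sP (m + N) θ)‖)) :=
        fun h => hnot ⟨h, h1⟩
      push Not at h2
      obtain ⟨n, hn, hn2⟩ := h2
      have hk := mem_Jn_iff.mp hθ
      have hfl1 : 2 ^ N * k ≤ ⌊(2 : ℝ) ^ (m + N) * θ⌋ := by
        rw [Int.le_floor]
        push_cast
        have h3 : (k : ℝ) ≤ 2 ^ m * θ := by rw [← hk]; exact Int.floor_le _
        rw [pow_add]
        nlinarith
      have hfl2 : ⌊(2 : ℝ) ^ (m + N) * θ⌋ < 2 ^ N * (k + 1) := by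
        rw [Int.floor_lt]
        push_cast
        have h3 : 2 ^ m * θ < (k : ℝ) + 1 := by rw [← hk]; exact Int.lt_floor_add_one _
        rw [pow_add]
        nlinarith
      refine mem_iUnion₂.mpr ⟨⌊(2 : ℝ) ^ (m + N) * θ⌋, Finset.mem_Ico.mpr ⟨hfl1, hfl2⟩, ?_⟩
      exact ⟨mem_Jn_iff.mpr rfl, n, hn, hn2⟩
    · right
      refine ⟨hθ, ?_⟩
      have h2 : mf H m θ = sg H m k := by
        unfold mf
        rw [mem_Jn_iff.mp hθ]
      have h3 : dp (sg H) (m + N) θ = mf H (m + N) θ := rfl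
      rw [h3, ← h2]
      exact not_lt.mp h1
  have hV1 : ∀ k1 : ℤ, volume (B1 k1) ≤ ENNReal.ofReal (1 / 8 * (1 / 2 ^ (m + N))) := by
    intro k1
    refine (proportion_max hd hβ (lam := 768) (by norm_num) (m + N) k1).trans ?_
    apply ENNReal.ofReal_le_ofReal
    norm_num
  have hV2 : volume B2 ≤ ENNReal.ofReal (1 / 8 * (1 / 2 ^ m)) := by
    have hstep : ∀ (n : ℕ) (k : ℤ), |sg H (n + 1) (2 * k) - sg H (n + 1) (2 * k + 1)| ≤ 2 * 92 := by
      intro n k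
      have hp2 : (0 : ℝ) < 2 ^ (n + 1) := by positivity
      have hval : ∀ j : ℤ, mf H (n + 1) (j / 2 ^ (n + 1)) = sg H (n + 1) j := by
        intro j
        unfold mf
        congr 1
        have : (2 : ℝ) ^ (n + 1) * (j / 2 ^ (n + 1)) = j := by field_simp
        rw [this, Int.floor_intCast]
      have hpar : ∀ j : ℤ, j / 2 = k → mf H n (j / 2 ^ (n + 1)) = sg H n k := by
        intro j hj
        unfold mf
        rw [BF.floor_half]
        have : (2 : ℝ) ^ (n + 1) * (j / 2 ^ (n + 1)) = j := by field_simp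
        rw [this, Int.floor_intCast, hj]
      have e1 := BF.mf_step D n (((2 * k : ℤ) : ℝ) / 2 ^ (n + 1))
      have e2 := BF.mf_step D n (((2 * k + 1 : ℤ) : ℝ) / 2 ^ (n + 1))
      rw [hval, hpar _ (by omega)] at e1 e2
      rw [abs_le] at *
      constructor <;> linarith [e1.1, e1.2, e2.1, e2.2]
    refine (dyadic_cheb (BF.sg_add D) hT hstep N m k).trans ?_
    apply ENNReal.ofReal_le_ofReal
    have : (0 : ℝ) < 1 / 2 ^ m := by positivity
    gcongr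
  refine (measure_mono hsub).trans ((measure_union_le _ _).trans ?_)
  have hU : volume (⋃ k1 ∈ Finset.Ico (2 ^ N * k) (2 ^ N * (k + 1)), B1 k1) ≤
      ENNReal.ofReal (1 / 8 * (1 / 2 ^ m)) := by
    refine (measure_biUnion_finset_le _ _).trans ?_
    refine (Finset.sum_le_sum (fun k1 _ => hV1 k1)).trans ?_
    rw [Finset.sum_const, Int.card_Ico, nsmul_eq_mul]
    have h1 : (2 ^ N * (k + 1) - 2 ^ N * k).toNat = 2 ^ N := by
      have : (2 : ℤ) ^ N * (k + 1) - 2 ^ N * k = ((2 ^ N : ℕ) : ℤ) := by push_cast; ring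
      rw [this, Int.toNat_natCast]
    rw [h1]
    have h2 : (((2 ^ N : ℕ) : ℝ) : ℝ) = 2 ^ N := by push_cast; rfl
    rw [← ENNReal.ofReal_natCast, h2, ← ENNReal.ofReal_mul (by positivity)]
    apply ENNReal.ofReal_le_ofReal
    rw [pow_add]
    apply le_of_eq
    field_simp
  refine (add_le_add hU hV2).trans ?_
  rw [← ENNReal.ofReal_add (by positivity) (by positivity)]
  apply ENNReal.ofReal_le_ofReal
  linarith

/-- density of an arbitrary set at almost all of its points, along dyadic intervals -/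
theorem dyadic_density (E : Set ℝ) : ∀ᵐ θ : ℝ, θ ∈ E → ∀ᶠ n : ℕ in atTop,
    ENNReal.ofReal (1 / 2 * (1 / 2 ^ n)) ≤ volume (E ∩ Jn n ⌊(2 : ℝ) ^ n * θ⌋) := by
  have h1 : ∀ᵐ θ : ℝ, θ ∈ E → ∀ {ι : Type} {l : Filter ι} (w : ι → ℝ) (δ : ι → ℝ)
      (_ : Tendsto δ l (𝓝[>] 0)) (_ : ∀ᶠ j in l, θ ∈ closedBall (w j) (1 * δ j)),
      Tendsto (fun j => volume (E ∩ closedBall (w j) (δ j)) / volume (closedBall (w j) (δ j))) l
        (𝓝 1) :=
    ae_imp_of_ae_restrict (IsUnifLocDoublingMeasure.ae_tendsto_measure_inter_div volume E 1)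
  filter_upwards [h1] with θ hθ hE
  have h2n : ∀ n : ℕ, (0 : ℝ) < 2 ^ n := fun n => by positivity
  set w : ℕ → ℝ := fun n => (⌊(2 : ℝ) ^ n * θ⌋ + 1 / 2) / 2 ^ n with hw
  set δ : ℕ → ℝ := fun n => 1 / 2 * (1 / 2 ^ n) with hδ
  have hδ0 : ∀ n, 0 < δ n := fun n => by simp only [hδ]; positivity
  have hδt : Tendsto δ atTop (𝓝[>] 0) := by
    rw [tendsto_nhdsWithin_iff]
    constructor
    · have := (tendsto_pow_atTop_nhds_zero_of_lt_one (r := (1 / 2 : ℝ)) (by norm_num)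
        (by norm_num)).const_mul (1 / 2 : ℝ)
      rw [mul_zero] at this
      refine this.congr fun n => ?_
      simp only [hδ]
      rw [div_pow, one_pow]
    · exact Eventually.of_forall fun n => hδ0 n
  have hmem : ∀ᶠ n in atTop, θ ∈ closedBall (w n) (1 * δ n) := by
    refine Eventually.of_forall fun n => ?_
    have h1 := Int.floor_le ((2 : ℝ) ^ n * θ)
    have h3 := (Int.lt_floor_add_one ((2 : ℝ) ^ n * θ)).le
    rw [Real.closedBall_eq_Icc]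
    simp only [hw, hδ, one_mul]
    have e1 : ((⌊(2 : ℝ) ^ n * θ⌋ : ℝ) + 1 / 2) / 2 ^ n - 1 / 2 * (1 / 2 ^ n) =
        (⌊(2 : ℝ) ^ n * θ⌋ : ℝ) / 2 ^ n := by field_simp; ring
    have e2 : ((⌊(2 : ℝ) ^ n * θ⌋ : ℝ) + 1 / 2) / 2 ^ n + 1 / 2 * (1 / 2 ^ n) =
        ((⌊(2 : ℝ) ^ n * θ⌋ : ℝ) + 1) / 2 ^ n := by field_simp; ring
    rw [e1, e2]
    constructor
    · rw [div_le_iff₀ (h2n n)]; linarith
    · rw [le_div_iff₀ (h2n n)]; linarith
  have h2 := hθ hE w δ hδt hmem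
  have h3 : ∀ᶠ n in atTop, (1 / 2 : ENNReal) < volume (E ∩ closedBall (w n) (δ n)) /
      volume (closedBall (w n) (δ n)) := h2.eventually (lt_mem_nhds (by
        exact ENNReal.half_lt_self one_ne_zero ENNReal.one_ne_top))
  filter_upwards [h3] with n hn
  have hvol : volume (closedBall (w n) (δ n)) = ENNReal.ofReal (1 / 2 ^ n) := by
    rw [Real.volume_closedBall]
    congr 1
    simp only [hδ]
    ring
  rw [hvol] at hn
  have hcb : closedBall (w n) (δ n) ⊆ Jn n ⌊(2 : ℝ) ^ n * θ⌋ ∪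
      {((⌊(2 : ℝ) ^ n * θ⌋ : ℝ) + 1) / 2 ^ n} := by
    intro y hy
    rw [Real.closedBall_eq_Icc] at hy
    simp only [hw, hδ] at hy
    have e1 : ((⌊(2 : ℝ) ^ n * θ⌋ : ℝ) + 1 / 2) / 2 ^ n - 1 / 2 * (1 / 2 ^ n) =
        (⌊(2 : ℝ) ^ n * θ⌋ : ℝ) / 2 ^ n := by field_simp; ring
    have e2 : ((⌊(2 : ℝ) ^ n * θ⌋ : ℝ) + 1 / 2) / 2 ^ n + 1 / 2 * (1 / 2 ^ n) =
        ((⌊(2 : ℝ) ^ n * θ⌋ : ℝ) + 1) / 2 ^ n := by field_simp; ring
    rw [e1, e2] at hy
    rcases hy.2.eq_or_lt with h | h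
    · right; exact h
    · left; exact ⟨hy.1, h⟩
  have hle : volume (E ∩ closedBall (w n) (δ n)) ≤ volume (E ∩ Jn n ⌊(2 : ℝ) ^ n * θ⌋) := by
    have h4 : E ∩ closedBall (w n) (δ n) ⊆ (E ∩ Jn n ⌊(2 : ℝ) ^ n * θ⌋) ∪
        {((⌊(2 : ℝ) ^ n * θ⌋ : ℝ) + 1) / 2 ^ n} := by
      rintro y ⟨hy1, hy2⟩
      rcases hcb hy2 with h | h
      · exact Or.inl ⟨hy1, h⟩
      · exact Or.inr h
    refine (measure_mono h4).trans ((measure_union_le _ _).trans ?_)
    rw [Real.volume_singleton, add_zero]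
  have hpos : ENNReal.ofReal (1 / 2 ^ n) ≠ 0 := by
    rw [Ne, ENNReal.ofReal_eq_zero, not_le]; positivity
  have h5 := (ENNReal.lt_div_iff_mul_lt (Or.inl hpos) (Or.inl ENNReal.ofReal_ne_top)).mp hn
  refine le_trans (le_of_eq ?_) (h5.le.trans hle)
  rw [ENNReal.ofReal_mul (by norm_num)]
  congr 1
  rw [ENNReal.ofReal_div_of_pos (by norm_num)]
  simp

end Pool.Agent.TH425.AD
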