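import Mathlib
import Pool.Agent.TH425.AD.C4
import Pool.Agent.TH425.AD.D8

set_option autoImplicit false

open Complex Topology Filter Metric MeasureTheory Set N62a1eb23

namespace Pool.Agent.TH425.AD

open Pool.Agent.H713R2 Pool.Agent.H712R2 Pool.Agent.Helper202.Univ Pool.Agent.H713R2.AR
open Pool.Agent.TH425.BF (IsBl CK WO bloch_fatou Dat mf sg Jn pt dp)

/-- angles whose ray turns around its landing point boundedly in one direction -/
def ET (β b : ℂ → ℂ) (σ M : ℝ) : Set ℝ :=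
  {θ | Tendsto (fun x : ℝ => gg β (θ * I + x)) (𝓝[>] 0) (𝓝 (cc β θ)) ∧
    ∃ f : ℝ × ℝ → ℂ, Continuous f ∧ (∀ p, exp (f p) = GG β θ p) ∧
      (∀ v ≤ (0 : ℝ), σ * (f (v, 0)).im ≤ M) ∧ |(f (0, 1)).im - (b (pt 1 θ)).im| ≤ M}

theorem ET_null {d : ℕ} (hd : 2 ≤ d) {β : ℂ → ℂ} (hβ : IsBeta d β) {b H : ℂ → ℂ}
    (D : Dat b (fun s => deriv (deriv (gg β)) s / deriv (gg β) s) H)
    (hb : ∀ s ∈ BF.HP, exp (b s) = deriv (gg β) s) {σ : ℝ} (hσ : σ = 1 ∨ σ = -1) (M : ℝ) :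
    ∀ᵐ θ : ℝ, θ ∉ ET β b σ M := by
  obtain ⟨N, T, hT, hNT1, hNT2⟩ := exists_params
  have hσa : |σ| = 1 := by rcases hσ with h | h <;> simp [h]
  filter_upwards [dyadic_density (ET β b σ M), arg_unbounded hd hβ D hb] with θ h1 h2 hE
  have hD : ∀ C : ℝ, ∃ᶠ x : ℝ in 𝓝[>] 0, C < σ * (b (pt x θ)).im := by
    intro C
    rcases hσ with h | h
    · refine (h2.1 C).mono fun x hx => ?_
      rw [h, one_mul]; exact hx
    · refine (h2.2 (-C)).mono fun x hx => ?_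
      rw [h]; linarith
  set C0 : ℝ := 2 * M + Real.pi * ((100 * N : ℕ) + 2) + 4 with hC0
  have hp : ∀ n : ℕ, (0 : ℝ) < 1 / 2 ^ n := fun n => by positivity
  have hp1 : ∀ n : ℕ, (1 : ℝ) / 2 ^ n ≤ 1 := fun n => by
    have : (1 : ℝ) ≤ 2 ^ n := one_le_pow₀ (by norm_num)
    rw [div_le_iff₀ (by positivity)]; linarith
  have hσb : ∀ t : ℝ, σ * t ≤ |t| := by
    intro t
    have h3 : σ * t ≤ |σ * t| := le_abs_self _
    rwa [abs_mul, hσa, one_mul] at h3
  have hn : ∀ᶠ n : ℕ in atTop, σ * (b (pt (1 / 2 ^ n) θ)).im ≤ C0 := by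
    filter_upwards [h1 hE] with n hn
    -- a good angle in the same dyadic interval
    have hbad := bad_vol hd hβ D hT hNT1 n ⌊(2 : ℝ) ^ n * θ⌋
    obtain ⟨θ', hθE, hθJ, hgood⟩ : ∃ θ', θ' ∈ ET β b σ M ∧ θ' ∈ Jn n ⌊(2 : ℝ) ^ n * θ⌋ ∧
        ((∀ n', n + N ≤ n' → ‖gg β (pt (1 / 2 ^ n') θ') -
        gg β (sP (n + N) θ')‖ ≤ KP * (1 / 2 ^ (n + N) * ‖deriv (gg β) (sP (n + N) θ')‖)) ∧
        |mf H (n + N) θ' - mf H n θ'| < T) := by
      by_contra hcon
      push Not at hcon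
      have hsub : ET β b σ M ∩ Jn n ⌊(2 : ℝ) ^ n * θ⌋ ⊆ {θ' : ℝ | θ' ∈ Jn n ⌊(2 : ℝ) ^ n * θ⌋ ∧
          ¬ ((∀ n', n + N ≤ n' → ‖gg β (pt (1 / 2 ^ n') θ') -
        gg β (sP (n + N) θ')‖ ≤ KP * (1 / 2 ^ (n + N) * ‖deriv (gg β) (sP (n + N) θ')‖)) ∧
        |mf H (n + N) θ' - mf H n θ'| < T)} := by
        rintro θ' ⟨h4, h5⟩
        refine ⟨h5, fun h6 => ?_⟩
        exact absurd h6.2 (not_lt.mpr (hcon θ' h4 h5 h6.1))
      have h4 := (hn.trans (measure_mono hsub)).trans hbad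
      rw [ENNReal.ofReal_le_ofReal_iff (by positivity)] at h4
      have := hp n
      linarith
    obtain ⟨hl, f, hf, hfe, hfM, hf1⟩ := hθE
    set v : ℝ := Real.log (1 / 2 ^ n) with hv
    have hev : Real.exp v = 1 / 2 ^ n := Real.exp_log (hp n)
    have hv0 : v ≤ 0 := Real.log_nonpos (hp n).le (hp1 n)
    have hce := close_end hd hβ D hb hl hNT2 hgood.1 hgood.2
    have hpow : (99 / 100 : ℝ) ^ (100 * N) ≤ (1 / 2) ^ N := by
      rw [pow_mul]
      apply pow_le_pow_left₀ (by positivity)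
      norm_num
    have he := end_osc hd hβ D hb hl hf hfe hv0 (100 * N) (by
      intro y hy hyv
      rw [hev] at hyv ⊢
      apply hce y hy
      refine hyv.trans ?_
      calc (1 : ℝ) / 2 ^ n * (99 / 100) ^ (100 * N) ≤ 1 / 2 ^ n * (1 / 2) ^ N := by
            have := hp n
            gcongr
        _ = 1 / 2 ^ (n + N) := by rw [one_div_pow, pow_add]; field_simp)
    have hdg := diag_osc hβ D hb hf hfe hv0
    rw [hev] at hdg
    have hho := BF.osc_hor D (hp n) ((hp1 n).trans (by norm_num)) θ' θ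
    have hdist : |θ - θ'| ≤ 1 / 2 ^ n := by
      have e1 : θ ∈ Jn n ⌊(2 : ℝ) ^ n * θ⌋ := mem_Jn_iff.mpr rfl
      unfold Jn at e1 hθJ
      have e2 : ((⌊(2 : ℝ) ^ n * θ⌋ : ℝ) + 1) / 2 ^ n = (⌊(2 : ℝ) ^ n * θ⌋ : ℝ) / 2 ^ n + 1 / 2 ^ n := by
        rw [add_div]
      rw [abs_le]
      constructor <;> linarith [e1.1, e1.2, hθJ.1, hθJ.2]
    have hho2 : ‖b (pt (1 / 2 ^ n) θ) - b (pt (1 / 2 ^ n) θ')‖ ≤ 4 := by
      refine hho.trans ?_
      calc 4 / (1 / 2 ^ n) * |θ - θ'| ≤ 4 / (1 / 2 ^ n) * (1 / 2 ^ n) := by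
            have := hp n
            gcongr
        _ = 4 := by field_simp
    have h5 := (Complex.abs_im_le_norm _).trans hho2
    rw [sub_im] at h5
    have h6 := hfM v hv0
    -- assemble
    have e1 : (b (pt (1 / 2 ^ n) θ)).im = ((b (pt (1 / 2 ^ n) θ)).im - (b (pt (1 / 2 ^ n) θ')).im) +
        (-(((f (v, 1)).im - (b (pt (1 / 2 ^ n) θ')).im) - ((f (0, 1)).im - (b (pt 1 θ')).im))) +
        (-((f (v, 0)).im - (f (v, 1)).im)) + (-((f (0, 1)).im - (b (pt 1 θ')).im)) +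
        (f (v, 0)).im := by ring
    rw [e1, mul_add, mul_add, mul_add, mul_add]
    have f1 := hσb ((b (pt (1 / 2 ^ n) θ)).im - (b (pt (1 / 2 ^ n) θ')).im)
    have f2 := hσb (-(((f (v, 1)).im - (b (pt (1 / 2 ^ n) θ')).im) -
      ((f (0, 1)).im - (b (pt 1 θ')).im)))
    have f3 := hσb (-((f (v, 0)).im - (f (v, 1)).im))
    have f4 := hσb (-((f (0, 1)).im - (b (pt 1 θ')).im))
    rw [abs_neg] at f2 f3 f4
    push_cast at he ⊢
    rw [hC0]
    push_cast
    nlinarith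
  obtain ⟨n0, hn0⟩ := eventually_atTop.mp hn
  have hsm : ∀ᶠ x : ℝ in 𝓝[>] 0, σ * (b (pt x θ)).im ≤ C0 + 4 := by
    filter_upwards [Ioo_mem_nhdsGT (hp n0)] with x hx
    have hx1 : x ≤ 1 := hx.2.le.trans (hp1 n0)
    obtain ⟨n, hn1, hn2⟩ := exists_nat_pow_near_of_lt_one hx.1 hx1 (by norm_num : (0 : ℝ) < 1 / 2)
      (by norm_num)
    rw [one_div_pow] at hn1 hn2
    have hn : n0 ≤ n := by
      by_contra h
      push Not at h
      have h3 : (1 : ℝ) / 2 ^ n0 ≤ 1 / 2 ^ (n + 1) := by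
        apply one_div_le_one_div_of_le (by positivity)
        exact pow_le_pow_right₀ (by norm_num) h
      linarith [hx.2]
    have h3 := BF.osc_ver D hx.1 hn2 ((hp1 n).trans (by norm_num)) θ
    have h4 : Real.log (1 / 2 ^ n / x) ≤ 1 := by
      have h5 : (1 : ℝ) / 2 ^ n / x ≤ 2 := by
        rw [div_le_iff₀ hx.1]
        have : (1 : ℝ) / 2 ^ (n + 1) = 1 / 2 ^ n / 2 := by rw [pow_succ]; field_simp
        rw [this] at hn1
        linarith
      have h6 : Real.log (1 / 2 ^ n / x) ≤ Real.log 2 :=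
        Real.log_le_log (div_pos (hp n) hx.1) h5
      have := Real.log_two_lt_d9
      linarith
    have h5 := (Complex.abs_im_le_norm _).trans h3
    rw [sub_im] at h5
    have h6 := hn0 n hn
    have e1 : (b (pt x θ)).im = ((b (pt x θ)).im - (b (pt (1 / 2 ^ n) θ)).im) +
        (b (pt (1 / 2 ^ n) θ)).im := by ring
    rw [e1, mul_add]
    have := hσb ((b (pt x θ)).im - (b (pt (1 / 2 ^ n) θ)).im)
    linarith
  obtain ⟨x, hx1, hx2⟩ := ((hD (C0 + 4)).and_eventually hsm).exists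
  linarith

/-- **Twist points.** Almost every ray turns unboundedly in both directions around its landing
point. -/
theorem twist_gg {d : ℕ} (hd : 2 ≤ d) {β : ℂ → ℂ} (hβ : IsBeta d β) :
    ∀ᵐ θ : ℝ, Tendsto (fun x : ℝ => gg β (θ * I + x)) (𝓝[>] 0) (𝓝 (cc β θ)) ∧
      ∀ f : ℝ × ℝ → ℂ, Continuous f → (∀ p, exp (f p) = GG β θ p) →
        (∀ C : ℝ, ∃ᶠ v : ℝ in atBot, C < (f (v, 0)).im) ∧
        (∀ C : ℝ, ∃ᶠ v : ℝ in atBot, (f (v, 0)).im < C) := by
  obtain ⟨b, H, D, hb⟩ := BF.exists_dat (dgg_isBl hβ)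
  have h1 : ∀ᵐ θ : ℝ, ∀ M : ℕ, θ ∉ ET β b 1 M :=
    ae_all_iff.mpr fun M => ET_null hd hβ D hb (Or.inl rfl) M
  have h2 : ∀ᵐ θ : ℝ, ∀ M : ℕ, θ ∉ ET β b (-1) M :=
    ae_all_iff.mpr fun M => ET_null hd hβ D hb (Or.inr rfl) M
  filter_upwards [ae_landing hd hβ, h1, h2] with θ hl h1 h2
  refine ⟨hl, fun f hf hfe => ?_⟩
  have key : ∀ σ : ℝ, (∀ M : ℕ, θ ∉ ET β b σ M) → ∀ C : ℝ,
      ¬ ∀ᶠ v : ℝ in atBot, σ * (f (v, 0)).im ≤ C := by
    intro σ hσ C hC
    obtain ⟨v0, hv0⟩ := eventually_atBot.mp hC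
    have hcont : Continuous fun v : ℝ => σ * (f (v, 0)).im :=
      continuous_const.mul (Complex.continuous_im.comp
        (hf.comp (by fun_prop : Continuous fun v : ℝ => (v, (0 : ℝ)))))
    obtain ⟨B, hB⟩ := (isCompact_Icc (a := v0) (b := (0 : ℝ))).bddAbove_image hcont.continuousOn
    obtain ⟨M, hM⟩ := exists_nat_ge (max (max C B) |(f (0, 1)).im - (b (pt 1 θ)).im|)
    refine hσ M ⟨hl, f, hf, hfe, fun v hv => ?_, (le_max_right _ _).trans hM⟩
    have hCM : C ≤ M := ((le_max_left _ _).trans (le_max_left _ _)).trans hM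
    have hBM : B ≤ M := ((le_max_right _ _).trans (le_max_left _ _)).trans hM
    by_cases h : v ≤ v0
    · exact (hv0 v h).trans hCM
    · exact (hB ⟨v, ⟨(not_le.mp h).le, hv⟩, rfl⟩).trans hBM
  constructor
  · intro C hC
    apply key 1 h1 C
    filter_upwards [hC] with v hv
    rw [one_mul]
    exact not_lt.mp hv
  · intro C hC
    apply key (-1) h2 (-C)
    filter_upwards [hC] with v hv
    have := not_lt.mp hv
    linarith

/-- **Twist points**, for the exterior map: almost every parameter ray lands, and every continuous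
argument of the vector from the landing point to the ray is unbounded above and below. -/
theorem main5 {d : ℕ} (hd : 2 ≤ d) {ψ : ℂ → ℂ} (hψ : IsExteriorMap (multibrotSet d) ψ) :
    ∀ᵐ θ : ℝ, ∃ c ∈ frontier (multibrotSet d),
      Tendsto (fun r : ℝ => ψ (r * exp (θ * I))) (𝓝[>] 1) (𝓝 c) ∧
      (∃ φ : ℝ → ℝ, ContinuousOn φ (Ioi 1) ∧ ∀ r > (1 : ℝ),
        ψ (r * exp (θ * I)) - c = ‖ψ (r * exp (θ * I)) - c‖ * exp (φ r * I)) ∧
      ∀ φ : ℝ → ℝ, ContinuousOn φ (Ioi 1) → (∀ r > (1 : ℝ),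
        ψ (r * exp (θ * I)) - c = ‖ψ (r * exp (θ * I)) - c‖ * exp (φ r * I)) →
        (∀ C : ℝ, ∃ᶠ r : ℝ in 𝓝[>] 1, C < φ r) ∧ (∀ C : ℝ, ∃ᶠ r : ℝ in 𝓝[>] 1, φ r < C) := by
  obtain ⟨β, hβ⟩ := exists_beta hd
  filter_upwards [twist_gg hd hβ] with θ hθ
  obtain ⟨hl, hθ⟩ := hθ
  have hM : cc β θ ∈ multibrotSet d := cc_mem hd hβ hl
  have hfr : cc β θ ∈ frontier (multibrotSet d) := by
    rw [frontier_eq_closure_inter_closure]
    refine ⟨subset_closure hM, mem_closure_of_tendsto hl ?_⟩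
    filter_upwards [self_mem_nhdsWithin] with x hx
    have hx' : 0 < x := hx
    exact gg_notMem hβ (s := θ * I + x) (by simpa using hx')
  have hψg : ∀ r : ℝ, 1 < r → ψ (r * exp (θ * I)) = gg β (pt (Real.log r) θ) := by
    intro r hr1
    have hr0 : 0 < r := by linarith
    have h2 : exp (θ * I + (Real.log r : ℝ)) = r * exp (θ * I) := by
      rw [exp_add, ← ofReal_exp, Real.exp_log hr0, mul_comm]
    have h3 : 1 < ‖(r : ℂ) * exp (θ * I)‖ := by
      rw [norm_mul, norm_exp_ofReal_mul_I, mul_one, norm_real, Real.norm_eq_abs, abs_of_pos hr0]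
      exact hr1
    rw [exteriorMap_unique hβ hψ h3, BF.pt_eq]
    unfold gg
    rw [h2, exp_neg, h2]
  have hlog : Tendsto (fun r : ℝ => Real.log r) (𝓝[>] 1) (𝓝[>] 0) := by
    rw [tendsto_nhdsWithin_iff]
    constructor
    · have := (Real.continuousAt_log (one_ne_zero)).tendsto.mono_left
        (nhdsWithin_le_nhds : 𝓝[>] (1 : ℝ) ≤ 𝓝 1)
      rwa [Real.log_one] at this
    · filter_upwards [self_mem_nhdsWithin] with x hx
      exact Real.log_pos hx
  refine ⟨cc β θ, hfr, ?_, ?_⟩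
  · refine (hl.comp hlog).congr' ?_
    filter_upwards [self_mem_nhdsWithin] with r hr
    rw [hψg r hr, BF.pt_eq]
    rfl
  obtain ⟨f, hf, hfe⟩ := exists_plane_log (GG_cont hβ hl) (GG_ne hd hβ hl)
  obtain ⟨hup, hlo⟩ := hθ f hf hfe
  set φ0 : ℝ → ℝ := fun r => (f (Real.log (Real.log r), 0)).im with hφ0
  have hG0 : ∀ r : ℝ, 1 < r → GG β θ (Real.log (Real.log r), 0) = ψ (r * exp (θ * I)) - cc β θ := by
    intro r hr
    have h1 : 0 < Real.log r := Real.log_pos hr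
    rw [hψg r hr]
    unfold GG
    simp only [min_eq_left (zero_le_one' ℝ), mul_zero]
    rw [Real.exp_log h1, gb_pos h1, gb_nonpos le_rfl]
  have hφ0e : ∀ r > (1 : ℝ), ψ (r * exp (θ * I)) - cc β θ =
      ‖ψ (r * exp (θ * I)) - cc β θ‖ * exp (φ0 r * I) := by
    intro r hr
    rw [← hG0 r hr, ← hfe, Complex.norm_exp, ofReal_exp, ← exp_add]
    congr 1
    exact (Complex.re_add_im _).symm
  have hn0 : ∀ r > (1 : ℝ), ‖ψ (r * exp (θ * I)) - cc β θ‖ ≠ 0 := by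
    intro r hr
    rw [← hG0 r hr]
    exact norm_ne_zero_iff.mpr (GG_ne hd hβ hl _)
  have hφ0c : ContinuousOn φ0 (Ioi 1) := by
    intro r hr
    have hr' : (1 : ℝ) < r := hr
    have hr0 : r ≠ 0 := by linarith
    have h1 : Real.log r ≠ 0 := (Real.log_pos hr').ne'
    have h2 : ContinuousAt (fun r : ℝ => Real.log (Real.log r)) r :=
      ContinuousAt.comp (g := Real.log) (f := Real.log) (Real.continuousAt_log h1)
        (Real.continuousAt_log hr0)
    have h3 : ContinuousAt (fun r : ℝ => f (Real.log (Real.log r), 0)) r :=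
      ContinuousAt.comp (g := f) (f := fun r : ℝ => (Real.log (Real.log r), (0 : ℝ)))
        hf.continuousAt (h2.prodMk continuousAt_const)
    exact (Complex.continuous_im.continuousAt.comp h3).continuousWithinAt
  refine ⟨⟨φ0, hφ0c, hφ0e⟩, fun φ hφc hφe => ?_⟩
  obtain ⟨κ, hκ⟩ := const_of_exp_one (hφc.sub hφ0c) (by
    intro r hr
    have h2 : ((‖ψ (r * exp (θ * I)) - cc β θ‖ : ℝ) : ℂ) ≠ 0 := by
      exact_mod_cast hn0 r hr
    have h3 : exp (φ0 r * I) = exp (φ r * I) := by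
      have hn := hφ0e r hr
      have h4 : ((‖ψ (r * exp (θ * I)) - cc β θ‖ : ℝ) : ℂ) * exp (φ0 r * I) =
          ((‖ψ (r * exp (θ * I)) - cc β θ‖ : ℝ) : ℂ) * exp (φ r * I) := by
        rw [← hn]; exact hφe r hr
      exact mul_left_cancel₀ h2 h4
    rw [Pi.sub_apply, ofReal_sub, sub_mul, Complex.exp_sub, h3, div_self (exp_ne_zero _)])
  have hexp : Tendsto (fun v : ℝ => Real.exp (Real.exp v)) atBot (𝓝[>] 1) := by
    rw [tendsto_nhdsWithin_iff]
    constructor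
    · have := (Real.continuous_exp.tendsto 0).comp Real.tendsto_exp_atBot
      rwa [Real.exp_zero] at this
    · exact Eventually.of_forall fun v => Real.one_lt_exp_iff.mpr (Real.exp_pos v)
  have hrel : ∀ v : ℝ, φ (Real.exp (Real.exp v)) = (f (v, 0)).im + κ := by
    intro v
    have h1 := hκ (Real.exp (Real.exp v)) (Real.one_lt_exp_iff.mpr (Real.exp_pos v))
    simp only [hφ0, Real.log_exp, Pi.sub_apply] at h1
    linarith
  constructor
  · intro C
    apply hexp.frequently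
    refine (hup (C - κ)).mono fun v hv => ?_
    rw [hrel v]
    linarith
  · intro C
    apply hexp.frequently
    refine (hlo (C - κ)).mono fun v hv => ?_
    rw [hrel v]
    linarith

end Pool.Agent.TH425.AD
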