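import Mathlib
import Pool.Agent.TH425.AD.D9

set_option autoImplicit false

open Complex Topology Filter Metric MeasureTheory Set N62a1eb23

namespace Pool.Agent.TH425.AD

open Pool.Agent.H713R2 Pool.Agent.H712R2 Pool.Agent.Helper202.Univ Pool.Agent.H713R2.AR
open Pool.Agent.TH425.BF (IsBl CK WO bloch_fatou Dat mf sg Jn pt dp)

theorem im_hits {f : ℝ × ℝ → ℂ} (hf : Continuous f)
    (hup : ∀ C : ℝ, ∃ᶠ v : ℝ in atBot, C < (f (v, 0)).im)
    (hlo : ∀ C : ℝ, ∃ᶠ v : ℝ in atBot, (f (v, 0)).im < C) (v0 y : ℝ) :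
    ∃ v ≤ v0, (f (v, 0)).im = y := by
  obtain ⟨v1, h1, h1'⟩ := ((hup y).and_eventually (eventually_le_atBot v0)).exists
  obtain ⟨v2, h2, h2'⟩ := ((hlo y).and_eventually (eventually_le_atBot v0)).exists
  have hc : Continuous fun v : ℝ => (f (v, 0)).im := Complex.continuous_im.comp
    (hf.comp (by fun_prop : Continuous fun v : ℝ => (v, (0 : ℝ))))
  have hord : ((fun v : ℝ => (f (v, 0)).im) '' Iic v0).OrdConnected :=
    (isPreconnected_Iic.image _ hc.continuousOn).ordConnected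
  obtain ⟨v, hv, hv2⟩ := hord.out (mem_image_of_mem _ h2') (mem_image_of_mem _ h1') ⟨h2.le, h1.le⟩
  exact ⟨v, hv, hv2⟩

theorem im_sub_const {S : Set ℝ} (hS : IsPreconnected S) {a b : ℝ → ℂ} (ha : ContinuousOn a S)
    (hb : ContinuousOn b S) (h : ∀ v ∈ S, exp (a v) = exp (b v)) {v w : ℝ} (hv : v ∈ S)
    (hw : w ∈ S) : (a v).im - (a w).im = (b v).im - (b w).im := by
  have h1 : ∀ v ∈ S, exp (a v - b v) = 1 := by
    intro v hv
    rw [Complex.exp_sub, h v hv, div_self (exp_ne_zero _)]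
  have h2 := re_pos_osc hS (h := fun v => a v - b v) (ha.sub hb) (by
    intro v hv
    rw [h1 v hv, one_re]
    exact one_pos) hv hw
  obtain ⟨n, hn⟩ := Complex.exp_eq_one_iff.mp (h1 v hv)
  obtain ⟨m, hm⟩ := Complex.exp_eq_one_iff.mp (h1 w hw)
  have hn' : (a v - b v).im = n * (2 * Real.pi) := by rw [hn]; simp
  have hm' : (a w - b w).im = m * (2 * Real.pi) := by rw [hm]; simp
  rw [hn', hm'] at h2
  have hpi := Real.pi_pos
  have h3 : (n : ℝ) * (2 * Real.pi) - m * (2 * Real.pi) = ((n - m : ℤ) : ℝ) * (2 * Real.pi) := by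
    push_cast; ring
  rw [h3, abs_mul, abs_of_pos (by positivity : 0 < 2 * Real.pi)] at h2
  have h4 : |((n - m : ℤ) : ℝ)| < 1 := by
    by_contra hcon
    push Not at hcon
    nlinarith
  have h5 : n - m = 0 := by
    rw [← Int.cast_abs] at h4
    have : |n - m| < 1 := by exact_mod_cast h4
    exact Int.abs_lt_one_iff.mp this
  have h6 : n = m := by omega
  rw [h6, ← hm'] at hn'
  rw [sub_im, sub_im] at hn'
  linarith

theorem gg_surj {d : ℕ} {β : ℂ → ℂ} (hβ : IsBeta d β) {z : ℂ} (hz : z ∉ multibrotSet d) :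
    ∃ s : ℂ, 0 < s.re ∧ gg β s = z := by
  obtain ⟨x, hx, hx0, hxz⟩ := hβ.surj z hz
  rw [mem_ball_zero_iff] at hx
  refine ⟨-Complex.log x, ?_, ?_⟩
  · rw [neg_re, Complex.log_re]
    have := Real.log_neg (norm_pos_iff.mpr hx0) hx
    linarith
  · rw [gg_eq_zz, neg_neg, Complex.exp_log hx0]
    exact hxz

/-- the logarithm of the distance vector to a point of the set, in the half plane -/
theorem exists_BB {d : ℕ} {β : ℂ → ℂ} (hβ : IsBeta d β) {w : ℂ} (hw : w ∈ multibrotSet d) :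
    ∃ B : ℂ → ℂ, ContinuousOn B HP ∧ (∀ s ∈ HP, exp (B s) = gg β s - w) ∧
      ∀ (s : ℂ) (n : ℤ), B (s + n * (2 * Real.pi * I)) = B s + n * (2 * Real.pi * I) := by
  obtain ⟨L, hLd, hL⟩ := exists_log_ball (f := fun u => β u - w * u)
    (hβ.diff.sub (by fun_prop)) (fun u hu => beta_sub_ne hβ hw hu)
  refine ⟨fun s => s + L (exp (-s)), ?_, ?_, ?_⟩
  · apply continuousOn_id.add
    exact hLd.continuousOn.comp (by fun_prop) (fun s hs => exp_neg_mem hs)
  · intro s hs
    rw [exp_add, hL _ (exp_neg_mem hs)]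
    unfold gg
    rw [mul_sub, exp_neg]
    have := exp_ne_zero s
    field_simp
  · intro s n
    have h1 : exp (-(s + n * (2 * Real.pi * I))) = exp (-s) := by
      rw [neg_add, exp_add, ← neg_mul, ← Int.cast_neg, Complex.exp_int_mul_two_pi_mul_I, mul_one]
    simp only
    rw [h1]
    ring

theorem osc_of_near {S : Set ℝ} (hS : IsPreconnected S) {a : ℝ → ℂ} (ha : ContinuousOn a S)
    {b : ℂ} (h : ∀ v ∈ S, ‖exp (a v) - b‖ < ‖b‖) {v w : ℝ} (hv : v ∈ S) (hw : w ∈ S) :
    |(a v).im - (a w).im| < Real.pi := by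
  have hb0 : b ≠ 0 := norm_pos_iff.mp ((norm_nonneg _).trans_lt (h v hv))
  have h1 := re_pos_osc hS (h := fun v => a v - Complex.log b) (ha.sub continuousOn_const) (by
    intro v hv
    rw [Complex.exp_sub, Complex.exp_log hb0]
    exact re_pos_of_close (h v hv)) hv hw
  simpa using h1

theorem polar_on_line {e z : ℂ} (he : e ≠ 0) {f : ℂ} (hf : exp f = z)
    {k : ℤ} (him : f.im = Complex.arg e + k * (2 * Real.pi)) :
    z = ((Real.exp f.re / ‖e‖ : ℝ) : ℂ) * e := by
  have h1 : exp f = Real.exp f.re * exp (f.im * I) := by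
    rw [ofReal_exp, ← exp_add, Complex.re_add_im]
  have h2 : exp ((f.im : ℂ) * I) = exp (Complex.arg e * I) := by
    rw [him]
    push_cast
    have : ((Complex.arg e : ℂ) + k * (2 * Real.pi)) * I = Complex.arg e * I +
        k * (2 * Real.pi * I) := by ring
    rw [this, exp_add, Complex.exp_int_mul_two_pi_mul_I, mul_one]
  have h3 : e = ‖e‖ * exp (Complex.arg e * I) := (Complex.norm_mul_exp_arg_mul_I e).symm
  have h4 : (‖e‖ : ℂ) ≠ 0 := by
    exact_mod_cast (norm_pos_iff.mpr he).ne'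
  rw [← hf, h1, h2]
  conv_rhs => rw [h3]
  push_cast
  rw [norm_mul, Complex.norm_real, Complex.norm_exp_ofReal_mul_I, norm_norm, mul_one]
  field_simp

/-- No segment with its endpoint at a twist point lies in the set. -/
theorem no_seg_in {d : ℕ} {β : ℂ → ℂ} (hβ : IsBeta d β) {θ : ℝ}
    (hl : Tendsto (fun x : ℝ => gg β (θ * I + x)) (𝓝[>] 0) (𝓝 (cc β θ)))
    {f : ℝ × ℝ → ℂ} (hf : Continuous f) (hfe : ∀ p, exp (f p) = GG β θ p)
    (hup : ∀ C : ℝ, ∃ᶠ v : ℝ in atBot, C < (f (v, 0)).im)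
    (hlo : ∀ C : ℝ, ∃ᶠ v : ℝ in atBot, (f (v, 0)).im < C) {p : ℂ} (hp : p ≠ cc β θ) :
    ¬ ∀ t ∈ Ioc (0 : ℝ) 1, cc β θ + t * (p - cc β θ) ∈ multibrotSet d := by
  intro hseg
  set c := cc β θ with hc
  have he : p - c ≠ 0 := sub_ne_zero.mpr hp
  have hg : Tendsto (fun v : ℝ => gg β (pt (Real.exp v) θ)) atBot (𝓝 c) := by
    have h1 : Tendsto (fun v : ℝ => Real.exp v) atBot (𝓝[>] 0) := by
      rw [tendsto_nhdsWithin_iff]
      exact ⟨Real.tendsto_exp_atBot, Eventually.of_forall fun v => Real.exp_pos v⟩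
    refine (hl.comp h1).congr fun v => ?_
    simp only [Function.comp]
    rw [BF.pt_eq]
  have hev : ∀ᶠ v : ℝ in atBot, ‖gg β (pt (Real.exp v) θ) - c‖ < ‖p - c‖ := by
    have h1 := (hg.sub_const c).norm
    rw [sub_self, norm_zero] at h1
    exact h1.eventually (gt_mem_nhds (norm_pos_iff.mpr he))
  obtain ⟨v0, hv0⟩ := eventually_atBot.mp hev
  obtain ⟨v, hv, hvi⟩ := im_hits hf hup hlo v0 (Complex.arg (p - c))
  have hG : GG β θ (v, 0) = gg β (pt (Real.exp v) θ) - c := by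
    unfold GG
    simp only [min_eq_left (zero_le_one' ℝ), mul_zero]
    rw [gb_pos (Real.exp_pos v), gb_nonpos le_rfl]
  have h1 := polar_on_line he (hfe (v, 0)) (k := 0) (by rw [hvi]; simp)
  have hn : Real.exp (f (v, 0)).re = ‖gg β (pt (Real.exp v) θ) - c‖ := by
    rw [← hG, ← hfe, Complex.norm_exp]
  rw [hG, hn] at h1
  have hlt := hv0 v hv
  have hpos : 0 < ‖p - c‖ := norm_pos_iff.mpr he
  have h2 := hseg (‖gg β (pt (Real.exp v) θ) - c‖ / ‖p - c‖) ⟨by
    rw [← hn]; positivity, by rw [div_le_one hpos]; exact hlt.le⟩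
  rw [← h1, add_sub_cancel] at h2
  exact gg_notMem hβ (s := pt (Real.exp v) θ) (by rw [BF.pt_re]; exact Real.exp_pos v) h2

/-- No half open segment with its endpoint at a twist point lies in the complement. -/
theorem no_seg_out {d : ℕ} (hd : 2 ≤ d) {β : ℂ → ℂ} (hβ : IsBeta d β) {θ : ℝ}
    (hl : Tendsto (fun x : ℝ => gg β (θ * I + x)) (𝓝[>] 0) (𝓝 (cc β θ)))
    {f : ℝ × ℝ → ℂ} (hf : Continuous f) (hfe : ∀ p, exp (f p) = GG β θ p)
    (hup : ∀ C : ℝ, ∃ᶠ v : ℝ in atBot, C < (f (v, 0)).im)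
    (hlo : ∀ C : ℝ, ∃ᶠ v : ℝ in atBot, (f (v, 0)).im < C) {p : ℂ} (hp : p ≠ cc β θ) :
    ¬ ∀ t ∈ Ioc (0 : ℝ) 1, cc β θ + t * (p - cc β θ) ∉ multibrotSet d := by
  intro hseg0
  have hcM : cc β θ ∈ multibrotSet d := cc_mem hd hβ hl
  set c := cc β θ with hc
  have he0 : 0 < ‖p - c‖ := norm_pos_iff.mpr (sub_ne_zero.mpr hp)
  -- another point of the set
  obtain ⟨w, hwM, hwc⟩ : ∃ w ∈ multibrotSet d, w ≠ c := by
    by_cases h : c = 0
    · refine ⟨1 / 4, small_mem hd (by norm_num), ?_⟩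
      rw [h]; norm_num
    · exact ⟨0, small_mem hd (by simp), fun h' => h h'.symm⟩
  have hwc0 : 0 < ‖c - w‖ := norm_pos_iff.mpr (sub_ne_zero.mpr hwc.symm)
  set τ : ℝ := min 1 (‖c - w‖ / (2 * ‖p - c‖)) with hτ
  have hτ0 : 0 < τ := lt_min one_pos (by positivity)
  have hτ1 : τ ≤ 1 := min_le_left _ _
  set e : ℂ := τ * (p - c) with heD
  have hen : ‖e‖ < ‖c - w‖ := by
    rw [heD, norm_mul, Complex.norm_real, Real.norm_eq_abs, abs_of_pos hτ0]
    have h1 : τ ≤ ‖c - w‖ / (2 * ‖p - c‖) := min_le_right _ _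
    calc τ * ‖p - c‖ ≤ ‖c - w‖ / (2 * ‖p - c‖) * ‖p - c‖ := by gcongr
      _ = ‖c - w‖ / 2 := by field_simp
      _ < ‖c - w‖ := by linarith
  have he : e ≠ 0 := by
    rw [heD]
    exact mul_ne_zero (by exact_mod_cast hτ0.ne') (sub_ne_zero.mpr hp)
  have hepos : 0 < ‖e‖ := norm_pos_iff.mpr he
  have hseg : ∀ t : ℝ, 0 < t → t ≤ 1 → c + t * e ∉ multibrotSet d := by
    intro t h1 h2
    have h3 := hseg0 (t * τ) ⟨by positivity, by nlinarith⟩
    have h4 : c + ((t * τ : ℝ) : ℂ) * (p - c) = c + t * e := by rw [heD]; push_cast; ring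
    rwa [h4] at h3
  have hg : Tendsto (fun v : ℝ => gg β (pt (Real.exp v) θ)) atBot (𝓝 c) := by
    have h1 : Tendsto (fun v : ℝ => Real.exp v) atBot (𝓝[>] 0) := by
      rw [tendsto_nhdsWithin_iff]
      exact ⟨Real.tendsto_exp_atBot, Eventually.of_forall fun v => Real.exp_pos v⟩
    refine (hl.comp h1).congr fun v => ?_
    simp only [Function.comp]
    rw [BF.pt_eq]
  have hev : ∀ᶠ v : ℝ in atBot, ‖gg β (pt (Real.exp v) θ) - c‖ < ‖e‖ := by
    have h1 := (hg.sub_const c).norm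
    rw [sub_self, norm_zero] at h1
    exact h1.eventually (gt_mem_nhds hepos)
  obtain ⟨v0, hv0⟩ := eventually_atBot.mp hev
  have hG : ∀ v : ℝ, GG β θ (v, 0) = gg β (pt (Real.exp v) θ) - c := by
    intro v
    unfold GG
    simp only [min_eq_left (zero_le_one' ℝ), mul_zero]
    rw [gb_pos (Real.exp_pos v), gb_nonpos le_rfl]
  have hn : ∀ v : ℝ, Real.exp (f (v, 0)).re = ‖gg β (pt (Real.exp v) θ) - c‖ := by
    intro v
    rw [← hG, ← hfe, Complex.norm_exp]
  obtain ⟨v1, hv1, hvi1⟩ := im_hits hf hup hlo v0 (Complex.arg e)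
  obtain ⟨v2, hv2, hvi2⟩ := im_hits hf hup hlo v0 (Complex.arg e + 2 * Real.pi)
  have hl1 := polar_on_line he (hfe (v1, 0)) (k := 0) (by rw [hvi1]; simp)
  have hl2 := polar_on_line he (hfe (v2, 0)) (k := 1) (by rw [hvi2]; push_cast; ring)
  set t1 : ℝ := Real.exp (f (v1, 0)).re / ‖e‖ with ht1
  set t2 : ℝ := Real.exp (f (v2, 0)).re / ‖e‖ with ht2
  have ht1p : 0 < t1 := by positivity
  have ht2p : 0 < t2 := by positivity
  have ht1l : t1 ≤ 1 := by
    rw [ht1, div_le_one hepos, hn]; exact (hv0 v1 hv1).le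
  have ht2l : t2 ≤ 1 := by
    rw [ht2, div_le_one hepos, hn]; exact (hv0 v2 hv2).le
  rw [hG] at hl1 hl2
  -- lift of the segment
  obtain ⟨Φ, hΦd, hΦ1, hΦg⟩ := exists_inv hβ
  set tm : ℝ := min t1 t2 with htm
  have htm0 : 0 < tm := lt_min ht1p ht2p
  set cl : ℝ → ℝ := fun t => max tm (min t 1) with hcl
  have hcl0 : ∀ t, 0 < cl t := fun t => htm0.trans_le (le_max_left _ _)
  have htm1 : tm ≤ 1 := (min_le_left _ _).trans ht1l
  have hcl1 : ∀ t, cl t ≤ 1 := fun t => max_le htm1 (min_le_right _ _)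
  have hclt1 : cl t1 = t1 := by
    simp only [hcl, min_eq_left ht1l]
    exact max_eq_right (min_le_left _ _)
  have hclt2 : cl t2 = t2 := by
    simp only [hcl, min_eq_left ht2l]
    exact max_eq_right (min_le_right _ _)
  have hclc : Continuous cl := by
    simp only [hcl]
    fun_prop
  have hzM : ∀ t : ℝ, c + cl t * e ∈ (multibrotSet d)ᶜ := fun t => hseg _ (hcl0 t) (hcl1 t)
  have hΦne : ∀ z ∉ multibrotSet d, Φ z ≠ 0 := by
    intro z hz
    obtain ⟨s, hs, hsz⟩ := gg_surj hβ hz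
    rw [← hsz, hΦg s hs]
    exact exp_ne_zero _
  obtain ⟨lam, hlamc, hlam⟩ := exists_plane_log (G := fun q : ℝ × ℝ => (Φ (c + cl q.1 * e))⁻¹)
    (by
      apply Continuous.inv₀
      · apply hΦd.continuousOn.comp_continuous
        · have : Continuous fun q : ℝ × ℝ => cl q.1 := hclc.comp continuous_fst
          exact continuous_const.add ((Complex.continuous_ofReal.comp this).mul continuous_const)
        · intro q; exact hzM q.1
      · intro q
        exact hΦne _ (hzM q.1))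
    (fun q => inv_ne_zero (hΦne _ (hzM q.1)))
  set lm : ℝ → ℂ := fun t => lam (t, 0) with hlm
  have hlmc : Continuous lm := hlamc.comp (by fun_prop : Continuous fun t : ℝ => (t, (0 : ℝ)))
  have hlme : ∀ t, exp (-lm t) = Φ (c + cl t * e) := by
    intro t
    rw [exp_neg, hlm]
    simp only
    rw [hlam, inv_inv]
  have hlmre : ∀ t, 0 < (lm t).re := by
    intro t
    have h1 := hΦ1 _ (hzM t)
    rw [← hlme, Complex.norm_exp, neg_re] at h1
    have := Real.exp_lt_one_iff.mp h1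
    linarith
  have hlmg : ∀ t, gg β (lm t) = c + cl t * e := by
    intro t
    obtain ⟨s, hs, hsz⟩ := gg_surj hβ (hzM t)
    have h1 : exp (-lm t) = exp (-s) := by rw [hlme, ← hsz, hΦg s hs]
    rw [← hsz, gg_eq_zz, gg_eq_zz, h1]
  -- comparison at the two common points
  have hcmp : ∀ (v t : ℝ), cl t = t → gg β (pt (Real.exp v) θ) - c = (t : ℂ) * e →
      ∃ n : ℤ, lm t = pt (Real.exp v) θ + n * (2 * Real.pi * I) := by
    intro v t ht h
    have h1 : gg β (pt (Real.exp v) θ) = c + cl t * e := by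
      rw [ht]; linear_combination h
    have h2 : exp (-lm t) = exp (-pt (Real.exp v) θ) := by
      rw [hlme, ← h1, hΦg _ (by rw [BF.pt_re]; exact Real.exp_pos v)]
    obtain ⟨n, hn⟩ := Complex.exp_eq_exp_iff_exists_int.mp h2
    refine ⟨-n, ?_⟩
    push_cast
    linear_combination -hn
  obtain ⟨n1, hn1⟩ := hcmp v1 t1 hclt1 hl1
  obtain ⟨n2, hn2⟩ := hcmp v2 t2 hclt2 hl2
  have hptc : Continuous fun v : ℝ => pt (Real.exp v) θ := by
    unfold pt
    fun_prop
  have hptm : ∀ v : ℝ, pt (Real.exp v) θ ∈ HP := fun v => by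
    change 0 < (pt (Real.exp v) θ).re
    rw [BF.pt_re]; exact Real.exp_pos v
  have hS := isPreconnected_Iic (a := v0)
  have hUn : IsPreconnected (univ : Set ℝ) := isPreconnected_univ
  -- the two logarithms
  obtain ⟨Bc, hBcc, hBce, hBcp⟩ := exists_BB hβ hcM
  obtain ⟨Bw, hBwc, hBwe, hBwp⟩ := exists_BB hβ hwM
  have r1 := im_sub_const (S := Iic v0) hS (a := fun v => Bc (pt (Real.exp v) θ))
    (b := fun v => f (v, 0))
    (hBcc.comp_continuous hptc hptm).continuousOn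
    (hf.comp (by fun_prop : Continuous fun v : ℝ => (v, (0 : ℝ)))).continuousOn (by
      intro v _
      rw [hBce _ (hptm v), hfe, hG]) (mem_Iic.mpr hv2) (mem_Iic.mpr hv1)
  have r2 := osc_of_near (S := Iic v0) hS (a := fun v => Bw (pt (Real.exp v) θ)) (b := c - w)
    (hBwc.comp_continuous hptc hptm).continuousOn (by
      intro v hv
      rw [hBwe _ (hptm v)]
      have : gg β (pt (Real.exp v) θ) - w - (c - w) = gg β (pt (Real.exp v) θ) - c := by ring
      rw [this]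
      exact (hv0 v hv).trans hen) (mem_Iic.mpr hv2) (mem_Iic.mpr hv1)
  have r3 := im_sub_const (S := univ) hUn (a := fun t => Bc (lm t))
    (b := fun t => Complex.log e + (Real.log (cl t) : ℝ))
    (hBcc.comp_continuous hlmc hlmre).continuousOn
    (by
      apply Continuous.continuousOn
      apply continuous_const.add
      exact Complex.continuous_ofReal.comp (hclc.log fun t => (hcl0 t).ne')) (by
      intro t _
      rw [hBce _ (hlmre t), hlmg, exp_add, Complex.exp_log he, ← ofReal_exp,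
        Real.exp_log (hcl0 t)]
      ring) (mem_univ t2) (mem_univ t1)
  have r4 := osc_of_near (S := univ) hUn (a := fun t => Bw (lm t)) (b := c - w)
    (hBwc.comp_continuous hlmc hlmre).continuousOn (by
      intro t _
      rw [hBwe _ (hlmre t), hlmg]
      have : c + cl t * e - w - (c - w) = cl t * e := by ring
      rw [this, norm_mul, Complex.norm_real, Real.norm_eq_abs, abs_of_pos (hcl0 t)]
      have := hcl1 t
      nlinarith) (mem_univ t2) (mem_univ t1)
  simp only [add_im, ofReal_im, add_zero, sub_self] at r3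
  rw [hn1, hn2, hBcp, hBcp] at r3
  rw [hn1, hn2, hBwp, hBwp] at r4
  rw [hvi1, hvi2] at r1
  have hk : ∀ n : ℤ, ((n : ℂ) * (2 * Real.pi * I)).im = n * (2 * Real.pi) := by
    intro n; simp
  rw [add_im, add_im, hk, hk] at r3 r4
  have hpi := Real.pi_pos
  have h1 : ((n2 : ℝ) - n1 + 1) * (2 * Real.pi) = 0 := by linarith
  have h2 : (n2 : ℝ) - n1 + 1 = 0 := by
    rcases mul_eq_zero.mp h1 with h | h
    · exact h
    · exfalso; linarith
  rw [abs_lt] at r2 r4
  nlinarith [r2.1, r2.2, r4.1, r4.2]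

end Pool.Agent.TH425.AD
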