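import Mathlib
import Pool.Agent.TH425.AD.D10

set_option autoImplicit false

open Complex Topology Filter Metric MeasureTheory Set N62a1eb23

namespace Pool.Agent.TH425.AD

open Pool.Agent.H713R2 Pool.Agent.H712R2 Pool.Agent.Helper202.Univ Pool.Agent.H713R2.AR
open Pool.Agent.TH425.BF (IsBl CK WO bloch_fatou Dat mf sg Jn pt dp)

/-- Almost every parameter ray lands at a point `c` of the boundary such that every open segment
with one endpoint at `c` meets both the set and its complement. -/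
theorem main6 {d : ℕ} (hd : 2 ≤ d) {ψ : ℂ → ℂ} (hψ : IsExteriorMap (multibrotSet d) ψ) :
    ∀ᵐ θ : ℝ, ∃ c ∈ frontier (multibrotSet d),
      Tendsto (fun r : ℝ => ψ (r * exp (θ * I))) (𝓝[>] 1) (𝓝 c) ∧
      ∀ p : ℂ, p ≠ c → (∃ x ∈ openSegment ℝ c p, x ∈ multibrotSet d) ∧
        ∃ y ∈ openSegment ℝ c p, y ∉ multibrotSet d := by
  obtain ⟨β, hβ⟩ := exists_beta hd
  filter_upwards [twist_gg hd hβ, main5 hd hψ] with θ hθ h5
  obtain ⟨hl, hθ⟩ := hθ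
  obtain ⟨c, hcfr, hct, -⟩ := h5
  have hψg : ∀ r : ℝ, 1 < r → ψ (r * exp (θ * I)) = gg β (θ * I + (Real.log r : ℝ)) := by
    intro r hr1
    have hr0 : 0 < r := by linarith
    have h2 : exp (θ * I + (Real.log r : ℝ)) = r * exp (θ * I) := by
      rw [exp_add, ← ofReal_exp, Real.exp_log hr0, mul_comm]
    have h3 : 1 < ‖(r : ℂ) * exp (θ * I)‖ := by
      rw [norm_mul, norm_exp_ofReal_mul_I, mul_one, norm_real, Real.norm_eq_abs, abs_of_pos hr0]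
      exact hr1
    rw [exteriorMap_unique hβ hψ h3]
    unfold gg
    rw [h2, exp_neg, h2]
  have hlog : Tendsto (fun r : ℝ => Real.log r) (𝓝[>] 1) (𝓝[>] 0) := by
    rw [tendsto_nhdsWithin_iff]
    constructor
    · have := (Real.continuousAt_log (one_ne_zero)).tendsto.mono_left
        (nhdsWithin_le_nhds : 𝓝[>] (1 : ℝ) ≤ 𝓝 1)
      rwa [Real.log_one] at this
    · filter_upwards [self_mem_nhdsWithin] with x hx
      exact Real.log_pos hx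
  have hct2 : Tendsto (fun r : ℝ => ψ (r * exp (θ * I))) (𝓝[>] 1) (𝓝 (cc β θ)) := by
    refine (hl.comp hlog).congr' ?_
    filter_upwards [self_mem_nhdsWithin] with r hr
    rw [hψg r hr]
    rfl
  have hcc : c = cc β θ := tendsto_nhds_unique hct hct2
  subst hcc
  refine ⟨cc β θ, hcfr, hct, fun p hp => ?_⟩
  obtain ⟨f, hf, hfe⟩ := exists_plane_log (GG_cont hβ hl) (GG_ne hd hβ hl)
  obtain ⟨hup, hlo⟩ := hθ f hf hfe
  set c := cc β θ with hc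
  set p' : ℂ := c + ((1 / 2 : ℝ) : ℂ) * (p - c) with hp'
  have hp'c : p' ≠ c := by
    intro h
    have h1 : ((1 / 2 : ℝ) : ℂ) * (p - c) = 0 := by
      rw [hp'] at h
      linear_combination h
    rcases mul_eq_zero.mp h1 with h2 | h2
    · norm_num at h2
    · exact hp (sub_eq_zero.mp h2)
  have hseg : ∀ t ∈ Ioc (0 : ℝ) 1, c + t * (p' - c) ∈ openSegment ℝ c p := by
    intro t ht
    refine ⟨1 - t / 2, t / 2, by linarith [ht.2], by linarith [ht.1], by ring, ?_⟩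
    rw [hp']
    simp only [real_smul]
    push_cast
    ring
  constructor
  · have h1 := no_seg_out hd hβ hl hf hfe hup hlo hp'c
    push Not at h1
    obtain ⟨t, ht, htM⟩ := h1
    exact ⟨_, hseg t ht, htM⟩
  · have h1 := no_seg_in hβ hl hf hfe hup hlo hp'c
    push Not at h1
    obtain ⟨t, ht, htM⟩ := h1
    exact ⟨_, hseg t ht, htM⟩

/-- All statements together. -/
theorem main_all {d : ℕ} (hd : 2 ≤ d) {ψ : ℂ → ℂ} (hψ : IsExteriorMap (multibrotSet d) ψ) :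
    ∃ Z : Set ℂ, Z ⊆ frontier (multibrotSet d) ∧ μH[1] Z = 0 ∧
      ∀ᵐ θ : ℝ, ∃ c ∈ Z,
        Tendsto (fun r : ℝ => ψ (r * exp (θ * I))) (𝓝[>] 1) (𝓝 c) ∧
        (∀ p : ℂ, p ≠ c → (∃ x ∈ openSegment ℝ c p, x ∈ multibrotSet d) ∧
          ∃ y ∈ openSegment ℝ c p, y ∉ multibrotSet d) ∧
        ((∃ φ : ℝ → ℝ, ContinuousOn φ (Ioi 1) ∧ ∀ r > (1 : ℝ),
            ψ (r * exp (θ * I)) - c = ‖ψ (r * exp (θ * I)) - c‖ * exp (φ r * I)) ∧
          ∀ φ : ℝ → ℝ, ContinuousOn φ (Ioi 1) → (∀ r > (1 : ℝ),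
            ψ (r * exp (θ * I)) - c = ‖ψ (r * exp (θ * I)) - c‖ * exp (φ r * I)) →
            (∀ C : ℝ, ∃ᶠ r : ℝ in 𝓝[>] 1, C < φ r) ∧ (∀ C : ℝ, ∃ᶠ r : ℝ in 𝓝[>] 1, φ r < C)) ∧
        ((∃ φ : ℝ → ℝ, ContinuousOn φ (Ioi 1) ∧ ∀ r > (1 : ℝ),
            deriv ψ (r * exp (θ * I)) = ‖deriv ψ (r * exp (θ * I))‖ * exp (φ r * I)) ∧
          ∀ φ : ℝ → ℝ, ContinuousOn φ (Ioi 1) → (∀ r > (1 : ℝ),
            deriv ψ (r * exp (θ * I)) = ‖deriv ψ (r * exp (θ * I))‖ * exp (φ r * I)) →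
            (∀ C : ℝ, ∃ᶠ r : ℝ in 𝓝[>] 1, C < φ r) ∧ (∀ C : ℝ, ∃ᶠ r : ℝ in 𝓝[>] 1, φ r < C)) ∧
        (∀ C : ℝ, ∃ᶠ r : ℝ in 𝓝[>] 1, C < ‖deriv ψ (r * exp (θ * I))‖) ∧
        ∀ ε > (0 : ℝ), ∃ᶠ r : ℝ in 𝓝[>] 1, ‖deriv ψ (r * exp (θ * I))‖ < ε := by
  obtain ⟨Z, hZ1, hZ2, h3⟩ := main3 hd hψ
  refine ⟨Z, hZ1, hZ2, ?_⟩
  filter_upwards [h3, main6 hd hψ, main5 hd hψ, main4 hd hψ, main2 hd hψ] with θ h3 h6 h5 h4 h2
  obtain ⟨c, hcZ, hc⟩ := h3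
  obtain ⟨c6, -, hc6, h6⟩ := h6
  obtain ⟨c5, -, hc5, h5⟩ := h5
  have e6 : c6 = c := tendsto_nhds_unique hc6 hc
  have e5 : c5 = c := tendsto_nhds_unique hc5 hc
  subst e6
  subst e5
  exact ⟨c5, hcZ, hc, h6, h5, h4, h2.1, h2.2⟩

end Pool.Agent.TH425.AD
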