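import Mathlib
import Pool.Agent.TH425.AD.D14

set_option autoImplicit false

open Complex Topology Filter Metric MeasureTheory Set N62a1eb23

namespace Pool.Agent.TH425.AD

open Pool.Agent.H713R2 Pool.Agent.H712R2 Pool.Agent.Helper202.Univ Pool.Agent.H713R2.AR
open Pool.Agent.TH425.BF (IsBl CK WO bloch_fatou Dat mf sg Jn pt dp)

theorem clamp_mem (u : ℝ) : Real.exp (min u 0) ∈ Ioc (0 : ℝ) 1 :=
  ⟨Real.exp_pos _, by rw [Real.exp_le_one_iff]; exact min_le_right _ _⟩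

theorem clamp_cont : Continuous fun u : ℝ => Real.exp (min u 0) := by fun_prop

theorem clamp_tendsto : Tendsto (fun u : ℝ => Real.exp (min u 0)) atBot (𝓝[>] 0) := by
  rw [tendsto_nhdsWithin_iff]
  refine ⟨?_, Eventually.of_forall fun v => Real.exp_pos _⟩
  refine Real.tendsto_exp_atBot.congr' ?_
  filter_upwards [eventually_le_atBot (0 : ℝ)] with v hv
  rw [min_eq_left hv]

theorem polar_exp (w : ℂ) : exp w = ‖exp w‖ * exp (w.im * I) := by
  rw [Complex.norm_exp, ofReal_exp, ← exp_add, Complex.re_add_im]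

/-- Every curve which ends at a twist point and does not meet the ray winds without bound in both
directions. -/
theorem curve_twist {β : ℂ → ℂ} {θ : ℝ} {c : ℂ}
    (hg : Tendsto (fun v : ℝ => gg β (pt (Real.exp v) θ)) atBot (𝓝 c))
    {f : ℝ → ℂ} (hf : Continuous f) (hfe : ∀ v, exp (f v) = gg β (pt (Real.exp v) θ) - c)
    (hup : ∀ C : ℝ, ∃ᶠ v : ℝ in atBot, C < (f v).im)
    (hlo : ∀ C : ℝ, ∃ᶠ v : ℝ in atBot, (f v).im < C)
    {γ : ℝ → ℂ} (hγ : ContinuousOn γ (Ioc 0 1)) (hγt : Tendsto γ (𝓝[>] 0) (𝓝 c))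
    (hγc : ∀ t ∈ Ioc (0 : ℝ) 1, γ t ≠ c)
    (hγr : ∀ t ∈ Ioc (0 : ℝ) 1, ∀ x > (0 : ℝ), γ t ≠ gg β (pt x θ)) :
    (∃ φ : ℝ → ℝ, ContinuousOn φ (Ioc 0 1) ∧ ∀ t ∈ Ioc (0 : ℝ) 1,
        γ t - c = ‖γ t - c‖ * exp (φ t * I)) ∧
      ∀ φ : ℝ → ℝ, ContinuousOn φ (Ioc 0 1) → (∀ t ∈ Ioc (0 : ℝ) 1,
        γ t - c = ‖γ t - c‖ * exp (φ t * I)) →
        (∀ C : ℝ, ∃ᶠ t : ℝ in 𝓝[>] 0, C < φ t) ∧ (∀ C : ℝ, ∃ᶠ t : ℝ in 𝓝[>] 0, φ t < C) := by
  have hcγ : Continuous fun u : ℝ => γ (Real.exp (min u 0)) - c :=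
    (hγ.comp_continuous clamp_cont clamp_mem).sub continuous_const
  have hne0 : ∀ u : ℝ, γ (Real.exp (min u 0)) - c ≠ 0 := fun u =>
    sub_ne_zero.mpr (hγc _ (clamp_mem u))
  have hlogt : ∀ t ∈ Ioc (0 : ℝ) 1, Real.exp (min (Real.log t) 0) = t := by
    intro t ht
    rw [min_eq_left (Real.log_nonpos ht.1.le ht.2), Real.exp_log ht.1]
  constructor
  · obtain ⟨lam, hlc, hle⟩ := exists_plane_log
      (G := fun q : ℝ × ℝ => γ (Real.exp (min q.1 0)) - c) (hcγ.comp continuous_fst)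
      (fun q => hne0 q.1)
    refine ⟨fun t => (lam (Real.log t, 0)).im, ?_, fun t ht => ?_⟩
    · intro t ht
      have h1 : ContinuousAt (fun t : ℝ => (Real.log t, (0 : ℝ))) t :=
        (Real.continuousAt_log ht.1.ne').prodMk continuousAt_const
      have h2 : ContinuousAt (fun t : ℝ => (lam (Real.log t, 0)).im) t :=
        (Complex.continuous_im.comp hlc).continuousAt.comp
          (f := fun t : ℝ => (Real.log t, (0 : ℝ))) h1
      exact h2.continuousWithinAt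
    · have h1 := hle (Real.log t, 0)
      simp only at h1
      rw [hlogt t ht] at h1
      rw [← h1]
      exact polar_exp _
  · intro φ hφ hφe
    set g : ℝ → ℂ := fun u => (Real.log ‖γ (Real.exp (min u 0)) - c‖ : ℝ) +
      (φ (Real.exp (min u 0)) : ℝ) * I with hgD
    have hgc : Continuous g := by
      apply Continuous.add
      · exact Complex.continuous_ofReal.comp (hcγ.norm.log fun u => (norm_pos_iff.mpr (hne0 u)).ne')
      · exact (Complex.continuous_ofReal.comp (hφ.comp_continuous clamp_cont clamp_mem)).mul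
          continuous_const
    have hge : ∀ u, exp (g u) = γ (Real.exp (min u 0)) - c := by
      intro u
      rw [hgD]
      simp only
      rw [exp_add, ← ofReal_exp, Real.exp_log (norm_pos_iff.mpr (hne0 u))]
      exact (hφe _ (clamp_mem u)).symm
    have hne : ∀ v u, exp (f v) ≠ exp (g u) := by
      intro v u h
      rw [hfe, hge] at h
      exact hγr _ (clamp_mem u) _ (Real.exp_pos v) (sub_left_injective h).symm
    have hfb : Tendsto (fun v => (f v).re) atBot atBot := by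
      have h1 : Tendsto (fun v => ‖exp (f v)‖) atBot (𝓝[>] 0) := by
        rw [tendsto_nhdsWithin_iff]
        refine ⟨?_, Eventually.of_forall fun v => norm_pos_iff.mpr (exp_ne_zero _)⟩
        have h2 := (hg.sub_const c).norm
        rw [sub_self, norm_zero] at h2
        refine h2.congr fun v => ?_
        rw [hfe]
      refine (Real.tendsto_log_nhdsGT_zero.comp h1).congr fun v => ?_
      simp only [Function.comp]
      rw [Complex.norm_exp, Real.log_exp]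
    have hgb : Tendsto (fun u => (g u).re) atBot atBot := by
      have h1 : Tendsto (fun u : ℝ => ‖γ (Real.exp (min u 0)) - c‖) atBot (𝓝[>] 0) := by
        rw [tendsto_nhdsWithin_iff]
        refine ⟨?_, Eventually.of_forall fun v => norm_pos_iff.mpr (hne0 v)⟩
        have h2 := ((hγt.comp clamp_tendsto).sub_const c).norm
        rw [sub_self, norm_zero] at h2
        exact h2
      refine (Real.tendsto_log_nhdsGT_zero.comp h1).congr fun v => ?_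
      simp [hgD]
    have him : ∀ u, (g u).im = φ (Real.exp (min u 0)) := by
      intro u
      simp [hgD]
    constructor
    · intro C
      have h1 := no_cross hf hgc hne hfb hgb hup C
      simp only [him] at h1
      exact clamp_tendsto.frequently (p := fun t => C < φ t) h1
    · intro C
      have h1 := no_cross' hf hgc hne hfb hgb hlo C
      simp only [him] at h1
      exact clamp_tendsto.frequently (p := fun t => φ t < C) h1

/-- Almost every parameter ray lands at a point around which every curve that ends there and does not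
meet the ray winds without bound in both directions. -/
theorem main7 {d : ℕ} (hd : 2 ≤ d) {ψ : ℂ → ℂ} (hψ : IsExteriorMap (multibrotSet d) ψ) :
    ∀ᵐ θ : ℝ, ∃ c : ℂ, Tendsto (fun r : ℝ => ψ (r * exp (θ * I))) (𝓝[>] 1) (𝓝 c) ∧
      ∀ γ : ℝ → ℂ, ContinuousOn γ (Ioc 0 1) → Tendsto γ (𝓝[>] 0) (𝓝 c) →
        (∀ t ∈ Ioc (0 : ℝ) 1, γ t ≠ c ∧ ∀ r > (1 : ℝ), γ t ≠ ψ (r * exp (θ * I))) →
        (∃ φ : ℝ → ℝ, ContinuousOn φ (Ioc 0 1) ∧ ∀ t ∈ Ioc (0 : ℝ) 1,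
            γ t - c = ‖γ t - c‖ * exp (φ t * I)) ∧
          ∀ φ : ℝ → ℝ, ContinuousOn φ (Ioc 0 1) → (∀ t ∈ Ioc (0 : ℝ) 1,
            γ t - c = ‖γ t - c‖ * exp (φ t * I)) →
            (∀ C : ℝ, ∃ᶠ t : ℝ in 𝓝[>] 0, C < φ t) ∧
            (∀ C : ℝ, ∃ᶠ t : ℝ in 𝓝[>] 0, φ t < C) := by
  obtain ⟨β, hβ⟩ := exists_beta hd
  filter_upwards [twist_gg hd hβ] with θ hθ
  obtain ⟨hl, hθ⟩ := hθ
  have hψg : ∀ r : ℝ, 1 < r → ψ (r * exp (θ * I)) = gg β (θ * I + (Real.log r : ℝ)) := by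
    intro r hr1
    have hr0 : 0 < r := by linarith
    have h2 : exp (θ * I + (Real.log r : ℝ)) = r * exp (θ * I) := by
      rw [exp_add, ← ofReal_exp, Real.exp_log hr0, mul_comm]
    have h3 : 1 < ‖(r : ℂ) * exp (θ * I)‖ := by
      rw [norm_mul, norm_exp_ofReal_mul_I, mul_one, norm_real, Real.norm_eq_abs, abs_of_pos hr0]
      exact hr1
    rw [exteriorMap_unique hβ hψ h3]
    unfold gg
    rw [h2, exp_neg, h2]
  have hlog : Tendsto (fun r : ℝ => Real.log r) (𝓝[>] 1) (𝓝[>] 0) := by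
    rw [tendsto_nhdsWithin_iff]
    constructor
    · have := (Real.continuousAt_log (one_ne_zero)).tendsto.mono_left
        (nhdsWithin_le_nhds : 𝓝[>] (1 : ℝ) ≤ 𝓝 1)
      rwa [Real.log_one] at this
    · filter_upwards [self_mem_nhdsWithin] with x hx
      exact Real.log_pos hx
  have hct2 : Tendsto (fun r : ℝ => ψ (r * exp (θ * I))) (𝓝[>] 1) (𝓝 (cc β θ)) := by
    refine (hl.comp hlog).congr' ?_
    filter_upwards [self_mem_nhdsWithin] with r hr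
    rw [hψg r hr]
    rfl
  refine ⟨cc β θ, hct2, fun γ hγ hγt hγn => ?_⟩
  obtain ⟨f, hf, hfe⟩ := exists_plane_log (GG_cont hβ hl) (GG_ne hd hβ hl)
  obtain ⟨hup, hlo⟩ := hθ f hf hfe
  have hg : Tendsto (fun v : ℝ => gg β (pt (Real.exp v) θ)) atBot (𝓝 (cc β θ)) := by
    have h1 : Tendsto (fun v : ℝ => Real.exp v) atBot (𝓝[>] 0) := by
      rw [tendsto_nhdsWithin_iff]
      exact ⟨Real.tendsto_exp_atBot, Eventually.of_forall fun v => Real.exp_pos v⟩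
    refine (hl.comp h1).congr fun v => ?_
    simp only [Function.comp]
    rw [BF.pt_eq]
  have hG : ∀ v : ℝ, exp (f (v, 0)) = gg β (pt (Real.exp v) θ) - cc β θ := by
    intro v
    rw [hfe]
    unfold GG
    simp only [min_eq_left (zero_le_one' ℝ), mul_zero]
    rw [gb_pos (Real.exp_pos v), gb_nonpos le_rfl]
  refine curve_twist (f := fun v => f (v, 0)) hg
    (hf.comp (by fun_prop : Continuous fun v : ℝ => (v, (0 : ℝ)))) hG hup hlo hγ hγt
    (fun t ht => (hγn t ht).1) (fun t ht x hx h => ?_)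
  have h1 := hψg (Real.exp x) (Real.one_lt_exp_iff.mpr hx)
  rw [Real.log_exp, ← BF.pt_eq] at h1
  exact (hγn t ht).2 _ (Real.one_lt_exp_iff.mpr hx) (h.trans h1.symm)

/-- All statements together. -/
theorem main_all2 {d : ℕ} (hd : 2 ≤ d) {ψ : ℂ → ℂ} (hψ : IsExteriorMap (multibrotSet d) ψ) :
    ∃ Z : Set ℂ, Z ⊆ frontier (multibrotSet d) ∧ μH[1] Z = 0 ∧
      ∀ᵐ θ : ℝ, ∃ c ∈ Z,
        Tendsto (fun r : ℝ => ψ (r * exp (θ * I))) (𝓝[>] 1) (𝓝 c) ∧
        (∀ p : ℂ, p ≠ c → (∃ x ∈ openSegment ℝ c p, x ∈ multibrotSet d) ∧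
          ∃ y ∈ openSegment ℝ c p, y ∉ multibrotSet d) ∧
        ((∃ φ : ℝ → ℝ, ContinuousOn φ (Ioi 1) ∧ ∀ r > (1 : ℝ),
            ψ (r * exp (θ * I)) - c = ‖ψ (r * exp (θ * I)) - c‖ * exp (φ r * I)) ∧
          ∀ φ : ℝ → ℝ, ContinuousOn φ (Ioi 1) → (∀ r > (1 : ℝ),
            ψ (r * exp (θ * I)) - c = ‖ψ (r * exp (θ * I)) - c‖ * exp (φ r * I)) →
            (∀ C : ℝ, ∃ᶠ r : ℝ in 𝓝[>] 1, C < φ r) ∧ (∀ C : ℝ, ∃ᶠ r : ℝ in 𝓝[>] 1, φ r < C)) ∧
        (∀ γ : ℝ → ℂ, ContinuousOn γ (Ioc 0 1) → Tendsto γ (𝓝[>] 0) (𝓝 c) →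
          (∀ t ∈ Ioc (0 : ℝ) 1, γ t ≠ c ∧ ∀ r > (1 : ℝ), γ t ≠ ψ (r * exp (θ * I))) →
          (∃ φ : ℝ → ℝ, ContinuousOn φ (Ioc 0 1) ∧ ∀ t ∈ Ioc (0 : ℝ) 1,
              γ t - c = ‖γ t - c‖ * exp (φ t * I)) ∧
            ∀ φ : ℝ → ℝ, ContinuousOn φ (Ioc 0 1) → (∀ t ∈ Ioc (0 : ℝ) 1,
              γ t - c = ‖γ t - c‖ * exp (φ t * I)) →
              (∀ C : ℝ, ∃ᶠ t : ℝ in 𝓝[>] 0, C < φ t) ∧
              (∀ C : ℝ, ∃ᶠ t : ℝ in 𝓝[>] 0, φ t < C)) ∧
        ((∃ φ : ℝ → ℝ, ContinuousOn φ (Ioi 1) ∧ ∀ r > (1 : ℝ),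
            deriv ψ (r * exp (θ * I)) = ‖deriv ψ (r * exp (θ * I))‖ * exp (φ r * I)) ∧
          ∀ φ : ℝ → ℝ, ContinuousOn φ (Ioi 1) → (∀ r > (1 : ℝ),
            deriv ψ (r * exp (θ * I)) = ‖deriv ψ (r * exp (θ * I))‖ * exp (φ r * I)) →
            (∀ C : ℝ, ∃ᶠ r : ℝ in 𝓝[>] 1, C < φ r) ∧ (∀ C : ℝ, ∃ᶠ r : ℝ in 𝓝[>] 1, φ r < C)) ∧
        (∀ C : ℝ, ∃ᶠ r : ℝ in 𝓝[>] 1, C < ‖deriv ψ (r * exp (θ * I))‖) ∧
        ∀ ε > (0 : ℝ), ∃ᶠ r : ℝ in 𝓝[>] 1, ‖deriv ψ (r * exp (θ * I))‖ < ε := by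
  obtain ⟨Z, hZ1, hZ2, h3⟩ := main_all hd hψ
  refine ⟨Z, hZ1, hZ2, ?_⟩
  filter_upwards [h3, main7 hd hψ] with θ h3 h7
  obtain ⟨c, hcZ, hc, h6, h5, h4, h2⟩ := h3
  obtain ⟨c7, hc7, h7⟩ := h7
  have e7 : c7 = c := tendsto_nhds_unique hc7 hc
  subst e7
  exact ⟨c7, hcZ, hc, h6, h5, h7, h4, h2⟩

end Pool.Agent.TH425.AD
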