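import Mathlib
import Pool.Agent.TH425.AD.D15

set_option autoImplicit false

open Complex Topology Filter Metric MeasureTheory Set N62a1eb23

namespace Pool.Agent.TH425.AD

open Pool.Agent.H713R2 Pool.Agent.H712R2 Pool.Agent.Helper202.Univ Pool.Agent.H713R2.AR
open Pool.Agent.TH425.BF (IsBl CK WO bloch_fatou Dat mf sg Jn pt dp)

/-- **Crossing lemma, second form.** Two curves in the logarithmic coordinate, both running to the
left; far to the left the first is disjoint from all high translates of the second by multiples of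
`2 π i`. If the first has unbounded imaginary part above, then so has the second. -/
theorem no_cross2 {f g : ℝ → ℂ} (hf : Continuous f) (hg : Continuous g)
    {V U K0 : ℝ} (hne : ∀ v ≤ V, ∀ u ≤ U, ∀ k : ℤ, K0 ≤ k → f v ≠ g u + k * (2 * Real.pi * I))
    (hfb : Tendsto (fun v => (f v).re) atBot atBot)
    (hgb : Tendsto (fun u => (g u).re) atBot atBot)
    (hup : ∀ C : ℝ, ∃ᶠ v : ℝ in atBot, C < (f v).im) :
    ∀ C : ℝ, ∃ᶠ u : ℝ in atBot, C < (g u).im := by
  intro B hB
  have hpi := Real.pi_pos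
  obtain ⟨u00, hu00⟩ := eventually_atBot.mp hB
  obtain ⟨u0', hu0'⟩ := eventually_atBot.mp (hgb.eventually (eventually_lt_atBot ((f V).re)))
  set u0 : ℝ := min (min u00 u0') U with hu0
  have hgB : ∀ u ≤ u0, (g u).im ≤ B := fun u hu =>
    not_lt.mp (hu00 u (hu.trans ((min_le_left _ _).trans (min_le_left _ _))))
  have hg0 : ∀ u ≤ u0, (g u).re < (f V).re := fun u hu =>
    hu0' u (hu.trans ((min_le_left _ _).trans (min_le_right _ _)))
  have hu0U : u0 ≤ U := min_le_right _ _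
  obtain ⟨v0', hv0'⟩ := eventually_atBot.mp (hfb.eventually (eventually_lt_atBot ((g u0).re)))
  set v0 : ℝ := min v0' V with hv0
  have hfL : ∀ v ≤ v0, (f v).re < (g u0).re := fun v hv => hv0' v (hv.trans (min_le_left _ _))
  have hv00 : v0 ≤ V := min_le_right _ _
  obtain ⟨K, hK⟩ := (isCompact_Icc (a := v0) (b := V)).bddAbove_image
    (Complex.continuous_im.comp hf).continuousOn
  obtain ⟨k, hk'⟩ := exists_nat_gt (max ((K - (g u0).im) / (2 * Real.pi)) K0)
  have hkK : K0 ≤ k := (le_max_right _ _).trans hk'.le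
  have hk := (le_max_left _ _).trans_lt hk'
  rw [div_lt_iff₀ (by positivity)] at hk
  obtain ⟨v2, hv2, hv2'⟩ := ((hup (B + k * (2 * Real.pi))).and_eventually
    (eventually_lt_atBot v0)).exists
  have hv20 : v2 ≤ V := hv2'.le.trans hv00
  obtain ⟨A, hA⟩ := (isCompact_Icc (a := v2) (b := V)).bddBelow_image
    (Complex.continuous_re.comp hf).continuousOn
  obtain ⟨u1, hu1, hu1'⟩ := ((hgb.eventually (eventually_lt_atBot A)).and
    (eventually_lt_atBot u0)).exists
  -- the difference and its logarithm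
  set F : ℝ × ℝ → ℂ := fun q => f (min q.1 V) - (k * (2 * Real.pi) : ℝ) * I - g (min q.2 U) with hF
  have hFc : Continuous F := by
    apply Continuous.sub
    · apply Continuous.sub
      · exact hf.comp (by fun_prop : Continuous fun q : ℝ × ℝ => min q.1 V)
      · exact continuous_const
    · exact hg.comp (by fun_prop : Continuous fun q : ℝ × ℝ => min q.2 U)
  have hF0 : ∀ q, F q ≠ 0 := by
    intro q hq
    apply hne (min q.1 V) (min_le_right _ _) (min q.2 U) (min_le_right _ _) (k : ℤ)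
      (by exact_mod_cast hkK)
    simp only [hF] at hq
    push_cast at hq ⊢
    linear_combination hq
  obtain ⟨Λ, hΛc, hΛ⟩ := exists_plane_log hFc hF0
  have hre : ∀ v ≤ V, ∀ u ≤ U, (F (v, u)).re = (f v).re - (g u).re := by
    intro v hv u hu
    simp [hF, min_eq_left hv, min_eq_left hu]
  have him : ∀ v ≤ V, ∀ u ≤ U, (F (v, u)).im = (f v).im - k * (2 * Real.pi) - (g u).im := by
    intro v hv u hu
    simp [hF, min_eq_left hv, min_eq_left hu]
  -- rotations by right angles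
  have e0 : ∀ q, (exp (Λ q - ((0 : ℝ) : ℂ) * I)).re = (F q).re := by
    intro q
    rw [ofReal_zero, zero_mul, sub_zero, hΛ]
  have e1 : ∀ q, (exp (Λ q - ((Real.pi / 2 : ℝ) : ℂ) * I)).re = (F q).im := by
    intro q
    rw [Complex.exp_sub, hΛ]
    push_cast
    rw [Complex.exp_pi_div_two_mul_I]
    simp [Complex.div_I]
  have e2 : ∀ q, (exp (Λ q - ((Real.pi : ℝ) : ℂ) * I)).re = -(F q).re := by
    intro q
    rw [Complex.exp_sub, hΛ, Complex.exp_pi_mul_I, div_neg, div_one, neg_re]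
  have e3 : ∀ q, (exp (Λ q - ((Real.pi / 2 + Real.pi : ℝ) : ℂ) * I)).re = -(F q).im := by
    intro q
    push_cast
    rw [add_mul, ← sub_sub, Complex.exp_sub, Complex.exp_sub, hΛ, Complex.exp_pi_mul_I,
      Complex.exp_pi_div_two_mul_I]
    simp [Complex.div_I]
  have cu : ∀ u : ℝ, Continuous fun v : ℝ => Λ (v, u) := fun u =>
    hΛc.comp (by fun_prop : Continuous fun v : ℝ => (v, u))
  have cv : ∀ v : ℝ, Continuous fun u : ℝ => Λ (v, u) := fun v =>
    hΛc.comp (by fun_prop : Continuous fun u : ℝ => (v, u))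
  -- the five sides
  obtain ⟨n1, hn1⟩ := track (isPreconnected_Icc (a := u1) (b := u0)) (cv V).continuousOn 0 (by
    intro u hu
    rw [e0, hre V le_rfl u (hu.2.trans hu0U)]
    linarith [hg0 u hu.2])
  obtain ⟨n2, hn2⟩ := track (isPreconnected_Icc (a := v2) (b := V)) (cu u1).continuousOn 0 (by
    intro v hv
    rw [e0, hre v hv.2 u1 (hu1'.le.trans hu0U)]
    have : A ≤ (f v).re := hA ⟨v, hv, rfl⟩
    linarith)
  obtain ⟨n3, hn3⟩ := track (isPreconnected_Icc (a := u1) (b := u0)) (cv v2).continuousOn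
    (Real.pi / 2) (by
    intro u hu
    rw [e1, him v2 hv20 u (hu.2.trans hu0U)]
    linarith [hgB u hu.2])
  obtain ⟨n4, hn4⟩ := track (isPreconnected_Icc (a := v2) (b := v0)) (cu u0).continuousOn
    Real.pi (by
    intro v hv
    rw [e2, hre v (hv.2.trans hv00) u0 hu0U]
    linarith [hfL v hv.2])
  obtain ⟨n5, hn5⟩ := track (isPreconnected_Icc (a := v0) (b := V)) (cu u0).continuousOn
    (Real.pi / 2 + Real.pi) (by
    intro v hv
    rw [e3, him v hv.2 u0 hu0U]
    have : (f v).im ≤ K := hK ⟨v, hv, rfl⟩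
    linarith)
  have a1 := hn1 u1 ⟨le_rfl, hu1'.le⟩
  have a2 := hn2 V ⟨hv20, le_rfl⟩
  have a3 := hn2 v2 ⟨le_rfl, hv20⟩
  have a4 := hn3 u1 ⟨le_rfl, hu1'.le⟩
  have a5 := hn3 u0 ⟨hu1'.le, le_rfl⟩
  have a6 := hn4 v2 ⟨le_rfl, hv2'.le⟩
  have a7 := hn4 v0 ⟨hv2'.le, le_rfl⟩
  have a8 := hn5 v0 ⟨le_rfl, hv00⟩
  have a9 := hn5 V ⟨hv00, le_rfl⟩
  have a10 := hn1 u0 ⟨hu1'.le, le_rfl⟩
  simp only [abs_lt] at a1 a2 a3 a4 a5 a6 a7 a8 a9 a10
  -- integers
  have cmp : ∀ (n m : ℤ) (x y : ℝ), |x| < Real.pi / 2 → |y| < Real.pi / 2 → ∀ δ : ℝ,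
      (n - m : ℝ) * (2 * Real.pi) = δ + (x - y) → |δ| ≤ Real.pi → n = m := by
    intro n m x y hx hy δ hδ hδ2
    rw [abs_lt] at hx hy
    rw [abs_le] at hδ2
    have h3 : |((n - m : ℤ) : ℝ)| < 1 := by
      push_cast
      rw [abs_lt]
      constructor <;> nlinarith [hx.1, hx.2, hy.1, hy.2, hδ2.1, hδ2.2]
    have h5 : |n - m| < 1 := by
      rw [← Int.cast_abs] at h3
      exact_mod_cast h3
    have := Int.abs_lt_one_iff.mp h5
    omega
  have b12 : n1 = n2 := cmp n1 n2 _ _ (abs_lt.mpr a2) (abs_lt.mpr a1) 0 (by ring) (by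
    rw [abs_zero]; exact hpi.le)
  have b23 : n2 = n3 := cmp n2 n3 _ _ (abs_lt.mpr a4) (abs_lt.mpr a3) (Real.pi / 2) (by ring) (by
    rw [abs_of_pos (by positivity)]; linarith)
  have b34 : n3 = n4 := cmp n3 n4 _ _ (abs_lt.mpr a6) (abs_lt.mpr a5) (Real.pi / 2) (by ring) (by
    rw [abs_of_pos (by positivity)]; linarith)
  have b45 : n4 = n5 := cmp n4 n5 _ _ (abs_lt.mpr a8) (abs_lt.mpr a7) (Real.pi / 2) (by ring) (by
    rw [abs_of_pos (by positivity)]; linarith)
  have b51 : n5 + 1 = n1 := by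
    refine cmp (n5 + 1) n1 _ _ (abs_lt.mpr a10) (abs_lt.mpr a9) (Real.pi / 2) ?_ (by
      rw [abs_of_pos (by positivity)]; linarith)
    push_cast
    ring
  omega

/-- both directions -/
theorem no_cross2' {f g : ℝ → ℂ} (hf : Continuous f) (hg : Continuous g)
    {V U K0 : ℝ} (hne : ∀ v ≤ V, ∀ u ≤ U, ∀ k : ℤ, (k : ℝ) ≤ -K0 → f v ≠ g u + k * (2 * Real.pi * I))
    (hfb : Tendsto (fun v => (f v).re) atBot atBot)
    (hgb : Tendsto (fun u => (g u).re) atBot atBot)
    (hlo : ∀ C : ℝ, ∃ᶠ v : ℝ in atBot, (f v).im < C) :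
    ∀ C : ℝ, ∃ᶠ u : ℝ in atBot, (g u).im < C := by
  intro C
  have h1 := no_cross2 (f := fun v => (starRingEnd ℂ) (f v)) (g := fun v => (starRingEnd ℂ) (g v))
    (Complex.continuous_conj.comp hf) (Complex.continuous_conj.comp hg) (V := V) (U := U)
    (K0 := K0) (by
      intro v hv u hu k hk h
      apply hne v hv u hu (-k) (by push_cast; linarith)
      apply (starRingEnd ℂ).injective
      rw [h]
      simp [map_ofNat]) (by simpa using hfb) (by simpa using hgb) (by
      intro C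
      refine (hlo (-C)).mono fun v hv => ?_
      rw [Complex.conj_im]
      linarith) (-C)
  refine h1.mono fun v hv => ?_
  rw [Complex.conj_im] at hv
  linarith

end Pool.Agent.TH425.AD
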