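import Mathlib
import Pool.Agent.TH425.AD.D16

set_option autoImplicit false

open Complex Topology Filter Metric MeasureTheory Set N62a1eb23

namespace Pool.Agent.TH425.AD

open Pool.Agent.H713R2 Pool.Agent.H712R2 Pool.Agent.Helper202.Univ Pool.Agent.H713R2.AR
open Pool.Agent.TH425.BF (IsBl CK WO bloch_fatou Dat mf sg Jn pt dp)

/-- Two curves in the complement which end at the same point `c` of the set: the difference of their
arguments at common points near `c` is bounded. -/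
theorem bounded_shift {d : ℕ} {β : ℂ → ℂ} (hβ : IsBeta d β) {c w : ℂ} (hcM : c ∈ multibrotSet d)
    (hwM : w ∈ multibrotSet d) (hwc : w ≠ c) {θ : ℝ}
    (hg : Tendsto (fun v : ℝ => gg β (pt (Real.exp v) θ)) atBot (𝓝 c))
    {f : ℝ → ℂ} (hf : Continuous f) (hfe : ∀ v, exp (f v) = gg β (pt (Real.exp v) θ) - c)
    {α : ℝ → ℂ} (hα : Continuous α) (hαM : ∀ u, α u ∉ multibrotSet d)
    (hαt : Tendsto α atBot (𝓝 c)) {g : ℝ → ℂ} (hgc : Continuous g)
    (hge : ∀ u, exp (g u) = α u - c) :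
    ∃ V U K : ℝ, ∀ v ≤ V, ∀ u ≤ U, ∀ k : ℤ, f v = g u + k * (2 * Real.pi * I) → |(k : ℝ)| < K := by
  have hpi := Real.pi_pos
  have hcw : 0 < ‖c - w‖ := norm_pos_iff.mpr (sub_ne_zero.mpr hwc.symm)
  have hev : ∀ᶠ v : ℝ in atBot, ‖gg β (pt (Real.exp v) θ) - c‖ < ‖c - w‖ := by
    have h1 := (hg.sub_const c).norm
    rw [sub_self, norm_zero] at h1
    exact h1.eventually (gt_mem_nhds hcw)
  have hev2 : ∀ᶠ u : ℝ in atBot, ‖α u - c‖ < ‖c - w‖ := by
    have h1 := (hαt.sub_const c).norm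
    rw [sub_self, norm_zero] at h1
    exact h1.eventually (gt_mem_nhds hcw)
  obtain ⟨V, hV⟩ := eventually_atBot.mp hev
  obtain ⟨U, hU⟩ := eventually_atBot.mp hev2
  -- lift of the second curve
  obtain ⟨Φ, hΦd, hΦ1, hΦg⟩ := exists_inv hβ
  have hΦne : ∀ z ∉ multibrotSet d, Φ z ≠ 0 := by
    intro z hz
    obtain ⟨s, hs, hsz⟩ := gg_surj hβ hz
    rw [← hsz, hΦg s hs]
    exact exp_ne_zero _
  obtain ⟨lam, hlamc, hlam⟩ := exists_plane_log (G := fun q : ℝ × ℝ => (Φ (α q.1))⁻¹)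
    (by
      apply Continuous.inv₀
      · apply hΦd.continuousOn.comp_continuous
        · exact hα.comp continuous_fst
        · intro q; exact hαM q.1
      · intro q
        exact hΦne _ (hαM q.1))
    (fun q => inv_ne_zero (hΦne _ (hαM q.1)))
  set lm : ℝ → ℂ := fun t => lam (t, 0) with hlm
  have hlmc : Continuous lm := hlamc.comp (by fun_prop : Continuous fun t : ℝ => (t, (0 : ℝ)))
  have hlme : ∀ t, exp (-lm t) = Φ (α t) := by
    intro t
    rw [exp_neg, hlm]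
    simp only
    rw [hlam, inv_inv]
  have hlmre : ∀ t, 0 < (lm t).re := by
    intro t
    have h1 := hΦ1 _ (hαM t)
    rw [← hlme, Complex.norm_exp, neg_re] at h1
    have := Real.exp_lt_one_iff.mp h1
    linarith
  have hlmg : ∀ t, gg β (lm t) = α t := by
    intro t
    obtain ⟨s, hs, hsz⟩ := gg_surj hβ (hαM t)
    have h1 : exp (-lm t) = exp (-s) := by rw [hlme, ← hsz, hΦg s hs]
    rw [← hsz, gg_eq_zz, gg_eq_zz, h1]
  have hptc : Continuous fun v : ℝ => pt (Real.exp v) θ := by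
    unfold pt
    fun_prop
  have hptm : ∀ v : ℝ, pt (Real.exp v) θ ∈ HP := fun v => by
    change 0 < (pt (Real.exp v) θ).re
    rw [BF.pt_re]; exact Real.exp_pos v
  obtain ⟨Bc, hBcc, hBce, hBcp⟩ := exists_BB hβ hcM
  obtain ⟨Bw, hBwc, hBwe, hBwp⟩ := exists_BB hβ hwM
  set κ1 : ℝ := -(g U).im + (Bc (lm U)).im + (f V).im - (Bc (pt (Real.exp V) θ)).im with hκ1
  set κ2 : ℝ := (Bw (lm U)).im - (Bw (pt (Real.exp V) θ)).im with hκ2
  refine ⟨V, U, |κ1| + |κ2| + 2 * Real.pi, fun v hv u hu k hk => ?_⟩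
  have r1 := im_sub_const (S := univ) isPreconnected_univ (a := fun v => Bc (pt (Real.exp v) θ))
    (b := f) (hBcc.comp_continuous hptc hptm).continuousOn hf.continuousOn (by
      intro v _
      rw [hBce _ (hptm v), hfe]) (mem_univ v) (mem_univ V)
  have r3 := im_sub_const (S := univ) isPreconnected_univ (a := fun t => Bc (lm t))
    (b := g) (hBcc.comp_continuous hlmc hlmre).continuousOn hgc.continuousOn (by
      intro t _
      rw [hBce _ (hlmre t), hlmg, hge]) (mem_univ u) (mem_univ U)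
  have r2 := osc_of_near (S := Iic V) isPreconnected_Iic (a := fun v => Bw (pt (Real.exp v) θ))
    (b := c - w) (hBwc.comp_continuous hptc hptm).continuousOn (by
      intro v hv
      rw [hBwe _ (hptm v)]
      have : gg β (pt (Real.exp v) θ) - w - (c - w) = gg β (pt (Real.exp v) θ) - c := by ring
      rw [this]
      exact hV v hv) (mem_Iic.mpr hv) (mem_Iic.mpr le_rfl)
  have r4 := osc_of_near (S := Iic U) isPreconnected_Iic (a := fun t => Bw (lm t)) (b := c - w)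
    (hBwc.comp_continuous hlmc hlmre).continuousOn (by
      intro t ht
      rw [hBwe _ (hlmre t), hlmg]
      have : α t - w - (c - w) = α t - c := by ring
      rw [this]
      exact hU t ht) (mem_Iic.mpr hu) (mem_Iic.mpr le_rfl)
  -- the common point
  have hcom : gg β (pt (Real.exp v) θ) = α u := by
    have h1 : exp (f v) = exp (g u) := by
      rw [hk, exp_add, Complex.exp_int_mul_two_pi_mul_I, mul_one]
    rw [hfe, hge] at h1
    exact sub_left_injective h1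
  have h2 : exp (-lm u) = exp (-pt (Real.exp v) θ) := by
    rw [hlme, ← hcom, hΦg _ (hptm v)]
  obtain ⟨n, hn⟩ := Complex.exp_eq_exp_iff_exists_int.mp h2
  have hn' : lm u = pt (Real.exp v) θ + ((-n : ℤ) : ℂ) * (2 * Real.pi * I) := by
    push_cast
    linear_combination -hn
  have hkim : ∀ n : ℤ, ((n : ℂ) * (2 * Real.pi * I)).im = n * (2 * Real.pi) := by
    intro n; simp
  have e1 := congrArg Complex.im (hBcp (pt (Real.exp v) θ) (-n))
  have e2 := congrArg Complex.im (hBwp (pt (Real.exp v) θ) (-n))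
  rw [← hn', add_im, hkim] at e1 e2
  have e3 := congrArg Complex.im hk
  rw [add_im, hkim] at e3
  beta_reduce at r1 r2 r3 r4
  have e4 : (k : ℝ) * (2 * Real.pi) = κ1 - ((-n : ℤ) : ℝ) * (2 * Real.pi) := by
    rw [hκ1]; linarith
  have e5 : |((-n : ℤ) : ℝ) * (2 * Real.pi) - κ2| < 2 * Real.pi := by
    rw [abs_lt] at r2 r4 ⊢
    rw [hκ2]
    constructor <;> linarith [r2.1, r2.2, r4.1, r4.2]
  have e6 : |(k : ℝ) * (2 * Real.pi)| < |κ1| + |κ2| + 2 * Real.pi := by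
    rw [e4]
    have h3 : κ1 - ((-n : ℤ) : ℝ) * (2 * Real.pi) =
        κ1 - κ2 - (((-n : ℤ) : ℝ) * (2 * Real.pi) - κ2) := by ring
    rw [h3]
    calc _ ≤ |κ1 - κ2| + |((-n : ℤ) : ℝ) * (2 * Real.pi) - κ2| := abs_sub _ _
      _ ≤ (|κ1| + |κ2|) + |((-n : ℤ) : ℝ) * (2 * Real.pi) - κ2| := by
        gcongr
        exact abs_sub _ _
      _ < _ := by linarith
  rw [abs_mul, abs_of_pos (by positivity : 0 < 2 * Real.pi)] at e6
  have h3 := Real.pi_gt_three
  have h4 := abs_nonneg (k : ℝ)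
  nlinarith

/-- Every path which ends at a twist point, and which does not meet the ray or lies in the
complement, winds without bound in both directions. -/
theorem path_twist {d : ℕ} (hd : 2 ≤ d) {β : ℂ → ℂ} (hβ : IsBeta d β) {θ : ℝ} {c : ℂ}
    (hcM : c ∈ multibrotSet d)
    (hg : Tendsto (fun v : ℝ => gg β (pt (Real.exp v) θ)) atBot (𝓝 c))
    {f : ℝ → ℂ} (hf : Continuous f) (hfe : ∀ v, exp (f v) = gg β (pt (Real.exp v) θ) - c)
    (hup : ∀ C : ℝ, ∃ᶠ v : ℝ in atBot, C < (f v).im)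
    (hlo : ∀ C : ℝ, ∃ᶠ v : ℝ in atBot, (f v).im < C)
    {γ : ℝ → ℂ} (hγ : ContinuousOn γ (Ioc 0 1)) (hγt : Tendsto γ (𝓝[>] 0) (𝓝 c))
    (hγc : ∀ t ∈ Ioc (0 : ℝ) 1, γ t ≠ c)
    (hγr : (∀ t ∈ Ioc (0 : ℝ) 1, ∀ x > (0 : ℝ), γ t ≠ gg β (pt x θ)) ∨
      ∀ t ∈ Ioc (0 : ℝ) 1, γ t ∉ multibrotSet d) :
    (∃ φ : ℝ → ℝ, ContinuousOn φ (Ioc 0 1) ∧ ∀ t ∈ Ioc (0 : ℝ) 1,
        γ t - c = ‖γ t - c‖ * exp (φ t * I)) ∧
      ∀ φ : ℝ → ℝ, ContinuousOn φ (Ioc 0 1) → (∀ t ∈ Ioc (0 : ℝ) 1,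
        γ t - c = ‖γ t - c‖ * exp (φ t * I)) →
        (∀ C : ℝ, ∃ᶠ t : ℝ in 𝓝[>] 0, C < φ t) ∧ (∀ C : ℝ, ∃ᶠ t : ℝ in 𝓝[>] 0, φ t < C) := by
  have hcγ : Continuous fun u : ℝ => γ (Real.exp (min u 0)) - c :=
    (hγ.comp_continuous clamp_cont clamp_mem).sub continuous_const
  have hne0 : ∀ u : ℝ, γ (Real.exp (min u 0)) - c ≠ 0 := fun u =>
    sub_ne_zero.mpr (hγc _ (clamp_mem u))
  have hlogt : ∀ t ∈ Ioc (0 : ℝ) 1, Real.exp (min (Real.log t) 0) = t := by
    intro t ht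
    rw [min_eq_left (Real.log_nonpos ht.1.le ht.2), Real.exp_log ht.1]
  constructor
  · obtain ⟨lam, hlc, hle⟩ := exists_plane_log
      (G := fun q : ℝ × ℝ => γ (Real.exp (min q.1 0)) - c) (hcγ.comp continuous_fst)
      (fun q => hne0 q.1)
    refine ⟨fun t => (lam (Real.log t, 0)).im, ?_, fun t ht => ?_⟩
    · intro t ht
      have h1 : ContinuousAt (fun t : ℝ => (Real.log t, (0 : ℝ))) t :=
        (Real.continuousAt_log ht.1.ne').prodMk continuousAt_const
      have h2 : ContinuousAt (fun t : ℝ => (lam (Real.log t, 0)).im) t :=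
        (Complex.continuous_im.comp hlc).continuousAt.comp
          (f := fun t : ℝ => (Real.log t, (0 : ℝ))) h1
      exact h2.continuousWithinAt
    · have h1 := hle (Real.log t, 0)
      simp only at h1
      rw [hlogt t ht] at h1
      rw [← h1]
      exact polar_exp _
  · intro φ hφ hφe
    set g : ℝ → ℂ := fun u => (Real.log ‖γ (Real.exp (min u 0)) - c‖ : ℝ) +
      (φ (Real.exp (min u 0)) : ℝ) * I with hgD
    have hgc : Continuous g := by
      apply Continuous.add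
      · exact Complex.continuous_ofReal.comp (hcγ.norm.log fun u => (norm_pos_iff.mpr (hne0 u)).ne')
      · exact (Complex.continuous_ofReal.comp (hφ.comp_continuous clamp_cont clamp_mem)).mul
          continuous_const
    have hge : ∀ u, exp (g u) = γ (Real.exp (min u 0)) - c := by
      intro u
      rw [hgD]
      simp only
      rw [exp_add, ← ofReal_exp, Real.exp_log (norm_pos_iff.mpr (hne0 u))]
      exact (hφe _ (clamp_mem u)).symm
    obtain ⟨V, U, K, hK⟩ : ∃ V U K : ℝ, ∀ v ≤ V, ∀ u ≤ U, ∀ k : ℤ,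
        f v = g u + k * (2 * Real.pi * I) → |(k : ℝ)| < K := by
      rcases hγr with hγr | hγr
      · refine ⟨0, 0, 0, fun v _ u _ k hk => ?_⟩
        exfalso
        have h : exp (f v) = exp (g u) := by
          rw [hk, exp_add, Complex.exp_int_mul_two_pi_mul_I, mul_one]
        rw [hfe, hge] at h
        exact hγr _ (clamp_mem u) _ (Real.exp_pos v) (sub_left_injective h).symm
      · obtain ⟨w, hwM, hwc⟩ : ∃ w ∈ multibrotSet d, w ≠ c := by
          by_cases h : c = 0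
          · refine ⟨1 / 4, small_mem hd (by norm_num), ?_⟩
            rw [h]; norm_num
          · exact ⟨0, small_mem hd (by simp), fun h' => h h'.symm⟩
        exact bounded_shift hβ hcM hwM hwc hg hf hfe (hγ.comp_continuous clamp_cont clamp_mem)
          (fun u => hγr _ (clamp_mem u)) (hγt.comp clamp_tendsto) hgc hge
    have hfb : Tendsto (fun v => (f v).re) atBot atBot := by
      have h1 : Tendsto (fun v => ‖exp (f v)‖) atBot (𝓝[>] 0) := by
        rw [tendsto_nhdsWithin_iff]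
        refine ⟨?_, Eventually.of_forall fun v => norm_pos_iff.mpr (exp_ne_zero _)⟩
        have h2 := (hg.sub_const c).norm
        rw [sub_self, norm_zero] at h2
        refine h2.congr fun v => ?_
        rw [hfe]
      refine (Real.tendsto_log_nhdsGT_zero.comp h1).congr fun v => ?_
      simp only [Function.comp]
      rw [Complex.norm_exp, Real.log_exp]
    have hgb : Tendsto (fun u => (g u).re) atBot atBot := by
      have h1 : Tendsto (fun u : ℝ => ‖γ (Real.exp (min u 0)) - c‖) atBot (𝓝[>] 0) := by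
        rw [tendsto_nhdsWithin_iff]
        refine ⟨?_, Eventually.of_forall fun v => norm_pos_iff.mpr (hne0 v)⟩
        have h2 := ((hγt.comp clamp_tendsto).sub_const c).norm
        rw [sub_self, norm_zero] at h2
        exact h2
      refine (Real.tendsto_log_nhdsGT_zero.comp h1).congr fun v => ?_
      simp [hgD]
    have him : ∀ u, (g u).im = φ (Real.exp (min u 0)) := by
      intro u
      simp [hgD]
    constructor
    · intro C
      have h1 := no_cross2 hf hgc (V := V) (U := U) (K0 := K) (by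
        intro v hv u hu k hk h
        have := hK v hv u hu k h
        have h2 := le_abs_self (k : ℝ)
        linarith) hfb hgb hup C
      simp only [him] at h1
      exact clamp_tendsto.frequently (p := fun t => C < φ t) h1
    · intro C
      have h1 := no_cross2' hf hgc (V := V) (U := U) (K0 := K) (by
        intro v hv u hu k hk h
        have := hK v hv u hu k h
        have h2 := neg_abs_le (k : ℝ)
        linarith) hfb hgb hlo C
      simp only [him] at h1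
      exact clamp_tendsto.frequently (p := fun t => φ t < C) h1

/-- Almost every parameter ray lands at a point around which every path that ends there, and that
does not meet the ray or lies in the complement, winds without bound in both directions. -/
theorem main8 {d : ℕ} (hd : 2 ≤ d) {ψ : ℂ → ℂ} (hψ : IsExteriorMap (multibrotSet d) ψ) :
    ∀ᵐ θ : ℝ, ∃ c : ℂ, Tendsto (fun r : ℝ => ψ (r * exp (θ * I))) (𝓝[>] 1) (𝓝 c) ∧
      ∀ γ : ℝ → ℂ, ContinuousOn γ (Ioc 0 1) → Tendsto γ (𝓝[>] 0) (𝓝 c) →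
        ((∀ t ∈ Ioc (0 : ℝ) 1, γ t ≠ c ∧ ∀ r > (1 : ℝ), γ t ≠ ψ (r * exp (θ * I))) ∨
          ∀ t ∈ Ioc (0 : ℝ) 1, γ t ∉ multibrotSet d) →
        (∃ φ : ℝ → ℝ, ContinuousOn φ (Ioc 0 1) ∧ ∀ t ∈ Ioc (0 : ℝ) 1,
            γ t - c = ‖γ t - c‖ * exp (φ t * I)) ∧
          ∀ φ : ℝ → ℝ, ContinuousOn φ (Ioc 0 1) → (∀ t ∈ Ioc (0 : ℝ) 1,
            γ t - c = ‖γ t - c‖ * exp (φ t * I)) →
            (∀ C : ℝ, ∃ᶠ t : ℝ in 𝓝[>] 0, C < φ t) ∧
            (∀ C : ℝ, ∃ᶠ t : ℝ in 𝓝[>] 0, φ t < C) := by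
  obtain ⟨β, hβ⟩ := exists_beta hd
  filter_upwards [twist_gg hd hβ] with θ hθ
  obtain ⟨hl, hθ⟩ := hθ
  have hψg : ∀ r : ℝ, 1 < r → ψ (r * exp (θ * I)) = gg β (θ * I + (Real.log r : ℝ)) := by
    intro r hr1
    have hr0 : 0 < r := by linarith
    have h2 : exp (θ * I + (Real.log r : ℝ)) = r * exp (θ * I) := by
      rw [exp_add, ← ofReal_exp, Real.exp_log hr0, mul_comm]
    have h3 : 1 < ‖(r : ℂ) * exp (θ * I)‖ := by
      rw [norm_mul, norm_exp_ofReal_mul_I, mul_one, norm_real, Real.norm_eq_abs, abs_of_pos hr0]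
      exact hr1
    rw [exteriorMap_unique hβ hψ h3]
    unfold gg
    rw [h2, exp_neg, h2]
  have hlog : Tendsto (fun r : ℝ => Real.log r) (𝓝[>] 1) (𝓝[>] 0) := by
    rw [tendsto_nhdsWithin_iff]
    constructor
    · have := (Real.continuousAt_log (one_ne_zero)).tendsto.mono_left
        (nhdsWithin_le_nhds : 𝓝[>] (1 : ℝ) ≤ 𝓝 1)
      rwa [Real.log_one] at this
    · filter_upwards [self_mem_nhdsWithin] with x hx
      exact Real.log_pos hx
  have hct2 : Tendsto (fun r : ℝ => ψ (r * exp (θ * I))) (𝓝[>] 1) (𝓝 (cc β θ)) := by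
    refine (hl.comp hlog).congr' ?_
    filter_upwards [self_mem_nhdsWithin] with r hr
    rw [hψg r hr]
    rfl
  have hcM : cc β θ ∈ multibrotSet d := cc_mem hd hβ hl
  refine ⟨cc β θ, hct2, fun γ hγ hγt hγn => ?_⟩
  obtain ⟨f, hf, hfe⟩ := exists_plane_log (GG_cont hβ hl) (GG_ne hd hβ hl)
  obtain ⟨hup, hlo⟩ := hθ f hf hfe
  have hg : Tendsto (fun v : ℝ => gg β (pt (Real.exp v) θ)) atBot (𝓝 (cc β θ)) := by
    have h1 : Tendsto (fun v : ℝ => Real.exp v) atBot (𝓝[>] 0) := by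
      rw [tendsto_nhdsWithin_iff]
      exact ⟨Real.tendsto_exp_atBot, Eventually.of_forall fun v => Real.exp_pos v⟩
    refine (hl.comp h1).congr fun v => ?_
    simp only [Function.comp]
    rw [BF.pt_eq]
  have hG : ∀ v : ℝ, exp (f (v, 0)) = gg β (pt (Real.exp v) θ) - cc β θ := by
    intro v
    rw [hfe]
    unfold GG
    simp only [min_eq_left (zero_le_one' ℝ), mul_zero]
    rw [gb_pos (Real.exp_pos v), gb_nonpos le_rfl]
  refine path_twist hd hβ hcM (f := fun v => f (v, 0)) hg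
    (hf.comp (by fun_prop : Continuous fun v : ℝ => (v, (0 : ℝ)))) hG hup hlo hγ hγt
    (fun t ht => ?_) ?_
  · rcases hγn with hγn | hγn
    · exact (hγn t ht).1
    · intro h
      exact hγn t ht (h ▸ hcM)
  · rcases hγn with hγn | hγn
    · left
      intro t ht x hx h
      have h1 := hψg (Real.exp x) (Real.one_lt_exp_iff.mpr hx)
      rw [Real.log_exp, ← BF.pt_eq] at h1
      exact (hγn t ht).2 _ (Real.one_lt_exp_iff.mpr hx) (h.trans h1.symm)
    · exact Or.inr hγn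

/-- All statements together. -/
theorem main_all3 {d : ℕ} (hd : 2 ≤ d) {ψ : ℂ → ℂ} (hψ : IsExteriorMap (multibrotSet d) ψ) :
    ∃ Z : Set ℂ, Z ⊆ frontier (multibrotSet d) ∧ μH[1] Z = 0 ∧
      ∀ᵐ θ : ℝ, ∃ c ∈ Z,
        Tendsto (fun r : ℝ => ψ (r * exp (θ * I))) (𝓝[>] 1) (𝓝 c) ∧
        (∀ γ : ℝ → ℂ, ContinuousOn γ (Ioc 0 1) → Tendsto γ (𝓝[>] 0) (𝓝 c) →
          ((∀ t ∈ Ioc (0 : ℝ) 1, γ t ≠ c ∧ ∀ r > (1 : ℝ), γ t ≠ ψ (r * exp (θ * I))) ∨
            ∀ t ∈ Ioc (0 : ℝ) 1, γ t ∉ multibrotSet d) →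
          (∃ φ : ℝ → ℝ, ContinuousOn φ (Ioc 0 1) ∧ ∀ t ∈ Ioc (0 : ℝ) 1,
              γ t - c = ‖γ t - c‖ * exp (φ t * I)) ∧
            ∀ φ : ℝ → ℝ, ContinuousOn φ (Ioc 0 1) → (∀ t ∈ Ioc (0 : ℝ) 1,
              γ t - c = ‖γ t - c‖ * exp (φ t * I)) →
              (∀ C : ℝ, ∃ᶠ t : ℝ in 𝓝[>] 0, C < φ t) ∧
              (∀ C : ℝ, ∃ᶠ t : ℝ in 𝓝[>] 0, φ t < C)) ∧
        ((∃ φ : ℝ → ℝ, ContinuousOn φ (Ioi 1) ∧ ∀ r > (1 : ℝ),
            deriv ψ (r * exp (θ * I)) = ‖deriv ψ (r * exp (θ * I))‖ * exp (φ r * I)) ∧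
          ∀ φ : ℝ → ℝ, ContinuousOn φ (Ioi 1) → (∀ r > (1 : ℝ),
            deriv ψ (r * exp (θ * I)) = ‖deriv ψ (r * exp (θ * I))‖ * exp (φ r * I)) →
            (∀ C : ℝ, ∃ᶠ r : ℝ in 𝓝[>] 1, C < φ r) ∧ (∀ C : ℝ, ∃ᶠ r : ℝ in 𝓝[>] 1, φ r < C)) ∧
        (∀ C : ℝ, ∃ᶠ r : ℝ in 𝓝[>] 1, C < ‖deriv ψ (r * exp (θ * I))‖) ∧
        ∀ ε > (0 : ℝ), ∃ᶠ r : ℝ in 𝓝[>] 1, ‖deriv ψ (r * exp (θ * I))‖ < ε := by
  obtain ⟨Z, hZ1, hZ2, h3⟩ := main_all hd hψ
  refine ⟨Z, hZ1, hZ2, ?_⟩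
  filter_upwards [h3, main8 hd hψ] with θ h3 h7
  obtain ⟨c, hcZ, hc, -, -, h4, h2⟩ := h3
  obtain ⟨c7, hc7, h7⟩ := h7
  have e7 : c7 = c := tendsto_nhds_unique hc7 hc
  subst e7
  exact ⟨c7, hcZ, hc, h7, h4, h2⟩

end Pool.Agent.TH425.AD
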