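import Mathlib
import Pool.Agent.TH425.AD.D17

set_option autoImplicit false

open Complex Topology Filter Metric MeasureTheory Set N62a1eb23

namespace Pool.Agent.TH425.AD

open Pool.Agent.H713R2 Pool.Agent.H712R2 Pool.Agent.Helper202.Univ Pool.Agent.H713R2.AR
open Pool.Agent.TH425.BF (IsBl CK WO bloch_fatou Dat mf sg Jn pt dp)

theorem int_eq_of_close {a b : ℝ} {n m : ℤ} (ha : a = n * (2 * Real.pi))
    (hb : b = m * (2 * Real.pi)) (h : |a - b| < 2 * Real.pi) : a = b := by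
  have hpi := Real.pi_pos
  have h1 : a - b = ((n - m : ℤ) : ℝ) * (2 * Real.pi) := by rw [ha, hb]; push_cast; ring
  rw [h1, abs_mul, abs_of_pos (by positivity : 0 < 2 * Real.pi)] at h
  have h2 : |((n - m : ℤ) : ℝ)| < 1 := by
    by_contra hcon
    push Not at hcon
    nlinarith
  have h3 : |n - m| < 1 := by
    rw [← Int.cast_abs] at h2
    exact_mod_cast h2
  have h4 : n - m = 0 := Int.abs_lt_one_iff.mp h3
  have h5 : n = m := by omega
  rw [ha, hb, h5]

theorem im_eq_int {a b : ℂ} (h : exp a = exp b) : ∃ n : ℤ, a.im - b.im = n * (2 * Real.pi) := by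
  obtain ⟨n, hn⟩ := Complex.exp_eq_exp_iff_exists_int.mp h
  refine ⟨n, ?_⟩
  have := congrArg Complex.im hn
  rw [add_im] at this
  have h2 : ((n : ℂ) * (2 * Real.pi * I)).im = n * (2 * Real.pi) := by simp
  rw [h2] at this
  linarith

theorem log_osc {α : ℝ → ℂ} {x y : ℂ} {δ v1 v2 : ℝ} {a b : ℝ → ℂ} (ha : Continuous a)
    (hb : Continuous b) (hae : ∀ v, exp (a v) = α v - x) (hbe : ∀ v, exp (b v) = α v - y)
    (hδ : ∀ v ∈ uIcc v1 v2, δ ≤ ‖α v - x‖) (hxy : ‖y - x‖ < δ) :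
    |((b v2).im - (b v1).im) - ((a v2).im - (a v1).im)| < Real.pi := by
  have h1 := re_pos_osc (S := uIcc v1 v2) isPreconnected_uIcc (h := fun v => b v - a v)
    (hb.sub ha).continuousOn (by
      intro v hv
      rw [Complex.exp_sub, hae, hbe]
      apply re_pos_of_close
      have h2 : α v - y - (α v - x) = -(y - x) := by ring
      rw [h2, norm_neg]
      exact hxy.trans_le (hδ v hv)) (right_mem_uIcc (a := v1) (b := v2)) left_mem_uIcc
  simp only [sub_im] at h1
  have h3 : ((b v2).im - (b v1).im) - ((a v2).im - (a v1).im) =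
      (b v2).im - (a v2).im - ((b v1).im - (a v1).im) := by ring
  rw [h3]
  exact h1

theorem dist_pos {α : ℝ → ℂ} (hα : Continuous α) {x : ℂ} (hx : ∀ v, α v ≠ x) (v1 v2 : ℝ) :
    ∃ δ > (0 : ℝ), ∀ v ∈ uIcc v1 v2, δ ≤ ‖α v - x‖ := by
  obtain ⟨v, hv, hmin⟩ := (isCompact_uIcc (a := v1) (b := v2)).exists_isMinOn nonempty_uIcc
    (f := fun v => ‖α v - x‖) (hα.sub continuous_const).norm.continuousOn
  exact ⟨‖α v - x‖, norm_pos_iff.mpr (sub_ne_zero.mpr (hx v)), fun w hw => hmin hw⟩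

/-- The winding number of a loop made of two arcs is constant on connected sets which the arcs do
not meet. -/
theorem loop_index {α σ : ℝ → ℂ} (hα : Continuous α) (hσ : Continuous σ) {v1 v2 u1 u2 : ℝ}
    (h1 : α v1 = σ u1) (h2 : α v2 = σ u2) {K : Set ℂ} (hK : IsPreconnected K)
    (hαK : ∀ v, α v ∉ K) (hσK : ∀ u, σ u ∉ K) {z w : ℂ} (hz : z ∈ K) (hw : w ∈ K)
    {f g f' g' : ℝ → ℂ} (hf : Continuous f) (hg : Continuous g) (hf' : Continuous f')
    (hg' : Continuous g') (hfe : ∀ v, exp (f v) = α v - z) (hge : ∀ u, exp (g u) = σ u - z)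
    (hfe' : ∀ v, exp (f' v) = α v - w) (hge' : ∀ u, exp (g' u) = σ u - w) :
    ((f v2).im - (f v1).im) - ((g u2).im - (g u1).im) =
      ((f' v2).im - (f' v1).im) - ((g' u2).im - (g' u1).im) := by
  have hex : ∀ (τ : ℝ → ℂ), Continuous τ → (∀ v, τ v ∉ K) → ∀ x : K,
      ∃ a : ℝ → ℂ, Continuous a ∧ ∀ v, exp (a v) = τ v - x := by
    intro τ hτ hτK x
    obtain ⟨a, hac, hae⟩ := exists_plane_log (G := fun q : ℝ × ℝ => τ q.1 - x)
      ((hτ.comp continuous_fst).sub continuous_const) (fun q h => hτK q.1 (by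
        rw [sub_eq_zero.mp h]; exact x.2))
    exact ⟨fun v => a (v, 0), hac.comp (by fun_prop : Continuous fun v : ℝ => (v, (0 : ℝ))),
      fun v => hae (v, 0)⟩
  choose A hAc hAe using hex α hα hαK
  choose S hSc hSe using hex σ hσ hσK
  set N : K → ℝ := fun x => ((A x v2).im - (A x v1).im) - ((S x u2).im - (S x u1).im) with hN
  have hint : ∀ x, ∃ n : ℤ, N x = n * (2 * Real.pi) := by
    intro x
    obtain ⟨n, hn⟩ := im_eq_int (a := A x v2) (b := S x u2) (by rw [hAe, hSe, h2])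
    obtain ⟨m, hm⟩ := im_eq_int (a := A x v1) (b := S x u1) (by rw [hAe, hSe, h1])
    refine ⟨n - m, ?_⟩
    push_cast
    rw [hN]
    linarith
  have hloc : IsLocallyConstant N := by
    rw [IsLocallyConstant.iff_eventually_eq]
    intro x
    obtain ⟨δ1, hδ1, hd1⟩ := dist_pos hα (x := x) (fun v h => hαK v (h ▸ x.2)) v1 v2
    obtain ⟨δ2, hδ2, hd2⟩ := dist_pos hσ (x := x) (fun v h => hσK v (h ▸ x.2)) u1 u2
    have hnear : ∀ᶠ y : K in 𝓝 x, ‖(y : ℂ) - x‖ < min δ1 δ2 := by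
      have h3 : Tendsto (fun y : K => ‖(y : ℂ) - x‖) (𝓝 x) (𝓝 0) := by
        have h4 : Continuous fun y : K => ‖(y : ℂ) - x‖ := by fun_prop
        have h5 := h4.tendsto x
        rwa [sub_self, norm_zero] at h5
      exact h3.eventually (gt_mem_nhds (lt_min hδ1 hδ2))
    filter_upwards [hnear] with y hy
    obtain ⟨n, hn⟩ := hint y
    obtain ⟨m, hm⟩ := hint x
    refine int_eq_of_close hn hm ?_
    have e1 := log_osc (hAc x) (hAc y) (hAe x) (hAe y) hd1 (hy.trans_le (min_le_left _ _))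
    have e2 := log_osc (hSc x) (hSc y) (hSe x) (hSe y) hd2 (hy.trans_le (min_le_right _ _))
    rw [hN]
    rw [abs_lt] at e1 e2 ⊢
    constructor <;> linarith [e1.1, e1.2, e2.1, e2.2]
  have : PreconnectedSpace K := isPreconnected_iff_preconnectedSpace.mp hK
  have hconst := hloc.apply_eq_of_preconnectedSpace ⟨z, hz⟩ ⟨w, hw⟩
  have hU : IsPreconnected (univ : Set ℝ) := isPreconnected_univ
  have r1 := im_sub_const hU hf.continuousOn (hAc ⟨z, hz⟩).continuousOn (by
    intro v _; rw [hfe, hAe]) (mem_univ v2) (mem_univ v1)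
  have r2 := im_sub_const hU hg.continuousOn (hSc ⟨z, hz⟩).continuousOn (by
    intro v _; rw [hge, hSe]) (mem_univ u2) (mem_univ u1)
  have r3 := im_sub_const hU hf'.continuousOn (hAc ⟨w, hw⟩).continuousOn (by
    intro v _; rw [hfe', hAe]) (mem_univ v2) (mem_univ v1)
  have r4 := im_sub_const hU hg'.continuousOn (hSc ⟨w, hw⟩).continuousOn (by
    intro v _; rw [hge', hSe]) (mem_univ u2) (mem_univ u1)
  rw [hN] at hconst
  beta_reduce at hconst
  rw [r1, r2, r3, r4]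
  exact hconst

/-- The difference of the arguments at common points of two curves ending at `c` is bounded near `c`,
if the curves do not meet some nondegenerate connected set which contains `c`. -/
theorem bounded_shift2 {α σ : ℝ → ℂ} (hα : Continuous α) (hσ : Continuous σ) {K : Set ℂ}
    (hK : IsPreconnected K) (hαK : ∀ v, α v ∉ K) (hσK : ∀ u, σ u ∉ K) {c w : ℂ} (hc : c ∈ K)
    (hw : w ∈ K) (hwc : w ≠ c) (hαt : Tendsto α atBot (𝓝 c)) (hσt : Tendsto σ atBot (𝓝 c))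
    {f g : ℝ → ℂ} (hf : Continuous f) (hg : Continuous g) (hfe : ∀ v, exp (f v) = α v - c)
    (hge : ∀ u, exp (g u) = σ u - c) :
    ∃ V U K0 : ℝ, ∀ v ≤ V, ∀ u ≤ U, ∀ k : ℤ, f v = g u + k * (2 * Real.pi * I) →
      |(k : ℝ)| < K0 := by
  have hpi := Real.pi_pos
  have hcw : 0 < ‖c - w‖ := norm_pos_iff.mpr (sub_ne_zero.mpr hwc.symm)
  have hev : ∀ τ : ℝ → ℂ, Tendsto τ atBot (𝓝 c) → ∃ V : ℝ, ∀ v ≤ V, ‖τ v - c‖ < ‖c - w‖ := by
    intro τ hτ
    have h1 := (hτ.sub_const c).norm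
    rw [sub_self, norm_zero] at h1
    exact eventually_atBot.mp (h1.eventually (gt_mem_nhds hcw))
  obtain ⟨V, hV⟩ := hev α hαt
  obtain ⟨U, hU⟩ := hev σ hσt
  have hex : ∀ (τ : ℝ → ℂ), Continuous τ → (∀ v, τ v ∉ K) →
      ∃ a : ℝ → ℂ, Continuous a ∧ ∀ v, exp (a v) = τ v - w := by
    intro τ hτ hτK
    obtain ⟨a, hac, hae⟩ := exists_plane_log (G := fun q : ℝ × ℝ => τ q.1 - w)
      ((hτ.comp continuous_fst).sub continuous_const) (fun q h => hτK q.1 (by
        rw [sub_eq_zero.mp h]; exact hw))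
    exact ⟨fun v => a (v, 0), hac.comp (by fun_prop : Continuous fun v : ℝ => (v, (0 : ℝ))),
      fun v => hae (v, 0)⟩
  obtain ⟨f', hf'c, hf'e⟩ := hex α hα hαK
  obtain ⟨g', hg'c, hg'e⟩ := hex σ hσ hσK
  have hosc : ∀ (τ h : ℝ → ℂ) (W : ℝ), Continuous h → (∀ v, exp (h v) = τ v - w) →
      (∀ v ≤ W, ‖τ v - c‖ < ‖c - w‖) → ∀ v ≤ W, ∀ v' ≤ W, |(h v).im - (h v').im| < Real.pi := by
    intro τ h W hh hhe hW v hv v' hv'
    refine osc_of_near (S := Iic W) isPreconnected_Iic (a := h) (b := c - w) hh.continuousOn (by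
      intro x hx
      rw [hhe]
      have : τ x - w - (c - w) = τ x - c := by ring
      rw [this]
      exact hW x hx) (mem_Iic.mpr hv) (mem_Iic.mpr hv')
  by_cases hcoin : ∃ v0 ≤ V, ∃ u0 ≤ U, ∃ k0 : ℤ, f v0 = g u0 + k0 * (2 * Real.pi * I)
  · obtain ⟨v0, hv0, u0, hu0, k0, hk0⟩ := hcoin
    refine ⟨V, U, |(k0 : ℝ)| + 2, fun v hv u hu k hk => ?_⟩
    have hval : ∀ (v u : ℝ) (k : ℤ), f v = g u + k * (2 * Real.pi * I) → α v = σ u := by
      intro v u k hk
      have h1 : exp (f v) = exp (g u) := by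
        rw [hk, exp_add, Complex.exp_int_mul_two_pi_mul_I, mul_one]
      rw [hfe, hge] at h1
      exact sub_left_injective h1
    have h1 := loop_index hα hσ (hval v0 u0 k0 hk0) (hval v u k hk) hK hαK hσK hc hw hf hg hf'c
      hg'c hfe hge hf'e hg'e
    have hkim : ∀ n : ℤ, ((n : ℂ) * (2 * Real.pi * I)).im = n * (2 * Real.pi) := by
      intro n; simp
    have e1 := congrArg Complex.im hk
    have e0 := congrArg Complex.im hk0
    rw [add_im, hkim] at e1 e0
    have o1 := hosc α f' V hf'c hf'e hV v hv v0 hv0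
    have o2 := hosc σ g' U hg'c hg'e hU u hu u0 hu0
    have h2 : ((k : ℝ) - k0) * (2 * Real.pi) =
        ((f' v).im - (f' v0).im) - ((g' u).im - (g' u0).im) := by
      rw [← h1]; linarith
    have h3 : |((k : ℝ) - k0) * (2 * Real.pi)| < 2 * Real.pi := by
      rw [h2]
      rw [abs_lt] at o1 o2 ⊢
      constructor <;> linarith [o1.1, o1.2, o2.1, o2.2]
    rw [abs_mul, abs_of_pos (by positivity : 0 < 2 * Real.pi)] at h3
    have h4 : |(k : ℝ) - k0| < 1 := by
      by_contra hcon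
      push Not at hcon
      nlinarith
    have h5 : |(k : ℝ)| ≤ |(k : ℝ) - k0| + |(k0 : ℝ)| := by
      have := abs_add_le ((k : ℝ) - k0) k0
      rwa [sub_add_cancel] at this
    linarith
  · refine ⟨V, U, 0, fun v hv u hu k hk => ?_⟩
    exact absurd ⟨v, hv, u, hu, k, hk⟩ hcoin

end Pool.Agent.TH425.AD
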