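import Mathlib
import Pool.Agent.TH425.AD.D18

set_option autoImplicit false

open Complex Topology Filter Metric MeasureTheory Set N62a1eb23

namespace Pool.Agent.TH425.AD

open Pool.Agent.H713R2 Pool.Agent.H712R2 Pool.Agent.Helper202.Univ Pool.Agent.H713R2.AR
open Pool.Agent.TH425.BF (IsBl CK WO bloch_fatou Dat mf sg Jn pt dp)

/-- Let `α` be a curve which ends at `c` and winds without bound in both directions. Every path which
ends at `c`, and which does not meet `α` or does not meet some nondegenerate connected set that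
contains `c` and is disjoint from `α`, winds without bound in both directions. -/
theorem path_twist3 {α : ℝ → ℂ} {c : ℂ} (hα : Continuous α) (hg : Tendsto α atBot (𝓝 c))
    {f : ℝ → ℂ} (hf : Continuous f) (hfe : ∀ v, exp (f v) = α v - c)
    (hup : ∀ C : ℝ, ∃ᶠ v : ℝ in atBot, C < (f v).im)
    (hlo : ∀ C : ℝ, ∃ᶠ v : ℝ in atBot, (f v).im < C)
    {γ : ℝ → ℂ} (hγ : ContinuousOn γ (Ioc 0 1)) (hγt : Tendsto γ (𝓝[>] 0) (𝓝 c))
    (hγc : ∀ t ∈ Ioc (0 : ℝ) 1, γ t ≠ c)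
    (hγr : (∀ t ∈ Ioc (0 : ℝ) 1, ∀ v : ℝ, γ t ≠ α v) ∨
      ∃ K : Set ℂ, IsPreconnected K ∧ c ∈ K ∧ (∃ w ∈ K, w ≠ c) ∧ (∀ v, α v ∉ K) ∧
        ∀ t ∈ Ioc (0 : ℝ) 1, γ t ∉ K) :
    (∃ φ : ℝ → ℝ, ContinuousOn φ (Ioc 0 1) ∧ ∀ t ∈ Ioc (0 : ℝ) 1,
        γ t - c = ‖γ t - c‖ * exp (φ t * I)) ∧
      ∀ φ : ℝ → ℝ, ContinuousOn φ (Ioc 0 1) → (∀ t ∈ Ioc (0 : ℝ) 1,
        γ t - c = ‖γ t - c‖ * exp (φ t * I)) →
        (∀ C : ℝ, ∃ᶠ t : ℝ in 𝓝[>] 0, C < φ t) ∧ (∀ C : ℝ, ∃ᶠ t : ℝ in 𝓝[>] 0, φ t < C) := by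
  have hcγ : Continuous fun u : ℝ => γ (Real.exp (min u 0)) - c :=
    (hγ.comp_continuous clamp_cont clamp_mem).sub continuous_const
  have hne0 : ∀ u : ℝ, γ (Real.exp (min u 0)) - c ≠ 0 := fun u =>
    sub_ne_zero.mpr (hγc _ (clamp_mem u))
  have hlogt : ∀ t ∈ Ioc (0 : ℝ) 1, Real.exp (min (Real.log t) 0) = t := by
    intro t ht
    rw [min_eq_left (Real.log_nonpos ht.1.le ht.2), Real.exp_log ht.1]
  constructor
  · obtain ⟨lam, hlc, hle⟩ := exists_plane_log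
      (G := fun q : ℝ × ℝ => γ (Real.exp (min q.1 0)) - c) (hcγ.comp continuous_fst)
      (fun q => hne0 q.1)
    refine ⟨fun t => (lam (Real.log t, 0)).im, ?_, fun t ht => ?_⟩
    · intro t ht
      have h1 : ContinuousAt (fun t : ℝ => (Real.log t, (0 : ℝ))) t :=
        (Real.continuousAt_log ht.1.ne').prodMk continuousAt_const
      have h2 : ContinuousAt (fun t : ℝ => (lam (Real.log t, 0)).im) t :=
        (Complex.continuous_im.comp hlc).continuousAt.comp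
          (f := fun t : ℝ => (Real.log t, (0 : ℝ))) h1
      exact h2.continuousWithinAt
    · have h1 := hle (Real.log t, 0)
      simp only at h1
      rw [hlogt t ht] at h1
      rw [← h1]
      exact polar_exp _
  · intro φ hφ hφe
    set g : ℝ → ℂ := fun u => (Real.log ‖γ (Real.exp (min u 0)) - c‖ : ℝ) +
      (φ (Real.exp (min u 0)) : ℝ) * I with hgD
    have hgc : Continuous g := by
      apply Continuous.add
      · exact Complex.continuous_ofReal.comp (hcγ.norm.log fun u => (norm_pos_iff.mpr (hne0 u)).ne')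
      · exact (Complex.continuous_ofReal.comp (hφ.comp_continuous clamp_cont clamp_mem)).mul
          continuous_const
    have hge : ∀ u, exp (g u) = γ (Real.exp (min u 0)) - c := by
      intro u
      rw [hgD]
      simp only
      rw [exp_add, ← ofReal_exp, Real.exp_log (norm_pos_iff.mpr (hne0 u))]
      exact (hφe _ (clamp_mem u)).symm
    obtain ⟨V, U, K, hK⟩ : ∃ V U K : ℝ, ∀ v ≤ V, ∀ u ≤ U, ∀ k : ℤ,
        f v = g u + k * (2 * Real.pi * I) → |(k : ℝ)| < K := by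
      rcases hγr with hγr | hγr
      · refine ⟨0, 0, 0, fun v _ u _ k hk => ?_⟩
        exfalso
        have h : exp (f v) = exp (g u) := by
          rw [hk, exp_add, Complex.exp_int_mul_two_pi_mul_I, mul_one]
        rw [hfe, hge] at h
        exact hγr _ (clamp_mem u) v (sub_left_injective h).symm
      · obtain ⟨K, hK, hcK, ⟨w, hwK, hwc⟩, hαK, hγK⟩ := hγr
        exact bounded_shift2 hα (hγ.comp_continuous clamp_cont clamp_mem) hK hαK
          (fun u => hγK _ (clamp_mem u)) hcK hwK hwc hg (hγt.comp clamp_tendsto) hf hgc hfe hge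
    have hfb : Tendsto (fun v => (f v).re) atBot atBot := by
      have h1 : Tendsto (fun v => ‖exp (f v)‖) atBot (𝓝[>] 0) := by
        rw [tendsto_nhdsWithin_iff]
        refine ⟨?_, Eventually.of_forall fun v => norm_pos_iff.mpr (exp_ne_zero _)⟩
        have h2 := (hg.sub_const c).norm
        rw [sub_self, norm_zero] at h2
        refine h2.congr fun v => ?_
        rw [hfe]
      refine (Real.tendsto_log_nhdsGT_zero.comp h1).congr fun v => ?_
      simp only [Function.comp]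
      rw [Complex.norm_exp, Real.log_exp]
    have hgb : Tendsto (fun u => (g u).re) atBot atBot := by
      have h1 : Tendsto (fun u : ℝ => ‖γ (Real.exp (min u 0)) - c‖) atBot (𝓝[>] 0) := by
        rw [tendsto_nhdsWithin_iff]
        refine ⟨?_, Eventually.of_forall fun v => norm_pos_iff.mpr (hne0 v)⟩
        have h2 := ((hγt.comp clamp_tendsto).sub_const c).norm
        rw [sub_self, norm_zero] at h2
        exact h2
      refine (Real.tendsto_log_nhdsGT_zero.comp h1).congr fun v => ?_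
      simp [hgD]
    have him : ∀ u, (g u).im = φ (Real.exp (min u 0)) := by
      intro u
      simp [hgD]
    constructor
    · intro C
      have h1 := no_cross2 hf hgc (V := V) (U := U) (K0 := K) (by
        intro v hv u hu k hk h
        have := hK v hv u hu k h
        have h2 := le_abs_self (k : ℝ)
        linarith) hfb hgb hup C
      simp only [him] at h1
      exact clamp_tendsto.frequently (p := fun t => C < φ t) h1
    · intro C
      have h1 := no_cross2' hf hgc (V := V) (U := U) (K0 := K) (by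
        intro v hv u hu k hk h
        have := hK v hv u hu k h
        have h2 := neg_abs_le (k : ℝ)
        linarith) hfb hgb hlo C
      simp only [him] at h1
      exact clamp_tendsto.frequently (p := fun t => φ t < C) h1

/-- Almost every parameter ray lands at a point around which every path that ends there, and that
does not meet the ray or does not meet some nondegenerate connected subset of the set which contains
the landing point, winds without bound in both directions. -/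
theorem main9 {d : ℕ} (hd : 2 ≤ d) {ψ : ℂ → ℂ} (hψ : IsExteriorMap (multibrotSet d) ψ) :
    ∀ᵐ θ : ℝ, ∃ c ∈ multibrotSet d,
      Tendsto (fun r : ℝ => ψ (r * exp (θ * I))) (𝓝[>] 1) (𝓝 c) ∧
      ∀ γ : ℝ → ℂ, ContinuousOn γ (Ioc 0 1) → Tendsto γ (𝓝[>] 0) (𝓝 c) →
        (∀ t ∈ Ioc (0 : ℝ) 1, γ t ≠ c) →
        ((∀ t ∈ Ioc (0 : ℝ) 1, ∀ r > (1 : ℝ), γ t ≠ ψ (r * exp (θ * I))) ∨
          ∃ K : Set ℂ, K ⊆ multibrotSet d ∧ IsPreconnected K ∧ c ∈ K ∧ K ≠ {c} ∧
            ∀ t ∈ Ioc (0 : ℝ) 1, γ t ∉ K) →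
        (∃ φ : ℝ → ℝ, ContinuousOn φ (Ioc 0 1) ∧ ∀ t ∈ Ioc (0 : ℝ) 1,
            γ t - c = ‖γ t - c‖ * exp (φ t * I)) ∧
          ∀ φ : ℝ → ℝ, ContinuousOn φ (Ioc 0 1) → (∀ t ∈ Ioc (0 : ℝ) 1,
            γ t - c = ‖γ t - c‖ * exp (φ t * I)) →
            (∀ C : ℝ, ∃ᶠ t : ℝ in 𝓝[>] 0, C < φ t) ∧
            (∀ C : ℝ, ∃ᶠ t : ℝ in 𝓝[>] 0, φ t < C) := by
  obtain ⟨β, hβ⟩ := exists_beta hd
  filter_upwards [twist_gg hd hβ] with θ hθ
  obtain ⟨hl, hθ⟩ := hθ
  have hψg : ∀ r : ℝ, 1 < r → ψ (r * exp (θ * I)) = gg β (θ * I + (Real.log r : ℝ)) := by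
    intro r hr1
    have hr0 : 0 < r := by linarith
    have h2 : exp (θ * I + (Real.log r : ℝ)) = r * exp (θ * I) := by
      rw [exp_add, ← ofReal_exp, Real.exp_log hr0, mul_comm]
    have h3 : 1 < ‖(r : ℂ) * exp (θ * I)‖ := by
      rw [norm_mul, norm_exp_ofReal_mul_I, mul_one, norm_real, Real.norm_eq_abs, abs_of_pos hr0]
      exact hr1
    rw [exteriorMap_unique hβ hψ h3]
    unfold gg
    rw [h2, exp_neg, h2]
  have hlog : Tendsto (fun r : ℝ => Real.log r) (𝓝[>] 1) (𝓝[>] 0) := by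
    rw [tendsto_nhdsWithin_iff]
    constructor
    · have := (Real.continuousAt_log (one_ne_zero)).tendsto.mono_left
        (nhdsWithin_le_nhds : 𝓝[>] (1 : ℝ) ≤ 𝓝 1)
      rwa [Real.log_one] at this
    · filter_upwards [self_mem_nhdsWithin] with x hx
      exact Real.log_pos hx
  have hct2 : Tendsto (fun r : ℝ => ψ (r * exp (θ * I))) (𝓝[>] 1) (𝓝 (cc β θ)) := by
    refine (hl.comp hlog).congr' ?_
    filter_upwards [self_mem_nhdsWithin] with r hr
    rw [hψg r hr]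
    rfl
  have hcM : cc β θ ∈ multibrotSet d := cc_mem hd hβ hl
  refine ⟨cc β θ, hcM, hct2, fun γ hγ hγt hγc hγn => ?_⟩
  obtain ⟨f, hf, hfe⟩ := exists_plane_log (GG_cont hβ hl) (GG_ne hd hβ hl)
  obtain ⟨hup, hlo⟩ := hθ f hf hfe
  have hg : Tendsto (fun v : ℝ => gg β (pt (Real.exp v) θ)) atBot (𝓝 (cc β θ)) := by
    have h1 : Tendsto (fun v : ℝ => Real.exp v) atBot (𝓝[>] 0) := by
      rw [tendsto_nhdsWithin_iff]
      exact ⟨Real.tendsto_exp_atBot, Eventually.of_forall fun v => Real.exp_pos v⟩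
    refine (hl.comp h1).congr fun v => ?_
    simp only [Function.comp]
    rw [BF.pt_eq]
  have hG : ∀ v : ℝ, exp (f (v, 0)) = gg β (pt (Real.exp v) θ) - cc β θ := by
    intro v
    rw [hfe]
    unfold GG
    simp only [min_eq_left (zero_le_one' ℝ), mul_zero]
    rw [gb_pos (Real.exp_pos v), gb_nonpos le_rfl]
  have hfc : Continuous fun v : ℝ => f (v, 0) :=
    hf.comp (by fun_prop : Continuous fun v : ℝ => (v, (0 : ℝ)))
  have hαc : Continuous fun v : ℝ => gg β (pt (Real.exp v) θ) := by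
    have h1 : (fun v : ℝ => gg β (pt (Real.exp v) θ)) = fun v => exp (f (v, 0)) + cc β θ := by
      funext v
      rw [hG]; ring
    rw [h1]
    exact (Complex.continuous_exp.comp hfc).add continuous_const
  have hαM : ∀ v : ℝ, gg β (pt (Real.exp v) θ) ∉ multibrotSet d := fun v =>
    gg_notMem hβ (s := pt (Real.exp v) θ) (by rw [BF.pt_re]; exact Real.exp_pos v)
  refine path_twist3 (α := fun v : ℝ => gg β (pt (Real.exp v) θ)) hαc hg
    (f := fun v => f (v, 0)) hfc hG hup hlo hγ hγt hγc ?_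
  rcases hγn with hγn | ⟨K, hKM, hK, hcK, hKc, hγK⟩
  · left
    intro t ht v h
    have h1 := hψg (Real.exp (Real.exp v)) (Real.one_lt_exp_iff.mpr (Real.exp_pos v))
    rw [Real.log_exp, ← BF.pt_eq] at h1
    exact hγn t ht _ (Real.one_lt_exp_iff.mpr (Real.exp_pos v)) (h.trans h1.symm)
  · right
    refine ⟨K, hK, hcK, ?_, fun v h => hαM v (hKM h), hγK⟩
    by_contra hcon
    push Not at hcon
    apply hKc
    ext x
    rw [mem_singleton_iff]
    exact ⟨fun hx => hcon x hx, fun hx => hx ▸ hcK⟩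

/-- All statements together. -/
theorem main_all5 {d : ℕ} (hd : 2 ≤ d) {ψ : ℂ → ℂ} (hψ : IsExteriorMap (multibrotSet d) ψ) :
    ∃ Z : Set ℂ, Z ⊆ frontier (multibrotSet d) ∧ μH[1] Z = 0 ∧
      ∀ᵐ θ : ℝ, ∃ c ∈ Z,
        Tendsto (fun r : ℝ => ψ (r * exp (θ * I))) (𝓝[>] 1) (𝓝 c) ∧
        (∀ p : ℂ, p ≠ c → connectedComponentIn (multibrotSet d \ openSegment ℝ c p) c = {c}) ∧
        (∀ γ : ℝ → ℂ, ContinuousOn γ (Ioc 0 1) → Tendsto γ (𝓝[>] 0) (𝓝 c) →
          (∀ t ∈ Ioc (0 : ℝ) 1, γ t ≠ c) →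
          ((∀ t ∈ Ioc (0 : ℝ) 1, γ t ∉ multibrotSet d) ∨
            (∀ t ∈ Ioc (0 : ℝ) 1, ∀ r > (1 : ℝ), γ t ≠ ψ (r * exp (θ * I))) ∨
            ∃ K : Set ℂ, K ⊆ multibrotSet d ∧ IsPreconnected K ∧ c ∈ K ∧ K ≠ {c} ∧
              ∀ t ∈ Ioc (0 : ℝ) 1, γ t ∉ K) →
          (∃ φ : ℝ → ℝ, ContinuousOn φ (Ioc 0 1) ∧ ∀ t ∈ Ioc (0 : ℝ) 1,
              γ t - c = ‖γ t - c‖ * exp (φ t * I)) ∧
            ∀ φ : ℝ → ℝ, ContinuousOn φ (Ioc 0 1) → (∀ t ∈ Ioc (0 : ℝ) 1,
              γ t - c = ‖γ t - c‖ * exp (φ t * I)) →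
              (∀ C : ℝ, ∃ᶠ t : ℝ in 𝓝[>] 0, C < φ t) ∧
              (∀ C : ℝ, ∃ᶠ t : ℝ in 𝓝[>] 0, φ t < C)) ∧
        ((∃ φ : ℝ → ℝ, ContinuousOn φ (Ioi 1) ∧ ∀ r > (1 : ℝ),
            deriv ψ (r * exp (θ * I)) = ‖deriv ψ (r * exp (θ * I))‖ * exp (φ r * I)) ∧
          ∀ φ : ℝ → ℝ, ContinuousOn φ (Ioi 1) → (∀ r > (1 : ℝ),
            deriv ψ (r * exp (θ * I)) = ‖deriv ψ (r * exp (θ * I))‖ * exp (φ r * I)) →
            (∀ C : ℝ, ∃ᶠ r : ℝ in 𝓝[>] 1, C < φ r) ∧ (∀ C : ℝ, ∃ᶠ r : ℝ in 𝓝[>] 1, φ r < C)) ∧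
        (∀ C : ℝ, ∃ᶠ r : ℝ in 𝓝[>] 1, C < ‖deriv ψ (r * exp (θ * I))‖) ∧
        ∀ ε > (0 : ℝ), ∃ᶠ r : ℝ in 𝓝[>] 1, ‖deriv ψ (r * exp (θ * I))‖ < ε := by
  obtain ⟨Z, hZ1, hZ2, h3⟩ := main_all hd hψ
  refine ⟨Z, hZ1, hZ2, ?_⟩
  filter_upwards [h3, main9 hd hψ, main8 hd hψ] with θ h3 h7 hb
  obtain ⟨c, hcZ, hc, -, -, h4, h2⟩ := h3
  obtain ⟨c8, hc8, hb⟩ := hb
  have e8 : c8 = c := tendsto_nhds_unique hc8 hc
  subst e8
  obtain ⟨c7, hcM, hc7, h7⟩ := h7
  have e7 : c7 = c8 := tendsto_nhds_unique hc7 hc8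
  subst e7
  refine ⟨c7, hcZ, hc, fun p hp => ?_, fun γ hγ hγt hγc hγn => ?_, h4, h2⟩
  swap
  · rcases hγn with h | h | h
    · exact hb γ hγ hγt (Or.inr h)
    · exact h7 γ hγ hγt hγc (Or.inl h)
    · exact h7 γ hγ hγt hγc (Or.inr h)
  have hcS : c7 ∈ multibrotSet d \ openSegment ℝ c7 p :=
    ⟨hcM, fun h => hp (left_mem_openSegment_iff.mp h).symm⟩
  by_contra hcon
  have hpc : p - c7 ≠ 0 := sub_ne_zero.mpr hp
  have hval : ∀ t ∈ Ioc (0 : ℝ) 1, c7 + ((t / 2 : ℝ) : ℂ) * (p - c7) - c7 =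
      ‖c7 + ((t / 2 : ℝ) : ℂ) * (p - c7) - c7‖ * exp (Complex.arg (p - c7) * I) := by
    intro t ht
    rw [add_sub_cancel_left, norm_mul, Complex.norm_real, Real.norm_eq_abs,
      abs_of_pos (by linarith [ht.1] : 0 < t / 2)]
    conv_lhs => rw [← Complex.norm_mul_exp_arg_mul_I (p - c7)]
    push_cast
    ring
  have h8 := h7 (fun t => c7 + ((t / 2 : ℝ) : ℂ) * (p - c7)) (by fun_prop) (by
    have h9 : Continuous fun t : ℝ => c7 + ((t / 2 : ℝ) : ℂ) * (p - c7) := by fun_prop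
    have h10 := (h9.tendsto 0).mono_left (nhdsWithin_le_nhds : 𝓝[>] (0 : ℝ) ≤ 𝓝 0)
    simpa using h10) (by
    intro t ht h
    have h9 : ((t / 2 : ℝ) : ℂ) * (p - c7) = 0 := by linear_combination h
    rcases mul_eq_zero.mp h9 with h10 | h10
    · have : t / 2 = 0 := by exact_mod_cast h10
      linarith [ht.1]
    · exact hpc h10) (Or.inr ⟨connectedComponentIn (multibrotSet d \ openSegment ℝ c7 p) c7,
      (connectedComponentIn_subset _ _).trans sdiff_subset, isPreconnected_connectedComponentIn,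
      mem_connectedComponentIn hcS, hcon, fun t ht h => by
        refine (connectedComponentIn_subset _ _ h).2 ?_
        refine ⟨1 - t / 2, t / 2, by linarith [ht.2], by linarith [ht.1], by ring, ?_⟩
        simp only [real_smul]
        push_cast
        ring⟩)
  obtain ⟨-, h9⟩ := h8
  obtain ⟨h10, -⟩ := h9 (fun _ => Complex.arg (p - c7)) continuousOn_const hval
  obtain ⟨t, ht⟩ := (h10 (Complex.arg (p - c7))).exists
  exact lt_irrefl _ ht

end Pool.Agent.TH425.AD
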